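import Mathlib

/-! Basic facts about the circle `TT = ℝ/ℤ` with its Haar probability measure. -/

set_option autoImplicit false

open MeasureTheory AddCircle

namespace Pool.Agent.H200

/-- the circle -/
abbrev TT := UnitAddCircle

/-- the Haar probability measure on the circle -/
noncomputable abbrev mu : Measure TT := (AddCircle.haarAddCircle : Measure (AddCircle (1 : ℝ)))

/-- the basic character -/
noncomputable def chi (x : TT) : ℂ := fourier 1 x

lemma chi_def (x : TT) : chi x = fourier 1 x := rfl

lemma chi_norm (x : TT) : ‖chi x‖ = 1 := by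
  unfold chi
  exact Circle.norm_coe _

@[fun_prop]
lemma chi_cont : Continuous chi := by
  unfold chi
  exact (fourier 1).continuous

lemma chi_ne (x : TT) : chi x ≠ 0 := by
  intro h
  have := chi_norm x
  rw [h, norm_zero] at this
  exact zero_ne_one this

lemma fourier_eq_zpow (k : ℤ) (x : TT) : (fourier k x : ℂ) = chi x ^ k := by
  unfold chi
  rw [fourier_apply, fourier_apply, one_smul, AddCircle.toCircle_zsmul, Circle.coe_zpow]

lemma chi_add (x y : TT) : chi (x + y) = chi x * chi y := by
  unfold chi
  rw [fourier_apply, fourier_apply, fourier_apply, one_smul, one_smul, one_smul,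
    AddCircle.toCircle_add, Circle.coe_mul]

lemma chi_zero : chi 0 = 1 := by
  unfold chi
  simp

lemma chi_neg (x : TT) : chi (-x) = (chi x)⁻¹ := by
  have h := chi_add x (-x)
  rw [add_neg_cancel, chi_zero] at h
  exact eq_inv_of_mul_eq_one_right h.symm

lemma chi_neg_conj (x : TT) : chi (-x) = (starRingEnd ℂ) (chi x) := by
  rw [chi_neg, Complex.inv_def, Complex.normSq_eq_norm_sq, chi_norm]
  simp

lemma chi_sub (x y : TT) : chi (x - y) = chi x * chi (-y) := by
  rw [sub_eq_add_neg, chi_add]

lemma cint {F : TT → ℝ} (hF : Continuous F) : Integrable F mu :=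
  hF.integrable_of_hasCompactSupport (HasCompactSupport.of_compactSpace F)

lemma cintC {F : TT → ℂ} (hF : Continuous F) : Integrable F mu :=
  hF.integrable_of_hasCompactSupport (HasCompactSupport.of_compactSpace F)

lemma cint2 {F : TT × TT → ℝ} (hF : Continuous F) : Integrable F (mu.prod mu) :=
  hF.integrable_of_hasCompactSupport (HasCompactSupport.of_compactSpace F)

lemma cint2C {F : TT × TT → ℂ} (hF : Continuous F) : Integrable F (mu.prod mu) :=
  hF.integrable_of_hasCompactSupport (HasCompactSupport.of_compactSpace F)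

lemma swap {F : TT → TT → ℝ} (hF : Continuous (fun p : TT × TT => F p.1 p.2)) :
    ∫ x, ∫ y, F x y ∂mu ∂mu = ∫ y, ∫ x, F x y ∂mu ∂mu :=
  integral_integral_swap (cint2 hF)

lemma swapC {F : TT → TT → ℂ} (hF : Continuous (fun p : TT × TT => F p.1 p.2)) :
    ∫ x, ∫ y, F x y ∂mu ∂mu = ∫ y, ∫ x, F x y ∂mu ∂mu :=
  integral_integral_swap (cint2C hF)

/-- continuity of parametric integrals -/
lemma cont_int {E : Type} [NormedAddCommGroup E] [NormedSpace ℝ E] {F : TT → TT → E}
    (hF : Continuous (fun p : TT × TT => F p.1 p.2)) :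
    Continuous (fun x => ∫ y, F x y ∂mu) := by
  have h := continuous_parametric_integral_of_continuous (μ := mu) (f := F)
    (s := Set.univ) (by exact hF) isCompact_univ
  simpa using h

lemma chi_int (k : ℤ) : ∫ x, chi x ^ k ∂mu = if k = 0 then 1 else 0 := by
  have h1 : ∀ x, chi x ^ k = fourier k x := fun x => (fourier_eq_zpow k x).symm
  simp_rw [h1]
  have h := congrFun (fourierCoeff_fourier (T := (1 : ℝ)) k) 0
  unfold fourierCoeff at h
  simp only [neg_zero, fourier_zero, one_smul] at h
  rw [h]
  simp only [Pi.single_apply, eq_comm]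

end Pool.Agent.H200
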