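import Mathlib
import Pool.Agent.H200.Circ
import Pool.Graph.R_seed8.HpBall.Sphere
import Pool.Graph.R_seed8.HpBall.KerInt
import Pool.Graph.R_seed8.HpBall.Geom

/-! Transfer to the sphere of `ℂ¹`, chordal distance and kernel integrals. -/

set_option autoImplicit false

open MeasureTheory AddCircle
open scoped ENNReal NNReal

namespace Pool.Agent.H200

open Pool.Agent.HpBall (E sig rho rot rot_apply sig_ae_norm lintegral_sig_isometry)

lemma chi_coe (t : ℝ) : chi (t : TT) = Complex.exp (2 * Real.pi * t * Complex.I) := by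
  unfold chi
  rw [fourier_coe_apply]
  congr 1
  push_cast
  ring

lemma chi_surj {z : ℂ} (hz : ‖z‖ = 1) : ∃ x : TT, chi x = z := by
  refine ⟨((Complex.arg z / (2 * Real.pi) : ℝ) : TT), ?_⟩
  rw [chi_coe]
  have h : (2 * Real.pi * ((Complex.arg z / (2 * Real.pi) : ℝ) : ℂ) * Complex.I) =
      (Complex.arg z : ℂ) * Complex.I := by
    have : (Real.pi : ℂ) ≠ 0 := by exact_mod_cast Real.pi_ne_zero
    push_cast
    field_simp
  rw [h]
  have := Complex.norm_mul_exp_arg_mul_I z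
  rw [hz] at this
  simpa using this

/-- total mass of the sphere -/
noncomputable def sc1 : ℝ≥0∞ := sig 1 Set.univ

lemma sc1_ne_top : sc1 ≠ ⊤ := measure_ne_top _ _

lemma sc1_pos : 0 < sc1 := Pool.Agent.HpBall.sig_univ_pos

lemma norm_E1 (ξ : E 1) : ‖ξ‖ = ‖ξ 0‖ := by
  rw [EuclideanSpace.norm_eq]
  simp

lemma transfer1 (f : ℂ → ℝ≥0∞) (hf : Measurable f) :
    ∫⁻ ξ : E 1, f (ξ 0) ∂(sig 1) = sc1 * ∫⁻ x, f (chi x) ∂mu := by
  have hev : Measurable (fun ξ : E 1 => ξ 0) := by fun_prop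
  have h1 : ∀ x : TT, ∫⁻ ξ : E 1, f (chi x * ξ 0) ∂(sig 1) = ∫⁻ ξ : E 1, f (ξ 0) ∂(sig 1) := by
    intro x
    obtain ⟨θ, hθ⟩ : ∃ θ : ℝ, chi x = Complex.exp (θ * Complex.I) := by
      refine ⟨Complex.arg (chi x), ?_⟩
      have := Complex.norm_mul_exp_arg_mul_I (chi x)
      rw [chi_norm] at this
      simpa using this.symm
    have := lintegral_sig_isometry (rot 1 θ) (fun ξ => f (ξ 0)) (hf.comp hev)
    rw [← this]
    apply lintegral_congr
    intro ξ
    rw [rot_apply, hθ]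
    rfl
  have h2 : ∫⁻ ξ : E 1, f (ξ 0) ∂(sig 1) =
      ∫⁻ x : TT, ∫⁻ ξ : E 1, f (chi x * ξ 0) ∂(sig 1) ∂mu := by
    simp_rw [h1]
    simp
  rw [h2, lintegral_lintegral_swap]
  · have h3 : ∀ᵐ ξ : E 1 ∂(sig 1), ∫⁻ x : TT, f (chi x * ξ 0) ∂mu = ∫⁻ x, f (chi x) ∂mu := by
      filter_upwards [sig_ae_norm (n := 1) le_rfl] with ξ hξ
      rw [norm_E1] at hξ
      obtain ⟨y, hy⟩ := chi_surj hξ
      rw [← hy]
      simp_rw [← chi_add]
      exact lintegral_add_right_eq_self (μ := mu) (fun x => f (chi x)) y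
    rw [lintegral_congr_ae h3]
    simp [sc1, mul_comm]
  · apply Measurable.aemeasurable
    apply hf.comp
    have : Continuous (fun p : TT × E 1 => chi p.1 * p.2 0) := by
      have h1 : Continuous (fun p : TT × E 1 => p.2 0) := by fun_prop
      exact (chi_cont.comp continuous_fst).mul h1
    exact this.measurable

/-- chordal distance to the origin -/
noncomputable def ds (x : TT) : ℝ := ‖chi x - 1‖

@[fun_prop]
lemma ds_cont : Continuous ds := by unfold ds; fun_prop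

lemma ds_nonneg (x : TT) : 0 ≤ ds x := norm_nonneg _

lemma ds_le (x : TT) : ds x ≤ 2 := by
  unfold ds
  have := norm_sub_le (chi x) 1
  rw [chi_norm, norm_one] at this
  linarith

lemma ds_sub (x y : TT) : ds (x - y) = ‖chi x - chi y‖ := by
  unfold ds
  rw [chi_sub, chi_neg]
  have h : chi x * (chi y)⁻¹ - 1 = (chi x - chi y) * (chi y)⁻¹ := by
    field_simp [chi_ne y]
  rw [h, norm_mul, norm_inv, chi_norm, inv_one, mul_one]

lemma ds_neg (x : TT) : ds (-x) = ds x := by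
  have h := ds_sub 0 x
  rw [zero_sub, chi_zero, norm_sub_rev] at h
  exact h

lemma ds_zero : ds 0 = 0 := by unfold ds; rw [chi_zero]; simp

lemma ds_add (x y : TT) : ds (x + y) ≤ ds x + ds y := by
  have h : ds (x + y) = ‖chi x - chi (-y)‖ := by rw [← ds_sub, sub_neg_eq_add]
  rw [h]
  have h2 : chi x - chi (-y) = (chi x - 1) - (chi (-y) - 1) := by ring
  rw [h2]
  refine (norm_sub_le _ _).trans ?_
  have := ds_neg y
  unfold ds at this ⊢
  linarith

/-- the basic weight -/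
noncomputable def wt (L : ℝ) (x : TT) : ℝ := 1 + L * ds x

@[fun_prop]
lemma wt_cont (L : ℝ) : Continuous (wt L) := by unfold wt; fun_prop

lemma wt_ge {L : ℝ} (hL : 0 ≤ L) (x : TT) : 1 ≤ wt L x := by
  unfold wt
  have := mul_nonneg hL (ds_nonneg x)
  linarith

lemma wt_pos {L : ℝ} (hL : 0 ≤ L) (x : TT) : 0 < wt L x := lt_of_lt_of_le one_pos (wt_ge hL x)

lemma wt_neg (L : ℝ) (x : TT) : wt L (-x) = wt L x := by unfold wt; rw [ds_neg]

lemma wt_add {L : ℝ} (hL : 0 ≤ L) (x y : TT) : wt L (x + y) ≤ wt L x * wt L y := by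
  have h1 := ds_add x y
  have h2 := mul_nonneg hL (ds_nonneg x)
  have h3 := mul_nonneg hL (ds_nonneg y)
  unfold wt
  nlinarith [mul_le_mul_of_nonneg_left h1 hL, mul_nonneg h2 h3]

@[fun_prop]
lemma wt_rpow_cont {L : ℝ} (hL : 0 ≤ L) (s : ℝ) : Continuous (fun x => wt L x ^ s) := by
  apply Continuous.rpow_const (wt_cont L)
  intro x
  exact Or.inl (wt_pos hL x).ne'

/-- kernel integral -/
lemma kint (s : ℝ) (hs : 1 < s) : ∃ C : ℝ, 0 < C ∧ ∀ L : ℝ, 0 < L →
    ∫ x, wt L x ^ (-s) ∂mu ≤ C / L := by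
  obtain ⟨C, hC, h⟩ := Pool.Agent.HpBall.kernel_int 1 le_rfl s (by exact_mod_cast hs)
  have hsc : 0 < sc1.toReal := ENNReal.toReal_pos sc1_pos.ne' sc1_ne_top
  refine ⟨C / sc1.toReal, by positivity, fun L hL => ?_⟩
  set ζ : E 1 := EuclideanSpace.single 0 1 with hζd
  have hζ : ‖ζ‖ = 1 := by simp [hζd]
  have h1 := h ζ hζ L hL
  have h2 : ∀ ξ : E 1, ENNReal.ofReal ((1 + L * rho ξ ζ) ^ (-s)) =
      ENNReal.ofReal ((1 + L * ‖ξ 0 - 1‖) ^ (-s)) := by
    intro ξ
    congr 4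
    unfold rho
    rw [hζd]
    have : (inner ℂ ξ (EuclideanSpace.single (0 : Fin 1) (1:ℂ)) : ℂ) = (starRingEnd ℂ) (ξ 0) := by
      rw [EuclideanSpace.inner_single_right]
      simp
    rw [this, ← Complex.norm_conj, map_sub, Complex.conj_conj, map_one, norm_sub_rev]
  simp_rw [h2] at h1
  rw [transfer1 (fun z => ENNReal.ofReal ((1 + L * ‖z - 1‖) ^ (-s))) (by fun_prop)] at h1
  have hc : Continuous (fun x => wt L x ^ (-s)) := wt_rpow_cont hL.le _
  have h3 : ∫⁻ x, ENNReal.ofReal ((1 + L * ‖chi x - 1‖) ^ (-s)) ∂mu =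
      ENNReal.ofReal (∫ x, wt L x ^ (-s) ∂mu) := by
    rw [ofReal_integral_eq_lintegral_ofReal (cint hc)
      (Filter.Eventually.of_forall fun x => Real.rpow_nonneg (wt_pos hL.le x).le _)]
    rfl
  rw [h3] at h1
  have h4 : sc1 = ENNReal.ofReal sc1.toReal := (ENNReal.ofReal_toReal sc1_ne_top).symm
  rw [h4, ← ENNReal.ofReal_mul hsc.le] at h1
  have h5 := (ENNReal.ofReal_le_ofReal_iff (by positivity)).1 h1
  have h6 : L ^ (-((1:ℕ):ℝ)) = 1 / L := by
    rw [Nat.cast_one, Real.rpow_neg_one, one_div]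
  rw [h6] at h5
  rw [div_div, le_div_iff₀ (by positivity)]
  calc (∫ x, wt L x ^ (-s) ∂mu) * (sc1.toReal * L)
      = (sc1.toReal * ∫ x, wt L x ^ (-s) ∂mu) * L := by ring
    _ ≤ (C * (1 / L)) * L := by gcongr
    _ = C := by field_simp

end Pool.Agent.H200
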