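import Mathlib
import Pool.Agent.H200.Wt
import Pool.Graph.R_seed8.HpBall.Localized

/-! A pointwise Plancherel-Polya inequality for vector valued polynomials. -/

set_option autoImplicit false

open MeasureTheory AddCircle Polynomial
open scoped ENNReal NNReal

namespace Pool.Agent.H200

open Pool.Agent.HpBall (E sig rho)

lemma loc1 (p : ℝ) (hp : 0 < p) (hp2 : p ≤ 2) (K : ℝ) (hK : 0 ≤ K) : ∃ C : ℝ, 0 < C ∧
    ∀ (P : ℂ[X]) (y : TT) (t : ℝ), 0 < t → t ≤ 1 →
      ‖P.eval ((Real.exp (-t) : ℂ) * chi y)‖ ^ p ≤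
        (C / t) * ∫ x, ‖P.eval (chi x)‖ ^ p * (1 + ds (x - y) / t) ^ (-K) ∂mu := by
  obtain ⟨C, hC, h⟩ := Pool.Agent.HpBall.localized 1 le_rfl p hp hp2 K hK 1 one_pos
  have hsc : 0 < sc1.toReal := ENNReal.toReal_pos sc1_pos.ne' sc1_ne_top
  refine ⟨C * sc1.toReal, by positivity, fun P y t ht ht1 => ?_⟩
  set ζ : E 1 := EuclideanSpace.single 0 (chi y) with hζd
  have hζ : ‖ζ‖ = 1 := by simp [hζd, chi_norm]
  have hζ0 : ζ 0 = chi y := by simp [hζd]
  have h1 := h (fun ξ => P.eval (ξ 0)) 2 one_lt_two (by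
    apply Differentiable.differentiableOn
    have h2 : Differentiable ℂ (fun z : ℂ => P.eval z) := P.differentiable
    exact h2.comp (by fun_prop)) ζ hζ t ht ht1
  have h2 : ∀ ξ : E 1, rho ξ ζ = ‖1 - (starRingEnd ℂ) (ξ 0) * chi y‖ := by
    intro ξ
    unfold rho
    rw [hζd, EuclideanSpace.inner_single_right]
    congr 2
    ring
  simp_rw [h2] at h1
  rw [transfer1 (fun z => ENNReal.ofReal (‖P.eval z‖ ^ p *
    (1 + ‖1 - (starRingEnd ℂ) z * chi y‖ / t) ^ (-K))) (by
      have : Continuous (fun z : ℂ => P.eval z) := P.continuous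
      have h3 := this.measurable
      fun_prop)] at h1
  have hds : ∀ x, ‖1 - (starRingEnd ℂ) (chi x) * chi y‖ = ds (x - y) := by
    intro x
    rw [← chi_neg_conj, ← chi_add]
    have : -x + y = -(x - y) := by abel
    rw [this, ← ds_neg]
    unfold ds
    rw [norm_sub_rev]
  simp_rw [hds] at h1
  have hPc : Continuous (fun x : TT => P.eval (chi x)) := P.continuous.comp chi_cont
  have hc : Continuous (fun x => ‖P.eval (chi x)‖ ^ p * (1 + ds (x - y) / t) ^ (-K)) := by
    apply Continuous.mul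
    · exact hPc.norm.rpow_const (fun _ => Or.inr hp.le)
    · apply Continuous.rpow_const (by fun_prop)
      intro x
      left
      have := ds_nonneg (x - y)
      positivity
  have h3 : ∫⁻ x, ENNReal.ofReal (‖P.eval (chi x)‖ ^ p * (1 + ds (x - y) / t) ^ (-K)) ∂mu =
      ENNReal.ofReal (∫ x, ‖P.eval (chi x)‖ ^ p * (1 + ds (x - y) / t) ^ (-K) ∂mu) := by
    rw [ofReal_integral_eq_lintegral_ofReal (cint hc)
      (Filter.Eventually.of_forall fun x => by
        have := ds_nonneg (x - y)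
        positivity)]
  rw [h3] at h1
  have h4 : sc1 = ENNReal.ofReal sc1.toReal := (ENNReal.ofReal_toReal sc1_ne_top).symm
  have h0 : 0 ≤ ∫ x, ‖P.eval (chi x)‖ ^ p * (1 + ds (x - y) / t) ^ (-K) ∂mu := by
    apply integral_nonneg
    intro x
    have := ds_nonneg (x - y)
    positivity
  have h5 : t ^ (-((1:ℕ):ℝ)) = 1 / t := by
    rw [Nat.cast_one, Real.rpow_neg_one, one_div]
  rw [h4, h5, ← ENNReal.ofReal_mul hsc.le, ← ENNReal.ofReal_mul (by positivity)] at h1
  have h6 := (ENNReal.ofReal_le_ofReal_iff (by positivity)).1 h1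
  have h7 : ((Real.exp (-t) : ℂ) • ζ) 0 = (Real.exp (-t) : ℂ) * chi y := by
    rw [PiLp.smul_apply, hζ0, smul_eq_mul]
  simp only [h7] at h6
  calc _ ≤ _ := h6
    _ = _ := by ring

/-- the outer radius -/
lemma loc2 (p : ℝ) (hp : 0 < p) (hp2 : p ≤ 2) (K : ℝ) (hK : 0 ≤ K) : ∃ C : ℝ, 0 < C ∧
    ∀ (P : ℂ[X]) (D : ℕ) (y : TT) (t : ℝ), P.natDegree ≤ D → 0 < t → t ≤ 1 →
      ‖P.eval ((Real.exp t : ℂ) * chi y)‖ ^ p ≤
        Real.exp (p * (t * D)) * (C / t) *
          ∫ x, ‖P.eval (chi x)‖ ^ p * (1 + ds (x - y) / t) ^ (-K) ∂mu := by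
  obtain ⟨C, hC, h⟩ := loc1 p hp hp2 K hK
  refine ⟨C, hC, fun P D y t hD ht ht1 => ?_⟩
  -- the reversed polynomial
  set Q : ℂ[X] := ∑ k ∈ Finset.range (D + 1), Polynomial.monomial (D - k)
    ((starRingEnd ℂ) (P.coeff k)) with hQ
  have hQe : ∀ w : ℂ, Q.eval w = ∑ k ∈ Finset.range (D + 1),
      (starRingEnd ℂ) (P.coeff k) * w ^ (D - k) := by
    intro w
    rw [hQ, Polynomial.eval_finsetSum]
    simp only [Polynomial.eval_monomial]
  have hPe : ∀ w : ℂ, P.eval w = ∑ k ∈ Finset.range (D + 1), P.coeff k * w ^ k := by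
    intro w
    exact Polynomial.eval_eq_sum_range' (Nat.lt_succ_of_le hD) w
  have hrel : ∀ (s : ℝ) (x : TT), ‖P.eval ((Real.exp s : ℂ) * chi x)‖ =
      Real.exp (s * D) * ‖Q.eval ((Real.exp (-s) : ℂ) * chi x)‖ := by
    intro s x
    have h1 : P.eval ((Real.exp s : ℂ) * chi x) =
        (Real.exp (s * D) : ℂ) * chi x ^ D *
          (starRingEnd ℂ) (Q.eval ((Real.exp (-s) : ℂ) * chi x)) := by
      rw [hPe, hQe, map_sum, Finset.mul_sum]
      apply Finset.sum_congr rfl
      intro k hk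
      rw [Finset.mem_range] at hk
      have hkD : k ≤ D := by omega
      rw [map_mul, Complex.conj_conj, map_pow, map_mul, Complex.conj_ofReal, ← chi_neg_conj,
        chi_neg]
      have hx := chi_ne x
      have e1 : chi x ^ D = chi x ^ k * chi x ^ (D - k) := by
        rw [← pow_add]; congr 1; omega
      have e2 : (Real.exp (s * D) : ℂ) * ((Real.exp (-s) : ℂ)) ^ (D - k) =
          ((Real.exp s : ℂ)) ^ k := by
        rw [← Complex.ofReal_pow, ← Complex.ofReal_pow, ← Complex.ofReal_mul]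
        congr 1
        rw [← Real.exp_nat_mul, ← Real.exp_nat_mul, ← Real.exp_add]
        congr 1
        rw [Nat.cast_sub hkD]
        ring
      rw [mul_pow, mul_pow, e1]
      calc _ = P.coeff k * ((Real.exp s : ℂ)) ^ k * chi x ^ k := by ring
        _ = P.coeff k * ((Real.exp (s * D) : ℂ) * ((Real.exp (-s) : ℂ)) ^ (D - k)) *
              chi x ^ k * (chi x ^ (D - k) * ((chi x)⁻¹) ^ (D - k)) := by
            rw [e2, ← mul_pow, mul_inv_cancel₀ hx, one_pow, mul_one]
        _ = _ := by ring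
    rw [h1, norm_mul, norm_mul, RCLike.norm_conj, norm_pow, chi_norm, one_pow, mul_one,
      Complex.norm_real, Real.norm_of_nonneg (Real.exp_pos _).le]
  have h0 : ∀ x : TT, ‖P.eval (chi x)‖ = ‖Q.eval (chi x)‖ := by
    intro x
    have := hrel 0 x
    simpa using this
  have h1 := h Q y t ht ht1
  simp_rw [← h0] at h1
  rw [hrel t y, Real.mul_rpow (Real.exp_pos _).le (norm_nonneg _), ← Real.exp_mul, mul_assoc]
  have e : t * (D * p) = p * (t * D) := by ring
  rw [e, mul_assoc (Real.exp (p * (t * D)))]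
  exact mul_le_mul_of_nonneg_left h1 (Real.exp_pos _).le

lemma wt_tri {L : ℝ} (hL : 0 ≤ L) (x y z : TT) : wt L (x - z) ≤ wt L (x - y) * wt L (y - z) := by
  have h : x - z = (x - y) + (y - z) := by abel
  rw [h]
  exact wt_add hL _ _

lemma wt_rpow_tri {L : ℝ} (hL : 0 ≤ L) {s : ℝ} (hs : 0 ≤ s) (x y z : TT) :
    wt L (x - y) ^ (-s) * wt L (y - z) ^ (-s) ≤ wt L (x - z) ^ (-s) := by
  rw [← Real.mul_rpow (wt_pos hL _).le (wt_pos hL _).le]
  exact Real.rpow_le_rpow_of_nonpos (wt_pos hL _) (wt_tri hL x y z) (by linarith)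

/-- translation invariance of the kernel integral -/
lemma kint_sub {s : ℝ} {C : ℝ} {L : ℝ} (h : ∫ x, wt L x ^ (-s) ∂mu ≤ C / L) (y : TT) :
    ∫ x, wt L (x - y) ^ (-s) ∂mu ≤ C / L := by
  rw [integral_sub_right_eq_self (fun x => wt L x ^ (-s)) y]
  exact h

lemma kint_sub' {s : ℝ} {C : ℝ} {L : ℝ} (h : ∫ x, wt L x ^ (-s) ∂mu ≤ C / L) (y : TT) :
    ∫ x, wt L (y - x) ^ (-s) ∂mu ≤ C / L := by
  have : ∀ x, wt L (y - x) = wt L (x - y) := by
    intro x
    rw [← wt_neg]
    congr 1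
    abel
  simp_rw [this]
  exact kint_sub h y

lemma wc {L : ℝ} (hL : 0 ≤ L) (s : ℝ) (y : TT) : Continuous (fun x : TT => wt L (x - y) ^ s) :=
  (wt_rpow_cont hL s).comp (continuous_id.sub continuous_const)

lemma wc' {L : ℝ} (hL : 0 ≤ L) (s : ℝ) (y : TT) : Continuous (fun x : TT => wt L (y - x) ^ s) :=
  (wt_rpow_cont hL s).comp (continuous_const.sub continuous_id)

lemma wc2 {L : ℝ} (hL : 0 ≤ L) (s : ℝ) :
    Continuous (fun q : TT × TT => wt L (q.2 - q.1) ^ s) :=
  (wt_rpow_cont hL s).comp (continuous_snd.sub continuous_fst)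

lemma wc2' {L : ℝ} (hL : 0 ≤ L) (s : ℝ) :
    Continuous (fun q : TT × TT => wt L (q.1 - q.2) ^ s) :=
  (wt_rpow_cont hL s).comp (continuous_fst.sub continuous_snd)

/-- pointwise Plancherel-Polya inequality -/
lemma PP (p : ℝ) (hp : 0 < p) (hp2 : p ≤ 2) (M : ℕ) : ∃ C : ℝ, 0 < C ∧
    ∀ (P : ℂ[X]) (L : ℝ), 1 ≤ L → (P.natDegree : ℝ) ≤ M * L → ∀ y : TT,
      ‖P.eval (chi y)‖ ^ p ≤
        C * L * ∫ x, ‖P.eval (chi x)‖ ^ p * wt L (x - y) ^ (-2 : ℝ) ∂mu := by
  obtain ⟨C1, hC1, h1⟩ := loc1 p hp hp2 4 (by norm_num)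
  obtain ⟨C2, hC2, h2⟩ := loc2 p hp hp2 2 (by norm_num)
  obtain ⟨C3, hC3, h3⟩ := kint 2 (by norm_num)
  refine ⟨C1 * (Real.exp (p * M) * C2) * C3, by positivity, fun P L hL hD y => ?_⟩
  have hL0 : 0 < L := by linarith
  have ht : 0 < 1 / L := by positivity
  have ht1 : 1 / L ≤ 1 := by rw [div_le_one hL0]; exact hL
  have hwt : ∀ x : TT, 1 + ds x / (1 / L) = wt L x := by
    intro x
    unfold wt
    field_simp
  have hPc : Continuous (fun x : TT => P.eval (chi x)) := P.continuous.comp chi_cont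
  have hPp : Continuous (fun x : TT => ‖P.eval (chi x)‖ ^ p) :=
    hPc.norm.rpow_const (fun _ => Or.inr hp.le)
  -- first step
  have hstep1 := h1 (P.comp (Polynomial.C (Real.exp (1 / L) : ℂ) * Polynomial.X)) y (1 / L) ht ht1
  have e1 : (P.comp (Polynomial.C (Real.exp (1 / L) : ℂ) * Polynomial.X)).eval
      ((Real.exp (-(1 / L)) : ℂ) * chi y) = P.eval (chi y) := by
    rw [Polynomial.eval_comp]
    congr 1
    simp only [Polynomial.eval_mul, Polynomial.eval_C, Polynomial.eval_X]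
    rw [← mul_assoc, ← Complex.ofReal_mul, ← Real.exp_add]
    simp
  have e2 : ∀ x, (P.comp (Polynomial.C (Real.exp (1 / L) : ℂ) * Polynomial.X)).eval (chi x) =
      P.eval ((Real.exp (1 / L) : ℂ) * chi x) := by
    intro x
    rw [Polynomial.eval_comp]
    simp only [Polynomial.eval_mul, Polynomial.eval_C, Polynomial.eval_X]
  rw [e1] at hstep1
  simp_rw [e2, hwt] at hstep1
  have hPc2 : Continuous (fun x : TT => ‖P.eval ((Real.exp (1 / L) : ℂ) * chi x)‖ ^ p) := by
    apply Continuous.rpow_const _ (fun _ => Or.inr hp.le)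
    exact (P.continuous.comp (by fun_prop)).norm
  have hb : ∀ ξ : TT, ‖P.eval ((Real.exp (1 / L) : ℂ) * chi ξ)‖ ^ p ≤
      Real.exp (p * M) * (C2 * L) *
        ∫ x, ‖P.eval (chi x)‖ ^ p * wt L (x - ξ) ^ (-2 : ℝ) ∂mu := by
    intro ξ
    have h4 := h2 P P.natDegree ξ (1 / L) le_rfl ht ht1
    simp_rw [hwt] at h4
    refine h4.trans ?_
    have h5 : 0 ≤ ∫ x, ‖P.eval (chi x)‖ ^ p * wt L (x - ξ) ^ (-2 : ℝ) ∂mu := by
      apply integral_nonneg
      intro x
      have := wt_pos hL0.le (x - ξ)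
      positivity
    have h6 : Real.exp (p * (1 / L * (P.natDegree : ℝ))) ≤ Real.exp (p * M) := by
      apply Real.exp_le_exp.2
      apply mul_le_mul_of_nonneg_left _ hp.le
      rw [one_div, inv_mul_le_iff₀ hL0]
      linarith
    have h7 : C2 / (1 / L) = C2 * L := by field_simp
    rw [h7]
    gcongr
  refine hstep1.trans ?_
  have hstep2 : ∫ ξ, ‖P.eval ((Real.exp (1 / L) : ℂ) * chi ξ)‖ ^ p *
      wt L (ξ - y) ^ (-4 : ℝ) ∂mu ≤
      Real.exp (p * M) * (C2 * L) * ((C3 / L) *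
        ∫ x, ‖P.eval (chi x)‖ ^ p * wt L (x - y) ^ (-2 : ℝ) ∂mu) := by
    have hjc : Continuous (fun q : TT × TT => wt L (q.1 - y) ^ (-4 : ℝ) *
        (‖P.eval (chi q.2)‖ ^ p * wt L (q.2 - q.1) ^ (-2 : ℝ))) := by
      exact ((wc hL0.le (-4) y).comp continuous_fst).mul
        ((hPp.comp continuous_snd).mul (wc2 hL0.le (-2)))
    have hjc' : Continuous (fun q : TT × TT => wt L (q.2 - y) ^ (-4 : ℝ) *
        (‖P.eval (chi q.1)‖ ^ p * wt L (q.1 - q.2) ^ (-2 : ℝ))) := by
      exact ((wc hL0.le (-4) y).comp continuous_snd).mul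
        ((hPp.comp continuous_fst).mul (wc2' hL0.le (-2)))
    have hin : Continuous (fun ξ : TT => ∫ x, ‖P.eval (chi x)‖ ^ p *
        wt L (x - ξ) ^ (-2 : ℝ) ∂mu) := by
      apply cont_int
      exact (hPp.comp continuous_snd).mul (wc2 hL0.le (-2))
    calc _ ≤ ∫ ξ, (Real.exp (p * M) * (C2 * L) *
        ∫ x, ‖P.eval (chi x)‖ ^ p * wt L (x - ξ) ^ (-2 : ℝ) ∂mu) * wt L (ξ - y) ^ (-4 : ℝ) ∂mu := by
          apply integral_mono
          · exact cint (hPc2.mul (wc hL0.le (-4) y))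
          · exact cint ((hin.const_mul _).mul (wc hL0.le (-4) y))
          · intro ξ
            apply mul_le_mul_of_nonneg_right (hb ξ)
            exact Real.rpow_nonneg (wt_pos hL0.le _).le _
      _ = Real.exp (p * M) * (C2 * L) * ∫ ξ, ∫ x, wt L (ξ - y) ^ (-4 : ℝ) *
          (‖P.eval (chi x)‖ ^ p * wt L (x - ξ) ^ (-2 : ℝ)) ∂mu ∂mu := by
          rw [← integral_const_mul]
          congr 1
          funext ξ
          rw [integral_const_mul]
          ring
      _ = Real.exp (p * M) * (C2 * L) * ∫ x, ∫ ξ, wt L (ξ - y) ^ (-4 : ℝ) *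
          (‖P.eval (chi x)‖ ^ p * wt L (x - ξ) ^ (-2 : ℝ)) ∂mu ∂mu := by
          rw [swap hjc]
      _ ≤ Real.exp (p * M) * (C2 * L) * ∫ x, ‖P.eval (chi x)‖ ^ p * wt L (x - y) ^ (-2 : ℝ) *
          (C3 / L) ∂mu := by
          apply mul_le_mul_of_nonneg_left _ (by positivity)
          apply integral_mono
          · exact cint (cont_int hjc')
          · exact cint ((hPp.mul (wc hL0.le (-2) y)).mul continuous_const)
          · intro x
            beta_reduce
            calc ∫ ξ, wt L (ξ - y) ^ (-4 : ℝ) *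
                (‖P.eval (chi x)‖ ^ p * wt L (x - ξ) ^ (-2 : ℝ)) ∂mu
                ≤ ∫ ξ, (‖P.eval (chi x)‖ ^ p * wt L (x - y) ^ (-2 : ℝ)) *
                  wt L (ξ - y) ^ (-2 : ℝ) ∂mu := by
                  apply integral_mono
                  · exact cint ((wc hL0.le (-4) y).mul (continuous_const.mul (wc' hL0.le (-2) x)))
                  · exact cint (continuous_const.mul (wc hL0.le (-2) y))
                  · intro ξ
                    beta_reduce
                    have h8 := wt_rpow_tri hL0.le (s := 2) (by norm_num) x ξ y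
                    have h9 : wt L (ξ - y) ^ (-4 : ℝ) =
                        wt L (ξ - y) ^ (-2 : ℝ) * wt L (ξ - y) ^ (-2 : ℝ) := by
                      rw [← Real.rpow_add (wt_pos hL0.le _)]
                      norm_num
                    rw [h9]
                    have h10 : 0 ≤ wt L (ξ - y) ^ (-2 : ℝ) := Real.rpow_nonneg (wt_pos hL0.le _).le _
                    have h11 : 0 ≤ ‖P.eval (chi x)‖ ^ p := by positivity
                    calc _ = ‖P.eval (chi x)‖ ^ p * (wt L (x - ξ) ^ (-2 : ℝ) *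
                          wt L (ξ - y) ^ (-2 : ℝ)) * wt L (ξ - y) ^ (-2 : ℝ) := by ring
                      _ ≤ _ := by gcongr
              _ = (‖P.eval (chi x)‖ ^ p * wt L (x - y) ^ (-2 : ℝ)) *
                  ∫ ξ, wt L (ξ - y) ^ (-2 : ℝ) ∂mu := by rw [integral_const_mul]
              _ ≤ _ := by
                  apply mul_le_mul_of_nonneg_left (kint_sub (h3 L hL0) y)
                  have := wt_pos hL0.le (x - y)
                  positivity
      _ = _ := by
          rw [integral_mul_const]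
          ring
  have h12 : C1 / (1 / L) = C1 * L := by field_simp
  rw [h12]
  calc _ ≤ C1 * L * (Real.exp (p * M) * (C2 * L) * ((C3 / L) *
        ∫ x, ‖P.eval (chi x)‖ ^ p * wt L (x - y) ^ (-2 : ℝ) ∂mu)) := by gcongr
    _ = _ := by field_simp

end Pool.Agent.H200
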