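import Mathlib
import Pool.Agent.H200.Wt

/-! Parseval's identity, Bessel's inequality and almost orthogonality for polynomials. -/

set_option autoImplicit false

open MeasureTheory AddCircle Polynomial
open scoped ENNReal NNReal

namespace Pool.Agent.H200

/-- Fourier coefficients of a continuous function -/
noncomputable def fc (Φ : TT → ℂ) (k : ℤ) : ℂ := ∫ x, chi (-x) ^ k * Φ x ∂mu

lemma fc_eq (Φ : TT → ℂ) (k : ℤ) : fc Φ k = fourierCoeff (T := (1:ℝ)) Φ k := by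
  unfold fc fourierCoeff
  congr 1
  funext x
  rw [fourier_eq_zpow, smul_eq_mul, chi_neg, inv_zpow, ← zpow_neg]

/-- Parseval's identity for continuous functions -/
lemma parseval_cont {Φ : TT → ℂ} (hΦ : Continuous Φ) :
    HasSum (fun k : ℤ => ‖fc Φ k‖ ^ 2) (∫ x, ‖Φ x‖ ^ 2 ∂mu) := by
  set f : C(TT, ℂ) := ⟨Φ, hΦ⟩ with hf
  have h := hasSum_sq_fourierCoeff (T := (1:ℝ)) (ContinuousMap.toLp (E := ℂ) 2 haarAddCircle ℂ f)
  have h1 : ∀ k : ℤ, fourierCoeff (T := (1:ℝ))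
      (ContinuousMap.toLp (E := ℂ) 2 haarAddCircle ℂ f) k = fc Φ k := by
    intro k
    rw [fourierCoeff_toLp, fc_eq]
    rfl
  have h2 : ∫ x, ‖(ContinuousMap.toLp (E := ℂ) 2 haarAddCircle ℂ f) x‖ ^ 2 ∂haarAddCircle =
      ∫ x, ‖Φ x‖ ^ 2 ∂mu := by
    apply integral_congr_ae
    filter_upwards [ContinuousMap.coeFn_toLp (p := 2) (𝕜 := ℂ) haarAddCircle f] with x hx
    rw [hx]
    rfl
  rw [h2] at h
  simpa only [h1] using h

lemma bessel {Φ : TT → ℂ} (hΦ : Continuous Φ) (S : Finset ℤ) :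
    ∑ k ∈ S, ‖fc Φ k‖ ^ 2 ≤ ∫ x, ‖Φ x‖ ^ 2 ∂mu :=
  sum_le_hasSum S (fun _ _ => by positivity) (parseval_cont hΦ)

lemma bessel_nat {Φ : TT → ℂ} (hΦ : Continuous Φ) (S : Finset ℕ) :
    ∑ k ∈ S, ‖∫ x, chi (-x) ^ k * Φ x ∂mu‖ ^ 2 ≤ ∫ x, ‖Φ x‖ ^ 2 ∂mu := by
  have h := bessel hΦ (S.map ⟨((↑) : ℕ → ℤ), Nat.cast_injective⟩)
  rw [Finset.sum_map] at h
  simpa [fc] using h

lemma pc (P : ℂ[X]) : Continuous (fun x : TT => P.eval (chi x)) := P.continuous.comp chi_cont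

/-- orthogonality -/
lemma mono_int (j k : ℕ) : ∫ x, chi x ^ j * (starRingEnd ℂ) (chi x ^ k) ∂mu =
    if j = k then 1 else 0 := by
  have h : ∀ x, chi x ^ j * (starRingEnd ℂ) (chi x ^ k) = chi x ^ ((j : ℤ) - (k : ℤ)) := by
    intro x
    rw [map_pow, ← chi_neg_conj, chi_neg, inv_pow, zpow_sub₀ (chi_ne x), zpow_natCast,
      zpow_natCast, div_eq_mul_inv]
  simp_rw [h, chi_int]
  congr 1
  rw [sub_eq_zero, Nat.cast_inj]

/-- Parseval's identity for polynomials -/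
lemma pars (P : ℂ[X]) (N : ℕ) (hN : P.natDegree < N) :
    ∫ x, ‖P.eval (chi x)‖ ^ 2 ∂mu = ∑ k ∈ Finset.range N, ‖P.coeff k‖ ^ 2 := by
  have h1 : ∀ x : TT, ((‖P.eval (chi x)‖ ^ 2 : ℝ) : ℂ) = ∑ j ∈ Finset.range N,
      ∑ k ∈ Finset.range N, (P.coeff j * (starRingEnd ℂ) (P.coeff k)) *
        (chi x ^ j * (starRingEnd ℂ) (chi x ^ k)) := by
    intro x
    have : ((‖P.eval (chi x)‖ ^ 2 : ℝ) : ℂ) = P.eval (chi x) * (starRingEnd ℂ) (P.eval (chi x)) := by
      rw [Complex.mul_conj, Complex.normSq_eq_norm_sq]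
    rw [this, Polynomial.eval_eq_sum_range' hN, map_sum, Finset.sum_mul_sum]
    apply Finset.sum_congr rfl
    intro j _
    apply Finset.sum_congr rfl
    intro k _
    rw [map_mul]
    ring
  have h2 : ((∫ x, ‖P.eval (chi x)‖ ^ 2 ∂mu : ℝ) : ℂ) = ((∑ k ∈ Finset.range N, ‖P.coeff k‖ ^ 2 : ℝ) : ℂ) := by
    rw [← integral_complex_ofReal]
    simp_rw [h1]
    rw [integral_finsetSum]
    · rw [Complex.ofReal_sum]
      apply Finset.sum_congr rfl
      intro j hj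
      rw [integral_finsetSum]
      · simp_rw [integral_const_mul, mono_int]
        rw [Finset.sum_eq_single j]
        · rw [if_pos rfl, mul_one, Complex.mul_conj, Complex.normSq_eq_norm_sq]
        · intro k _ hk
          rw [if_neg (Ne.symm hk), mul_zero]
        · intro h
          exact absurd hj h
      · intro k _
        exact cintC (by fun_prop)
    · intro j _
      exact cintC (by fun_prop)
  exact_mod_cast h2

/-- almost orthogonality -/
lemma ao {ι : Type} (S : Finset ι) (P : ι → ℂ[X]) (R : ℕ)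
    (hR : ∀ k : ℕ, (S.filter (fun n => (P n).coeff k ≠ 0)).card ≤ R) :
    ∫ x, ‖∑ n ∈ S, (P n).eval (chi x)‖ ^ 2 ∂mu ≤ R * ∑ n ∈ S, ∫ x, ‖(P n).eval (chi x)‖ ^ 2 ∂mu := by
  obtain ⟨N, hN⟩ : ∃ N : ℕ, ∀ n ∈ S, (P n).natDegree < N := by
    refine ⟨S.sup (fun n => (P n).natDegree) + 1, fun n hn => ?_⟩
    exact Nat.lt_succ_of_le (Finset.le_sup (f := fun n => (P n).natDegree) hn)
  by_cases hS : S.Nonempty
  · have hN0 : 0 < N := by
      obtain ⟨n, hn⟩ := hS
      exact lt_of_le_of_lt (Nat.zero_le _) (hN n hn)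
    have hdeg : (∑ n ∈ S, P n).natDegree < N := by
      have h1 : (∑ n ∈ S, P n).natDegree ≤ N - 1 := by
        apply Polynomial.natDegree_sum_le_of_forall_le
        intro n hn
        have := hN n hn
        omega
      omega
    have h1 : ∀ x : TT, ∑ n ∈ S, (P n).eval (chi x) = (∑ n ∈ S, P n).eval (chi x) := by
      intro x
      rw [Polynomial.eval_finsetSum]
    simp_rw [h1]
    rw [pars _ N hdeg]
    have h2 : ∑ n ∈ S, ∫ x, ‖(P n).eval (chi x)‖ ^ 2 ∂mu =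
        ∑ k ∈ Finset.range N, ∑ n ∈ S, ‖(P n).coeff k‖ ^ 2 := by
      rw [Finset.sum_comm]
      apply Finset.sum_congr rfl
      intro n hn
      exact pars _ N (hN n hn)
    rw [h2, Finset.mul_sum]
    apply Finset.sum_le_sum
    intro k _
    rw [Polynomial.finsetSum_coeff]
    have h3 : ∑ n ∈ S, (P n).coeff k =
        ∑ n ∈ S.filter (fun n => (P n).coeff k ≠ 0), (P n).coeff k := by
      rw [Finset.sum_filter_ne_zero]
    have h4 : ∑ n ∈ S, ‖(P n).coeff k‖ ^ 2 ≥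
        ∑ n ∈ S.filter (fun n => (P n).coeff k ≠ 0), ‖(P n).coeff k‖ ^ 2 := by
      apply Finset.sum_le_sum_of_subset_of_nonneg (Finset.filter_subset _ _)
      intro _ _ _
      positivity
    rw [h3]
    calc ‖∑ n ∈ S.filter (fun n => (P n).coeff k ≠ 0), (P n).coeff k‖ ^ 2
        ≤ (∑ n ∈ S.filter (fun n => (P n).coeff k ≠ 0), ‖(P n).coeff k‖) ^ 2 := by
          gcongr
          exact norm_sum_le _ _
      _ ≤ ((S.filter (fun n => (P n).coeff k ≠ 0)).card : ℝ) *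
            ∑ n ∈ S.filter (fun n => (P n).coeff k ≠ 0), ‖(P n).coeff k‖ ^ 2 :=
          sq_sum_le_card_mul_sum_sq
      _ ≤ R * ∑ n ∈ S.filter (fun n => (P n).coeff k ≠ 0), ‖(P n).coeff k‖ ^ 2 := by
          gcongr
          exact_mod_cast hR k
      _ ≤ _ := by gcongr
  · rw [Finset.not_nonempty_iff_eq_empty] at hS
    subst hS
    simp

/-- the coefficient multiplier acting on polynomials -/
noncomputable def Tm (lam : ℕ → ℂ) (P : ℂ[X]) : ℂ[X] := P.sum fun k a => monomial k (lam k * a)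

lemma Tm_coeff (lam : ℕ → ℂ) (P : ℂ[X]) (k : ℕ) : (Tm lam P).coeff k = lam k * P.coeff k := by
  unfold Tm
  rw [Polynomial.sum_def, Polynomial.finsetSum_coeff]
  simp_rw [Polynomial.coeff_monomial]
  rw [Finset.sum_ite_eq' P.support k]
  split_ifs with h
  · rfl
  · rw [Polynomial.notMem_support_iff.1 h, mul_zero]

lemma Tm_add (lam : ℕ → ℂ) (P Q : ℂ[X]) : Tm lam (P + Q) = Tm lam P + Tm lam Q := by
  ext k
  simp only [Tm_coeff, Polynomial.coeff_add]
  ring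

lemma Tm_zero (lam : ℕ → ℂ) : Tm lam 0 = 0 := by
  ext k
  simp [Tm_coeff]

lemma Tm_natDegree (lam : ℕ → ℂ) (P : ℂ[X]) : (Tm lam P).natDegree ≤ P.natDegree := by
  rw [Polynomial.natDegree_le_iff_coeff_eq_zero]
  intro n hn
  rw [Tm_coeff, Polynomial.coeff_eq_zero_of_natDegree_lt hn, mul_zero]

end Pool.Agent.H200
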