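import Mathlib
import Pool.Agent.H200.PP
import Pool.Agent.H200.Poly

/-! Auxiliary inequalities for the molecule estimate. -/

set_option autoImplicit false

open MeasureTheory AddCircle Polynomial
open scoped ENNReal NNReal

namespace Pool.Agent.H200

/-- Hölder's inequality for continuous functions on the circle -/
lemma holder {θ : ℝ} (h0 : 0 < θ) (h1 : θ < 1) {f g : TT → ℝ} (hf : Continuous f)
    (hg : Continuous g) (hf0 : ∀ x, 0 ≤ f x) (hg0 : ∀ x, 0 ≤ g x) :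
    ∫ x, f x ^ θ * g x ^ (1 - θ) ∂mu ≤ (∫ x, f x ∂mu) ^ θ * (∫ x, g x ∂mu) ^ (1 - θ) := by
  have h1' : 0 < 1 - θ := by linarith
  have hpq : (1 / θ).HolderConjugate (1 / (1 - θ)) := by
    rw [Real.holderConjugate_iff]
    constructor
    · rw [one_lt_div h0]; exact h1
    · simp
  have hfc : Continuous (fun x => f x ^ θ) := hf.rpow_const (fun _ => Or.inr h0.le)
  have hgc : Continuous (fun x => g x ^ (1 - θ)) := hg.rpow_const (fun _ => Or.inr h1'.le)
  have hm : ∀ {u : TT → ℝ} (_ : Continuous u) (p : ℝ≥0∞), MemLp u p mu := by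
    intro u hu p
    obtain ⟨C, hC⟩ := (isCompact_univ (X := TT)).exists_bound_of_continuousOn hu.continuousOn
    exact MemLp.of_bound hu.aestronglyMeasurable C (Filter.Eventually.of_forall fun x => hC x trivial)
  have h := integral_mul_le_Lp_mul_Lq_of_nonneg hpq (μ := mu) (f := fun x => f x ^ θ)
    (g := fun x => g x ^ (1 - θ))
    (Filter.Eventually.of_forall fun x => Real.rpow_nonneg (hf0 x) _)
    (Filter.Eventually.of_forall fun x => Real.rpow_nonneg (hg0 x) _)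
    (hm hfc _) (hm hgc _)
  have e1 : ∀ x, (f x ^ θ) ^ (1 / θ) = f x := by
    intro x
    rw [← Real.rpow_mul (hf0 x), mul_one_div_cancel h0.ne', Real.rpow_one]
  have e2 : ∀ x, (g x ^ (1 - θ)) ^ (1 / (1 - θ)) = g x := by
    intro x
    rw [← Real.rpow_mul (hg0 x), mul_one_div_cancel h1'.ne', Real.rpow_one]
  simp only [e1, e2, one_div_one_div] at h
  exact h

/-- Cauchy-Schwarz for continuous functions on the circle -/
lemma cs {f g : TT → ℝ} (hf : Continuous f) (hg : Continuous g) (hf0 : ∀ x, 0 ≤ f x)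
    (hg0 : ∀ x, 0 ≤ g x) :
    (∫ x, f x * g x ∂mu) ^ 2 ≤ (∫ x, f x ^ 2 ∂mu) * ∫ x, g x ^ 2 ∂mu := by
  have h := holder (θ := 1 / 2) (by norm_num) (by norm_num) (f := fun x => f x ^ 2)
    (g := fun x => g x ^ 2) (by fun_prop) (by fun_prop) (fun x => by positivity)
    (fun x => by positivity)
  have e1 : ∀ x, (f x ^ 2) ^ (1 / 2 : ℝ) = f x := by
    intro x
    rw [← Real.sqrt_eq_rpow, Real.sqrt_sq (hf0 x)]
  have e2 : ∀ x, (g x ^ 2) ^ (1 - 1 / 2 : ℝ) = g x := by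
    intro x
    rw [show (1 - 1 / 2 : ℝ) = 1 / 2 by norm_num, ← Real.sqrt_eq_rpow, Real.sqrt_sq (hg0 x)]
  simp only [e1, e2] at h
  have hA : 0 ≤ ∫ x, f x ^ 2 ∂mu := integral_nonneg fun x => by positivity
  have hB : 0 ≤ ∫ x, g x ^ 2 ∂mu := integral_nonneg fun x => by positivity
  have h0 : 0 ≤ ∫ x, f x * g x ∂mu := integral_nonneg fun x => mul_nonneg (hf0 x) (hg0 x)
  rw [show (1 - 1 / 2 : ℝ) = 1 / 2 by norm_num, ← Real.mul_rpow hA hB, ← Real.sqrt_eq_rpow] at h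
  calc (∫ x, f x * g x ∂mu) ^ 2 ≤ (Real.sqrt ((∫ x, f x ^ 2 ∂mu) * ∫ x, g x ^ 2 ∂mu)) ^ 2 := by
        gcongr
    _ = _ := Real.sq_sqrt (by positivity)

/-- weighted power mean inequality -/
lemma pmean {p : ℝ} (hp : 0 < p) (hp2 : p < 2) {u v : TT → ℝ} (hu : Continuous u)
    (hv : Continuous v) (hu0 : ∀ x, 0 ≤ u x) (hv0 : ∀ x, 0 ≤ v x) :
    ∫ x, u x * v x ^ p ∂mu ≤ (∫ x, u x * v x ^ 2 ∂mu) ^ (p / 2) * (∫ x, u x ∂mu) ^ (1 - p / 2) := by
  have h := holder (θ := p / 2) (by positivity) (by linarith) (f := fun x => u x * v x ^ 2)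
    (g := u) (by fun_prop) hu (fun x => mul_nonneg (hu0 x) (by positivity)) hu0
  have e1 : ∀ x, (u x * v x ^ 2) ^ (p / 2) * u x ^ (1 - p / 2) = u x * v x ^ p := by
    intro x
    rw [Real.mul_rpow (hu0 x) (by positivity)]
    have e2 : (v x ^ 2) ^ (p / 2) = v x ^ p := by
      rw [← Real.rpow_natCast, ← Real.rpow_mul (hv0 x)]
      congr 1
      push_cast
      ring
    have e3 : u x ^ (p / 2) * u x ^ (1 - p / 2) = u x := by
      rw [← Real.rpow_add_of_nonneg (hu0 x) (by positivity) (by linarith)]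
      rw [show p / 2 + (1 - p / 2) = 1 by ring, Real.rpow_one]
    rw [e2]
    calc _ = (u x ^ (p / 2) * u x ^ (1 - p / 2)) * v x ^ p := by ring
      _ = _ := by rw [e3]
  simp only [e1] at h
  exact h

/-! ### the localising polynomial -/

/-- `((1 + z + ... + z ^ (L - 1)) / L) ^ K` -/
noncomputable def RP (K L : ℕ) : ℂ[X] :=
  (C ((L : ℂ)⁻¹) * ∑ j ∈ Finset.range L, (X : ℂ[X]) ^ j) ^ K

lemma RP_one_natDegree (L : ℕ) :
    (C ((L : ℂ)⁻¹) * ∑ j ∈ Finset.range L, (X : ℂ[X]) ^ j).natDegree ≤ L - 1 := by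
  refine (Polynomial.natDegree_C_mul_le _ _).trans ?_
  apply Polynomial.natDegree_sum_le_of_forall_le
  intro j hj
  rw [Finset.mem_range] at hj
  rw [Polynomial.natDegree_X_pow]
  omega

lemma RP_natDegree (K L : ℕ) : (RP K L).natDegree ≤ K * (L - 1) := by
  unfold RP
  exact (Polynomial.natDegree_pow_le).trans (Nat.mul_le_mul_left _ (RP_one_natDegree L))

lemma RP_eval_one {K L : ℕ} (hL : 1 ≤ L) : (RP K L).eval 1 = 1 := by
  unfold RP
  have : (L : ℂ) ≠ 0 := by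
    have : L ≠ 0 := by omega
    exact_mod_cast this
  simp [Polynomial.eval_finsetSum, this]

lemma RP_bound {K L : ℕ} (hL : 1 ≤ L) (x : TT) :
    ‖(RP K L).eval (chi x)‖ ≤ 3 ^ K * wt L x ^ (-(K : ℝ)) := by
  have hL0 : (0 : ℝ) < L := by exact_mod_cast hL
  have hw := wt_pos hL0.le x
  unfold RP
  rw [Polynomial.eval_pow, norm_pow, Real.rpow_neg hw.le, Real.rpow_natCast, ← div_eq_mul_inv,
    ← div_pow]
  apply pow_le_pow_left₀ (norm_nonneg _)
  rw [le_div_iff₀ hw]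
  set S : ℂ := ∑ j ∈ Finset.range L, chi x ^ j with hS
  have e : (C ((L : ℂ)⁻¹) * ∑ j ∈ Finset.range L, (X : ℂ[X]) ^ j).eval (chi x) =
      (L : ℂ)⁻¹ * S := by
    simp [Polynomial.eval_finsetSum, hS]
  rw [e, norm_mul, norm_inv, Complex.norm_natCast]
  have h1 : ‖S‖ ≤ L := by
    rw [hS]
    refine (norm_sum_le _ _).trans ?_
    simp [chi_norm]
  have h2 : ‖S‖ * ds x ≤ 2 := by
    unfold ds
    rw [← norm_mul, hS, geom_sum_mul]
    refine (norm_sub_le _ _).trans ?_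
    rw [norm_pow, chi_norm, norm_one, one_pow]
    norm_num
  unfold wt
  have h3 : (L : ℝ)⁻¹ * ‖S‖ * (1 + L * ds x) = (L : ℝ)⁻¹ * ‖S‖ + ‖S‖ * ds x := by
    field_simp
  rw [h3]
  have h4 : (L : ℝ)⁻¹ * ‖S‖ ≤ 1 := by
    rw [inv_mul_le_iff₀ hL0]; linarith
  linarith

lemma RP_sq_bound {K L : ℕ} (hL : 1 ≤ L) (x : TT) :
    ‖(RP K L).eval (chi x)‖ ^ 2 ≤ 9 ^ K * wt L x ^ (-(2 * K : ℝ)) := by
  have hL0 : (0 : ℝ) < L := by exact_mod_cast hL
  have hw := wt_pos hL0.le x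
  have h := RP_bound (K := K) hL x
  calc ‖(RP K L).eval (chi x)‖ ^ 2 ≤ (3 ^ K * wt L x ^ (-(K : ℝ))) ^ 2 := by gcongr
    _ = _ := by
      rw [mul_pow, ← pow_mul, mul_comm K 2, pow_mul, ← Real.rpow_natCast (wt L x ^ (-(K:ℝ))),
        ← Real.rpow_mul hw.le]
      norm_num
      congr 1
      ring

lemma RP_lower {K L : ℕ} (hK : 1 ≤ K) (hL : 1 ≤ L) :
    1 / ((K : ℝ) * L) ≤ ∫ x, ‖(RP K L).eval (chi x)‖ ^ 2 ∂mu := by
  have hd : (RP K L).natDegree < K * L := by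
    have h1 := RP_natDegree K L
    have h2 : K * (L - 1) < K * L := Nat.mul_lt_mul_of_pos_left (by omega) (by omega)
    omega
  rw [pars _ _ hd]
  have h1 : (1 : ℝ) ≤ (∑ k ∈ Finset.range (K * L), ‖(RP K L).coeff k‖) ^ 2 := by
    have h2 : ‖(RP K L).eval 1‖ ≤ ∑ k ∈ Finset.range (K * L), ‖(RP K L).coeff k‖ := by
      rw [Polynomial.eval_eq_sum_range' hd]
      refine (norm_sum_le _ _).trans (le_of_eq ?_)
      simp
    rw [RP_eval_one hL, norm_one] at h2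
    nlinarith
  have h3 : (∑ k ∈ Finset.range (K * L), ‖(RP K L).coeff k‖) ^ 2 ≤
      ((Finset.range (K * L)).card : ℝ) * ∑ k ∈ Finset.range (K * L), ‖(RP K L).coeff k‖ ^ 2 :=
    sq_sum_le_card_mul_sum_sq
  rw [Finset.card_range] at h3
  have hKL : (0 : ℝ) < (K : ℝ) * L := by
    have h1 : (0 : ℝ) < K := by exact_mod_cast hK
    have h2 : (0 : ℝ) < L := by exact_mod_cast hL
    positivity
  rw [div_le_iff₀ hKL]
  push_cast at h3
  linarith

lemma RP_upper {K : ℕ} (hK : 1 ≤ K) : ∃ C : ℝ, 0 < C ∧ ∀ L : ℕ, 1 ≤ L →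
    ∫ x, ‖(RP K L).eval (chi x)‖ ^ 2 ∂mu ≤ C / L := by
  have hK1 : (1 : ℝ) ≤ K := by exact_mod_cast hK
  obtain ⟨C, hC, h⟩ := kint (2 * K) (by linarith)
  refine ⟨9 ^ K * C, by positivity, fun L hL => ?_⟩
  have hL0 : (0 : ℝ) < L := by exact_mod_cast hL
  calc ∫ x, ‖(RP K L).eval (chi x)‖ ^ 2 ∂mu ≤ ∫ x, 9 ^ K * wt L x ^ (-(2 * K : ℝ)) ∂mu := by
        apply integral_mono
        · exact cint ((pc _).norm.pow 2)
        · exact cint (continuous_const.mul (wt_rpow_cont hL0.le _))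
        · intro x
          exact RP_sq_bound hL x
    _ = 9 ^ K * ∫ x, wt L x ^ (-(2 * K : ℝ)) ∂mu := integral_const_mul _ _
    _ ≤ 9 ^ K * (C / L) := by
        have := h L hL0
        gcongr
    _ = _ := by ring

end Pool.Agent.H200
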