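import Mathlib
import Pool.Agent.H200.Mol1
import Pool.Graph.R_seed8.HpBall.Disc
import Pool.Graph.R_seed8.HpBall.Defs2

/-! Interval integrals versus the Haar measure on the circle. -/

set_option autoImplicit false

open MeasureTheory AddCircle Polynomial
open scoped ENNReal NNReal

namespace Pool.Agent.H200

lemma vol_eq_mu : (volume : Measure TT) = mu := by
  rw [AddCircle.volume_eq_smul_haarAddCircle]
  simp

lemma circ_int {E : Type} [NormedAddCommGroup E] [NormedSpace ℝ E] (h : ℂ → E) :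
    ∫ θ in (0:ℝ)..2 * Real.pi, h (Complex.exp (θ * Complex.I)) =
      (2 * Real.pi) • ∫ x, h (chi x) ∂mu := by
  have hpi := Real.pi_pos
  have h1 := AddCircle.intervalIntegral_preimage (1:ℝ) 0 (fun x : TT => h (chi x))
  rw [zero_add, vol_eq_mu] at h1
  rw [← h1]
  have h2 := intervalIntegral.integral_comp_mul_left (a := (0:ℝ)) (b := 1)
    (fun θ : ℝ => h (Complex.exp (θ * Complex.I))) (c := 2 * Real.pi) (by positivity)
  rw [mul_zero, mul_one] at h2
  have h3 : ∀ t : ℝ, h (chi (t : TT)) =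
      h (Complex.exp (((2 * Real.pi * t : ℝ) : ℂ) * Complex.I)) := by
    intro t
    rw [chi_coe]
    congr 2
    push_cast
    ring
  simp_rw [h3]
  rw [h2, smul_smul, mul_inv_cancel₀ (by positivity), one_smul]

/-- monotonicity of the means, for functions holomorphic in a larger disc -/
lemma mono_mean {p : ℝ} (hp : 0 < p) (hp2 : p ≤ 2) (P : ℂ[X]) {r : ℝ} (h0 : 0 ≤ r) (h1 : r ≤ 1) :
    ∫ x, ‖P.eval ((r : ℂ) * chi x)‖ ^ p ∂mu ≤ ∫ x, ‖P.eval (chi x)‖ ^ p ∂mu := by
  have hpi := Real.pi_pos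
  have h2 := Pool.Agent.HpBall.hardy_mono_disc p hp hp2 (fun z => P.eval (2 * z))
    (by fun_prop) (r / 2) (1 / 2) (by linarith) (by linarith) (by norm_num)
  have e1 : ∀ θ : ℝ, ‖P.eval (2 * (((r / 2 : ℝ) : ℂ) * Complex.exp (θ * Complex.I)))‖ ^ p =
      (fun z : ℂ => ‖P.eval ((r : ℂ) * z)‖ ^ p) (Complex.exp (θ * Complex.I)) := by
    intro θ
    have : 2 * (((r / 2 : ℝ) : ℂ) * Complex.exp (θ * Complex.I)) =
        (r : ℂ) * Complex.exp (θ * Complex.I) := by push_cast; ring
    rw [this]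
  have e2 : ∀ θ : ℝ, ‖P.eval (2 * (((1 / 2 : ℝ) : ℂ) * Complex.exp (θ * Complex.I)))‖ ^ p =
      (fun z : ℂ => ‖P.eval z‖ ^ p) (Complex.exp (θ * Complex.I)) := by
    intro θ
    have : 2 * (((1 / 2 : ℝ) : ℂ) * Complex.exp (θ * Complex.I)) =
        Complex.exp (θ * Complex.I) := by push_cast; ring
    rw [this]
  simp_rw [e1, e2] at h2
  rw [circ_int (fun z : ℂ => ‖P.eval ((r : ℂ) * z)‖ ^ p),
    circ_int (fun z : ℂ => ‖P.eval z‖ ^ p), smul_eq_mul, smul_eq_mul] at h2
  exact le_of_mul_le_mul_left h2 (by positivity)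

lemma const_le {p : ℝ} (hp : 0 < p) (hp2 : p ≤ 2) (P : ℂ[X]) :
    ‖P.coeff 0‖ ^ p ≤ ∫ x, ‖P.eval (chi x)‖ ^ p ∂mu := by
  have h := mono_mean hp hp2 P le_rfl zero_le_one
  simp only [Complex.ofReal_zero, zero_mul] at h
  rw [integral_const] at h
  simp only [probReal_univ, one_smul] at h
  rw [← Polynomial.coeff_zero_eq_eval_zero] at h
  exact h

/-- Taylor coefficients of a dilated polynomial -/
lemma tc_poly (P : ℂ[X]) (w : ℂ) (k : ℕ) :
    Pool.Agent.HpBall.tc (fun z => P.eval (z * w)) k = P.coeff k * w ^ k := by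
  unfold Pool.Agent.HpBall.tc
  have h1 : (fun z : ℂ => P.eval (z * w)) = fun z => (P.comp (C w * X)).eval z := by
    funext z
    rw [Polynomial.eval_comp]
    simp only [Polynomial.eval_mul, Polynomial.eval_C, Polynomial.eval_X]
    rw [mul_comm]
  rw [h1]
  have h2 : ∀ (Q : ℂ[X]) (k : ℕ), iteratedDeriv k (fun z => Q.eval z) =
      fun z => (Polynomial.derivative^[k] Q).eval z := by
    intro Q k
    induction k with
    | zero => simp
    | succ k ih =>
      rw [iteratedDeriv_succ, ih]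
      funext z
      rw [Polynomial.deriv, Function.iterate_succ_apply']
  rw [h2]
  beta_reduce
  rw [← Polynomial.coeff_zero_eq_eval_zero, Polynomial.coeff_iterate_derivative, zero_add,
    Nat.descFactorial_self, nsmul_eq_mul,
    ← mul_assoc, inv_mul_cancel₀ (by exact_mod_cast Nat.factorial_ne_zero k), one_mul]
  rw [Polynomial.comp_C_mul_X_coeff]

end Pool.Agent.H200
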