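import Mathlib
import Pool.Agent.H200.Mol1
import Pool.Graph.R_seed8.HpBall.Kernel

/-! Frequency windows: the smooth window kernel and the localised pieces. -/

set_option autoImplicit false

open MeasureTheory AddCircle Polynomial
open scoped ENNReal NNReal

namespace Pool.Agent.H200

open Pool.Agent.HpBall (Bump ker)

/-- a smooth plateau equal to one on `[1, M + 1]` -/
noncomputable def pl (M : ℕ) (x : ℝ) : ℝ :=
  Real.smoothTransition (2 * x - 1) * Real.smoothTransition (M + 2 - x)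

lemma pl_bump (M : ℕ) : Bump (pl M) (1 / 2) (M + 2) where
  apos := by norm_num
  ab := by
    have : (0:ℝ) ≤ M := Nat.cast_nonneg M
    linarith
  smooth := by
    unfold pl
    apply ContDiff.mul
    · exact Real.smoothTransition.contDiff.comp (by fun_prop)
    · exact Real.smoothTransition.contDiff.comp (by fun_prop)
  lo := fun x hx => by
    unfold pl
    rw [Real.smoothTransition.zero_of_nonpos (by linarith), zero_mul]
  hi := fun x hx => by
    unfold pl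
    rw [Real.smoothTransition.zero_of_nonpos (x := (M:ℝ) + 2 - x) (by linarith), mul_zero]

lemma pl_one (M : ℕ) (x : ℝ) (h1 : 1 ≤ x) (h2 : x ≤ M + 1) : pl M x = 1 := by
  unfold pl
  rw [Real.smoothTransition.one_of_one_le (by linarith),
    Real.smoothTransition.one_of_one_le (by linarith), one_mul]

/-- the smooth window kernel -/
noncomputable def D0 (M L : ℕ) (v : TT) : ℂ := chi (-v) ^ L * ker (pl M) L (chi v)

lemma D0_eq {M L : ℕ} (hL : 1 ≤ L) (v : TT) : D0 M L v = ∑ j ∈ Finset.range ((M + 2) * L),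
    ((pl M ((j : ℝ) / L) : ℝ) : ℂ) * (chi (-v) ^ L * chi v ^ j) := by
  have hL0 : (0 : ℝ) < L := by exact_mod_cast hL
  unfold D0
  rw [Pool.Agent.HpBall.ker_eq_sum (pl M) (M + 2) L hL0 (pl_bump M).hi _ ((M + 2) * L)
    (by push_cast; rfl), Finset.mul_sum]
  apply Finset.sum_congr rfl
  intro j _
  ring

lemma D0_cont {M L : ℕ} (hL : 1 ≤ L) : Continuous (D0 M L) := by
  have : D0 M L = fun v => ∑ j ∈ Finset.range ((M + 2) * L),
    ((pl M ((j : ℝ) / L) : ℝ) : ℂ) * (chi (-v) ^ L * chi v ^ j) := by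
    funext v; exact D0_eq hL v
  rw [this]
  fun_prop

lemma D0_bound (M s : ℕ) : ∃ C : ℝ, 0 < C ∧ ∀ (L : ℕ), 1 ≤ L → ∀ v : TT,
    ‖D0 M L v‖ ≤ C * L * wt L v ^ (-(s : ℝ)) := by
  obtain ⟨C, hC, h⟩ := Pool.Agent.HpBall.multiplier_kernel (pl M) (1 / 2) (M + 2) (pl_bump M) s 1
    one_pos
  refine ⟨C, hC, fun L hL v => ?_⟩
  have h1 := h L (by exact_mod_cast hL) (chi v) (chi_norm v).le
  unfold D0
  rw [norm_mul, norm_pow, chi_norm, one_pow, one_mul]
  refine h1.trans (le_of_eq ?_)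
  unfold wt ds
  rw [norm_sub_rev]

/-- the window at `n` -/
noncomputable def Dn (M L n : ℕ) (v : TT) : ℂ := chi v ^ n * D0 M L v

lemma Dn_cont {M L : ℕ} (hL : 1 ≤ L) (n : ℕ) : Continuous (Dn M L n) := by
  unfold Dn
  exact (chi_cont.pow n).mul (D0_cont hL)

lemma Dn_coef {M L : ℕ} (hL : 1 ≤ L) {n m : ℕ} (h1 : n ≤ m) (h2 : m ≤ n + M * L) :
    ∫ v, chi (-v) ^ m * Dn M L n v ∂mu = 1 := by
  have hL0 : (0 : ℝ) < L := by exact_mod_cast hL
  have h3 : ∀ v : TT, chi (-v) ^ m * Dn M L n v = ∑ j ∈ Finset.range ((M + 2) * L),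
      ((pl M ((j : ℝ) / L) : ℝ) : ℂ) * (chi v ^ (n + j) * (starRingEnd ℂ) (chi v ^ (m + L))) := by
    intro v
    unfold Dn
    rw [D0_eq hL, Finset.mul_sum, Finset.mul_sum]
    apply Finset.sum_congr rfl
    intro j _
    rw [map_pow, ← chi_neg_conj]
    ring
  simp_rw [h3]
  rw [integral_finsetSum]
  · simp_rw [integral_const_mul, mono_int]
    rw [Finset.sum_eq_single (m + L - n)]
    · rw [if_pos (by omega), mul_one]
      have : pl M (((m + L - n : ℕ) : ℝ) / L) = 1 := by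
        apply pl_one
        · rw [le_div_iff₀ hL0, one_mul]
          have : L ≤ m + L - n := by omega
          exact_mod_cast this
        · rw [div_le_iff₀ hL0]
          have h4 : m + L - n ≤ (M + 1) * L := by
            have : (M + 1) * L = M * L + L := by ring
            omega
          exact_mod_cast h4
      rw [this]
      simp
    · intro j _ hj
      rw [if_neg (by omega), mul_zero]
    · intro h
      exfalso
      apply h
      rw [Finset.mem_range]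
      have : (M + 2) * L = M * L + L + L := by ring
      omega
  · intro j _
    apply cintC
    fun_prop

/-- the localised piece -/
noncomputable def Gn (M L n : ℕ) (F : ℂ[X]) (y : TT) : ℂ :=
  ∫ u, Dn M L n (y - u) * F.eval (chi u) ∂mu

lemma Gn_jcont {M L : ℕ} (hL : 1 ≤ L) (n : ℕ) (F : ℂ[X]) :
    Continuous (fun q : TT × TT => Dn M L n (q.1 - q.2) * F.eval (chi q.2)) :=
  ((Dn_cont hL n).comp (continuous_fst.sub continuous_snd)).mul ((pc F).comp continuous_snd)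

lemma Gn_cont {M L : ℕ} (hL : 1 ≤ L) (n : ℕ) (F : ℂ[X]) : Continuous (Gn M L n F) :=
  cont_int (F := fun y u => Dn M L n (y - u) * F.eval (chi u)) (Gn_jcont hL n F)

/-- Fourier coefficients of a polynomial -/
lemma poly_fc (F : ℂ[X]) (m : ℕ) : ∫ u, chi (-u) ^ m * F.eval (chi u) ∂mu = F.coeff m := by
  set N := max (F.natDegree + 1) (m + 1) with hN
  have hN1 : F.natDegree < N := by omega
  have h1 : ∀ u : TT, chi (-u) ^ m * F.eval (chi u) = ∑ k ∈ Finset.range N,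
      F.coeff k * (chi u ^ k * (starRingEnd ℂ) (chi u ^ m)) := by
    intro u
    rw [Polynomial.eval_eq_sum_range' hN1, Finset.mul_sum]
    apply Finset.sum_congr rfl
    intro k _
    rw [map_pow, ← chi_neg_conj]
    ring
  simp_rw [h1]
  rw [integral_finsetSum]
  · simp_rw [integral_const_mul, mono_int]
    rw [Finset.sum_eq_single m]
    · simp
    · intro j _ hj
      rw [if_neg hj, mul_zero]
    · intro h
      exfalso
      apply h
      rw [Finset.mem_range]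
      omega
  · intro j _
    apply cintC
    fun_prop

lemma Gn_coef {M L : ℕ} (hL : 1 ≤ L) {n m : ℕ} (h1 : n ≤ m) (h2 : m ≤ n + M * L) (F : ℂ[X])
    (x : TT) : ∫ y, chi (x - y) ^ m * Gn M L n F y ∂mu = F.coeff m * chi x ^ m := by
  have hj : Continuous (fun q : TT × TT => chi (x - q.1) ^ m *
      (Dn M L n (q.1 - q.2) * F.eval (chi q.2))) := by
    apply Continuous.mul
    · fun_prop
    · exact Gn_jcont hL n F
  calc ∫ y, chi (x - y) ^ m * Gn M L n F y ∂mu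
      = ∫ y, ∫ u, chi (x - y) ^ m * (Dn M L n (y - u) * F.eval (chi u)) ∂mu ∂mu := by
        congr 1
        funext y
        rw [integral_const_mul]
        rfl
    _ = ∫ u, ∫ y, chi (x - y) ^ m * (Dn M L n (y - u) * F.eval (chi u)) ∂mu ∂mu := by
        rw [swapC hj]
    _ = ∫ u, chi (x - u) ^ m * F.eval (chi u) ∂mu := by
        congr 1
        funext u
        have e : ∀ y, chi (x - y) ^ m * (Dn M L n (y - u) * F.eval (chi u)) =
            (chi (x - u) ^ m * F.eval (chi u)) *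
              (chi (-(y - u)) ^ m * Dn M L n (y - u)) := by
          intro y
          have : chi (x - y) = chi (x - u) * chi (-(y - u)) := by
            rw [← chi_add]
            congr 1
            abel
          rw [this, mul_pow]
          ring
        simp_rw [e]
        rw [integral_const_mul, integral_sub_right_eq_self (fun v => chi (-v) ^ m * Dn M L n v) u,
          Dn_coef hL h1 h2, mul_one]
    _ = ∫ u, chi x ^ m * (chi (-u) ^ m * F.eval (chi u)) ∂mu := by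
        congr 1
        funext u
        rw [chi_sub, mul_pow]
        ring
    _ = _ := by
        rw [integral_const_mul, poly_fc, mul_comm]

/-- the block polynomial at `n` -/
noncomputable def blk (lam b : ℕ → ℂ) (R n : ℕ) : ℂ[X] :=
  ∑ k ∈ Finset.range R, monomial k (b k * lam (n + k))

lemma blk_eval (lam b : ℕ → ℂ) (R n : ℕ) (z : ℂ) : (blk lam b R n).eval z =
    ∑ k ∈ Finset.range R, b k * lam (n + k) * z ^ k := by
  unfold blk
  rw [Polynomial.eval_finsetSum]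
  simp only [Polynomial.eval_monomial]

lemma blk_natDegree (lam b : ℕ → ℂ) (R n : ℕ) : (blk lam b R n).natDegree ≤ R := by
  unfold blk
  apply Polynomial.natDegree_sum_le_of_forall_le
  intro k hk
  rw [Finset.mem_range] at hk
  exact (Polynomial.natDegree_monomial_le _).trans hk.le

/-- the piece of the image at `n` -/
noncomputable def Hn (lam b : ℕ → ℂ) (R : ℕ) (F : ℂ[X]) (n : ℕ) : ℂ[X] :=
  ∑ k ∈ Finset.range R, monomial (n + k) (b k * lam (n + k) * F.coeff (n + k))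

lemma Hn_eval (lam b : ℕ → ℂ) (R : ℕ) (F : ℂ[X]) (n : ℕ) (z : ℂ) : (Hn lam b R F n).eval z =
    ∑ k ∈ Finset.range R, b k * lam (n + k) * F.coeff (n + k) * z ^ (n + k) := by
  unfold Hn
  rw [Polynomial.eval_finsetSum]
  simp only [Polynomial.eval_monomial]

lemma Hn_coeff (lam b : ℕ → ℂ) (R : ℕ) (F : ℂ[X]) (n m : ℕ) : (Hn lam b R F n).coeff m =
    if n ≤ m ∧ m < n + R then b (m - n) * lam m * F.coeff m else 0 := by
  unfold Hn
  rw [Polynomial.finsetSum_coeff]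
  simp_rw [Polynomial.coeff_monomial]
  split_ifs with h
  · rw [Finset.sum_eq_single (m - n)]
    · rw [if_pos (by omega), show n + (m - n) = m by omega]
    · intro k _ hk
      rw [if_neg (by omega)]
    · intro h'
      exfalso
      apply h'
      rw [Finset.mem_range]
      omega
  · apply Finset.sum_eq_zero
    intro k hk
    rw [Finset.mem_range] at hk
    rw [if_neg (by omega)]

/-- the pieces are images of the localised pieces -/
lemma Hn_repr {M L : ℕ} (hL : 1 ≤ L) (lam b : ℕ → ℂ) (F : ℂ[X]) (n : ℕ) (x : TT) :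
    (Hn lam b (M * L) F n).eval (chi x) =
      ∫ y, (chi (x - y) ^ n * (blk lam b (M * L) n).eval (chi (x - y))) * Gn M L n F y ∂mu := by
  have h1 : ∀ y, (chi (x - y) ^ n * (blk lam b (M * L) n).eval (chi (x - y))) * Gn M L n F y =
      ∑ k ∈ Finset.range (M * L), (b k * lam (n + k)) * (chi (x - y) ^ (n + k) * Gn M L n F y) := by
    intro y
    rw [blk_eval, Finset.mul_sum, Finset.sum_mul]
    apply Finset.sum_congr rfl
    intro k _
    ring
  simp_rw [h1]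
  rw [integral_finsetSum, Hn_eval]
  · apply Finset.sum_congr rfl
    intro k hk
    rw [Finset.mem_range] at hk
    rw [integral_const_mul, Gn_coef hL (by omega) (by omega)]
    ring
  · intro k _
    apply cintC
    apply Continuous.mul continuous_const
    exact Continuous.mul (by fun_prop) (Gn_cont hL n F)

/-- the total weighted mass of a localised piece -/
noncomputable def gn (M L K n : ℕ) (F : ℂ[X]) (y₀ : TT) : ℝ :=
  ∫ y, ‖Gn M L n F y‖ ^ 2 * wt L (y - y₀) ^ (2 * K : ℝ) ∂mu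

lemma gn_nonneg (M L K n : ℕ) (F : ℂ[X]) (y₀ : TT) : 0 ≤ gn M L K n F y₀ := by
  apply integral_nonneg
  intro y
  have := wt_pos (Nat.cast_nonneg L : (0:ℝ) ≤ L) (y - y₀)
  positivity

lemma Hn_sq {M L : ℕ} (hL : 1 ≤ L) (lam b : ℕ → ℂ) (F : ℂ[X]) (K n : ℕ) (y₀ x : TT) :
    ‖(Hn lam b (M * L) F n).eval (chi x)‖ ^ 2 ≤ gn M L K n F y₀ *
      ∫ y, ‖(blk lam b (M * L) n).eval (chi (x - y))‖ ^ 2 * wt L (y - y₀) ^ (-(2 * K : ℝ)) ∂mu := by
  have hL0 : (0:ℝ) ≤ L := Nat.cast_nonneg L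
  have hw : ∀ y, 0 < wt L (y - y₀) := fun y => wt_pos hL0 _
  have hbc : Continuous (fun y => ‖(blk lam b (M * L) n).eval (chi (x - y))‖) :=
    ((pc _).comp (continuous_const.sub continuous_id)).norm
  have h1 : ‖(Hn lam b (M * L) F n).eval (chi x)‖ ≤
      ∫ y, (‖Gn M L n F y‖ * wt L (y - y₀) ^ (K : ℝ)) *
        (‖(blk lam b (M * L) n).eval (chi (x - y))‖ * wt L (y - y₀) ^ (-(K : ℝ))) ∂mu := by
    rw [Hn_repr hL]
    refine (norm_integral_le_integral_norm _).trans (le_of_eq ?_)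
    congr 1
    funext y
    rw [norm_mul, norm_mul, norm_pow, chi_norm, one_pow, one_mul]
    have : wt L (y - y₀) ^ (K : ℝ) * wt L (y - y₀) ^ (-(K : ℝ)) = 1 := by
      rw [← Real.rpow_add (hw y)]
      simp
    calc _ = (‖(blk lam b (M * L) n).eval (chi (x - y))‖ * ‖Gn M L n F y‖) *
          (wt L (y - y₀) ^ (K : ℝ) * wt L (y - y₀) ^ (-(K : ℝ))) := by rw [this, mul_one]
      _ = _ := by ring
  have h2 := cs (f := fun y => ‖Gn M L n F y‖ * wt L (y - y₀) ^ (K : ℝ))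
    (g := fun y => ‖(blk lam b (M * L) n).eval (chi (x - y))‖ * wt L (y - y₀) ^ (-(K : ℝ)))
    ((Gn_cont hL n F).norm.mul (wc hL0 _ _)) (hbc.mul (wc hL0 _ _))
    (fun y => by have := hw y; positivity) (fun y => by have := hw y; positivity)
  have e1 : ∀ y, (‖Gn M L n F y‖ * wt L (y - y₀) ^ (K : ℝ)) ^ 2 =
      ‖Gn M L n F y‖ ^ 2 * wt L (y - y₀) ^ (2 * K : ℝ) := by
    intro y
    rw [mul_pow, ← Real.rpow_natCast (wt L (y - y₀) ^ (K : ℝ)), ← Real.rpow_mul (hw y).le]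
    congr 2
    push_cast
    ring
  have e2 : ∀ y, (‖(blk lam b (M * L) n).eval (chi (x - y))‖ * wt L (y - y₀) ^ (-(K : ℝ))) ^ 2 =
      ‖(blk lam b (M * L) n).eval (chi (x - y))‖ ^ 2 * wt L (y - y₀) ^ (-(2 * K : ℝ)) := by
    intro y
    rw [mul_pow, ← Real.rpow_natCast (wt L (y - y₀) ^ (-(K : ℝ))), ← Real.rpow_mul (hw y).le]
    congr 2
    push_cast
    ring
  simp only [e1, e2] at h2
  calc _ ≤ _ := by gcongr
    _ ≤ _ := h2

/-- Bessel's inequality for the localised pieces -/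
lemma Gn_bessel {M L : ℕ} (hL : 1 ≤ L) (F : ℂ[X]) (S : Finset ℕ) (y : TT) :
    ∑ n ∈ S, ‖Gn M L n F y‖ ^ 2 ≤ ∫ u, ‖D0 M L (y - u)‖ ^ 2 * ‖F.eval (chi u)‖ ^ 2 ∂mu := by
  have hDc := D0_cont (M := M) hL
  have hΦ : Continuous (fun u => D0 M L (y - u) * F.eval (chi u)) :=
    (hDc.comp (continuous_const.sub continuous_id)).mul (pc F)
  have h3 := bessel_nat hΦ S
  have e1 : ∀ n, ‖Gn M L n F y‖ = ‖∫ u, chi (-u) ^ n * (D0 M L (y - u) * F.eval (chi u)) ∂mu‖ := by
    intro n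
    have : Gn M L n F y = chi y ^ n *
        ∫ u, chi (-u) ^ n * (D0 M L (y - u) * F.eval (chi u)) ∂mu := by
      unfold Gn Dn
      rw [← integral_const_mul]
      congr 1
      funext u
      rw [chi_sub, mul_pow]
      ring
    rw [this, norm_mul, norm_pow, chi_norm, one_pow, one_mul]
  simp_rw [e1]
  refine h3.trans (le_of_eq ?_)
  congr 1
  funext u
  rw [norm_mul, mul_pow]

lemma D0_weight (M K : ℕ) : ∃ C : ℝ, 0 < C ∧ ∀ (L : ℕ), 1 ≤ L → ∀ (u y₀ : TT),
    ∫ y, ‖D0 M L (y - u)‖ ^ 2 * wt L (y - y₀) ^ (2 * K : ℝ) ∂mu ≤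
      C * L * wt L (u - y₀) ^ (2 * K : ℝ) := by
  obtain ⟨C1, hC1, h1⟩ := D0_bound M (K + 1)
  obtain ⟨C2, hC2, h2⟩ := kint 2 (by norm_num)
  refine ⟨C1 ^ 2 * C2, by positivity, fun L hL u y₀ => ?_⟩
  have hL0' : (0:ℝ) < L := by exact_mod_cast hL
  have hL0 := hL0'.le
  have hw : ∀ y, 0 < wt L y := fun y => wt_pos hL0 _
  have hDc := D0_cont (M := M) hL
  have key : ∀ y, ‖D0 M L (y - u)‖ ^ 2 * wt L (y - y₀) ^ (2 * K : ℝ) ≤
      (wt L (u - y₀) ^ (2 * K : ℝ) * (C1 ^ 2 * L ^ 2)) * wt L (y - u) ^ (-2 : ℝ) := by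
    intro y
    have b1 : ‖D0 M L (y - u)‖ ^ 2 ≤ C1 ^ 2 * L ^ 2 * wt L (y - u) ^ (-(2 * K + 2) : ℝ) := by
      calc ‖D0 M L (y - u)‖ ^ 2
          ≤ (C1 * L * wt L (y - u) ^ (-((K + 1 : ℕ) : ℝ))) ^ 2 := by
            have := h1 L hL (y - u)
            gcongr
        _ = _ := by
            rw [mul_pow, mul_pow, ← Real.rpow_natCast (wt L (y - u) ^ _),
              ← Real.rpow_mul (hw _).le]
            congr 2
            push_cast
            ring
    have b2 : wt L (y - y₀) ^ (2 * K : ℝ) ≤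
        wt L (y - u) ^ (2 * K : ℝ) * wt L (u - y₀) ^ (2 * K : ℝ) := by
      rw [← Real.mul_rpow (hw _).le (hw _).le]
      apply Real.rpow_le_rpow (hw _).le (wt_tri hL0 _ _ _)
      positivity
    have b3 : wt L (y - u) ^ (-(2 * K + 2) : ℝ) * wt L (y - u) ^ (2 * K : ℝ) =
        wt L (y - u) ^ (-2 : ℝ) := by
      rw [← Real.rpow_add (hw _)]
      congr 1
      ring
    have b4 : 0 ≤ wt L (y - y₀) ^ (2 * K : ℝ) := Real.rpow_nonneg (hw _).le _
    have b5 : 0 ≤ wt L (y - u) ^ (-(2 * K + 2) : ℝ) := Real.rpow_nonneg (hw _).le _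
    calc ‖D0 M L (y - u)‖ ^ 2 * wt L (y - y₀) ^ (2 * K : ℝ)
        ≤ (C1 ^ 2 * L ^ 2 * wt L (y - u) ^ (-(2 * K + 2) : ℝ)) *
          (wt L (y - u) ^ (2 * K : ℝ) * wt L (u - y₀) ^ (2 * K : ℝ)) :=
          mul_le_mul b1 b2 b4 (by positivity)
      _ = (wt L (u - y₀) ^ (2 * K : ℝ) * (C1 ^ 2 * L ^ 2)) *
          (wt L (y - u) ^ (-(2 * K + 2) : ℝ) * wt L (y - u) ^ (2 * K : ℝ)) := by ring
      _ = _ := by rw [b3]
  have c1 : Continuous (fun y => ‖D0 M L (y - u)‖ ^ 2 * wt L (y - y₀) ^ (2 * K : ℝ)) :=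
    ((hDc.comp (continuous_id.sub continuous_const)).norm.pow 2).mul (wc hL0 (2 * K) y₀)
  have c2 : Continuous (fun y => (wt L (u - y₀) ^ (2 * K : ℝ) * (C1 ^ 2 * L ^ 2)) *
      wt L (y - u) ^ (-2 : ℝ)) := continuous_const.mul (wc hL0 (-2) u)
  have h3 := integral_mono (cint c1) (cint c2) key
  rw [integral_const_mul] at h3
  refine h3.trans ?_
  have h4 := kint_sub (h2 L hL0') u
  have b6 := hw (u - y₀)
  calc wt L (u - y₀) ^ (2 * K : ℝ) * (C1 ^ 2 * L ^ 2) * ∫ y, wt L (y - u) ^ (-2 : ℝ) ∂mu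
      ≤ wt L (u - y₀) ^ (2 * K : ℝ) * (C1 ^ 2 * L ^ 2) * (C2 / L) :=
        mul_le_mul_of_nonneg_left h4 (by positivity)
    _ = _ := by field_simp

/-- the sum of the weighted masses -/
lemma gn_sum (M K : ℕ) : ∃ C : ℝ, 0 < C ∧ ∀ (L : ℕ), 1 ≤ L → ∀ (F : ℂ[X]) (y₀ : TT)
    (S : Finset ℕ), ∑ n ∈ S, gn M L K n F y₀ ≤
      C * L * ∫ u, ‖F.eval (chi u)‖ ^ 2 * wt L (u - y₀) ^ (2 * K : ℝ) ∂mu := by
  obtain ⟨C, hC, h1⟩ := D0_weight M K
  refine ⟨C, hC, fun L hL F y₀ S => ?_⟩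
  have hL0' : (0:ℝ) < L := by exact_mod_cast hL
  have hL0 := hL0'.le
  have hw : ∀ y, 0 < wt L y := fun y => wt_pos hL0 _
  have hDc := D0_cont (M := M) hL
  have a1 : Continuous (fun q : TT × TT => ‖D0 M L (q.1 - q.2)‖ ^ 2) :=
    (hDc.comp (continuous_fst.sub continuous_snd)).norm.pow 2
  have a2 : Continuous (fun q : TT × TT => ‖F.eval (chi q.2)‖ ^ 2) :=
    ((pc F).comp continuous_snd).norm.pow 2
  have a3 : Continuous (fun q : TT × TT => wt L (q.1 - y₀) ^ (2 * K : ℝ)) :=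
    (wc hL0 (2 * K : ℝ) y₀).comp continuous_fst
  have hjc : Continuous (fun q : TT × TT => ‖F.eval (chi q.2)‖ ^ 2 *
      (‖D0 M L (q.1 - q.2)‖ ^ 2 * wt L (q.1 - y₀) ^ (2 * K : ℝ))) := a2.mul (a1.mul a3)
  have hjc' : Continuous (fun q : TT × TT => ‖F.eval (chi q.1)‖ ^ 2 *
      (‖D0 M L (q.2 - q.1)‖ ^ 2 * wt L (q.2 - y₀) ^ (2 * K : ℝ))) := hjc.comp continuous_swap
  have hin : Continuous (fun y => ∫ u, ‖D0 M L (y - u)‖ ^ 2 * ‖F.eval (chi u)‖ ^ 2 ∂mu) :=
    cont_int (F := fun y u => ‖D0 M L (y - u)‖ ^ 2 * ‖F.eval (chi u)‖ ^ 2) (a1.mul a2)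
  have s1 : ∑ n ∈ S, gn M L K n F y₀ =
      ∫ y, (∑ n ∈ S, ‖Gn M L n F y‖ ^ 2) * wt L (y - y₀) ^ (2 * K : ℝ) ∂mu := by
    unfold gn
    rw [← integral_finsetSum]
    · congr 1
      funext y
      rw [Finset.sum_mul]
    · intro n _
      exact cint (((Gn_cont hL n F).norm.pow 2).mul (wc hL0 (2 * K) y₀))
  have s2 : ∫ y, (∑ n ∈ S, ‖Gn M L n F y‖ ^ 2) * wt L (y - y₀) ^ (2 * K : ℝ) ∂mu ≤
      ∫ y, (∫ u, ‖D0 M L (y - u)‖ ^ 2 * ‖F.eval (chi u)‖ ^ 2 ∂mu) *
          wt L (y - y₀) ^ (2 * K : ℝ) ∂mu := by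
    apply integral_mono
    · exact cint ((continuous_finsetSum _ fun n _ => (Gn_cont hL n F).norm.pow 2).mul
        (wc hL0 (2 * K) y₀))
    · exact cint (hin.mul (wc hL0 (2 * K) y₀))
    · intro y
      exact mul_le_mul_of_nonneg_right (Gn_bessel hL F S y) (Real.rpow_nonneg (hw _).le _)
  have s3 : ∫ y, (∫ u, ‖D0 M L (y - u)‖ ^ 2 * ‖F.eval (chi u)‖ ^ 2 ∂mu) *
          wt L (y - y₀) ^ (2 * K : ℝ) ∂mu =
      ∫ y, ∫ u, ‖F.eval (chi u)‖ ^ 2 *
      (‖D0 M L (y - u)‖ ^ 2 * wt L (y - y₀) ^ (2 * K : ℝ)) ∂mu ∂mu := by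
    congr 1
    funext y
    rw [← integral_mul_const]
    congr 1
    funext u
    ring
  have s4 : ∫ y, ∫ u, ‖F.eval (chi u)‖ ^ 2 *
      (‖D0 M L (y - u)‖ ^ 2 * wt L (y - y₀) ^ (2 * K : ℝ)) ∂mu ∂mu =
      ∫ u, ∫ y, ‖F.eval (chi u)‖ ^ 2 *
      (‖D0 M L (y - u)‖ ^ 2 * wt L (y - y₀) ^ (2 * K : ℝ)) ∂mu ∂mu := swap hjc
  have s5 : ∫ u, ∫ y, ‖F.eval (chi u)‖ ^ 2 *
      (‖D0 M L (y - u)‖ ^ 2 * wt L (y - y₀) ^ (2 * K : ℝ)) ∂mu ∂mu ≤
      ∫ u, C * L * (‖F.eval (chi u)‖ ^ 2 * wt L (u - y₀) ^ (2 * K : ℝ)) ∂mu := by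
    apply integral_mono
    · exact cint (cont_int hjc')
    · exact cint (continuous_const.mul (((pc F).norm.pow 2).mul (wc hL0 (2 * K) y₀)))
    · intro u
      beta_reduce
      rw [integral_const_mul]
      have := h1 L hL u y₀
      calc ‖F.eval (chi u)‖ ^ 2 * ∫ y, ‖D0 M L (y - u)‖ ^ 2 * wt L (y - y₀) ^ (2 * K : ℝ) ∂mu
          ≤ ‖F.eval (chi u)‖ ^ 2 * (C * L * wt L (u - y₀) ^ (2 * K : ℝ)) :=
            mul_le_mul_of_nonneg_left this (by positivity)
        _ = _ := by ring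
  rw [integral_const_mul] at s5
  rw [s1]
  exact s2.trans ((s3.trans s4).le.trans s5)

end Pool.Agent.H200
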