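import Mathlib
import Pool.Agent.H200.Mol2

/-! Ingredients of the molecule estimate. -/

set_option autoImplicit false

open MeasureTheory AddCircle Polynomial
open scoped ENNReal NNReal

namespace Pool.Agent.H200


/-- the pieces add up to the image -/
lemma Hn_sum {R N : ℕ} (lam b : ℕ → ℂ) (hb : ∑ k ∈ Finset.range R, b k = 1) (F : ℂ[X])
    (hF : ∀ k, F.coeff k ≠ 0 → ∀ j, k < j → b j = 0) (hN : F.natDegree < N) :
    ∑ n ∈ Finset.range N, Hn lam b R F n = Tm lam F := by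
  ext m
  rw [Polynomial.finsetSum_coeff, Tm_coeff]
  simp_rw [Hn_coeff]
  by_cases h0 : F.coeff m = 0
  · rw [h0]
    simp
  have h1 := hF m h0
  have h2 : m < N := by
    by_contra h
    exact h0 (Polynomial.coeff_eq_zero_of_natDegree_lt (by omega))
  rw [← Finset.sum_filter]
  have h3 : ∑ n ∈ (Finset.range N).filter (fun n => n ≤ m ∧ m < n + R),
      b (m - n) * lam m * F.coeff m =
      ∑ k ∈ (Finset.range R).filter (fun k => k ≤ m), b k * lam m * F.coeff m := by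
    apply Finset.sum_nbij' (fun n => m - n) (fun k => m - k)
    · intro n hn
      simp only [Finset.mem_filter, Finset.mem_range] at hn ⊢
      omega
    · intro k hk
      simp only [Finset.mem_filter, Finset.mem_range] at hk ⊢
      omega
    · intro n hn
      simp only [Finset.mem_filter, Finset.mem_range] at hn ⊢
      omega
    · intro k hk
      simp only [Finset.mem_filter, Finset.mem_range] at hk ⊢
      omega
    · intro n _
      rfl
  have h4 : ∑ k ∈ (Finset.range R).filter (fun k => k ≤ m), b k = 1 := by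
    rw [← hb]
    apply Finset.sum_subset (Finset.filter_subset _ _)
    intro k hk hk'
    apply h1
    by_contra hc
    exact hk' (Finset.mem_filter.mpr ⟨hk, by omega⟩)
  rw [h3, ← Finset.sum_mul, ← Finset.sum_mul, h4, one_mul]

/-- translated localising polynomial -/
noncomputable def RPt (K L : ℕ) (t : TT) : ℂ[X] := (RP K L).comp (C (chi (-t)) * X)

lemma RPt_eval (K L : ℕ) (t x : TT) : (RPt K L t).eval (chi x) = (RP K L).eval (chi (x - t)) := by
  unfold RPt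
  rw [Polynomial.eval_comp]
  simp only [Polynomial.eval_mul, Polynomial.eval_C, Polynomial.eval_X]
  rw [chi_sub, mul_comm]

lemma RPt_natDegree (K L : ℕ) (t : TT) : (RPt K L t).natDegree ≤ K * (L - 1) := by
  unfold RPt
  refine Polynomial.natDegree_comp_le.trans ?_
  have h1 := RP_natDegree K L
  have h2 : (C (chi (-t)) * X : ℂ[X]).natDegree ≤ 1 :=
    (Polynomial.natDegree_C_mul_le _ _).trans Polynomial.natDegree_X_le
  calc _ ≤ (K * (L - 1)) * 1 := Nat.mul_le_mul h1 h2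
    _ = _ := mul_one _

lemma RPH_coeff {M K L : ℕ} (lam b : ℕ → ℂ) (F : ℂ[X]) (t : TT) (n k : ℕ)
    (h : (RPt K L t * Hn lam b (M * L) F n).coeff k ≠ 0) :
    n ≤ k ∧ k < n + M * L + K * (L - 1) := by
  by_contra hc
  apply h
  rw [Polynomial.coeff_mul]
  apply Finset.sum_eq_zero
  intro q hq
  rw [Finset.HasAntidiagonal.mem_antidiagonal] at hq
  by_cases h1 : (RPt K L t).coeff q.1 = 0
  · rw [h1, zero_mul]
  have h2 : q.1 ≤ K * (L - 1) := by
    by_contra h3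
    apply h1
    apply Polynomial.coeff_eq_zero_of_natDegree_lt
    have := RPt_natDegree K L t
    omega
  rw [Hn_coeff, if_neg (by omega), mul_zero]

lemma It_bound {M K L N : ℕ} (hL : 1 ≤ L) (lam b : ℕ → ℂ)
    (hb : ∑ k ∈ Finset.range (M * L), b k = 1) (F : ℂ[X])
    (hF : ∀ k, F.coeff k ≠ 0 → ∀ j, k < j → b j = 0) (hN : F.natDegree < N) (t : TT) :
    ∫ x, ‖(RP K L).eval (chi (x - t))‖ ^ 2 * ‖(Tm lam F).eval (chi x)‖ ^ 2 ∂mu ≤
      ((M + K : ℕ) * L : ℝ) * ∑ n ∈ Finset.range N,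
        ∫ x, ‖(RP K L).eval (chi (x - t))‖ ^ 2 * ‖(Hn lam b (M * L) F n).eval (chi x)‖ ^ 2 ∂mu := by
  have h := ao (Finset.range N) (fun n => RPt K L t * Hn lam b (M * L) F n) ((M + K) * L) (by
    intro k
    calc ((Finset.range N).filter (fun n => (RPt K L t * Hn lam b (M * L) F n).coeff k ≠ 0)).card
        ≤ (Finset.Ico (k + 1 - (M + K) * L) (k + 1)).card := by
          apply Finset.card_le_card
          intro n hn
          rw [Finset.mem_filter] at hn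
          have h1 := RPH_coeff lam b F t n k hn.2
          rw [Finset.mem_Ico]
          have h2 : K * (L - 1) ≤ K * L := Nat.mul_le_mul_left _ (by omega)
          have h3 : (M + K) * L = M * L + K * L := by ring
          omega
      _ ≤ (M + K) * L := by
          rw [Nat.card_Ico]
          omega)
  simp only [Polynomial.eval_mul, RPt_eval, norm_mul, mul_pow] at h
  have h2 : ∀ x, ∑ n ∈ Finset.range N, (RP K L).eval (chi (x - t)) *
      (Hn lam b (M * L) F n).eval (chi x) =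
      (RP K L).eval (chi (x - t)) * (Tm lam F).eval (chi x) := by
    intro x
    rw [← Finset.mul_sum, ← Polynomial.eval_finsetSum, Hn_sum lam b hb F hF hN]
  simp only [h2, norm_mul, mul_pow] at h
  push_cast at h ⊢
  exact h



/-- the square function of the blocks -/
noncomputable def G2 (lam b : ℕ → ℂ) (R : ℕ) (S : Finset ℕ) (β : ℕ → ℝ) (v : TT) : ℝ :=
  ∑ n ∈ S, β n * ‖(blk lam b R n).eval (chi v)‖ ^ 2

lemma G2_cont (lam b : ℕ → ℂ) (R : ℕ) (S : Finset ℕ) (β : ℕ → ℝ) :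
    Continuous (G2 lam b R S β) := by
  unfold G2
  apply continuous_finsetSum
  intro n _
  exact continuous_const.mul ((pc _).norm.pow 2)

lemma G2_nonneg (lam b : ℕ → ℂ) (R : ℕ) (S : Finset ℕ) {β : ℕ → ℝ} (hβ : ∀ n ∈ S, 0 ≤ β n)
    (v : TT) : 0 ≤ G2 lam b R S β v := by
  unfold G2
  apply Finset.sum_nonneg
  intro n hn
  have := hβ n hn
  positivity

lemma G2_aux (lam b : ℕ → ℂ) (R : ℕ) (S : Finset ℕ) (β : ℕ → ℝ) (hβ : ∀ n ∈ S, 0 ≤ β n)
    (u : TT) (h0 : 0 < G2 lam b R S β u) : ∃ P : ℂ[X], P.natDegree ≤ R ∧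
      ‖P.eval (chi u)‖ = Real.sqrt (G2 lam b R S β u) ∧
      ∀ x, ‖P.eval (chi x)‖ ≤ Real.sqrt (G2 lam b R S β x) := by
  set G : ℝ := Real.sqrt (G2 lam b R S β u) with hGd
  have hGp : 0 < G := Real.sqrt_pos.mpr h0
  have hGs : G ^ 2 = G2 lam b R S β u := Real.sq_sqrt h0.le
  set α : ℕ → ℂ := fun n => ((β n : ℝ) : ℂ) *
    (starRingEnd ℂ) ((blk lam b R n).eval (chi u)) / (G : ℂ) with hα
  set P : ℂ[X] := ∑ n ∈ S, C (α n) * blk lam b R n with hP
  have hPe : ∀ x : TT, P.eval (chi x) = ∑ n ∈ S, α n * (blk lam b R n).eval (chi x) := by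
    intro x
    rw [hP, Polynomial.eval_finsetSum]
    simp only [Polynomial.eval_mul, Polynomial.eval_C]
  refine ⟨P, ?_, ?_, ?_⟩
  · rw [hP]
    apply Polynomial.natDegree_sum_le_of_forall_le
    intro n _
    exact (Polynomial.natDegree_C_mul_le _ _).trans (blk_natDegree lam b _ n)
  · have e1 : P.eval (chi u) = ((G : ℝ) : ℂ) := by
      rw [hPe]
      have e2 : ∀ n, α n * (blk lam b R n).eval (chi u) =
          (((β n * ‖(blk lam b R n).eval (chi u)‖ ^ 2 : ℝ) : ℂ)) / (G : ℂ) := by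
        intro n
        rw [hα, ← Complex.normSq_eq_norm_sq, Complex.ofReal_mul, ← Complex.mul_conj]
        ring
      simp_rw [e2]
      rw [← Finset.sum_div, ← Complex.ofReal_sum]
      have e3 : ∑ n ∈ S, β n * ‖(blk lam b R n).eval (chi u)‖ ^ 2 = G ^ 2 := by
        rw [hGs]; rfl
      rw [e3]
      have : (G : ℂ) ≠ 0 := by exact_mod_cast hGp.ne'
      push_cast
      field_simp
    rw [e1, Complex.norm_real, Real.norm_of_nonneg hGp.le]
  · intro x
    rw [hPe]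
    refine (norm_sum_le _ _).trans ?_
    have e1 : ∀ n ∈ S, ‖α n * (blk lam b R n).eval (chi x)‖ =
        (Real.sqrt (β n) * ‖(blk lam b R n).eval (chi u)‖) *
          (Real.sqrt (β n) * ‖(blk lam b R n).eval (chi x)‖) / G := by
      intro n hn
      rw [hα]
      beta_reduce
      rw [norm_mul, norm_div, norm_mul, RCLike.norm_conj, Complex.norm_real,
        Complex.norm_real, Real.norm_of_nonneg hGp.le, Real.norm_of_nonneg (hβ n hn)]
      have : Real.sqrt (β n) * Real.sqrt (β n) = β n := Real.mul_self_sqrt (hβ n hn)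
      calc _ = (β n) * ‖(blk lam b R n).eval (chi u)‖ *
          ‖(blk lam b R n).eval (chi x)‖ / G := by ring
        _ = (Real.sqrt (β n) * Real.sqrt (β n)) * ‖(blk lam b R n).eval (chi u)‖ *
          ‖(blk lam b R n).eval (chi x)‖ / G := by rw [this]
        _ = _ := by ring
    rw [Finset.sum_congr rfl e1, ← Finset.sum_div, div_le_iff₀ hGp]
    have e2 := Finset.sum_mul_sq_le_sq_mul_sq S
      (fun n => Real.sqrt (β n) * ‖(blk lam b R n).eval (chi u)‖)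
      (fun n => Real.sqrt (β n) * ‖(blk lam b R n).eval (chi x)‖)
    have e3 : ∀ y : TT, ∑ n ∈ S, (Real.sqrt (β n) * ‖(blk lam b R n).eval (chi y)‖) ^ 2 =
        G2 lam b R S β y := by
      intro y
      unfold G2
      apply Finset.sum_congr rfl
      intro n hn
      rw [mul_pow, Real.sq_sqrt (hβ n hn)]
    rw [e3, e3] at e2
    have e4 := Real.sqrt_le_sqrt e2
    rw [Real.sqrt_sq (Finset.sum_nonneg fun n _ => by positivity),
      Real.sqrt_mul h0.le] at e4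
    calc _ ≤ _ := e4
      _ = _ := by rw [mul_comm]

lemma G2_pp (p : ℝ) (hp : 0 < p) (hp2 : p ≤ 2) (M : ℕ) : ∃ C : ℝ, 0 < C ∧
    ∀ (L : ℕ), 1 ≤ L → ∀ (lam b : ℕ → ℂ) (S : Finset ℕ) (β : ℕ → ℝ), (∀ n ∈ S, 0 ≤ β n) →
      ∀ u : TT, G2 lam b (M * L) S β u ^ (p / 2) ≤
        C * L * ∫ x, G2 lam b (M * L) S β x ^ (p / 2) * wt L (x - u) ^ (-2 : ℝ) ∂mu := by
  obtain ⟨C0, hC, h1⟩ := PP p hp hp2 M
  refine ⟨C0, hC, fun L hL lam b S β hβ u => ?_⟩
  have hL0' : (1:ℝ) ≤ L := by exact_mod_cast hL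
  have hL0 : (0:ℝ) ≤ L := by linarith
  have hw : ∀ y, 0 < wt L y := fun y => wt_pos hL0 _
  have hG := G2_nonneg lam b (M * L) S hβ
  have hR : 0 ≤ C0 * L * ∫ x, G2 lam b (M * L) S β x ^ (p / 2) * wt L (x - u) ^ (-2 : ℝ) ∂mu := by
    apply mul_nonneg (by positivity)
    apply integral_nonneg
    intro x
    exact mul_nonneg (Real.rpow_nonneg (hG x) _) (Real.rpow_nonneg (hw _).le _)
  rcases (hG u).eq_or_lt with h0 | h0
  · rw [← h0, Real.zero_rpow (by positivity)]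
    exact hR
  obtain ⟨P, hPd', hPu, hPx⟩ := G2_aux lam b (M * L) S β hβ u h0
  have hPd : (P.natDegree : ℝ) ≤ M * L := by exact_mod_cast hPd'
  have h2 := h1 P L hL0' hPd u
  rw [hPu] at h2
  have h3 : ∀ x : TT, (Real.sqrt (G2 lam b (M * L) S β x)) ^ p =
      G2 lam b (M * L) S β x ^ (p / 2) := by
    intro x
    rw [Real.sqrt_eq_rpow, ← Real.rpow_mul (hG x)]
    congr 1
    ring
  rw [h3] at h2
  have h4 : ∫ x, ‖P.eval (chi x)‖ ^ p * wt L (x - u) ^ (-2 : ℝ) ∂mu ≤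
      ∫ x, G2 lam b (M * L) S β x ^ (p / 2) * wt L (x - u) ^ (-2 : ℝ) ∂mu := by
    apply integral_mono
    · exact cint (((pc P).norm.rpow_const (fun x => Or.inr hp.le)).mul (wc hL0 (-2) u))
    · exact cint (((G2_cont lam b (M * L) S β).rpow_const (fun x => Or.inr (by positivity))).mul
        (wc hL0 (-2) u))
    · intro x
      beta_reduce
      apply mul_le_mul_of_nonneg_right _ (Real.rpow_nonneg (hw _).le _)
      rw [← h3]
      exact Real.rpow_le_rpow (norm_nonneg _) (hPx x) hp.le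
  exact h2.trans (mul_le_mul_of_nonneg_left h4 (by positivity))



/-- decoupling of two decaying weights -/
lemma wt_decouple {L : ℝ} (hL : 0 ≤ L) {K : ℕ} (hK : 1 ≤ K) (x v t y₀ : TT) :
    wt L (x - t) ^ (-(2 * K : ℝ)) * wt L (x - v - y₀) ^ (-(2 * K : ℝ)) ≤
      wt L (v - (t - y₀)) ^ (-(2 * K - 2 : ℝ)) * wt L (x - t) ^ (-2 : ℝ) := by
  have hK1 : (1 : ℝ) ≤ K := by exact_mod_cast hK
  have hw : ∀ y, 0 < wt L y := fun y => wt_pos hL _
  have e1 : wt L (x - t) ^ (-(2 * K : ℝ)) =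
      wt L (x - t) ^ (-(2 * K - 2 : ℝ)) * wt L (x - t) ^ (-2 : ℝ) := by
    rw [← Real.rpow_add (hw _)]
    congr 1
    ring
  have e2 : wt L (x - v - y₀) ^ (-(2 * K : ℝ)) ≤ wt L (x - v - y₀) ^ (-(2 * K - 2 : ℝ)) := by
    apply Real.rpow_le_rpow_of_exponent_le (wt_ge hL _)
    linarith
  have e3 : wt L (x - t) ^ (-(2 * K - 2 : ℝ)) * wt L (x - v - y₀) ^ (-(2 * K - 2 : ℝ)) ≤
      wt L (v - (t - y₀)) ^ (-(2 * K - 2 : ℝ)) := by
    have h := wt_rpow_tri hL (s := 2 * K - 2) (by linarith) (v + y₀) x t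
    have f1 : v + y₀ - x = -(x - v - y₀) := by abel
    have f2 : v + y₀ - t = v - (t - y₀) := by abel
    rw [f1, f2, wt_neg] at h
    rw [mul_comm]
    exact h
  have p1 : 0 ≤ wt L (x - t) ^ (-(2 * K - 2 : ℝ)) := Real.rpow_nonneg (hw _).le _
  have p2 : 0 ≤ wt L (x - t) ^ (-2 : ℝ) := Real.rpow_nonneg (hw _).le _
  rw [e1]
  calc wt L (x - t) ^ (-(2 * K - 2 : ℝ)) * wt L (x - t) ^ (-2 : ℝ) *
        wt L (x - v - y₀) ^ (-(2 * K : ℝ))
      ≤ wt L (x - t) ^ (-(2 * K - 2 : ℝ)) * wt L (x - t) ^ (-2 : ℝ) *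
        wt L (x - v - y₀) ^ (-(2 * K - 2 : ℝ)) := by gcongr
    _ = (wt L (x - t) ^ (-(2 * K - 2 : ℝ)) * wt L (x - v - y₀) ^ (-(2 * K - 2 : ℝ))) *
        wt L (x - t) ^ (-2 : ℝ) := by ring
    _ ≤ _ := by gcongr

lemma RPc (K L : ℕ) (t : TT) : Continuous (fun x : TT => ‖(RP K L).eval (chi (x - t))‖ ^ 2) :=
  (((pc (RP K L)).comp (continuous_id.sub continuous_const)).norm).pow 2

lemma wc3 {L : ℝ} (hL : 0 ≤ L) (s : ℝ) (v y₀ : TT) :
    Continuous (fun x : TT => wt L (x - v - y₀) ^ s) := by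
  have h : Continuous (fun x : TT => x - v - y₀) := by fun_prop
  exact (wt_rpow_cont hL s).comp h

lemma wc3' {L : ℝ} (hL : 0 ≤ L) (s : ℝ) (y₀ : TT) :
    Continuous (fun q : TT × TT => wt L (q.1 - q.2 - y₀) ^ s) := by
  have h : Continuous (fun q : TT × TT => q.1 - q.2 - y₀) := by fun_prop
  exact (wt_rpow_cont hL s).comp h

lemma dbl_joint (K L : ℕ) (t y₀ : TT) {Q : TT → ℝ} (hQ : Continuous Q) :
    Continuous (fun q : TT × TT => ‖(RP K L).eval (chi (q.1 - t))‖ ^ 2 *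
      (Q q.2 * wt L (q.1 - q.2 - y₀) ^ (-(2 * K : ℝ)))) := by
  have hL0 : (0:ℝ) ≤ L := Nat.cast_nonneg L
  exact ((RPc K L t).comp continuous_fst).mul ((hQ.comp continuous_snd).mul (wc3' hL0 _ y₀))

lemma dbl_joint' (K L : ℕ) (t y₀ : TT) {Q : TT → ℝ} (hQ : Continuous Q) :
    Continuous (fun v => ∫ x, ‖(RP K L).eval (chi (x - t))‖ ^ 2 *
      (Q v * wt L (x - v - y₀) ^ (-(2 * K : ℝ))) ∂mu) := by
  have h : Continuous (fun q : TT × TT => ‖(RP K L).eval (chi (q.2 - t))‖ ^ 2 *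
      (Q q.1 * wt L (q.2 - q.1 - y₀) ^ (-(2 * K : ℝ)))) := by
    have h0 := (dbl_joint K L t y₀ hQ).comp continuous_swap
    simp only [Function.comp_def, Prod.fst_swap, Prod.snd_swap] at h0
    exact h0
  exact cont_int (F := fun v x => ‖(RP K L).eval (chi (x - t))‖ ^ 2 *
      (Q v * wt L (x - v - y₀) ^ (-(2 * K : ℝ)))) h

lemma dbl_single (K L : ℕ) (t y₀ v : TT) (c : ℝ) :
    Continuous (fun x => ‖(RP K L).eval (chi (x - t))‖ ^ 2 *
        (c * wt L (x - v - y₀) ^ (-(2 * K : ℝ)))) :=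
  (RPc K L t).mul (continuous_const.mul (wc3 (Nat.cast_nonneg L) _ v y₀))

lemma dbl {K : ℕ} (hK : 1 ≤ K) : ∃ C : ℝ, 0 < C ∧ ∀ (L : ℕ), 1 ≤ L → ∀ (Q : TT → ℝ),
    Continuous Q → (∀ v, 0 ≤ Q v) → ∀ (y₀ t : TT),
    ∫ x, ‖(RP K L).eval (chi (x - t))‖ ^ 2 *
        (∫ y, Q (x - y) * wt L (y - y₀) ^ (-(2 * K : ℝ)) ∂mu) ∂mu ≤
      C / L * ∫ v, Q v * wt L (v - (t - y₀)) ^ (-(2 * K - 2 : ℝ)) ∂mu := by
  obtain ⟨C2, hC2, h2⟩ := kint 2 (by norm_num)
  refine ⟨9 ^ K * C2, by positivity, fun L hL Q hQ hQ0 y₀ t => ?_⟩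
  have hL0' : (0:ℝ) < L := by exact_mod_cast hL
  have hL0 : (0:ℝ) ≤ L := hL0'.le
  have hw : ∀ y, 0 < wt L y := fun y => wt_pos hL0 _
  have s1 : ∀ x, ∫ y, Q (x - y) * wt L (y - y₀) ^ (-(2 * K : ℝ)) ∂mu =
      ∫ v, Q v * wt L (x - v - y₀) ^ (-(2 * K : ℝ)) ∂mu := by
    intro x
    rw [← integral_sub_left_eq_self (fun v => Q v * wt L (x - v - y₀) ^ (-(2 * K : ℝ))) mu x]
    congr 1
    funext y
    congr 3
    abel
  have s2 : ∫ x, ‖(RP K L).eval (chi (x - t))‖ ^ 2 *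
        (∫ y, Q (x - y) * wt L (y - y₀) ^ (-(2 * K : ℝ)) ∂mu) ∂mu =
      ∫ x, ∫ v, ‖(RP K L).eval (chi (x - t))‖ ^ 2 *
        (Q v * wt L (x - v - y₀) ^ (-(2 * K : ℝ))) ∂mu ∂mu := by
    congr 1
    funext x
    rw [s1, integral_const_mul]
  have s3 : ∫ x, ∫ v, ‖(RP K L).eval (chi (x - t))‖ ^ 2 *
        (Q v * wt L (x - v - y₀) ^ (-(2 * K : ℝ))) ∂mu ∂mu =
      ∫ v, ∫ x, ‖(RP K L).eval (chi (x - t))‖ ^ 2 *
        (Q v * wt L (x - v - y₀) ^ (-(2 * K : ℝ))) ∂mu ∂mu := swap (dbl_joint K L t y₀ hQ)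
  have key : ∀ v x, ‖(RP K L).eval (chi (x - t))‖ ^ 2 *
        (Q v * wt L (x - v - y₀) ^ (-(2 * K : ℝ))) ≤
      (9 ^ K * (Q v * wt L (v - (t - y₀)) ^ (-(2 * K - 2 : ℝ)))) * wt L (x - t) ^ (-2 : ℝ) := by
    intro v x
    have k1 := RP_sq_bound (K := K) hL (x - t)
    have k2 := wt_decouple hL0 hK x v t y₀
    have k3 : 0 ≤ Q v * wt L (x - v - y₀) ^ (-(2 * K : ℝ)) :=
      mul_nonneg (hQ0 v) (Real.rpow_nonneg (hw _).le _)
    have k4 : 0 ≤ 9 ^ K * Q v := mul_nonneg (by positivity) (hQ0 v)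
    calc _ ≤ (9 ^ K * wt L (x - t) ^ (-(2 * K : ℝ))) *
          (Q v * wt L (x - v - y₀) ^ (-(2 * K : ℝ))) := mul_le_mul_of_nonneg_right k1 k3
      _ = (9 ^ K * Q v) * (wt L (x - t) ^ (-(2 * K : ℝ)) *
          wt L (x - v - y₀) ^ (-(2 * K : ℝ))) := by ring
      _ ≤ (9 ^ K * Q v) * (wt L (v - (t - y₀)) ^ (-(2 * K - 2 : ℝ)) * wt L (x - t) ^ (-2 : ℝ)) :=
          mul_le_mul_of_nonneg_left k2 k4
      _ = _ := by ring
  have s4 : ∀ v, ∫ x, ‖(RP K L).eval (chi (x - t))‖ ^ 2 *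
        (Q v * wt L (x - v - y₀) ^ (-(2 * K : ℝ))) ∂mu ≤
      (9 ^ K * (Q v * wt L (v - (t - y₀)) ^ (-(2 * K - 2 : ℝ)))) * (C2 / L) := by
    intro v
    have hc1 : Continuous (fun x => ‖(RP K L).eval (chi (x - t))‖ ^ 2 *
        (Q v * wt L (x - v - y₀) ^ (-(2 * K : ℝ)))) := dbl_single K L t y₀ v (Q v)
    have hc2 : Continuous (fun x => (9 ^ K * (Q v * wt L (v - (t - y₀)) ^ (-(2 * K - 2 : ℝ)))) *
        wt L (x - t) ^ (-2 : ℝ)) := continuous_const.mul (wc hL0 (-2) t)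
    have h3 := integral_mono (cint hc1) (cint hc2) (key v)
    rw [integral_const_mul] at h3
    refine h3.trans ?_
    apply mul_le_mul_of_nonneg_left (kint_sub (h2 L hL0') t)
    exact mul_nonneg (by positivity) (mul_nonneg (hQ0 v) (Real.rpow_nonneg (hw _).le _))
  have s5 : ∫ v, ∫ x, ‖(RP K L).eval (chi (x - t))‖ ^ 2 *
        (Q v * wt L (x - v - y₀) ^ (-(2 * K : ℝ))) ∂mu ∂mu ≤
      ∫ v, (9 ^ K * C2 / L) * (Q v * wt L (v - (t - y₀)) ^ (-(2 * K - 2 : ℝ))) ∂mu := by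
    apply integral_mono
    · exact cint (dbl_joint' K L t y₀ hQ)
    · exact cint (continuous_const.mul (hQ.mul (wc hL0 (-(2 * K - 2 : ℝ)) (t - y₀))))
    · intro v
      refine (s4 v).trans (le_of_eq ?_)
      ring
  rw [integral_const_mul] at s5
  exact (s2.trans s3).le.trans s5

end Pool.Agent.H200
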