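import Mathlib
import Pool.Agent.H200.Mol3

/-! The molecule estimate. -/

set_option autoImplicit false

open MeasureTheory AddCircle Polynomial
open scoped ENNReal NNReal

namespace Pool.Agent.H200

lemma imono {f g : TT → ℝ} (hf : Continuous f) (hg : Continuous g) (h : ∀ x, f x ≤ g x) :
    ∫ x, f x ∂mu ≤ ∫ x, g x ∂mu := integral_mono (cint hf) (cint hg) h

lemma Hn_sq_G2 {M L N : ℕ} (hL : 1 ≤ L) (lam b : ℕ → ℂ) (F : ℂ[X]) (K : ℕ) (y₀ x : TT)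
    (s : ℝ) (hs0 : 0 < s) :
    ∑ n ∈ Finset.range N, ‖(Hn lam b (M * L) F n).eval (chi x)‖ ^ 2 ≤
      s * ∫ y, G2 lam b (M * L) (Finset.range N) (fun n => gn M L K n F y₀ / s) (x - y) *
        wt L (y - y₀) ^ (-(2 * K : ℝ)) ∂mu := by
  have hL0 : (0:ℝ) ≤ L := Nat.cast_nonneg L
  calc ∑ n ∈ Finset.range N, ‖(Hn lam b (M * L) F n).eval (chi x)‖ ^ 2
      ≤ ∑ n ∈ Finset.range N, gn M L K n F y₀ *
      ∫ y, ‖(blk lam b (M * L) n).eval (chi (x - y))‖ ^ 2 * wt L (y - y₀) ^ (-(2 * K : ℝ)) ∂mu :=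
        Finset.sum_le_sum fun n _ => Hn_sq hL lam b F K n y₀ x
    _ = ∑ n ∈ Finset.range N, ∫ y, s * ((gn M L K n F y₀ / s *
          ‖(blk lam b (M * L) n).eval (chi (x - y))‖ ^ 2) * wt L (y - y₀) ^ (-(2 * K : ℝ))) ∂mu := by
        apply Finset.sum_congr rfl
        intro n _
        rw [← integral_const_mul]
        congr 1
        funext y
        field_simp
    _ = ∫ y, ∑ n ∈ Finset.range N, s * ((gn M L K n F y₀ / s *
          ‖(blk lam b (M * L) n).eval (chi (x - y))‖ ^ 2) * wt L (y - y₀) ^ (-(2 * K : ℝ))) ∂mu := by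
        rw [integral_finsetSum]
        intro n _
        have h1 : Continuous (fun y => ‖(blk lam b (M * L) n).eval (chi (x - y))‖ ^ 2) :=
          (((pc _).comp (continuous_const.sub continuous_id)).norm).pow 2
        exact cint (continuous_const.mul ((continuous_const.mul h1).mul
          (wc hL0 (-(2 * K : ℝ)) y₀)))
    _ = ∫ y, s * (G2 lam b (M * L) (Finset.range N) (fun n => gn M L K n F y₀ / s) (x - y) *
        wt L (y - y₀) ^ (-(2 * K : ℝ))) ∂mu := by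
        congr 1
        funext y
        rw [← Finset.mul_sum, ← Finset.sum_mul]
        rfl
    _ = _ := by rw [integral_const_mul]

/-- the local average of the square function -/
noncomputable def gg (p : ℝ) (L : ℕ) (Q : TT → ℝ) (u : TT) : ℝ :=
  L * ∫ x, Q x ^ (p / 2) * wt L (x - u) ^ (-2 : ℝ) ∂mu

lemma gg_nonneg (p : ℝ) (L : ℕ) {Q : TT → ℝ} (hQ : ∀ x, 0 ≤ Q x) (u : TT) : 0 ≤ gg p L Q u := by
  have hL0 : (0:ℝ) ≤ L := Nat.cast_nonneg L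
  unfold gg
  apply mul_nonneg hL0
  apply integral_nonneg
  intro x
  exact mul_nonneg (Real.rpow_nonneg (hQ x) _) (Real.rpow_nonneg (wt_pos hL0 _).le _)

lemma gg_cont {p : ℝ} (hp : 0 < p) (L : ℕ) {Q : TT → ℝ} (hQ : Continuous Q) :
    Continuous (gg p L Q) := by
  have hL0 : (0:ℝ) ≤ L := Nat.cast_nonneg L
  have h1 : Continuous (fun x => Q x ^ (p / 2)) := hQ.rpow_const (fun x => Or.inr (by positivity))
  have h : Continuous (fun q : TT × TT => Q q.2 ^ (p / 2) * wt L (q.2 - q.1) ^ (-2 : ℝ)) :=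
    (h1.comp continuous_snd).mul (wc2 hL0 (-2))
  unfold gg
  exact continuous_const.mul
    (cont_int (F := fun u x => Q x ^ (p / 2) * wt L (x - u) ^ (-2 : ℝ)) h)

lemma gg_moderate {p : ℝ} (hp : 0 < p) (L : ℕ) {Q : TT → ℝ} (hQ : Continuous Q)
    (hQ0 : ∀ x, 0 ≤ Q x) (u t : TT) : gg p L Q u ≤ wt L (u - t) ^ (2 : ℝ) * gg p L Q t := by
  have hL0 : (0:ℝ) ≤ L := Nat.cast_nonneg L
  have hw : ∀ y, 0 < wt L y := fun y => wt_pos hL0 _
  have h1 : Continuous (fun x => Q x ^ (p / 2)) := hQ.rpow_const (fun x => Or.inr (by positivity))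
  have key : ∀ x, Q x ^ (p / 2) * wt L (x - u) ^ (-2 : ℝ) ≤
      wt L (u - t) ^ (2 : ℝ) * (Q x ^ (p / 2) * wt L (x - t) ^ (-2 : ℝ)) := by
    intro x
    have k1 : wt L (x - u) ^ (-2 : ℝ) * wt L (u - t) ^ (-2 : ℝ) ≤ wt L (x - t) ^ (-2 : ℝ) :=
      wt_rpow_tri hL0 (by norm_num) x u t
    have k2 : wt L (u - t) ^ (2 : ℝ) * wt L (u - t) ^ (-2 : ℝ) = 1 := by
      rw [← Real.rpow_add (hw _)]
      simp
    have k3 : 0 ≤ wt L (u - t) ^ (2 : ℝ) := Real.rpow_nonneg (hw _).le _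
    have k4 : 0 ≤ Q x ^ (p / 2) := Real.rpow_nonneg (hQ0 x) _
    calc Q x ^ (p / 2) * wt L (x - u) ^ (-2 : ℝ)
        = (Q x ^ (p / 2) * wt L (x - u) ^ (-2 : ℝ)) *
            (wt L (u - t) ^ (2 : ℝ) * wt L (u - t) ^ (-2 : ℝ)) := by rw [k2, mul_one]
      _ = (wt L (u - t) ^ (2 : ℝ) * Q x ^ (p / 2)) *
            (wt L (x - u) ^ (-2 : ℝ) * wt L (u - t) ^ (-2 : ℝ)) := by ring
      _ ≤ (wt L (u - t) ^ (2 : ℝ) * Q x ^ (p / 2)) * wt L (x - t) ^ (-2 : ℝ) :=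
          mul_le_mul_of_nonneg_left k1 (mul_nonneg k3 k4)
      _ = _ := by ring
  have h2 : ∫ x, Q x ^ (p / 2) * wt L (x - u) ^ (-2 : ℝ) ∂mu ≤
      ∫ x, wt L (u - t) ^ (2 : ℝ) * (Q x ^ (p / 2) * wt L (x - t) ^ (-2 : ℝ)) ∂mu :=
    imono (h1.mul (wc hL0 (-2) u)) (continuous_const.mul (h1.mul (wc hL0 (-2) t))) key
  rw [integral_const_mul] at h2
  unfold gg
  calc (L:ℝ) * ∫ x, Q x ^ (p / 2) * wt L (x - u) ^ (-2 : ℝ) ∂mu
      ≤ L * (wt L (u - t) ^ (2 : ℝ) * ∫ x, Q x ^ (p / 2) * wt L (x - t) ^ (-2 : ℝ) ∂mu) :=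
        mul_le_mul_of_nonneg_left h2 hL0
    _ = _ := by ring

lemma gg_int {p : ℝ} (hp : 0 < p) : ∃ C : ℝ, 0 < C ∧ ∀ (L : ℕ), 1 ≤ L → ∀ (Q : TT → ℝ),
    Continuous Q → (∀ v, 0 ≤ Q v) → ∫ u, gg p L Q u ∂mu ≤ C * ∫ x, Q x ^ (p / 2) ∂mu := by
  obtain ⟨C2, hC2, h2⟩ := kint 2 (by norm_num)
  refine ⟨C2, hC2, fun L hL Q hQ hQ0 => ?_⟩
  have hL0' : (0:ℝ) < L := by exact_mod_cast hL
  have hL0 : (0:ℝ) ≤ L := hL0'.le
  have h1 : Continuous (fun x => Q x ^ (p / 2)) := hQ.rpow_const (fun x => Or.inr (by positivity))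
  have h : Continuous (fun q : TT × TT => Q q.2 ^ (p / 2) * wt L (q.2 - q.1) ^ (-2 : ℝ)) :=
    (h1.comp continuous_snd).mul (wc2 hL0 (-2))
  have h' : Continuous (fun x => ∫ u, Q x ^ (p / 2) * wt L (x - u) ^ (-2 : ℝ) ∂mu) := by
    have : Continuous (fun q : TT × TT => Q q.1 ^ (p / 2) * wt L (q.1 - q.2) ^ (-2 : ℝ)) :=
      (h1.comp continuous_fst).mul (wc2' hL0 (-2))
    exact cont_int (F := fun x u => Q x ^ (p / 2) * wt L (x - u) ^ (-2 : ℝ)) this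
  have s1 : ∫ u, gg p L Q u ∂mu =
      L * ∫ x, ∫ u, Q x ^ (p / 2) * wt L (x - u) ^ (-2 : ℝ) ∂mu ∂mu := by
    unfold gg
    rw [integral_const_mul]
    congr 1
    exact swap (F := fun u x => Q x ^ (p / 2) * wt L (x - u) ^ (-2 : ℝ)) h
  have s2 : ∫ x, ∫ u, Q x ^ (p / 2) * wt L (x - u) ^ (-2 : ℝ) ∂mu ∂mu ≤
      ∫ x, (C2 / L) * Q x ^ (p / 2) ∂mu := by
    apply integral_mono (cint h') (cint (continuous_const.mul h1))
    intro x
    beta_reduce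
    rw [integral_const_mul, mul_comm]
    exact mul_le_mul_of_nonneg_right (kint_sub' (h2 L hL0') x) (Real.rpow_nonneg (hQ0 x) _)
  rw [integral_const_mul] at s2
  rw [s1]
  calc (L:ℝ) * ∫ x, ∫ u, Q x ^ (p / 2) * wt L (x - u) ^ (-2 : ℝ) ∂mu ∂mu
      ≤ L * (C2 / L * ∫ x, Q x ^ (p / 2) ∂mu) := mul_le_mul_of_nonneg_left s2 hL0
    _ = _ := by field_simp

/-- self-improvement for functions dominated by their local averages -/
lemma self_imp {p : ℝ} (hp : 0 < p) {K : ℕ} (hK : 2 + 2 / p ≤ K) (C1 : ℝ) (hC1 : 0 < C1) :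
    ∃ C : ℝ, 0 < C ∧ ∀ (L : ℕ), 1 ≤ L → ∀ (Q : TT → ℝ), Continuous Q → (∀ v, 0 ≤ Q v) →
      (∀ u, Q u ^ (p / 2) ≤ C1 * gg p L Q u) → ∀ t : TT,
        ∫ v, Q v * wt L (v - t) ^ (-(2 * K - 2 : ℝ)) ∂mu ≤ C / L * gg p L Q t ^ (2 / p) := by
  obtain ⟨C2, hC2, h2⟩ := kint 2 (by norm_num)
  refine ⟨C1 ^ (2 / p) * C2, by positivity, fun L hL Q hQ hQ0 hQg t => ?_⟩
  have hL0' : (0:ℝ) < L := by exact_mod_cast hL
  have hL0 : (0:ℝ) ≤ L := hL0'.le
  have hw : ∀ y, 0 < wt L y := fun y => wt_pos hL0 _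
  have hg := gg_nonneg p L hQ0
  have k1 : ∀ v, Q v ≤ (C1 ^ (2 / p) * gg p L Q t ^ (2 / p)) * wt L (v - t) ^ (4 / p : ℝ) := by
    intro v
    have e1 : Q v = (Q v ^ (p / 2)) ^ (2 / p) := by
      rw [← Real.rpow_mul (hQ0 v)]
      have : p / 2 * (2 / p) = 1 := by field_simp
      rw [this, Real.rpow_one]
    have e2 : Q v ^ (p / 2) ≤ C1 * (wt L (v - t) ^ (2 : ℝ) * gg p L Q t) :=
      (hQg v).trans (mul_le_mul_of_nonneg_left (gg_moderate hp L hQ hQ0 v t) hC1.le)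
    have e3 : 0 ≤ wt L (v - t) ^ (2 : ℝ) := Real.rpow_nonneg (hw _).le _
    calc Q v = (Q v ^ (p / 2)) ^ (2 / p) := e1
      _ ≤ (C1 * (wt L (v - t) ^ (2 : ℝ) * gg p L Q t)) ^ (2 / p) :=
          Real.rpow_le_rpow (Real.rpow_nonneg (hQ0 v) _) e2 (by positivity)
      _ = _ := by
          rw [Real.mul_rpow hC1.le (mul_nonneg e3 (hg t)), Real.mul_rpow e3 (hg t),
            ← Real.rpow_mul (hw _).le]
          have : (2 : ℝ) * (2 / p) = 4 / p := by ring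
          rw [this]
          ring
  have k2 : ∀ v, Q v * wt L (v - t) ^ (-(2 * K - 2 : ℝ)) ≤
      (C1 ^ (2 / p) * gg p L Q t ^ (2 / p)) * wt L (v - t) ^ (-2 : ℝ) := by
    intro v
    have e3 : 0 ≤ wt L (v - t) ^ (-(2 * K - 2 : ℝ)) := Real.rpow_nonneg (hw _).le _
    have e4 : 0 ≤ C1 ^ (2 / p) * gg p L Q t ^ (2 / p) :=
      mul_nonneg (by positivity) (Real.rpow_nonneg (hg t) _)
    have e5 : wt L (v - t) ^ (4 / p : ℝ) * wt L (v - t) ^ (-(2 * K - 2 : ℝ)) ≤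
        wt L (v - t) ^ (-2 : ℝ) := by
      rw [← Real.rpow_add (hw _)]
      apply Real.rpow_le_rpow_of_exponent_le (wt_ge hL0 _)
      have : 4 / p = 2 * (2 / p) := by ring
      linarith
    calc _ ≤ ((C1 ^ (2 / p) * gg p L Q t ^ (2 / p)) * wt L (v - t) ^ (4 / p : ℝ)) *
          wt L (v - t) ^ (-(2 * K - 2 : ℝ)) := mul_le_mul_of_nonneg_right (k1 v) e3
      _ = (C1 ^ (2 / p) * gg p L Q t ^ (2 / p)) *
          (wt L (v - t) ^ (4 / p : ℝ) * wt L (v - t) ^ (-(2 * K - 2 : ℝ))) := by ring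
      _ ≤ _ := mul_le_mul_of_nonneg_left e5 e4
  have h3 : ∫ v, Q v * wt L (v - t) ^ (-(2 * K - 2 : ℝ)) ∂mu ≤
      ∫ v, (C1 ^ (2 / p) * gg p L Q t ^ (2 / p)) * wt L (v - t) ^ (-2 : ℝ) ∂mu :=
    imono (hQ.mul (wc hL0 (-(2 * K - 2 : ℝ)) t)) (continuous_const.mul (wc hL0 (-2) t)) k2
  rw [integral_const_mul] at h3
  refine h3.trans ?_
  have e4 : 0 ≤ C1 ^ (2 / p) * gg p L Q t ^ (2 / p) :=
    mul_nonneg (by positivity) (Real.rpow_nonneg (hg t) _)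
  calc _ ≤ (C1 ^ (2 / p) * gg p L Q t ^ (2 / p)) * (C2 / L) :=
        mul_le_mul_of_nonneg_left (kint_sub (h2 L hL0') t) e4
    _ = _ := by ring

lemma mol_I {p : ℝ} (hp : 0 < p) (hp2 : p < 2) (M : ℕ) {K : ℕ} (hK : 2 + 2 / p ≤ K) :
    ∃ C : ℝ, 0 < C ∧ ∀ (L : ℕ), 1 ≤ L → ∀ (lam b : ℕ → ℂ),
    ∑ k ∈ Finset.range (M * L), b k = 1 → ∀ (F : ℂ[X]), (∀ k, F.coeff k ≠ 0 → ∀ j, k < j → b j = 0) →
    ∀ (y₀ : TT) (N : ℕ), F.natDegree < N →
    0 < ∑ n ∈ Finset.range N, gn M L K n F y₀ → ∀ t : TT,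
    ∫ x, ‖(RP K L).eval (chi (x - t))‖ ^ 2 * ‖(Tm lam F).eval (chi x)‖ ^ 2 ∂mu ≤
      C * (∫ u, ‖F.eval (chi u)‖ ^ 2 * wt L (u - y₀) ^ (2 * K : ℝ) ∂mu) *
        gg p L (G2 lam b (M * L) (Finset.range N)
          (fun n => gn M L K n F y₀ / ∑ n ∈ Finset.range N, gn M L K n F y₀)) (t - y₀) ^ (2 / p) := by
  have hK1 : 1 ≤ K := by
    have h1 : (0:ℝ) < 2 / p := by positivity
    have h2 : (0:ℝ) < K := by linarith
    exact_mod_cast h2
  obtain ⟨C1, hC1, h1⟩ := gn_sum M K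
  obtain ⟨C2, hC2, h2⟩ := dbl hK1
  obtain ⟨C3, hC3, h3⟩ := G2_pp p hp hp2.le M
  obtain ⟨C4, hC4, h4⟩ := self_imp hp hK C3 hC3
  refine ⟨((M + K : ℕ) : ℝ) * C1 * C2 * C4 + 1, by positivity, fun L hL lam b hb F hF y₀ N hN hs t => ?_⟩
  set s := ∑ n ∈ Finset.range N, gn M L K n F y₀ with hsd
  set β : ℕ → ℝ := fun n => gn M L K n F y₀ / s with hβd
  have hβ : ∀ n ∈ Finset.range N, 0 ≤ β n := fun n _ =>
    div_nonneg (gn_nonneg M L K n F y₀) hs.le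
  set Q := G2 lam b (M * L) (Finset.range N) β with hQd
  have hQc : Continuous Q := G2_cont lam b (M * L) (Finset.range N) β
  have hQ0 : ∀ v, 0 ≤ Q v := G2_nonneg lam b (M * L) (Finset.range N) hβ
  set B := ∫ u, ‖F.eval (chi u)‖ ^ 2 * wt L (u - y₀) ^ (2 * K : ℝ) ∂mu with hB
  have hL0' : (0:ℝ) < L := by exact_mod_cast hL
  have hL0 : (0:ℝ) ≤ L := hL0'.le
  have hw : ∀ y, 0 < wt L y := fun y => wt_pos hL0 _
  have hB0 : 0 ≤ B := by
    apply integral_nonneg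
    intro u
    exact mul_nonneg (by positivity) (Real.rpow_nonneg (hw _).le _)
  have hsB : s ≤ C1 * L * B := h1 L hL F y₀ (Finset.range N)
  have hgg : 0 ≤ gg p L Q (t - y₀) := gg_nonneg p L hQ0 _
  have hggp : 0 ≤ gg p L Q (t - y₀) ^ (2 / p) := Real.rpow_nonneg hgg _
  have hQg : ∀ u, Q u ^ (p / 2) ≤ C3 * gg p L Q u := by
    intro u
    have := h3 L hL lam b (Finset.range N) β hβ u
    unfold gg
    calc _ ≤ _ := this
      _ = _ := by ring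
  have st1 := It_bound (K := K) (M := M) hL lam b hb F hF hN t
  have hHc : ∀ n, Continuous (fun x => ‖(RP K L).eval (chi (x - t))‖ ^ 2 *
      ‖(Hn lam b (M * L) F n).eval (chi x)‖ ^ 2) := fun n => (RPc K L t).mul ((pc _).norm.pow 2)
  have st2 : ∑ n ∈ Finset.range N,
        ∫ x, ‖(RP K L).eval (chi (x - t))‖ ^ 2 * ‖(Hn lam b (M * L) F n).eval (chi x)‖ ^ 2 ∂mu =
      ∫ x, ‖(RP K L).eval (chi (x - t))‖ ^ 2 *
        ∑ n ∈ Finset.range N, ‖(Hn lam b (M * L) F n).eval (chi x)‖ ^ 2 ∂mu := by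
    rw [← integral_finsetSum _ (fun n _ => cint (hHc n))]
    congr 1
    funext x
    rw [Finset.mul_sum]
  have hcQ : Continuous (fun x => ∫ y, Q (x - y) * wt L (y - y₀) ^ (-(2 * K : ℝ)) ∂mu) := by
    have h : Continuous (fun q : TT × TT => Q (q.1 - q.2) * wt L (q.2 - y₀) ^ (-(2 * K : ℝ))) :=
      (hQc.comp (continuous_fst.sub continuous_snd)).mul
        ((wc hL0 (-(2 * K : ℝ)) y₀).comp continuous_snd)
    exact cont_int (F := fun x y => Q (x - y) * wt L (y - y₀) ^ (-(2 * K : ℝ))) h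
  have hcH : Continuous (fun x => ∑ n ∈ Finset.range N,
      ‖(Hn lam b (M * L) F n).eval (chi x)‖ ^ 2) :=
    continuous_finsetSum _ fun n _ => (pc (Hn lam b (M * L) F n)).norm.pow 2
  have st3 : ∫ x, ‖(RP K L).eval (chi (x - t))‖ ^ 2 *
        ∑ n ∈ Finset.range N, ‖(Hn lam b (M * L) F n).eval (chi x)‖ ^ 2 ∂mu ≤
      ∫ x, s * (‖(RP K L).eval (chi (x - t))‖ ^ 2 *
        (∫ y, Q (x - y) * wt L (y - y₀) ^ (-(2 * K : ℝ)) ∂mu)) ∂mu := by
    have key : ∀ x, ‖(RP K L).eval (chi (x - t))‖ ^ 2 *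
        ∑ n ∈ Finset.range N, ‖(Hn lam b (M * L) F n).eval (chi x)‖ ^ 2 ≤
        s * (‖(RP K L).eval (chi (x - t))‖ ^ 2 *
        (∫ y, Q (x - y) * wt L (y - y₀) ^ (-(2 * K : ℝ)) ∂mu)) := by
      intro x
      have := Hn_sq_G2 (M := M) (N := N) hL lam b F K y₀ x s hs
      calc _ ≤ ‖(RP K L).eval (chi (x - t))‖ ^ 2 *
          (s * ∫ y, Q (x - y) * wt L (y - y₀) ^ (-(2 * K : ℝ)) ∂mu) :=
          mul_le_mul_of_nonneg_left this (by positivity)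
        _ = _ := by ring
    exact imono ((RPc K L t).mul hcH) (continuous_const.mul ((RPc K L t).mul hcQ)) key
  rw [integral_const_mul] at st3
  have st4 := h2 L hL Q hQc hQ0 y₀ t
  have st5 := h4 L hL Q hQc hQ0 hQg (t - y₀)
  have hMK : (0:ℝ) ≤ ((M + K : ℕ) : ℝ) := Nat.cast_nonneg _
  have st6 : ∫ x, ‖(RP K L).eval (chi (x - t))‖ ^ 2 *
        (∫ y, Q (x - y) * wt L (y - y₀) ^ (-(2 * K : ℝ)) ∂mu) ∂mu ≤
        C2 / L * (C4 / L * gg p L Q (t - y₀) ^ (2 / p)) :=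
    st4.trans (mul_le_mul_of_nonneg_left st5 (by positivity))
  have hX : 0 ≤ C2 / L * (C4 / L * gg p L Q (t - y₀) ^ (2 / p)) := by positivity
  calc ∫ x, ‖(RP K L).eval (chi (x - t))‖ ^ 2 * ‖(Tm lam F).eval (chi x)‖ ^ 2 ∂mu
      ≤ ((M + K : ℕ) * L : ℝ) * (s * (C2 / L * (C4 / L * gg p L Q (t - y₀) ^ (2 / p)))) := by
        rw [st2] at st1
        refine st1.trans (mul_le_mul_of_nonneg_left ?_ (by positivity))
        exact st3.trans (mul_le_mul_of_nonneg_left st6 hs.le)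
    _ ≤ ((M + K : ℕ) * L : ℝ) *
          ((C1 * L * B) * (C2 / L * (C4 / L * gg p L Q (t - y₀) ^ (2 / p)))) := by
        apply mul_le_mul_of_nonneg_left _ (by positivity)
        exact mul_le_mul_of_nonneg_right hsB hX
    _ = (((M + K : ℕ) : ℝ) * C1 * C2 * C4) * B * gg p L Q (t - y₀) ^ (2 / p) := by
        field_simp
    _ ≤ _ := by
        apply mul_le_mul_of_nonneg_right _ hggp
        apply mul_le_mul_of_nonneg_right _ hB0
        linarith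

/-- averaging the local means -/
lemma avg_means {K L : ℕ} (hK : 1 ≤ K) (hL : 1 ≤ L) {h : TT → ℝ} (hh : Continuous h)
    (hh0 : ∀ x, 0 ≤ h x) : ∫ x, h x ∂mu ≤ ((K : ℝ) * L) *
      ∫ t, ∫ x, ‖(RP K L).eval (chi (x - t))‖ ^ 2 * h x ∂mu ∂mu := by
  have hK0 : (0:ℝ) < K := by exact_mod_cast hK
  have hL0 : (0:ℝ) < L := by exact_mod_cast hL
  have hRj : Continuous (fun q : TT × TT => ‖(RP K L).eval (chi (q.2 - q.1))‖ ^ 2) :=
    (((pc (RP K L)).comp (continuous_snd.sub continuous_fst)).norm).pow 2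
  have hj : Continuous (fun q : TT × TT => ‖(RP K L).eval (chi (q.2 - q.1))‖ ^ 2 * h q.2) :=
    hRj.mul (hh.comp continuous_snd)
  have s1 : ∫ t, ∫ x, ‖(RP K L).eval (chi (x - t))‖ ^ 2 * h x ∂mu ∂mu =
      ∫ x, ∫ t, ‖(RP K L).eval (chi (x - t))‖ ^ 2 * h x ∂mu ∂mu :=
    swap (F := fun t x => ‖(RP K L).eval (chi (x - t))‖ ^ 2 * h x) hj
  have s2 : ∀ x, ∫ t, ‖(RP K L).eval (chi (x - t))‖ ^ 2 * h x ∂mu =
      (∫ t, ‖(RP K L).eval (chi t)‖ ^ 2 ∂mu) * h x := by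
    intro x
    rw [integral_mul_const, integral_sub_left_eq_self (fun t => ‖(RP K L).eval (chi t)‖ ^ 2) mu x]
  have s3 : ∫ t, ∫ x, ‖(RP K L).eval (chi (x - t))‖ ^ 2 * h x ∂mu ∂mu =
      (∫ t, ‖(RP K L).eval (chi t)‖ ^ 2 ∂mu) * ∫ x, h x ∂mu := by
    rw [s1, ← integral_const_mul]
    congr 1
    funext x
    exact s2 x
  have h4 := RP_lower hK hL
  have h5 : 0 ≤ ∫ x, h x ∂mu := integral_nonneg hh0
  rw [s3]
  calc ∫ x, h x ∂mu = ((K : ℝ) * L) * (1 / ((K : ℝ) * L) * ∫ x, h x ∂mu) := by field_simp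
    _ ≤ _ := by gcongr

/-- **The molecule estimate.** -/
theorem mol {p : ℝ} (hp : 0 < p) (hp2 : p < 2) (M : ℕ) {K : ℕ} (hK : 2 + 2 / p ≤ K) :
    ∃ C : ℝ, 0 < C ∧ ∀ (L : ℕ), 1 ≤ L → ∀ (lam b : ℕ → ℂ),
    ∑ k ∈ Finset.range (M * L), b k = 1 → ∀ A : ℝ,
    (∀ (S : Finset ℕ) (β : ℕ → ℝ), (∀ n ∈ S, 0 ≤ β n) → ∑ n ∈ S, β n = 1 →
      ∫ x, G2 lam b (M * L) S β x ^ (p / 2) ∂mu ≤ A) →
    ∀ (F : ℂ[X]), (∀ k, F.coeff k ≠ 0 → ∀ j, k < j → b j = 0) → ∀ (y₀ : TT),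
    ∫ x, ‖(Tm lam F).eval (chi x)‖ ^ p ∂mu ≤
      C * A * (L * ∫ u, ‖F.eval (chi u)‖ ^ 2 * wt L (u - y₀) ^ (2 * K : ℝ) ∂mu) ^ (p / 2) := by
  have hK1 : 1 ≤ K := by
    have h1 : (0:ℝ) < 2 / p := by positivity
    have h2 : (0:ℝ) < K := by linarith
    exact_mod_cast h2
  have hK0 : (0:ℝ) < K := by exact_mod_cast hK1
  obtain ⟨C1, hC1, h1⟩ := mol_I hp hp2 M hK
  obtain ⟨C5, hC5, h5⟩ := RP_upper hK1
  obtain ⟨C6, hC6, h6⟩ := gg_int hp
  refine ⟨K * C1 ^ (p / 2) * C5 ^ (1 - p / 2) * C6, by positivity,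
    fun L hL lam b hb A hA F hF y₀ => ?_⟩
  have hL0' : (0:ℝ) < L := by exact_mod_cast hL
  have hL0 : (0:ℝ) ≤ L := hL0'.le
  have hw : ∀ y, 0 < wt L y := fun y => wt_pos hL0 _
  set B := ∫ u, ‖F.eval (chi u)‖ ^ 2 * wt L (u - y₀) ^ (2 * K : ℝ) ∂mu with hB
  have hB0 : 0 ≤ B := by
    apply integral_nonneg
    intro u
    exact mul_nonneg (by positivity) (Real.rpow_nonneg (hw _).le _)
  have hA0 : 0 ≤ A := by
    refine le_trans ?_ (hA {0} (fun _ => 1) (fun _ _ => zero_le_one) (by simp))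
    apply integral_nonneg
    intro x
    exact Real.rpow_nonneg (G2_nonneg lam b (M * L) _ (fun _ _ => zero_le_one) x) _
  have hRHS : 0 ≤ K * C1 ^ (p / 2) * C5 ^ (1 - p / 2) * C6 * A * (L * B) ^ (p / 2) := by
    positivity
  set N := F.natDegree + 1 with hN
  have hN' : F.natDegree < N := by omega
  set s := ∑ n ∈ Finset.range N, gn M L K n F y₀ with hsd
  have hs0 : 0 ≤ s := Finset.sum_nonneg fun n _ => gn_nonneg M L K n F y₀
  have hTc : Continuous (fun x => ‖(Tm lam F).eval (chi x)‖) := (pc _).norm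
  rcases hs0.eq_or_lt with hs | hs
  · -- degenerate case
    have h0 : ∀ n ∈ Finset.range N, gn M L K n F y₀ = 0 :=
      (Finset.sum_eq_zero_iff_of_nonneg (fun n _ => gn_nonneg M L K n F y₀)).mp hs.symm
    have h1 : ∀ x, ‖(Tm lam F).eval (chi x)‖ ^ p = 0 := by
      intro x
      rw [← Hn_sum lam b hb F hF hN', Polynomial.eval_finsetSum, Finset.sum_eq_zero, norm_zero,
        Real.zero_rpow hp.ne']
      intro n hn
      have h2 := Hn_sq (M := M) hL lam b F K n y₀ x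
      rw [h0 n hn, zero_mul] at h2
      have h3 : ‖(Hn lam b (M * L) F n).eval (chi x)‖ = 0 := by
        have := norm_nonneg ((Hn lam b (M * L) F n).eval (chi x))
        nlinarith
      exact norm_eq_zero.mp h3
    simp_rw [h1]
    simpa using hRHS
  set β : ℕ → ℝ := fun n => gn M L K n F y₀ / s with hβd
  have hβ : ∀ n ∈ Finset.range N, 0 ≤ β n := fun n _ =>
    div_nonneg (gn_nonneg M L K n F y₀) hs.le
  have hβ1 : ∑ n ∈ Finset.range N, β n = 1 := by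
    rw [hβd, ← Finset.sum_div, ← hsd, div_self hs.ne']
  set Q := G2 lam b (M * L) (Finset.range N) β with hQd
  have hQc : Continuous Q := G2_cont lam b (M * L) (Finset.range N) β
  have hQ0 : ∀ v, 0 ≤ Q v := G2_nonneg lam b (M * L) (Finset.range N) hβ
  have hgg : ∀ t, 0 ≤ gg p L Q (t - y₀) := fun t => gg_nonneg p L hQ0 _
  have hggc : Continuous (fun t => gg p L Q (t - y₀)) :=
    (gg_cont hp L hQc).comp (continuous_id.sub continuous_const)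
  have hAQ : ∫ x, Q x ^ (p / 2) ∂mu ≤ A := hA (Finset.range N) β hβ hβ1
  have hRi : ∀ t, ∫ x, ‖(RP K L).eval (chi (x - t))‖ ^ 2 ∂mu ≤ C5 / L := by
    intro t
    rw [integral_sub_right_eq_self (fun x => ‖(RP K L).eval (chi x)‖ ^ 2) t]
    exact h5 L hL
  have hp2' : 0 ≤ 1 - p / 2 := by linarith
  have st1 : ∀ t, ∫ x, ‖(RP K L).eval (chi (x - t))‖ ^ 2 * ‖(Tm lam F).eval (chi x)‖ ^ p ∂mu ≤
      (C1 ^ (p / 2) * B ^ (p / 2) * (C5 / L) ^ (1 - p / 2)) * gg p L Q (t - y₀) := by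
    intro t
    have k1 := pmean hp hp2 (RPc K L t) hTc (fun x => by positivity) (fun x => norm_nonneg _)
    have k2 := h1 L hL lam b hb F hF y₀ N hN' hs t
    have k3 := hRi t
    have k4 : 0 ≤ ∫ x, ‖(RP K L).eval (chi (x - t))‖ ^ 2 * ‖(Tm lam F).eval (chi x)‖ ^ 2 ∂mu := by
      apply integral_nonneg
      intro x
      positivity
    have k5 : 0 ≤ ∫ x, ‖(RP K L).eval (chi (x - t))‖ ^ 2 ∂mu := by
      apply integral_nonneg
      intro x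
      positivity
    calc _ ≤ _ := k1
      _ ≤ (C1 * B * gg p L Q (t - y₀) ^ (2 / p)) ^ (p / 2) * (C5 / L) ^ (1 - p / 2) := by
          apply mul_le_mul
          · exact Real.rpow_le_rpow k4 k2 (by positivity)
          · exact Real.rpow_le_rpow k5 k3 hp2'
          · exact Real.rpow_nonneg k5 _
          · exact Real.rpow_nonneg (k4.trans k2) _
      _ = (C1 ^ (p / 2) * B ^ (p / 2) * (gg p L Q (t - y₀) ^ (2 / p)) ^ (p / 2)) *
            (C5 / L) ^ (1 - p / 2) := by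
          rw [Real.mul_rpow (by positivity) (Real.rpow_nonneg (hgg t) _),
            Real.mul_rpow hC1.le hB0]
      _ = _ := by
          rw [← Real.rpow_mul (hgg t)]
          have : 2 / p * (p / 2) = 1 := by field_simp
          rw [this, Real.rpow_one]
          ring
  have hTp : Continuous (fun x => ‖(Tm lam F).eval (chi x)‖ ^ p) :=
    hTc.rpow_const (fun x => Or.inr hp.le)
  have st2 := avg_means hK1 hL hTp (fun x => by positivity)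
  have hRj : Continuous (fun q : TT × TT => ‖(RP K L).eval (chi (q.2 - q.1))‖ ^ 2) :=
    (((pc (RP K L)).comp (continuous_snd.sub continuous_fst)).norm).pow 2
  have hjj : Continuous (fun q : TT × TT => ‖(RP K L).eval (chi (q.2 - q.1))‖ ^ 2 *
      ‖(Tm lam F).eval (chi q.2)‖ ^ p) := hRj.mul (hTp.comp continuous_snd)
  have hci : Continuous (fun t => ∫ x, ‖(RP K L).eval (chi (x - t))‖ ^ 2 *
      ‖(Tm lam F).eval (chi x)‖ ^ p ∂mu) :=
    cont_int (F := fun t x => ‖(RP K L).eval (chi (x - t))‖ ^ 2 *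
      ‖(Tm lam F).eval (chi x)‖ ^ p) hjj
  have st3 : ∫ t, ∫ x, ‖(RP K L).eval (chi (x - t))‖ ^ 2 *
      ‖(Tm lam F).eval (chi x)‖ ^ p ∂mu ∂mu ≤
      ∫ t, (C1 ^ (p / 2) * B ^ (p / 2) * (C5 / L) ^ (1 - p / 2)) * gg p L Q (t - y₀) ∂mu :=
    imono hci (continuous_const.mul hggc) st1
  rw [integral_const_mul, integral_sub_right_eq_self (fun t => gg p L Q t) y₀] at st3
  have st4 : ∫ t, gg p L Q t ∂mu ≤ C6 * A :=
    (h6 L hL Q hQc hQ0).trans (mul_le_mul_of_nonneg_left hAQ hC6.le)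
  have e1 : ((K : ℝ) * L) * ((C1 ^ (p / 2) * B ^ (p / 2) * (C5 / L) ^ (1 - p / 2)) * (C6 * A)) =
      K * C1 ^ (p / 2) * C5 ^ (1 - p / 2) * C6 * A * (L * B) ^ (p / 2) := by
    have f1 : (L : ℝ) = (L : ℝ) ^ (p / 2) * (L : ℝ) ^ (1 - p / 2) := by
      rw [← Real.rpow_add hL0']
      have : p / 2 + (1 - p / 2) = 1 := by ring
      rw [this, Real.rpow_one]
    have f2 : (C5 / L) ^ (1 - p / 2) * (L : ℝ) ^ (1 - p / 2) = C5 ^ (1 - p / 2) := by
      rw [← Real.mul_rpow (by positivity) hL0]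
      congr 1
      field_simp
    calc _ = (K : ℝ) * C1 ^ (p / 2) * B ^ (p / 2) * C6 * A *
          ((C5 / L) ^ (1 - p / 2) * (L : ℝ)) := by ring
      _ = (K : ℝ) * C1 ^ (p / 2) * B ^ (p / 2) * C6 * A *
          ((C5 / L) ^ (1 - p / 2) * ((L : ℝ) ^ (p / 2) * (L : ℝ) ^ (1 - p / 2))) := by
          rw [← f1]
      _ = (K : ℝ) * C1 ^ (p / 2) * B ^ (p / 2) * C6 * A * (L : ℝ) ^ (p / 2) *
          ((C5 / L) ^ (1 - p / 2) * (L : ℝ) ^ (1 - p / 2)) := by ring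
      _ = _ := by
          rw [f2, Real.mul_rpow hL0 hB0]
          ring
  have hcc : 0 ≤ C1 ^ (p / 2) * B ^ (p / 2) * (C5 / L) ^ (1 - p / 2) := by positivity
  calc ∫ x, ‖(Tm lam F).eval (chi x)‖ ^ p ∂mu ≤ _ := st2
    _ ≤ ((K : ℝ) * L) * ((C1 ^ (p / 2) * B ^ (p / 2) * (C5 / L) ^ (1 - p / 2)) * (C6 * A)) := by
        apply mul_le_mul_of_nonneg_left _ (by positivity)
        exact st3.trans (mul_le_mul_of_nonneg_left st4 hcc)
    _ = _ := e1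

end Pool.Agent.H200
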