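import Mathlib
import Pool.Agent.H200.Mol4
import Pool.Graph.R_seed8.HpBall.Final3

/-! The dyadic points on the circle. -/

set_option autoImplicit false

open MeasureTheory AddCircle Polynomial
open scoped ENNReal NNReal

namespace Pool.Agent.H200

open Pool.Agent.HpBall (E rho sig om sc TreeFam)

/-- dyadic points -/
noncomputable def yp (l i : ℕ) : TT := (((i : ℝ) / 2 ^ l : ℝ) : TT)

lemma chi_yp (l i : ℕ) : chi (yp l i) = om l i := by
  unfold yp om
  rw [chi_coe]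
  congr 1
  push_cast
  ring

lemma ds_coe (t : ℝ) : ds (t : TT) = 2 * |Real.sin (Real.pi * t)| := by
  unfold ds
  rw [chi_coe]
  have h := Complex.norm_exp_I_mul_ofReal_sub_one (2 * Real.pi * t)
  have e : (Complex.I * ((2 * Real.pi * t : ℝ) : ℂ)) = 2 * Real.pi * t * Complex.I := by
    push_cast; ring
  rw [e] at h
  rw [h, Real.norm_eq_abs, abs_mul, abs_of_pos (by norm_num : (0 : ℝ) < 2)]
  congr 3
  ring

lemma ds_coe_le (t : ℝ) : ds (t : TT) ≤ 2 * Real.pi * |t| := by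
  rw [ds_coe]
  have h := Real.abs_sin_le_abs (x := Real.pi * t)
  rw [abs_mul, abs_of_pos Real.pi_pos] at h
  linarith

lemma ds_coe_ge {t : ℝ} (h0 : 0 ≤ t) (h1 : t ≤ 1 / 2) : 4 * t ≤ ds (t : TT) := by
  rw [ds_coe]
  have hpi := Real.pi_pos
  have h2 := Real.mul_le_sin (x := Real.pi * t) (by positivity) (by nlinarith)
  have h3 := le_abs_self (Real.sin (Real.pi * t))
  have h4 : 2 / Real.pi * (Real.pi * t) = 2 * t := by field_simp
  linarith

lemma ds_one_sub (t : ℝ) : ds (t : TT) = ds ((1 - t : ℝ) : TT) := by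
  rw [AddCircle.coe_sub]
  have : ((1 : ℝ) : TT) = 0 := AddCircle.coe_period 1
  rw [this, zero_sub, ds_neg]

lemma yp_sub (l i m j : ℕ) : yp l i - yp m j = (((i : ℝ) / 2 ^ l - (j : ℝ) / 2 ^ m : ℝ) : TT) := by
  unfold yp
  rw [← AddCircle.coe_sub]

lemma yp_sep_lt {l i j : ℕ} (hj : j < 2 ^ l) (hij : i < j) : 4 ≤ 2 ^ l * ds (yp l j - yp l i) := by
  have h2 : (0:ℝ) < 2 ^ l := by positivity
  rw [yp_sub]
  set t : ℝ := (j : ℝ) / 2 ^ l - (i : ℝ) / 2 ^ l with ht
  have ht' : t = ((j : ℝ) - i) / 2 ^ l := by rw [ht]; ring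
  have h1 : (i : ℝ) + 1 ≤ j := by exact_mod_cast hij
  have h3 : (j : ℝ) + 1 ≤ 2 ^ l := by exact_mod_cast hj
  have h4 : (0:ℝ) ≤ i := Nat.cast_nonneg i
  have k1 : 1 ≤ 2 ^ l * t := by
    rw [ht']; field_simp; linarith
  have k2 : 2 ^ l * t ≤ 2 ^ l - 1 := by
    rw [ht']; field_simp; linarith
  have k3 : 0 < t := by
    by_contra h
    push Not at h
    have := mul_nonneg_of_nonpos_of_nonpos (neg_nonpos.mpr h2.le) h
    nlinarith
  have k4 : t < 1 := by
    by_contra h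
    push Not at h
    nlinarith
  rcases le_total t (1 / 2) with h | h
  · have h5 := ds_coe_ge k3.le h
    nlinarith
  · rw [ds_one_sub t]
    have h5 := ds_coe_ge (t := 1 - t) (by linarith) (by linarith)
    nlinarith

lemma yp_sep {l i j : ℕ} (hi : i < 2 ^ l) (hj : j < 2 ^ l) (hij : i ≠ j) :
    4 ≤ 2 ^ l * ds (yp l i - yp l j) := by
  rcases lt_or_gt_of_ne hij with h | h
  · have := yp_sep_lt hj h
    rw [← neg_sub, ds_neg]
    exact this
  · exact yp_sep_lt hi h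

lemma yp_nest {l m j : ℕ} (hlm : l ≤ m) :
    2 ^ l * ds (yp m j - yp l (j / 2 ^ (m - l))) ≤ 2 * Real.pi := by
  rw [yp_sub]
  have h1 := ds_coe_le ((j : ℝ) / 2 ^ m - ((j / 2 ^ (m - l) : ℕ) : ℝ) / 2 ^ l)
  have h2 : (0:ℝ) < 2 ^ l := by positivity
  have h3 : (0:ℝ) < 2 ^ (m - l) := by positivity
  have h4 : (2:ℝ) ^ m = 2 ^ l * 2 ^ (m - l) := by rw [← pow_add]; congr 1; omega
  set q := j / 2 ^ (m - l) with hq
  have h5 : q * 2 ^ (m - l) ≤ j := Nat.div_mul_le_self _ _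
  have h6 : j < q * 2 ^ (m - l) + 2 ^ (m - l) := Nat.lt_div_mul_add (by positivity)
  have h5' : (q : ℝ) * 2 ^ (m - l) ≤ j := by exact_mod_cast h5
  have h6' : (j : ℝ) ≤ q * 2 ^ (m - l) + 2 ^ (m - l) := by exact_mod_cast h6.le
  have h7 : 2 ^ l * |(j : ℝ) / 2 ^ m - (q : ℝ) / 2 ^ l| ≤ 1 := by
    have e : (j : ℝ) / 2 ^ m - (q : ℝ) / 2 ^ l = (j - q * 2 ^ (m - l)) / (2 ^ l * 2 ^ (m - l)) := by
      rw [h4]; field_simp
    rw [e, abs_div, abs_of_nonneg (by linarith : (0:ℝ) ≤ j - q * 2 ^ (m - l)),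
      abs_of_pos (by positivity)]
    rw [mul_div_assoc', div_le_one (by positivity)]
    apply mul_le_mul_of_nonneg_left _ h2.le
    linarith
  calc 2 ^ l * ds _ ≤ 2 ^ l * (2 * Real.pi * |(j : ℝ) / 2 ^ m - (q : ℝ) / 2 ^ l|) := by gcongr
    _ = 2 * Real.pi * (2 ^ l * |(j : ℝ) / 2 ^ m - (q : ℝ) / 2 ^ l|) := by ring
    _ ≤ 2 * Real.pi * 1 := by gcongr
    _ = _ := mul_one _

/-- the points on the unit sphere of `E 1` -/
noncomputable def pt (l i : ℕ) : E 1 := EuclideanSpace.single 0 (om l i)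

lemma rho_single (x y : TT) : rho (EuclideanSpace.single (0 : Fin 1) (chi x) : E 1)
    (EuclideanSpace.single (0 : Fin 1) (chi y)) = ds (x - y) := by
  unfold rho
  rw [EuclideanSpace.inner_single_right, ds_sub]
  have h1 : (1 : ℂ) = chi x * (starRingEnd ℂ) (chi x) := by
    rw [Complex.mul_conj, Complex.normSq_eq_norm_sq, chi_norm]; simp
  have h2 : ‖(1 : ℂ) - chi y * (starRingEnd ℂ) (chi x)‖ = ‖chi x - chi y‖ := by
    rw [h1, ← sub_mul, norm_mul, RCLike.norm_conj, chi_norm, mul_one]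
  simpa using h2

/-- the tree of points -/
lemma tree_pt : TreeFam 1 pt 4 (2 * Real.pi) where
  unit := fun l i => by
    unfold pt
    simp [Pool.Agent.HpBall.om_norm]
  cpos := by norm_num
  sep := fun l i j hi hj hij => by
    unfold pt
    rw [← chi_yp, ← chi_yp, rho_single]
    have : sc 1 l = 2 ^ l := by
      unfold sc
      simp
    rw [this]
    exact yp_sep hi hj hij
  nest := fun l m j hlm hj => by
    unfold pt
    rw [← chi_yp, ← chi_yp, rho_single]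
    have : sc 1 l = 2 ^ l := by
      unfold sc
      simp
    rw [this]
    exact yp_nest hlm

lemma count : ∃ D : ℝ, 0 < D ∧ ∀ (l : ℕ) (u : TT),
    ∑ i ∈ Finset.range (2 ^ l), wt (2 ^ l) (u - yp l i) ^ (-2 : ℝ) ≤ D := by
  obtain ⟨D, hD, h⟩ := Pool.Agent.HpBall.counting 1 le_rfl pt 4 (2 * Real.pi) tree_pt 2
    (by norm_num)
  refine ⟨D, hD, fun l u => ?_⟩
  have h1 := h l (EuclideanSpace.single 0 (chi u)) (by simp [chi_norm])
  have h2 : sc 1 l = 2 ^ l := by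
    unfold sc
    simp
  rw [h2] at h1
  refine le_trans (le_of_eq ?_) h1
  apply Finset.sum_congr rfl
  intro i _
  unfold pt wt
  rw [← chi_yp, rho_single]

end Pool.Agent.H200
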