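import Mathlib
import Pool.Agent.H200.TreePts

/-! Weighted estimates for tree supported arrays. -/

set_option autoImplicit false

open MeasureTheory AddCircle Polynomial
open scoped ENNReal NNReal

namespace Pool.Agent.H200

open Pool.Agent.HpBall (om dm Bump om_norm dm_eq_sum)

/-- the molecules as polynomials -/
noncomputable def mo (v : ℝ → ℝ) (l i : ℕ) : ℂ[X] :=
  ∑ k ∈ Finset.range (2 ^ l), monomial k ((1 / 2 ^ l : ℂ) *
    (((v ((k : ℝ) / (1 / 4 * 2 ^ l)) : ℝ) : ℂ) * (starRingEnd ℂ) (om l i) ^ k))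

lemma mo_eval {v : ℝ → ℝ} (hv : Bump v (1 / 4) 4) (l i : ℕ) (w : ℂ) :
    (mo v l i).eval w = dm v l i w := by
  rw [dm_eq_sum hv]
  unfold mo
  rw [Polynomial.eval_finsetSum, Finset.mul_sum]
  apply Finset.sum_congr rfl
  intro k _
  rw [Polynomial.eval_monomial, mul_pow]
  ring

lemma mo_coeff (v : ℝ → ℝ) (l i k : ℕ) : (mo v l i).coeff k = if k < 2 ^ l then
    (1 / 2 ^ l : ℂ) * (((v ((k : ℝ) / (1 / 4 * 2 ^ l)) : ℝ) : ℂ) *
      (starRingEnd ℂ) (om l i) ^ k) else 0 := by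
  unfold mo
  rw [Polynomial.finsetSum_coeff]
  simp_rw [Polynomial.coeff_monomial]
  rw [Finset.sum_ite_eq']
  simp only [Finset.mem_range]

lemma mo_supp {v : ℝ → ℝ} (hv : Bump v (1 / 4) 4) {l i k : ℕ} (h : (mo v l i).coeff k ≠ 0) :
    2 ^ l < 16 * k ∧ k < 2 ^ l := by
  rw [mo_coeff] at h
  split_ifs at h with h1
  · refine ⟨?_, h1⟩
    by_contra h2
    push Not at h2
    apply h
    rw [hv.lo]
    · simp
    · rw [div_le_iff₀ (by positivity)]
      have h3 : (16:ℝ) * k ≤ 2 ^ l := by exact_mod_cast h2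
      linarith
  · exact absurd rfl h

lemma mo_bound {v : ℝ → ℝ} (hv : Bump v (1 / 4) 4) (s : ℕ) : ∃ C : ℝ, 0 < C ∧
    ∀ (l i : ℕ) (u : TT), ‖(mo v l i).eval (chi u)‖ ≤
      C * wt (2 ^ l) (u - yp l i) ^ (-(s : ℝ)) := by
  obtain ⟨C, hC, h⟩ := Pool.Agent.HpBall.multiplier_kernel v (1 / 4) 4 hv s (1 / 4) (by norm_num)
  refine ⟨C * 4 ^ s, by positivity, fun l i u => ?_⟩
  rw [mo_eval hv]
  unfold dm
  have h2 : (0:ℝ) < 2 ^ l := by positivity
  have h2' : (1:ℝ) ≤ 2 ^ l := one_le_pow₀ (by norm_num)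
  set z := chi u * (starRingEnd ℂ) (om l i) with hz
  have hz1 : ‖z‖ = 1 := by
    rw [hz, norm_mul, RCLike.norm_conj, chi_norm, om_norm, mul_one]
  have hz2 : ‖1 - z‖ = ds (u - yp l i) := by
    rw [ds_sub, chi_yp, hz]
    have h1 : (1 : ℂ) = om l i * (starRingEnd ℂ) (om l i) := by
      rw [Complex.mul_conj, Complex.normSq_eq_norm_sq, om_norm]; simp
    rw [h1, ← sub_mul, norm_mul, RCLike.norm_conj, om_norm, mul_one, norm_sub_rev]
  have h3 := h (1 / 4 * 2 ^ l) (by linarith) z hz1.le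
  rw [hz2] at h3
  rw [norm_mul]
  have h4 : ‖(1 / 2 ^ l : ℂ)‖ = 1 / 2 ^ l := by simp
  rw [h4]
  have hd := ds_nonneg (u - yp l i)
  have h5 : (1 + 1 / 4 * 2 ^ l * ds (u - yp l i)) ^ (-(s : ℝ)) ≤
      4 ^ s * wt (2 ^ l) (u - yp l i) ^ (-(s : ℝ)) := by
    have e : (4:ℝ) ^ s = (1 / 4 : ℝ) ^ (-(s : ℝ)) := by
      rw [Real.rpow_neg (by norm_num), Real.rpow_natCast]
      simp
    rw [e, ← Real.mul_rpow (by norm_num) (wt_pos h2.le _).le]
    apply Real.rpow_le_rpow_of_nonpos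
    · have := wt_pos h2.le (u - yp l i)
      positivity
    · unfold wt
      linarith
    · have : (0:ℝ) ≤ s := Nat.cast_nonneg s
      linarith
  calc 1 / 2 ^ l * ‖Pool.Agent.HpBall.ker v (1 / 4 * 2 ^ l) z‖
      ≤ 1 / 2 ^ l * (C * (1 / 4 * 2 ^ l) * (1 + 1 / 4 * 2 ^ l * ds (u - yp l i)) ^ (-(s : ℝ))) := by
        gcongr
    _ ≤ 1 / 2 ^ l * (C * (1 / 4 * 2 ^ l) * (4 ^ s * wt (2 ^ l) (u - yp l i) ^ (-(s : ℝ)))) := by
        gcongr
    _ = (1 / 4) * (C * 4 ^ s * wt (2 ^ l) (u - yp l i) ^ (-(s : ℝ))) := by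
        field_simp
    _ ≤ 1 * (C * 4 ^ s * wt (2 ^ l) (u - yp l i) ^ (-(s : ℝ))) := by
        apply mul_le_mul_of_nonneg_right (by norm_num)
        have := Real.rpow_nonneg (wt_pos h2.le (u - yp l i)).le (-(s : ℝ))
        positivity
    _ = _ := one_mul _

/-- a level -/
noncomputable def lv (v : ℝ → ℝ) (l : ℕ) (a : ℕ → ℂ) : ℂ[X] :=
  ∑ i ∈ Finset.range (2 ^ l), C (a i) * mo v l i

lemma lv_eval (v : ℝ → ℝ) (l : ℕ) (a : ℕ → ℂ) (w : ℂ) : (lv v l a).eval w =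
    ∑ i ∈ Finset.range (2 ^ l), a i * (mo v l i).eval w := by
  unfold lv
  rw [Polynomial.eval_finsetSum]
  simp only [Polynomial.eval_mul, Polynomial.eval_C]

lemma lv_supp {v : ℝ → ℝ} (hv : Bump v (1 / 4) 4) {l : ℕ} {a : ℕ → ℂ} {k : ℕ}
    (h : (lv v l a).coeff k ≠ 0) : 2 ^ l < 16 * k ∧ k < 2 ^ l := by
  unfold lv at h
  rw [Polynomial.finsetSum_coeff] at h
  obtain ⟨i, _, hi⟩ := Finset.exists_ne_zero_of_sum_ne_zero h
  rw [Polynomial.coeff_C_mul] at hi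
  exact mo_supp hv (right_ne_zero_of_mul hi)

lemma node_near {m j l i : ℕ} (hml : m ≤ l) (hi : i / 2 ^ (l - m) = j) {L : ℕ}
    (hL : (L : ℝ) ≤ 2 * 2 ^ m) (u : TT) :
    wt L (u - yp m j) ≤ (2 * (1 + 4 * Real.pi)) * wt (2 ^ l) (u - yp l i) := by
  have hL0 : (0:ℝ) ≤ L := Nat.cast_nonneg L
  have h1 := wt_tri hL0 u (yp l i) (yp m j)
  have h2 : wt L (yp l i - yp m j) ≤ 1 + 4 * Real.pi := by
    have h3 := yp_nest (l := m) (m := l) (j := i) hml
    rw [hi] at h3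
    have hd := ds_nonneg (yp l i - yp m j)
    unfold wt
    have h4 : (L : ℝ) * ds (yp l i - yp m j) ≤ (2 * 2 ^ m) * ds (yp l i - yp m j) := by gcongr
    linarith
  have h3 : wt L (u - yp l i) ≤ 2 * wt (2 ^ l) (u - yp l i) := by
    have hd := ds_nonneg (u - yp l i)
    have h5 : (2:ℝ) ^ m ≤ 2 ^ l := pow_le_pow_right₀ (by norm_num) hml
    have h4 : (L : ℝ) * ds (u - yp l i) ≤ (2 * 2 ^ l) * ds (u - yp l i) := by
      apply mul_le_mul_of_nonneg_right _ hd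
      linarith
    unfold wt
    linarith
  have h6 := wt_pos (by positivity : (0:ℝ) ≤ 2 ^ l) (u - yp l i)
  have h7 := wt_pos hL0 (yp l i - yp m j)
  calc _ ≤ _ := h1
    _ ≤ (2 * wt (2 ^ l) (u - yp l i)) * (1 + 4 * Real.pi) := by
        gcongr
    _ = _ := by ring

lemma lev_est {v : ℝ → ℝ} (hv : Bump v (1 / 4) 4) (K : ℕ) : ∃ C : ℝ, 0 < C ∧
    ∀ (m j l L : ℕ) (a : ℕ → ℂ), m ≤ l → (L : ℝ) ≤ 2 * 2 ^ m →
    (∀ i, a i ≠ 0 → i / 2 ^ (l - m) = j) →
    ∫ u, ‖(lv v l a).eval (chi u)‖ ^ 2 * wt L (u - yp m j) ^ (2 * K : ℝ) ∂mu ≤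
      C * ((1 / 2 ^ l) * ∑ i ∈ Finset.range (2 ^ l), ‖a i‖ ^ 2) := by
  obtain ⟨C1, hC1, h1⟩ := mo_bound hv (K + 2)
  obtain ⟨C2, hC2, h2⟩ := kint 2 (by norm_num)
  obtain ⟨D, hD, hcount⟩ := count
  set c0 : ℝ := 2 * (1 + 4 * Real.pi) with hc0
  have hpi := Real.pi_pos
  have hc0p : 0 < c0 := by positivity
  refine ⟨(c0 ^ K * C1) ^ 2 * D * C2, by positivity, fun m j l L a hml hL ha => ?_⟩
  have hL0 : (0:ℝ) ≤ L := Nat.cast_nonneg L
  have h2l : (0:ℝ) < 2 ^ l := by positivity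
  set W : ℕ → TT → ℝ := fun i u => wt (2 ^ l) (u - yp l i) ^ (-2 : ℝ) with hW
  have hW0 : ∀ i u, 0 ≤ W i u := fun i u => Real.rpow_nonneg (wt_pos h2l.le _).le _
  have key1 : ∀ i u, a i ≠ 0 → wt L (u - yp m j) ^ (K : ℝ) * ‖(mo v l i).eval (chi u)‖ ≤
      (c0 ^ K * C1) * W i u := by
    intro i u hai
    have k1 := node_near hml (ha i hai) hL u
    have k2 := h1 l i u
    have k3 := wt_pos hL0 (u - yp m j)
    have k4 := wt_pos h2l.le (u - yp l i)
    have k5 : wt L (u - yp m j) ^ (K : ℝ) ≤ c0 ^ K * wt (2 ^ l) (u - yp l i) ^ (K : ℝ) := by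
      calc wt L (u - yp m j) ^ (K : ℝ) ≤ (c0 * wt (2 ^ l) (u - yp l i)) ^ (K : ℝ) :=
            Real.rpow_le_rpow k3.le k1 (Nat.cast_nonneg K)
        _ = _ := by rw [Real.mul_rpow hc0p.le k4.le, Real.rpow_natCast c0]
    have k6 : wt (2 ^ l) (u - yp l i) ^ (K : ℝ) *
        wt (2 ^ l) (u - yp l i) ^ (-((K + 2 : ℕ) : ℝ)) = W i u := by
      rw [hW, ← Real.rpow_add k4]
      congr 1
      push_cast
      ring
    calc _ ≤ (c0 ^ K * wt (2 ^ l) (u - yp l i) ^ (K : ℝ)) *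
          (C1 * wt (2 ^ l) (u - yp l i) ^ (-((K + 2 : ℕ) : ℝ))) := by
          apply mul_le_mul k5 k2 (norm_nonneg _)
          have := Real.rpow_nonneg k4.le (K : ℝ)
          positivity
      _ = (c0 ^ K * C1) * (wt (2 ^ l) (u - yp l i) ^ (K : ℝ) *
        wt (2 ^ l) (u - yp l i) ^ (-((K + 2 : ℕ) : ℝ))) := by ring
      _ = _ := by rw [k6]
  have key2 : ∀ u, wt L (u - yp m j) ^ (K : ℝ) * ‖(lv v l a).eval (chi u)‖ ≤
      (c0 ^ K * C1) * ∑ i ∈ Finset.range (2 ^ l), ‖a i‖ * W i u := by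
    intro u
    have k3 := Real.rpow_nonneg (wt_pos hL0 (u - yp m j)).le (K : ℝ)
    rw [lv_eval, Finset.mul_sum]
    calc _ ≤ wt L (u - yp m j) ^ (K : ℝ) *
          ∑ i ∈ Finset.range (2 ^ l), ‖a i * (mo v l i).eval (chi u)‖ := by
          gcongr
          exact norm_sum_le _ _
      _ ≤ _ := by
          rw [Finset.mul_sum]
          apply Finset.sum_le_sum
          intro i _
          rw [norm_mul]
          by_cases hai : a i = 0
          · rw [hai]; simp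
          · have := key1 i u hai
            calc _ = ‖a i‖ * (wt L (u - yp m j) ^ (K : ℝ) * ‖(mo v l i).eval (chi u)‖) := by ring
              _ ≤ ‖a i‖ * ((c0 ^ K * C1) * W i u) := by gcongr
              _ = _ := by ring
  have key3 : ∀ u, (∑ i ∈ Finset.range (2 ^ l), ‖a i‖ * W i u) ^ 2 ≤
      D * ∑ i ∈ Finset.range (2 ^ l), ‖a i‖ ^ 2 * W i u := by
    intro u
    have k1 := Finset.sum_mul_sq_le_sq_mul_sq (Finset.range (2 ^ l))
      (fun i => ‖a i‖ * Real.sqrt (W i u)) (fun i => Real.sqrt (W i u))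
    have e1 : ∀ i, ‖a i‖ * Real.sqrt (W i u) * Real.sqrt (W i u) = ‖a i‖ * W i u := by
      intro i
      rw [mul_assoc, Real.mul_self_sqrt (hW0 i u)]
    have e2 : ∀ i, (‖a i‖ * Real.sqrt (W i u)) ^ 2 = ‖a i‖ ^ 2 * W i u := by
      intro i
      rw [mul_pow, Real.sq_sqrt (hW0 i u)]
    have e3 : ∀ i, (Real.sqrt (W i u)) ^ 2 = W i u := fun i => Real.sq_sqrt (hW0 i u)
    simp only [e1, e2, e3] at k1
    refine k1.trans ?_
    rw [mul_comm]
    apply mul_le_mul_of_nonneg_right (hcount l u)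
    exact Finset.sum_nonneg fun i _ => mul_nonneg (by positivity) (hW0 i u)
  have key : ∀ u, ‖(lv v l a).eval (chi u)‖ ^ 2 * wt L (u - yp m j) ^ (2 * K : ℝ) ≤
      ((c0 ^ K * C1) ^ 2 * D) * ∑ i ∈ Finset.range (2 ^ l), ‖a i‖ ^ 2 * W i u := by
    intro u
    have k3 := wt_pos hL0 (u - yp m j)
    have e : ‖(lv v l a).eval (chi u)‖ ^ 2 * wt L (u - yp m j) ^ (2 * K : ℝ) =
        (wt L (u - yp m j) ^ (K : ℝ) * ‖(lv v l a).eval (chi u)‖) ^ 2 := by
      rw [mul_pow, ← Real.rpow_natCast (wt L (u - yp m j) ^ (K : ℝ)), ← Real.rpow_mul k3.le,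
        mul_comm]
      congr 2
      push_cast
      ring
    rw [e]
    have k4 : 0 ≤ wt L (u - yp m j) ^ (K : ℝ) * ‖(lv v l a).eval (chi u)‖ :=
      mul_nonneg (Real.rpow_nonneg k3.le _) (norm_nonneg _)
    calc _ ≤ ((c0 ^ K * C1) * ∑ i ∈ Finset.range (2 ^ l), ‖a i‖ * W i u) ^ 2 :=
          pow_le_pow_left₀ k4 (key2 u) 2
      _ = (c0 ^ K * C1) ^ 2 * (∑ i ∈ Finset.range (2 ^ l), ‖a i‖ * W i u) ^ 2 := by ring
      _ ≤ (c0 ^ K * C1) ^ 2 * (D * ∑ i ∈ Finset.range (2 ^ l), ‖a i‖ ^ 2 * W i u) :=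
          mul_le_mul_of_nonneg_left (key3 u) (by positivity)
      _ = _ := by ring
  have hWc : ∀ i, Continuous (W i) := fun i => wc h2l.le (-2) (yp l i)
  have s1 : ∫ u, ‖(lv v l a).eval (chi u)‖ ^ 2 * wt L (u - yp m j) ^ (2 * K : ℝ) ∂mu ≤
      ∫ u, ((c0 ^ K * C1) ^ 2 * D) * ∑ i ∈ Finset.range (2 ^ l), ‖a i‖ ^ 2 * W i u ∂mu := by
    apply imono _ _ key
    · exact ((pc _).norm.pow 2).mul (wc hL0 (2 * K : ℝ) (yp m j))
    · exact continuous_const.mul (continuous_finsetSum _ fun i _ => continuous_const.mul (hWc i))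
  have s0 : ∫ u, ∑ i ∈ Finset.range (2 ^ l), ‖a i‖ ^ 2 * W i u ∂mu =
      ∑ i ∈ Finset.range (2 ^ l), ∫ u, ‖a i‖ ^ 2 * W i u ∂mu := by
    rw [integral_finsetSum]
    intro i _
    exact cint (continuous_const.mul (hWc i))
  rw [integral_const_mul, s0] at s1
  refine s1.trans ?_
  have s2 : ∑ i ∈ Finset.range (2 ^ l), ∫ u, ‖a i‖ ^ 2 * W i u ∂mu ≤
      ∑ i ∈ Finset.range (2 ^ l), ‖a i‖ ^ 2 * (C2 / 2 ^ l) := by
    apply Finset.sum_le_sum
    intro i _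
    rw [integral_const_mul]
    exact mul_le_mul_of_nonneg_left (kint_sub (h2 (2 ^ l) h2l) (yp l i)) (by positivity)
  calc _ ≤ ((c0 ^ K * C1) ^ 2 * D) * ∑ i ∈ Finset.range (2 ^ l), ‖a i‖ ^ 2 * (C2 / 2 ^ l) :=
        mul_le_mul_of_nonneg_left s2 (by positivity)
    _ = _ := by
        rw [← Finset.sum_mul]
        ring

/-- the sum of the levels -/
noncomputable def FA (v : ℝ → ℝ) (L0 : ℕ) (a : ℕ → ℕ → ℂ) : ℂ[X] :=
  ∑ l ∈ Finset.range L0, lv v l (a l)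

lemma shift_supp {v : ℝ → ℝ} (hv : Bump v (1 / 4) 4) (κ : ℕ) (z : ℂ) {l : ℕ} {a : ℕ → ℂ} {k : ℕ}
    (h : ((X - C z) ^ κ * lv v l a).coeff k ≠ 0) : 2 ^ l < 16 * k ∧ k < 2 ^ l + κ := by
  rw [Polynomial.coeff_mul] at h
  obtain ⟨q, hq, hq'⟩ := Finset.exists_ne_zero_of_sum_ne_zero h
  rw [Finset.HasAntidiagonal.mem_antidiagonal] at hq
  have h1 := lv_supp hv (right_ne_zero_of_mul hq')
  have h2 : q.1 ≤ κ := by
    by_contra hc
    apply left_ne_zero_of_mul hq'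
    apply Polynomial.coeff_eq_zero_of_natDegree_lt
    have h3 : ((X - C z : ℂ[X]) ^ κ).natDegree ≤ κ := by
      refine Polynomial.natDegree_pow_le.trans ?_
      rw [Polynomial.natDegree_X_sub_C, mul_one]
    omega
  omega

lemma card_levels (κ L0 k : ℕ) (P : ℕ → Prop) [DecidablePred P]
    (hP : ∀ l, P l → 2 ^ l < 16 * k ∧ k < 2 ^ l + κ) :
    ((Finset.range L0).filter P).card ≤ κ + 5 := by
  have hκ : κ < 2 ^ κ := Nat.lt_two_pow_self
  rcases Nat.lt_or_ge k (2 * κ) with h | h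
  · calc ((Finset.range L0).filter P).card ≤ (Finset.range (κ + 5)).card := by
          apply Finset.card_le_card
          intro l hl
          rw [Finset.mem_filter] at hl
          have h1 := (hP l hl.2).1
          rw [Finset.mem_range]
          apply (Nat.pow_lt_pow_iff_right (a := 2) (by norm_num)).mp
          have : 2 ^ (κ + 5) = 2 ^ κ * 32 := by rw [pow_add]; norm_num
          omega
      _ = κ + 5 := Finset.card_range _
  · rcases Nat.eq_zero_or_pos k with h0 | h0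
    · have : (Finset.range L0).filter P = ∅ := by
        rw [Finset.filter_eq_empty_iff]
        intro l _ hl
        have h1 := (hP l hl).1
        rw [h0, mul_zero] at h1
        exact absurd h1 (Nat.not_lt_zero _)
      rw [this]
      simp
    set e := Nat.log 2 k with he
    have he1 : 2 ^ e ≤ k := Nat.pow_log_le_self 2 h0.ne'
    have he2 : k < 2 ^ (e + 1) := Nat.lt_pow_succ_log_self (by norm_num) k
    calc ((Finset.range L0).filter P).card ≤ (Finset.Ico e (e + 5)).card := by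
          apply Finset.card_le_card
          intro l hl
          rw [Finset.mem_filter] at hl
          have h1 := hP l hl.2
          rw [Finset.mem_Ico]
          constructor
          · by_contra hc
            have h2 : l + 1 ≤ e := by omega
            have h3 : 2 ^ (l + 1) ≤ 2 ^ e := Nat.pow_le_pow_right (by norm_num) h2
            rw [pow_succ] at h3
            omega
          · apply (Nat.pow_lt_pow_iff_right (a := 2) (by norm_num)).mp
            have : 2 ^ (e + 5) = 2 ^ (e + 1) * 16 := by rw [pow_add, pow_add]; ring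
            omega
      _ ≤ κ + 5 := by
          rw [Nat.card_Ico]
          omega

lemma ao_levels {v : ℝ → ℝ} (hv : Bump v (1 / 4) 4) (κ L0 : ℕ) (z : ℂ) (a : ℕ → ℕ → ℂ) :
    ∫ x, ‖((X - C z) ^ κ * FA v L0 a).eval (chi x)‖ ^ 2 ∂mu ≤
      (κ + 5 : ℝ) * ∑ l ∈ Finset.range L0,
        ∫ x, ‖((X - C z) ^ κ * lv v l (a l)).eval (chi x)‖ ^ 2 ∂mu := by
  classical
  have h := ao (Finset.range L0) (fun l => (X - C z) ^ κ * lv v l (a l)) (κ + 5) (by
    intro k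
    exact card_levels κ L0 k _ fun l hl => shift_supp hv κ z hl)
  have e : ∀ x : TT, ∑ l ∈ Finset.range L0, ((X - C z) ^ κ * lv v l (a l)).eval (chi x) =
      ((X - C z) ^ κ * FA v L0 a).eval (chi x) := by
    intro x
    rw [← Polynomial.eval_finsetSum, ← Finset.mul_sum]
    rfl
  simp only [e] at h
  push_cast at h
  exact h

lemma wt_split {L : ℝ} (hL : 0 ≤ L) (K : ℕ) (x : TT) :
    wt L x ^ (2 * K : ℝ) ≤ 4 ^ K * (1 + (L * ds x) ^ (2 * K)) := by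
  have hd : 0 ≤ L * ds x := mul_nonneg hL (ds_nonneg x)
  have e : wt L x ^ (2 * K : ℝ) = (1 + L * ds x) ^ (2 * K) := by
    unfold wt
    rw [← Real.rpow_natCast]
    push_cast
    rfl
  rw [e]
  have e2 : (4:ℝ) ^ K = 2 ^ (2 * K) := by rw [pow_mul]; norm_num
  rw [e2]
  rcases le_total (L * ds x) 1 with h | h
  · calc (1 + L * ds x) ^ (2 * K) ≤ 2 ^ (2 * K) := by
          gcongr
          linarith
      _ ≤ 2 ^ (2 * K) * (1 + (L * ds x) ^ (2 * K)) := by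
          have : 0 ≤ (L * ds x) ^ (2 * K) := by positivity
          nlinarith [pow_pos (show (0:ℝ) < 2 by norm_num) (2 * K)]
  · calc (1 + L * ds x) ^ (2 * K) ≤ (2 * (L * ds x)) ^ (2 * K) := by
          gcongr
          linarith
      _ = 2 ^ (2 * K) * (L * ds x) ^ (2 * K) := by rw [mul_pow]
      _ ≤ 2 ^ (2 * K) * (1 + (L * ds x) ^ (2 * K)) := by
          gcongr
          linarith

lemma wt_lower {L : ℝ} (hL : 0 ≤ L) (K : ℕ) (x : TT) :
    (L * ds x) ^ (2 * K) ≤ wt L x ^ (2 * K : ℝ) := by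
  have hd : 0 ≤ L * ds x := mul_nonneg hL (ds_nonneg x)
  have e : wt L x ^ (2 * K : ℝ) = (1 + L * ds x) ^ (2 * K) := by
    unfold wt
    rw [← Real.rpow_natCast]
    push_cast
    rfl
  rw [e]
  gcongr
  linarith

lemma wt_one_le {L : ℝ} (hL : 0 ≤ L) (K : ℕ) (x : TT) : 1 ≤ wt L x ^ (2 * K : ℝ) :=
  Real.one_le_rpow (wt_ge hL x) (by positivity)

/-- the weighted square estimate for tree supported arrays -/
lemma atom_est {v : ℝ → ℝ} (hv : Bump v (1 / 4) 4) (K : ℕ) : ∃ C : ℝ, 0 < C ∧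
    ∀ (L0 m j L : ℕ) (a : ℕ → ℕ → ℂ), (L : ℝ) ≤ 2 * 2 ^ m →
    (∀ l i, a l i ≠ 0 → m ≤ l ∧ i / 2 ^ (l - m) = j) →
    ∫ u, ‖(FA v L0 a).eval (chi u)‖ ^ 2 * wt L (u - yp m j) ^ (2 * K : ℝ) ∂mu ≤
      C * ∑ l ∈ Finset.range L0, (1 / 2 ^ l) * ∑ i ∈ Finset.range (2 ^ l), ‖a l i‖ ^ 2 := by
  obtain ⟨C, hC, h1⟩ := lev_est hv K
  refine ⟨4 ^ K * ((K + 5) * C + (K + 5) * C), by positivity, fun L0 m j L a hL ha => ?_⟩
  have hL0 : (0:ℝ) ≤ L := Nat.cast_nonneg L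
  set S := ∑ l ∈ Finset.range L0, (1 / 2 ^ l : ℝ) * ∑ i ∈ Finset.range (2 ^ l), ‖a l i‖ ^ 2 with hS
  have hS0 : 0 ≤ S := Finset.sum_nonneg fun l _ => by positivity
  have hlev : ∀ l, ∫ u, ‖(lv v l (a l)).eval (chi u)‖ ^ 2 * wt L (u - yp m j) ^ (2 * K : ℝ) ∂mu ≤
      C * ((1 / 2 ^ l) * ∑ i ∈ Finset.range (2 ^ l), ‖a l i‖ ^ 2) := by
    intro l
    rcases Nat.lt_or_ge l m with h | h
    · have h0 : a l = 0 := by
        funext i
        by_contra hc
        have := (ha l i hc).1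
        omega
      have h2 : ∀ u, (lv v l (a l)).eval (chi u) = 0 := by
        intro u
        rw [lv_eval, h0]
        simp
      simp only [h2]
      simp
      positivity
    · exact h1 m j l L (a l) h hL fun i hi => (ha l i hi).2
  have hsum : ∑ l ∈ Finset.range L0,
      ∫ u, ‖(lv v l (a l)).eval (chi u)‖ ^ 2 * wt L (u - yp m j) ^ (2 * K : ℝ) ∂mu ≤ C * S := by
    rw [hS, Finset.mul_sum]
    exact Finset.sum_le_sum fun l _ => hlev l
  have hw2 : Continuous (fun u => wt L (u - yp m j) ^ (2 * K : ℝ)) := wc hL0 (2 * K : ℝ) (yp m j)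
  have hFc : Continuous (fun u => ‖(FA v L0 a).eval (chi u)‖ ^ 2) := (pc _).norm.pow 2
  have hlc : ∀ l, Continuous (fun u => ‖(lv v l (a l)).eval (chi u)‖ ^ 2) :=
    fun l => (pc _).norm.pow 2
  -- unweighted part
  have p1 : ∫ u, ‖(FA v L0 a).eval (chi u)‖ ^ 2 ∂mu ≤ (K + 5) * (C * S) := by
    have q1 := ao_levels hv 0 L0 0 a
    simp only [pow_zero, one_mul] at q1
    refine q1.trans ?_
    have q2 : ∑ l ∈ Finset.range L0, ∫ x, ‖(lv v l (a l)).eval (chi x)‖ ^ 2 ∂mu ≤ C * S := by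
      refine le_trans (Finset.sum_le_sum fun l _ => ?_) hsum
      apply imono (hlc l) ((hlc l).mul hw2)
      intro u
      exact le_mul_of_one_le_right (by positivity) (wt_one_le hL0 K _)
    have q3 : (0:ℝ) ≤ C * S := by positivity
    have hK : (0:ℝ) ≤ K := Nat.cast_nonneg K
    push_cast
    calc (0 + 5 : ℝ) * ∑ l ∈ Finset.range L0, ∫ x, ‖(lv v l (a l)).eval (chi x)‖ ^ 2 ∂mu
        ≤ (0 + 5) * (C * S) := by gcongr
      _ ≤ _ := by
        apply mul_le_mul_of_nonneg_right _ q3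
        linarith
  -- weighted part
  have e1 : ∀ (G : ℂ[X]) (u : TT), ‖((X - Polynomial.C (chi (yp m j))) ^ K * G).eval (chi u)‖ ^ 2 =
      ds (u - yp m j) ^ (2 * K) * ‖G.eval (chi u)‖ ^ 2 := by
    intro G u
    rw [Polynomial.eval_mul, Polynomial.eval_pow, Polynomial.eval_sub, Polynomial.eval_X,
      Polynomial.eval_C, norm_mul, norm_pow, mul_pow, ds_sub, ← pow_mul, mul_comm K 2]
  have p2 : ∫ u, ‖(FA v L0 a).eval (chi u)‖ ^ 2 * (L * ds (u - yp m j)) ^ (2 * K) ∂mu ≤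
      (K + 5) * (C * S) := by
    have q1 := ao_levels hv K L0 (chi (yp m j)) a
    simp only [e1] at q1
    have q2 : ∑ l ∈ Finset.range L0, (L:ℝ) ^ (2 * K) *
        ∫ x, ds (x - yp m j) ^ (2 * K) * ‖(lv v l (a l)).eval (chi x)‖ ^ 2 ∂mu ≤ C * S := by
      refine le_trans (Finset.sum_le_sum fun l _ => ?_) hsum
      rw [← integral_const_mul]
      have k1 : ∀ u, (L:ℝ) ^ (2 * K) * (ds (u - yp m j) ^ (2 * K) *
          ‖(lv v l (a l)).eval (chi u)‖ ^ 2) ≤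
          ‖(lv v l (a l)).eval (chi u)‖ ^ 2 * wt L (u - yp m j) ^ (2 * K : ℝ) := by
        intro u
        have := wt_lower hL0 K (u - yp m j)
        calc _ = ‖(lv v l (a l)).eval (chi u)‖ ^ 2 * (L * ds (u - yp m j)) ^ (2 * K) := by
              rw [mul_pow]; ring
          _ ≤ _ := mul_le_mul_of_nonneg_left this (by positivity)
      exact imono (continuous_const.mul
        (((ds_cont.comp (continuous_id.sub continuous_const)).pow _).mul (hlc l)))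
        ((hlc l).mul hw2) k1
    have e2 : ∫ u, ‖(FA v L0 a).eval (chi u)‖ ^ 2 * (L * ds (u - yp m j)) ^ (2 * K) ∂mu =
        (L:ℝ) ^ (2 * K) *
        ∫ x, ds (x - yp m j) ^ (2 * K) * ‖(FA v L0 a).eval (chi x)‖ ^ 2 ∂mu := by
      rw [← integral_const_mul]
      congr 1
      funext u
      rw [mul_pow]
      ring
    rw [e2]
    calc _ ≤ (L:ℝ) ^ (2 * K) * ((K + 5 : ℝ) * ∑ l ∈ Finset.range L0,
          ∫ x, ds (x - yp m j) ^ (2 * K) * ‖(lv v l (a l)).eval (chi x)‖ ^ 2 ∂mu) := by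
          gcongr
      _ = (K + 5 : ℝ) * ∑ l ∈ Finset.range L0, (L:ℝ) ^ (2 * K) *
          ∫ x, ds (x - yp m j) ^ (2 * K) * ‖(lv v l (a l)).eval (chi x)‖ ^ 2 ∂mu := by
          rw [← Finset.mul_sum]
          ring
      _ ≤ _ := by gcongr
  have hdc : Continuous (fun u => (L * ds (u - yp m j)) ^ (2 * K)) :=
    (continuous_const.mul (ds_cont.comp (continuous_id.sub continuous_const))).pow _
  have p3 : ∫ u, ‖(FA v L0 a).eval (chi u)‖ ^ 2 * wt L (u - yp m j) ^ (2 * K : ℝ) ∂mu ≤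
      ∫ u, 4 ^ K * (‖(FA v L0 a).eval (chi u)‖ ^ 2 +
        ‖(FA v L0 a).eval (chi u)‖ ^ 2 * (L * ds (u - yp m j)) ^ (2 * K)) ∂mu := by
    have k1 : ∀ u, ‖(FA v L0 a).eval (chi u)‖ ^ 2 * wt L (u - yp m j) ^ (2 * K : ℝ) ≤
        4 ^ K * (‖(FA v L0 a).eval (chi u)‖ ^ 2 +
        ‖(FA v L0 a).eval (chi u)‖ ^ 2 * (L * ds (u - yp m j)) ^ (2 * K)) := by
      intro u
      have := wt_split hL0 K (u - yp m j)
      calc _ ≤ ‖(FA v L0 a).eval (chi u)‖ ^ 2 *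
            (4 ^ K * (1 + (L * ds (u - yp m j)) ^ (2 * K))) :=
            mul_le_mul_of_nonneg_left this (by positivity)
        _ = _ := by ring
    exact imono (hFc.mul hw2) (continuous_const.mul (hFc.add (hFc.mul hdc))) k1
  have p4 : ∫ u, (‖(FA v L0 a).eval (chi u)‖ ^ 2 +
        ‖(FA v L0 a).eval (chi u)‖ ^ 2 * (L * ds (u - yp m j)) ^ (2 * K)) ∂mu =
      ∫ u, ‖(FA v L0 a).eval (chi u)‖ ^ 2 ∂mu +
      ∫ u, ‖(FA v L0 a).eval (chi u)‖ ^ 2 * (L * ds (u - yp m j)) ^ (2 * K) ∂mu :=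
    integral_add (cint hFc) (cint (hFc.mul hdc))
  rw [integral_const_mul, p4] at p3
  refine p3.trans ?_
  calc _ ≤ 4 ^ K * ((K + 5) * (C * S) + (K + 5) * (C * S)) := by
        gcongr
    _ = _ := by ring

end Pool.Agent.H200
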