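import Mathlib
import Pool.Agent.H200.TreeAtom
import Pool.Graph.R_seed8.HpBall.Atomic

/-! The image of tree supported arrays under a multiplier satisfying the block test. -/

set_option autoImplicit false

open MeasureTheory AddCircle Polynomial
open scoped ENNReal NNReal

namespace Pool.Agent.H200

open Pool.Agent.HpBall (om dm Bump om_norm dm_eq_sum fnorm)

/-- the window coefficients -/
noncomputable def bw (M L k : ℕ) : ℂ := (RP M L).coeff k

lemma bw_sum {M L : ℕ} (hM : 1 ≤ M) (hL : 1 ≤ L) : ∑ k ∈ Finset.range (M * L), bw M L k = 1 := by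
  have hd : (RP M L).natDegree < M * L := by
    have h1 := RP_natDegree M L
    have h2 : M * (L - 1) < M * L := Nat.mul_lt_mul_of_pos_left (by omega) (by omega)
    omega
  have h := Polynomial.eval_eq_sum_range' hd (1 : ℂ)
  rw [RP_eval_one hL] at h
  rw [h]
  apply Finset.sum_congr rfl
  intro k _
  unfold bw
  simp

lemma bw_zero {M L k : ℕ} (h : M * (L - 1) < k) : bw M L k = 0 :=
  Polynomial.coeff_eq_zero_of_natDegree_lt (lt_of_le_of_lt (RP_natDegree M L) h)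

/-- the block test -/
def HB (p : ℝ) (M : ℕ) (lam : ℕ → ℂ) (C0 : ℝ) : Prop :=
  ∀ L : ℕ, 1 ≤ L → ∀ (S : Finset ℕ) (β : ℕ → ℝ), (∀ n ∈ S, 0 ≤ β n) → ∑ n ∈ S, β n = 1 →
    ∫ x, G2 lam (bw M L) (M * L) S β x ^ (p / 2) ∂mu ≤ C0 / L

lemma HB_nonneg {p : ℝ} {M : ℕ} {lam : ℕ → ℂ} {C0 : ℝ} (h : HB p M lam C0) : 0 ≤ C0 := by
  have h1 := h 1 le_rfl {0} (fun _ => 1) (fun _ _ => zero_le_one) (by simp)
  have h2 : 0 ≤ ∫ x, G2 lam (bw M 1) (M * 1) {0} (fun _ => 1) x ^ (p / 2) ∂mu := by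
    apply integral_nonneg
    intro x
    exact Real.rpow_nonneg (G2_nonneg lam _ _ _ (fun _ _ => zero_le_one) x) _
  have h3 := h2.trans h1
  simpa using h3

lemma FA_supp {v : ℝ → ℝ} (hv : Bump v (1 / 4) 4) {L0 m : ℕ} {a : ℕ → ℕ → ℂ}
    (ha : ∀ l i, a l i ≠ 0 → m ≤ l) {k : ℕ} (h : (FA v L0 a).coeff k ≠ 0) : 2 ^ m < 16 * k := by
  unfold FA at h
  rw [Polynomial.finsetSum_coeff] at h
  obtain ⟨l, _, hl⟩ := Finset.exists_ne_zero_of_sum_ne_zero h
  have h1 := lv_supp hv hl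
  have h2 : m ≤ l := by
    by_contra hc
    apply hl
    have : a l = 0 := by
      funext i
      by_contra hi
      exact hc (ha l i hi)
    unfold lv
    rw [this]
    simp
  have h3 : 2 ^ m ≤ 2 ^ l := Nat.pow_le_pow_right (by norm_num) h2
  omega

lemma atom_T {v : ℝ → ℝ} (hv : Bump v (1 / 4) 4) {p : ℝ} (hp : 0 < p) (hp2 : p < 2) {M : ℕ}
    (hM : 1 ≤ M) : ∃ C : ℝ, 0 < C ∧ ∀ (lam : ℕ → ℂ) (C0 : ℝ), HB p M lam C0 →
    ∀ (L0 m j : ℕ) (a : ℕ → ℕ → ℂ), (∀ l i, a l i ≠ 0 → m ≤ l ∧ i / 2 ^ (l - m) = j) →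
    ∫ x, ‖(Tm lam (FA v L0 a)).eval (chi x)‖ ^ p ∂mu ≤
      C * C0 * (1 / 2 ^ m) * (2 ^ m * ∑ l ∈ Finset.range L0,
        (1 / 2 ^ l) * ∑ i ∈ Finset.range (2 ^ l), ‖a l i‖ ^ 2) ^ (p / 2) := by
  obtain ⟨K, hK⟩ := exists_nat_ge (2 + 2 / p)
  obtain ⟨C1, hC1, h1⟩ := mol hp hp2 M hK
  obtain ⟨C2, hC2, h2⟩ := atom_est hv K
  refine ⟨C1 * (16 * M) * (2 * C2) ^ (p / 2), by positivity, fun lam C0 hC0 L0 m j a ha => ?_⟩
  have hC00 := HB_nonneg hC0
  have hM0 : (0:ℝ) < M := by exact_mod_cast hM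
  obtain ⟨q, hq⟩ : ∃ q, q = 2 ^ m / (16 * M) := ⟨_, rfl⟩
  obtain ⟨L, hL⟩ : ∃ L, L = 1 + q := ⟨_, rfl⟩
  have hL1 : 1 ≤ L := by omega
  have h2m : (1:ℝ) ≤ 2 ^ m := one_le_pow₀ (by norm_num)
  have hLr : (L : ℝ) ≤ 2 * 2 ^ m := by
    have k1 : q ≤ 2 ^ m := by
      rw [hq]
      exact Nat.div_le_self _ _
    have k2 : L ≤ 1 + 2 ^ m := by omega
    have k3 : (L : ℝ) ≤ 1 + 2 ^ m := by exact_mod_cast k2
    linarith
  have hL0 : (0:ℝ) < L := by exact_mod_cast hL1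
  have hLl : (2:ℝ) ^ m ≤ 16 * M * L := by
    have k1 : 2 ^ m < 16 * M * q + 16 * M := by
      rw [hq]
      exact Nat.lt_mul_div_succ _ (by omega)
    have k2 : 16 * M * L = 16 * M * q + 16 * M := by
      rw [hL]; ring
    have k3 : 2 ^ m ≤ 16 * M * L := by rw [k2]; exact k1.le
    exact_mod_cast k3
  have hsupp : ∀ k, (FA v L0 a).coeff k ≠ 0 → ∀ j', k < j' → bw M L j' = 0 := by
    intro k hk j' hj'
    apply bw_zero
    have k1 := FA_supp hv (fun l i h => (ha l i h).1) hk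
    have k2 : 16 * (M * (L - 1)) ≤ 2 ^ m := by
      have : L - 1 = q := by omega
      rw [this, ← mul_assoc, hq]
      exact Nat.mul_div_le _ _
    omega
  have h3 := h1 L hL1 lam (bw M L) (bw_sum hM hL1) (C0 / L)
    (fun S β hβ hβ1 => hC0 L hL1 S β hβ hβ1) (FA v L0 a) hsupp (yp m j)
  have h4 := h2 L0 m j L a hLr ha
  set S := ∑ l ∈ Finset.range L0, (1 / 2 ^ l : ℝ) * ∑ i ∈ Finset.range (2 ^ l), ‖a l i‖ ^ 2 with hS
  have hS0 : 0 ≤ S := Finset.sum_nonneg fun l _ => by positivity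
  have h5 : 0 ≤ ∫ u, ‖(FA v L0 a).eval (chi u)‖ ^ 2 * wt L (u - yp m j) ^ (2 * K : ℝ) ∂mu := by
    apply integral_nonneg
    intro u
    exact mul_nonneg (by positivity) (Real.rpow_nonneg (wt_pos hL0.le _).le _)
  have h6 : C0 / L ≤ 16 * M * C0 * (1 / 2 ^ m) := by
    rw [div_le_iff₀ hL0]
    have k1 : (1:ℝ) ≤ (16 * M * L) * (1 / 2 ^ m) := by
      rw [mul_one_div, one_le_div (by positivity)]
      exact hLl
    calc C0 = C0 * 1 := (mul_one _).symm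
      _ ≤ C0 * ((16 * M * L) * (1 / 2 ^ m)) := mul_le_mul_of_nonneg_left k1 hC00
      _ = _ := by ring
  calc _ ≤ _ := h3
    _ ≤ C1 * (16 * M * C0 * (1 / 2 ^ m)) * (2 * 2 ^ m * (C2 * S)) ^ (p / 2) := by
        have k0 : 0 ≤ C0 / L := by positivity
        gcongr
    _ = _ := by
        have : (2 * 2 ^ m * (C2 * S) : ℝ) = (2 * C2) * (2 ^ m * S) := by ring
        rw [this, Real.mul_rpow (by positivity) (by positivity)]
        ring

lemma Tm_FA_add (lam : ℕ → ℂ) (v : ℝ → ℝ) (L0 : ℕ) (a b : ℕ → ℕ → ℂ) :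
    Tm lam (FA v L0 (a + b)) = Tm lam (FA v L0 a) + Tm lam (FA v L0 b) := by
  rw [← Tm_add]
  congr 1
  unfold FA lv
  rw [← Finset.sum_add_distrib]
  apply Finset.sum_congr rfl
  intro l _
  rw [← Finset.sum_add_distrib]
  apply Finset.sum_congr rfl
  intro i _
  simp only [Pi.add_apply, map_add]
  ring

/-- the image of general arrays -/
lemma tree_T {v : ℝ → ℝ} (hv : Bump v (1 / 4) 4) {p : ℝ} (hp : 0 < p) (hp1 : p ≤ 1) {M : ℕ}
    (hM : 1 ≤ M) : ∃ C : ℝ, 0 < C ∧ ∀ (lam : ℕ → ℂ) (C0 : ℝ), HB p M lam C0 →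
    ∀ (L0 : ℕ) (c : ℕ → ℕ → ℂ), (∀ l i, c l i ≠ 0 → l < L0 ∧ i < 2 ^ l) →
    ∫ x, ‖(Tm lam (FA v L0 c)).eval (chi x)‖ ^ p ∂mu ≤ C * C0 * fnorm p L0 c := by
  obtain ⟨C1, hC1, h1⟩ := atom_T hv hp (by linarith) hM
  obtain ⟨C2, hC2, h2⟩ := Pool.Agent.HpBall.atomic p hp (by linarith)
  refine ⟨C2 * C1, by positivity, fun lam C0 hC0 L0 c hc => ?_⟩
  have hC00 := HB_nonneg hC0
  have hcont : ∀ a, Continuous (fun x => ‖(Tm lam (FA v L0 a)).eval (chi x)‖ ^ p) :=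
    fun a => (pc _).norm.rpow_const (fun x => Or.inr hp.le)
  have h3 := h2 L0 (fun a => ENNReal.ofReal (∫ x, ‖(Tm lam (FA v L0 a)).eval (chi x)‖ ^ p ∂mu))
    (C1 * C0) (by positivity) (by
      have : FA v L0 0 = 0 := by
        unfold FA lv
        simp
      simp only [this, Tm_zero]
      simp [Real.zero_rpow hp.ne']) (by
      intro a b
      rw [← ENNReal.ofReal_add]
      · apply ENNReal.ofReal_le_ofReal
        have e : ∫ x, (‖(Tm lam (FA v L0 a)).eval (chi x)‖ ^ p +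
            ‖(Tm lam (FA v L0 b)).eval (chi x)‖ ^ p) ∂mu =
            ∫ x, ‖(Tm lam (FA v L0 a)).eval (chi x)‖ ^ p ∂mu +
            ∫ x, ‖(Tm lam (FA v L0 b)).eval (chi x)‖ ^ p ∂mu :=
          integral_add (cint (hcont a)) (cint (hcont b))
        rw [← e]
        apply imono (hcont (a + b)) ((hcont a).add (hcont b))
        intro x
        rw [Tm_FA_add, Polynomial.eval_add]
        calc ‖(Tm lam (FA v L0 a)).eval (chi x) + (Tm lam (FA v L0 b)).eval (chi x)‖ ^ p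
            ≤ (‖(Tm lam (FA v L0 a)).eval (chi x)‖ + ‖(Tm lam (FA v L0 b)).eval (chi x)‖) ^ p := by
              gcongr
              exact norm_add_le _ _
          _ ≤ _ := Real.rpow_add_le_add_rpow (norm_nonneg _) (norm_nonneg _) hp.le hp1
      · exact integral_nonneg fun x => by positivity
      · exact integral_nonneg fun x => by positivity) (by
      intro m j _ _ a ha
      apply ENNReal.ofReal_le_ofReal
      exact h1 lam C0 hC0 L0 m j a fun l i h => ⟨(ha l i h).1, (ha l i h).2.2⟩) c hc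
  have h4 : 0 ≤ fnorm p L0 c := by
    unfold fnorm
    positivity
  have h5 := (ENNReal.ofReal_le_ofReal_iff (by positivity)).1 h3
  calc _ ≤ _ := h5
    _ = _ := by ring

end Pool.Agent.H200
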