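import Mathlib
import Pool.Agent.H200.TreeT
import Pool.Agent.H200.CircInt
import Pool.Graph.R_seed8.HpBall.Weights
import Pool.Graph.R_seed8.HpBall.Combine

/-! Sufficiency of the block test, for polynomials. -/

set_option autoImplicit false

open MeasureTheory AddCircle Polynomial
open scoped ENNReal NNReal

namespace Pool.Agent.H200

open Pool.Agent.HpBall (E sig sc om dm Bump om_norm dm_eq_sum fnorm bD bD_bump bD_sum vD vD_bump
  vD_one cut hc tc)

/-- the frame coefficients -/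
noncomputable def cP (P : ℂ[X]) (L0 l i : ℕ) : ℂ := if l < L0 ∧ i < 2 ^ l then
  ∑' k : ℕ, (bD ((k : ℝ) / (1 / 4 * 2 ^ l)) : ℂ) * (P.coeff k * om l i ^ k) else 0

lemma sc_one (l : ℕ) : sc 1 l = 2 ^ l := by
  unfold sc
  simp

lemma cP_cut (P : ℂ[X]) {L0 l i : ℕ} (hl : l < L0) (hi : i < 2 ^ l) :
    cP P L0 l i = cut bD (1 / 4 * sc 1 l) (fun ξ : E 1 => P.eval (ξ 0)) (pt l i) := by
  unfold cP cut
  rw [if_pos ⟨hl, hi⟩, sc_one]
  congr 1
  funext k
  congr 1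
  unfold hc pt
  have : (fun z : ℂ => P.eval ((z • (EuclideanSpace.single 0 (om l i) : E 1)) 0)) =
      fun z => P.eval (z * om l i) := by
    funext z
    simp
  rw [this, tc_poly]

lemma sphere_mean {p : ℝ} (hp : 0 < p) (hp2 : p ≤ 2) (P : ℂ[X]) {r : ℝ} (h0 : 0 ≤ r)
    (h1 : r ≤ 1) :
    ∫⁻ ξ, ENNReal.ofReal (‖(fun ξ : E 1 => P.eval (ξ 0)) ((r : ℂ) • ξ)‖ ^ p) ∂(sig 1) ≤
      ENNReal.ofReal (sc1.toReal * ∫ x, ‖P.eval (chi x)‖ ^ p ∂mu) := by
  have e1 : ∀ ξ : E 1, ENNReal.ofReal (‖(fun ξ : E 1 => P.eval (ξ 0)) ((r : ℂ) • ξ)‖ ^ p) =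
      (fun z : ℂ => ENNReal.ofReal (‖P.eval ((r : ℂ) * z)‖ ^ p)) (ξ 0) := by
    intro ξ
    simp
  simp_rw [e1]
  have hPc : Continuous (fun z : ℂ => ‖P.eval ((r : ℂ) * z)‖ ^ p) :=
    ((P.continuous.comp (continuous_const.mul continuous_id)).norm).rpow_const
      (fun x => Or.inr hp.le)
  rw [transfer1 (fun z : ℂ => ENNReal.ofReal (‖P.eval ((r : ℂ) * z)‖ ^ p))
    (ENNReal.measurable_ofReal.comp hPc.measurable)]
  have h3 : ∫⁻ x, ENNReal.ofReal (‖P.eval ((r : ℂ) * chi x)‖ ^ p) ∂mu =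
      ENNReal.ofReal (∫ x, ‖P.eval ((r : ℂ) * chi x)‖ ^ p ∂mu) := by
    have hc : Continuous (fun x : TT => ‖P.eval ((r : ℂ) * chi x)‖ ^ p) := hPc.comp chi_cont
    have h0 : ∀ x : TT, 0 ≤ ‖P.eval ((r : ℂ) * chi x)‖ ^ p := fun x => by positivity
    rw [ofReal_integral_eq_lintegral_ofReal (cint hc) (Filter.Eventually.of_forall h0)]
  rw [h3]
  have h4 : sc1 = ENNReal.ofReal sc1.toReal := (ENNReal.ofReal_toReal sc1_ne_top).symm
  rw [h4, ← ENNReal.ofReal_mul ENNReal.toReal_nonneg, ← h4]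
  apply ENNReal.ofReal_le_ofReal
  exact mul_le_mul_of_nonneg_left (mono_mean hp hp2 P h0 h1) ENNReal.toReal_nonneg

/-- the coefficient bound -/
lemma fn_bound {p : ℝ} (hp : 0 < p) (hp1 : p < 1) : ∃ C : ℝ, 0 < C ∧ ∀ (P : ℂ[X]) (L0 : ℕ),
    1 ≤ L0 → fnorm p L0 (cP P L0) ≤ C * ∫ x, ‖P.eval (chi x)‖ ^ p ∂mu := by
  obtain ⟨D, hD, h1⟩ := Pool.Agent.HpBall.weights_bound 1 le_rfl p hp hp1 pt 4 (2 * Real.pi)
    tree_pt (1 / 4) (by norm_num) bD (1 / 2) 2 bD_bump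
  obtain ⟨D', hD', h2⟩ := Pool.Agent.HpBall.fnorm_of_weights p hp hp1 D hD
  have hsc : 0 < sc1.toReal := ENNReal.toReal_pos sc1_pos.ne' sc1_ne_top
  refine ⟨D' * sc1.toReal, by positivity, fun P L0 hL0 => ?_⟩
  set I := ∫ x, ‖P.eval (chi x)‖ ^ p ∂mu with hI
  have hI0 : 0 ≤ I := integral_nonneg fun x => by positivity
  apply le_of_forall_pos_le_add
  intro ε hε
  set M' : ℝ := sc1.toReal * I + ε / D' with hM'
  have hM'0 : 0 < M' := by positivity
  have hPd : DifferentiableOn ℂ (fun ξ : E 1 => P.eval (ξ 0)) (Metric.ball 0 1) := by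
    have h3 : Differentiable ℂ (fun ξ : E 1 => P.eval (ξ 0)) := by
      apply P.differentiable.comp
      fun_prop
    exact h3.differentiableOn
  obtain ⟨W, hW0, hWs, hWsum⟩ := h1 (fun ξ : E 1 => P.eval (ξ 0)) hPd M' hM'0 (by
    intro r hr0 hr1
    refine (sphere_mean hp (by linarith) P hr0 hr1.le).trans (ENNReal.ofReal_le_ofReal ?_)
    rw [hM']
    have : 0 < ε / D' := by positivity
    linarith) L0 hL0
  have h3 := h2 L0 (cP P L0) W M' hL0 hM'0 hW0 hWs (by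
    refine le_trans (le_of_eq ?_) hWsum
    apply Finset.sum_congr rfl
    intro l hl
    congr 1
    apply Finset.sum_congr rfl
    intro i hi
    rw [Finset.mem_range] at hl hi
    rw [cP_cut P hl hi])
  refine h3.trans (le_of_eq ?_)
  rw [hM']
  field_simp

lemma bD_partial {k L0 : ℕ} (hk : 1 ≤ k) (hL : k + 2 ≤ L0) :
    ∑ l ∈ Finset.range L0, bD ((k : ℝ) / (1 / 4 * 2 ^ l)) = 1 := by
  have hk0 : (1 : ℝ) ≤ k := by exact_mod_cast hk
  obtain ⟨J, hJ⟩ : ∃ J, L0 = J + 2 := ⟨L0 - 2, by omega⟩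
  rw [hJ, Finset.sum_range_succ', Finset.sum_range_succ']
  have e0 : bD ((k : ℝ) / (1 / 4 * 2 ^ 0)) = 0 := by
    apply bD_bump.hi
    rw [le_div_iff₀ (by positivity)]
    linarith
  have e1 : bD ((k : ℝ) / (1 / 4 * 2 ^ (0 + 1))) = 0 := by
    apply bD_bump.hi
    rw [le_div_iff₀ (by positivity)]
    linarith
  rw [e0, e1, add_zero, add_zero]
  have e2 : ∀ j : ℕ, bD ((k : ℝ) / (1 / 4 * 2 ^ (j + 1 + 1))) = bD ((k : ℝ) / 2 ^ j) := by
    intro j
    congr 1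
    rw [pow_succ, pow_succ]
    field_simp
    norm_num
  simp_rw [e2]
  have hz : ∀ j ∉ Finset.range J, bD ((k : ℝ) / 2 ^ j) = 0 := by
    intro j hj
    rw [Finset.mem_range, not_lt] at hj
    apply bD_bump.lo
    rw [div_le_iff₀ (by positivity)]
    have h1 : j < 2 ^ j := Nat.lt_two_pow_self
    have h2 : k * 2 ≤ 2 ^ j := by
      have h3 : j - 1 < 2 ^ (j - 1) := Nat.lt_two_pow_self
      have h4 : 2 ^ j = 2 * 2 ^ (j - 1) := by
        rw [← pow_succ']; congr 1; omega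
      omega
    have h5 : (k : ℝ) * 2 ≤ 2 ^ j := by exact_mod_cast h2
    linarith
  exact (hasSum_sum_of_ne_finset_zero (L := SummationFilter.unconditional ℕ) hz).unique
    (bD_sum k hk)

lemma FA_cP (P : ℂ[X]) {L0 : ℕ} (hL : P.natDegree + 2 ≤ L0) :
    FA vD L0 (cP P L0) = P - C (P.coeff 0) := by
  apply Polynomial.funext
  intro z
  have h1 : ∀ l ∈ Finset.range L0, (lv vD l (cP P L0 l)).eval z =
      ∑ k ∈ Finset.range (P.natDegree + 1),
        (bD ((k : ℝ) / (1 / 4 * 2 ^ l)) : ℂ) * (P.coeff k * z ^ k) := by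
    intro l hl
    rw [Finset.mem_range] at hl
    have h2 := Pool.Agent.HpBall.df_level bD vD bD_bump vD_bump vD_one (P.coeff) z l
    have h3 : (lv vD l (cP P L0 l)).eval z = ∑ i ∈ Finset.range (2 ^ l),
      (∑' k : ℕ, (bD ((k : ℝ) / (1 / 4 * 2 ^ l)) : ℂ) *
        (P.coeff k * Complex.exp (2 * Real.pi * Complex.I * (i : ℂ) / 2 ^ l) ^ k)) *
      ((1 / 2 ^ l) * Pool.Agent.HpBall.ker vD (1 / 4 * 2 ^ l)
        (z * (starRingEnd ℂ) (Complex.exp (2 * Real.pi * Complex.I * (i : ℂ) / 2 ^ l)))) := by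
      rw [lv_eval]
      apply Finset.sum_congr rfl
      intro i hi
      rw [Finset.mem_range] at hi
      rw [mo_eval vD_bump]
      unfold cP dm
      rw [if_pos ⟨hl, hi⟩]
      rfl
    rw [h3, h2]
    have hA : ∀ k ∈ Finset.range (max (2 ^ l) (P.natDegree + 1)), k ∉ Finset.range (2 ^ l) →
        (bD ((k : ℝ) / (1 / 4 * 2 ^ l)) : ℂ) * (P.coeff k * z ^ k) = 0 := by
      intro k _ hk
      rw [Finset.mem_range, not_lt] at hk
      rw [bD_bump.hi, Complex.ofReal_zero, zero_mul]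
      rw [le_div_iff₀ (by positivity)]
      have : (2:ℝ) ^ l ≤ k := by exact_mod_cast hk
      have h5 : (0:ℝ) < 2 ^ l := by positivity
      linarith
    have hB : ∀ k ∈ Finset.range (max (2 ^ l) (P.natDegree + 1)),
        k ∉ Finset.range (P.natDegree + 1) →
        (bD ((k : ℝ) / (1 / 4 * 2 ^ l)) : ℂ) * (P.coeff k * z ^ k) = 0 := by
      intro k _ hk
      rw [Finset.mem_range, not_lt] at hk
      rw [Polynomial.coeff_eq_zero_of_natDegree_lt (by omega), zero_mul, mul_zero]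
    rw [Finset.sum_subset (Finset.range_mono (le_max_left _ _)) hA,
      ← Finset.sum_subset (Finset.range_mono (le_max_right _ _)) hB]
  have h4 : (FA vD L0 (cP P L0)).eval z = ∑ k ∈ Finset.range (P.natDegree + 1),
      ((∑ l ∈ Finset.range L0, bD ((k : ℝ) / (1 / 4 * 2 ^ l)) : ℝ) : ℂ) * (P.coeff k * z ^ k) := by
    unfold FA
    rw [Polynomial.eval_finsetSum, Finset.sum_congr rfl h1, Finset.sum_comm]
    apply Finset.sum_congr rfl
    intro k _
    rw [Complex.ofReal_sum, Finset.sum_mul]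
  rw [h4, Polynomial.eval_sub, Polynomial.eval_C, Polynomial.eval_eq_sum_range,
    Finset.sum_range_succ', Finset.sum_range_succ' (fun i => P.coeff i * z ^ i)]
  have e0 : ∑ l ∈ Finset.range L0, bD (((0 : ℕ) : ℝ) / (1 / 4 * 2 ^ l)) = 0 := by
    apply Finset.sum_eq_zero
    intro l _
    apply bD_bump.lo
    simp
  rw [e0]
  simp only [Complex.ofReal_zero, zero_mul, add_zero, pow_zero, mul_one, add_sub_cancel_right]
  apply Finset.sum_congr rfl
  intro k hk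
  rw [Finset.mem_range] at hk
  rw [bD_partial (by omega) (by omega), Complex.ofReal_one, one_mul]

lemma RP_one (M : ℕ) : RP M 1 = 1 := by
  unfold RP
  simp

lemma blk_one (lam : ℕ → ℂ) {M : ℕ} (hM : 1 ≤ M) (n : ℕ) (z : ℂ) :
    (blk lam (bw M 1) (M * 1) n).eval z = lam n := by
  rw [blk_eval, Finset.sum_eq_single 0]
  · unfold bw
    rw [RP_one]
    simp
  · intro k _ hk
    unfold bw
    rw [RP_one, Polynomial.coeff_one, if_neg hk]
    simp
  · intro h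
    exfalso
    apply h
    rw [Finset.mem_range]
    omega

lemma HB_bdd {p : ℝ} {M : ℕ} (hM : 1 ≤ M) {lam : ℕ → ℂ} {C0 : ℝ}
    (h : HB p M lam C0) (n : ℕ) : ‖lam n‖ ^ p ≤ C0 := by
  have h1 := h 1 le_rfl {n} (fun _ => 1) (fun _ _ => zero_le_one) (by simp)
  have h2 : ∀ x, G2 lam (bw M 1) (M * 1) {n} (fun _ => 1) x ^ (p / 2) = ‖lam n‖ ^ p := by
    intro x
    unfold G2
    rw [Finset.sum_singleton, blk_one lam hM, one_mul, ← Real.rpow_natCast, ← Real.rpow_mul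
      (norm_nonneg _)]
    congr 1
    push_cast
    ring
  simp_rw [h2] at h1
  simpa using h1

/-- **Sufficiency, for polynomials.** -/
theorem suff_poly {p : ℝ} (hp : 0 < p) (hp1 : p < 1) {M : ℕ} (hM : 1 ≤ M) : ∃ C : ℝ, 0 < C ∧
    ∀ (lam : ℕ → ℂ) (C0 : ℝ), HB p M lam C0 → ∀ P : ℂ[X],
      ∫ x, ‖(Tm lam P).eval (chi x)‖ ^ p ∂mu ≤ C * C0 * ∫ x, ‖P.eval (chi x)‖ ^ p ∂mu := by
  obtain ⟨C1, hC1, h1⟩ := tree_T vD_bump hp hp1.le hM
  obtain ⟨C2, hC2, h2⟩ := fn_bound hp hp1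
  refine ⟨C1 * C2 + 1, by positivity, fun lam C0 hC0 P => ?_⟩
  have hC00 := HB_nonneg hC0
  set I := ∫ x, ‖P.eval (chi x)‖ ^ p ∂mu with hI
  have hI0 : 0 ≤ I := integral_nonneg fun x => by positivity
  set L0 := P.natDegree + 2 with hL0
  have h3 := h1 lam C0 hC0 L0 (cP P L0) (by
    intro l i h
    by_contra hc
    apply h
    unfold cP
    rw [if_neg hc])
  have h4 := h2 P L0 (by omega)
  have h5 := FA_cP P (L0 := L0) le_rfl
  have h6 : Tm lam P = Tm lam (FA vD L0 (cP P L0)) + Tm lam (C (P.coeff 0)) := by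
    rw [h5, ← Tm_add, sub_add_cancel]
  have h7 : ∀ z, (Tm lam (C (P.coeff 0))).eval z = lam 0 * P.coeff 0 := by
    intro z
    have : Tm lam (C (P.coeff 0)) = C (lam 0 * P.coeff 0) := by
      ext k
      rw [Tm_coeff, Polynomial.coeff_C, Polynomial.coeff_C]
      split_ifs with h
      · rw [h]
      · rw [mul_zero]
    rw [this, Polynomial.eval_C]
  have hc1 : Continuous (fun x => ‖(Tm lam P).eval (chi x)‖ ^ p) :=
    (pc _).norm.rpow_const (fun x => Or.inr hp.le)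
  have hc2 : Continuous (fun x => ‖(Tm lam (FA vD L0 (cP P L0))).eval (chi x)‖ ^ p) :=
    (pc _).norm.rpow_const (fun x => Or.inr hp.le)
  have key : ∀ x, ‖(Tm lam P).eval (chi x)‖ ^ p ≤
      ‖(Tm lam (FA vD L0 (cP P L0))).eval (chi x)‖ ^ p + ‖lam 0‖ ^ p * ‖P.coeff 0‖ ^ p := by
    intro x
    rw [h6, Polynomial.eval_add, h7, ← Real.mul_rpow (norm_nonneg _) (norm_nonneg _), ← norm_mul]
    calc _ ≤ (‖(Tm lam (FA vD L0 (cP P L0))).eval (chi x)‖ + ‖lam 0 * P.coeff 0‖) ^ p := by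
          gcongr
          exact norm_add_le _ _
      _ ≤ _ := Real.rpow_add_le_add_rpow (norm_nonneg _) (norm_nonneg _) hp.le hp1.le
  have h8 : ∫ x, ‖(Tm lam P).eval (chi x)‖ ^ p ∂mu ≤
      ∫ x, (‖(Tm lam (FA vD L0 (cP P L0))).eval (chi x)‖ ^ p +
        ‖lam 0‖ ^ p * ‖P.coeff 0‖ ^ p) ∂mu := imono hc1 (hc2.add continuous_const) key
  have h9 : ∫ x, (‖(Tm lam (FA vD L0 (cP P L0))).eval (chi x)‖ ^ p +
        ‖lam 0‖ ^ p * ‖P.coeff 0‖ ^ p) ∂mu =
      ∫ x, ‖(Tm lam (FA vD L0 (cP P L0))).eval (chi x)‖ ^ p ∂mu +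
        ∫ _x : TT, ‖lam 0‖ ^ p * ‖P.coeff 0‖ ^ p ∂mu :=
    integral_add (cint hc2) (cint continuous_const)
  rw [h9, integral_const] at h8
  simp only [probReal_univ, one_smul] at h8
  have h10 := HB_bdd hM hC0 0
  have h11 := const_le hp (by linarith) P
  calc _ ≤ _ := h8
    _ ≤ C1 * C0 * (C2 * I) + C0 * I := by
        gcongr
        exact h3.trans (mul_le_mul_of_nonneg_left h4 (by positivity))
    _ = _ := by ring

end Pool.Agent.H200
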