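import Mathlib
import Pool.Agent.H200.SuffPoly

/-! Power series of Hardy class and the sufficiency of the block test. -/

set_option autoImplicit false

open MeasureTheory AddCircle Polynomial
open scoped ENNReal NNReal

namespace Pool.Agent.H200

/-- Hardy class, with the Haar measure on the circle -/
def HpM (p : ℝ) (a : ℕ → ℂ) : Prop :=
  (∀ z : ℂ, ‖z‖ < 1 → Summable (fun n => a n * z ^ n)) ∧
  ∃ B : ℝ, ∀ r : ℝ, 0 ≤ r → r < 1 → ∫ x, ‖∑' n, a n * ((r : ℂ) * chi x) ^ n‖ ^ p ∂mu ≤ B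

lemma HpM_iff (p : ℝ) (a : ℕ → ℂ) : HpM p a ↔
    (∀ z : ℂ, ‖z‖ < 1 → Summable (fun n => a n * z ^ n)) ∧
    ∃ B : ℝ, ∀ r : ℝ, 0 ≤ r → r < 1 →
      ∫ θ in (0:ℝ)..2 * Real.pi, ‖∑' n, a n * ((r : ℂ) * Complex.exp (θ * Complex.I)) ^ n‖ ^ p
        ≤ B := by
  have hpi := Real.pi_pos
  have e : ∀ r : ℝ, ∫ θ in (0:ℝ)..2 * Real.pi,
      ‖∑' n, a n * ((r : ℂ) * Complex.exp (θ * Complex.I)) ^ n‖ ^ p =
      (2 * Real.pi) * ∫ x, ‖∑' n, a n * ((r : ℂ) * chi x) ^ n‖ ^ p ∂mu := by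
    intro r
    exact circ_int (fun z : ℂ => ‖∑' n, a n * ((r : ℂ) * z) ^ n‖ ^ p)
  unfold HpM
  constructor
  · rintro ⟨h1, B, hB⟩
    refine ⟨h1, 2 * Real.pi * B, fun r h0 hr => ?_⟩
    rw [e]
    exact mul_le_mul_of_nonneg_left (hB r h0 hr) (by positivity)
  · rintro ⟨h1, B, hB⟩
    refine ⟨h1, B / (2 * Real.pi), fun r h0 hr => ?_⟩
    have := hB r h0 hr
    rw [e] at this
    rw [le_div_iff₀ (by positivity)]
    linarith

/-- truncated series as a polynomial -/
noncomputable def tp (c : ℕ → ℂ) (N : ℕ) : ℂ[X] := ∑ n ∈ Finset.range N, monomial n (c n)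

lemma tp_eval (c : ℕ → ℂ) (N : ℕ) (z : ℂ) : (tp c N).eval z =
    ∑ n ∈ Finset.range N, c n * z ^ n := by
  unfold tp
  rw [Polynomial.eval_finsetSum]
  simp only [Polynomial.eval_monomial]

lemma tp_coeff (c : ℕ → ℂ) (N k : ℕ) : (tp c N).coeff k = if k < N then c k else 0 := by
  unfold tp
  rw [Polynomial.finsetSum_coeff]
  simp_rw [Polynomial.coeff_monomial]
  rw [Finset.sum_ite_eq']
  simp only [Finset.mem_range]

lemma Tm_tp (lam c : ℕ → ℂ) (N : ℕ) : Tm lam (tp c N) = tp (fun n => lam n * c n) N := by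
  ext k
  rw [Tm_coeff, tp_coeff, tp_coeff]
  split_ifs
  · rfl
  · rw [mul_zero]

/-- convergence of the means of partial sums -/
lemma tp_lim {p : ℝ} (hp : 0 < p) {c : ℕ → ℂ} (hc : Summable (fun n => ‖c n‖)) :
    Filter.Tendsto (fun N => ∫ x, ‖(tp c N).eval (chi x)‖ ^ p ∂mu) Filter.atTop
      (nhds (∫ x, ‖∑' n, c n * chi x ^ n‖ ^ p ∂mu)) := by
  have hs : ∀ x : TT, Summable (fun n => ‖c n * chi x ^ n‖) := by
    intro x
    refine hc.congr fun n => ?_
    rw [norm_mul, norm_pow, chi_norm, one_pow, mul_one]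
  have hb : ∀ (N : ℕ) (x : TT), ‖(tp c N).eval (chi x)‖ ≤ ∑' n, ‖c n‖ := by
    intro N x
    rw [tp_eval]
    refine (norm_sum_le _ _).trans ?_
    refine le_trans (le_of_eq ?_) (hc.sum_le_tsum (Finset.range N) (fun _ _ => norm_nonneg _))
    apply Finset.sum_congr rfl
    intro n _
    rw [norm_mul, norm_pow, chi_norm, one_pow, mul_one]
  apply tendsto_integral_of_dominated_convergence (fun _ => (∑' n, ‖c n‖) ^ p)
  · intro N
    exact ((pc (tp c N)).norm.rpow_const (fun x => Or.inr hp.le)).aestronglyMeasurable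
  · exact integrable_const _
  · intro N
    apply Filter.Eventually.of_forall
    intro x
    rw [Real.norm_of_nonneg (by positivity)]
    exact Real.rpow_le_rpow (norm_nonneg _) (hb N x) hp.le
  · apply Filter.Eventually.of_forall
    intro x
    have h1 := ((hs x).of_norm.hasSum.tendsto_sum_nat).norm
    have h2 := h1.rpow_const (p := p) (Or.inr hp.le)
    refine h2.congr fun N => ?_
    rw [tp_eval]

/-- **Sufficiency.** -/
theorem suff_hp {p : ℝ} (hp : 0 < p) (hp1 : p < 1) {M : ℕ} (hM : 1 ≤ M) {lam : ℕ → ℂ} {C0 : ℝ}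
    (hC0 : HB p M lam C0) {a : ℕ → ℂ} (ha : HpM p a) : HpM p (fun n => lam n * a n) := by
  obtain ⟨C, hC, h1⟩ := suff_poly hp hp1 hM
  obtain ⟨ha1, B, hB⟩ := ha
  have hC00 := HB_nonneg hC0
  have hlam : ∀ n, ‖lam n‖ ≤ C0 ^ (1 / p) := by
    intro n
    have h2 := HB_bdd hM hC0 n
    have h3 := Real.rpow_le_rpow (by positivity) h2 (show (0:ℝ) ≤ 1 / p by positivity)
    rw [← Real.rpow_mul (norm_nonneg _)] at h3
    have : p * (1 / p) = 1 := by field_simp
    rwa [this, Real.rpow_one] at h3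
  refine ⟨fun z hz => ?_, C * C0 * B, fun r hr0 hr1 => ?_⟩
  · have h2 := (ha1 z hz).norm
    apply Summable.of_norm
    refine Summable.of_nonneg_of_le (fun n => norm_nonneg _) (fun n => ?_) (h2.mul_left (C0 ^ (1 / p)))
    rw [mul_assoc, norm_mul]
    exact mul_le_mul_of_nonneg_right (hlam n) (norm_nonneg _)
  · have hrn : ‖(r : ℂ)‖ < 1 := by
      rw [Complex.norm_real, Real.norm_of_nonneg hr0]
      exact hr1
    set c : ℕ → ℂ := fun n => a n * (r : ℂ) ^ n with hc
    have hcs : Summable (fun n => ‖c n‖) := (ha1 r hrn).norm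
    have hcs' : Summable (fun n => ‖lam n * c n‖) := by
      refine Summable.of_nonneg_of_le (fun n => norm_nonneg _) (fun n => ?_)
        (hcs.mul_left (C0 ^ (1 / p)))
      rw [norm_mul]
      exact mul_le_mul_of_nonneg_right (hlam n) (norm_nonneg _)
    have l1 := tp_lim hp hcs
    have l2 := tp_lim hp hcs'
    have e1 : ∀ x : TT, ∑' n, a n * ((r : ℂ) * chi x) ^ n = ∑' n, c n * chi x ^ n := by
      intro x
      congr 1
      funext n
      rw [hc, mul_pow]
      ring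
    have e2 : ∀ x : TT, ∑' n, lam n * a n * ((r : ℂ) * chi x) ^ n =
        ∑' n, lam n * c n * chi x ^ n := by
      intro x
      congr 1
      funext n
      rw [hc, mul_pow]
      ring
    simp_rw [e2]
    have h3 : ∀ N, ∫ x, ‖(tp (fun n => lam n * c n) N).eval (chi x)‖ ^ p ∂mu ≤
        C * C0 * ∫ x, ‖(tp c N).eval (chi x)‖ ^ p ∂mu := by
      intro N
      rw [← Tm_tp]
      exact h1 lam C0 hC0 (tp c N)
    have h4 := le_of_tendsto_of_tendsto' l2 (l1.const_mul (C * C0)) h3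
    refine h4.trans ?_
    apply mul_le_mul_of_nonneg_left _ (by positivity)
    have h5 := hB r hr0 hr1
    simp_rw [e1] at h5
    exact h5

end Pool.Agent.H200
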