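import Mathlib

/-! Random signs: elementary moment inequalities. -/

set_option autoImplicit false

namespace Pool.Agent.H200

/-- the signed sum -/
noncomputable def sg {ι : Type} [DecidableEq ι] (S : Finset ι) (c : ι → ℂ) (A : Finset ι) : ℂ :=
  ∑ n ∈ S, if n ∈ A then c n else -c n

lemma sg_insert {ι : Type} [DecidableEq ι] {S : Finset ι} {m : ι} (hm : m ∉ S) (c : ι → ℂ)
    {A : Finset ι} (hA : A ∈ S.powerset) : sg (insert m S) c A = sg S c A - c m := by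
  unfold sg
  rw [Finset.sum_insert hm]
  have : m ∉ A := fun h => hm (Finset.mem_powerset.mp hA h)
  rw [if_neg this]
  ring

lemma sg_insert' {ι : Type} [DecidableEq ι] {S : Finset ι} {m : ι} (hm : m ∉ S) (c : ι → ℂ)
    (A : Finset ι) : sg (insert m S) c (insert m A) = sg S c A + c m := by
  unfold sg
  rw [Finset.sum_insert hm, if_pos (Finset.mem_insert_self m A)]
  have : ∑ n ∈ S, (if n ∈ insert m A then c n else -c n) =
      ∑ n ∈ S, (if n ∈ A then c n else -c n) := by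
    apply Finset.sum_congr rfl
    intro n hn
    have hnm : n ≠ m := fun h => hm (h ▸ hn)
    simp only [Finset.mem_insert, hnm, false_or]
  rw [this]
  ring

/-- the average over all signs -/
lemma sg_sum {ι : Type} [DecidableEq ι] {S : Finset ι} {m : ι} (hm : m ∉ S) (c : ι → ℂ)
    (g : ℂ → ℝ) : ∑ A ∈ (insert m S).powerset, g (sg (insert m S) c A) =
      ∑ A ∈ S.powerset, (g (sg S c A - c m) + g (sg S c A + c m)) := by
  rw [Finset.sum_powerset_insert hm, ← Finset.sum_add_distrib]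
  apply Finset.sum_congr rfl
  intro A hA
  rw [sg_insert hm c hA, sg_insert' hm c A]

lemma par_id (x y : ℂ) : ‖x - y‖ ^ 2 + ‖x + y‖ ^ 2 = 2 * (‖x‖ ^ 2 + ‖y‖ ^ 2) := by
  have := parallelogram_law_with_norm ℝ x y
  nlinarith [this]

lemma par_four (x y : ℂ) : ‖x - y‖ ^ 4 + ‖x + y‖ ^ 4 ≤
    2 * (‖x‖ ^ 4 + 6 * ‖x‖ ^ 2 * ‖y‖ ^ 2 + ‖y‖ ^ 4) := by
  have h1 : ‖x + y‖ ^ 2 = ‖x‖ ^ 2 + ‖y‖ ^ 2 + 2 * inner ℝ x y := by
    rw [norm_add_sq_real]; ring
  have h2 : ‖x - y‖ ^ 2 = ‖x‖ ^ 2 + ‖y‖ ^ 2 - 2 * inner ℝ x y := by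
    rw [norm_sub_sq_real]; ring
  have h3 : (inner ℝ x y) ^ 2 ≤ ‖x‖ ^ 2 * ‖y‖ ^ 2 := by
    have := abs_real_inner_le_norm x y
    have h4 := sq_le_sq' (a := inner ℝ x y) (b := ‖x‖ * ‖y‖)
      (by have := neg_le_of_abs_le this; linarith) (le_of_abs_le this)
    nlinarith
  have e1 : ‖x - y‖ ^ 4 = (‖x - y‖ ^ 2) ^ 2 := by ring
  have e2 : ‖x + y‖ ^ 4 = (‖x + y‖ ^ 2) ^ 2 := by ring
  rw [e1, e2, h1, h2]
  nlinarith

lemma kh_two {ι : Type} [DecidableEq ι] (S : Finset ι) (c : ι → ℂ) :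
    ∑ A ∈ S.powerset, ‖sg S c A‖ ^ 2 = 2 ^ S.card * ∑ n ∈ S, ‖c n‖ ^ 2 := by
  induction S using Finset.induction_on with
  | empty => simp [sg]
  | insert m S hm ih =>
    rw [sg_sum hm c (fun z => ‖z‖ ^ 2), Finset.card_insert_of_notMem hm, Finset.sum_insert hm]
    simp_rw [par_id]
    rw [← Finset.mul_sum, Finset.sum_add_distrib, ih, Finset.sum_const, Finset.card_powerset,
      nsmul_eq_mul]
    push_cast
    ring

lemma kh_four {ι : Type} [DecidableEq ι] (S : Finset ι) (c : ι → ℂ) :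
    ∑ A ∈ S.powerset, ‖sg S c A‖ ^ 4 ≤ 2 ^ S.card * (3 * (∑ n ∈ S, ‖c n‖ ^ 2) ^ 2) := by
  induction S using Finset.induction_on with
  | empty => simp [sg]
  | insert m S hm ih =>
    rw [sg_sum hm c (fun z => ‖z‖ ^ 4), Finset.card_insert_of_notMem hm, Finset.sum_insert hm]
    calc ∑ A ∈ S.powerset, (‖sg S c A - c m‖ ^ 4 + ‖sg S c A + c m‖ ^ 4)
        ≤ ∑ A ∈ S.powerset, 2 * (‖sg S c A‖ ^ 4 + 6 * ‖sg S c A‖ ^ 2 * ‖c m‖ ^ 2 + ‖c m‖ ^ 4) :=
          Finset.sum_le_sum fun A _ => par_four _ _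
      _ = 2 * (∑ A ∈ S.powerset, ‖sg S c A‖ ^ 4 +
            6 * ‖c m‖ ^ 2 * ∑ A ∈ S.powerset, ‖sg S c A‖ ^ 2 + 2 ^ S.card * ‖c m‖ ^ 4) := by
          rw [← Finset.mul_sum, Finset.sum_add_distrib, Finset.sum_add_distrib, Finset.mul_sum,
            Finset.sum_const, Finset.card_powerset, nsmul_eq_mul]
          push_cast
          congr 3
          apply Finset.sum_congr rfl
          intro A _
          ring
      _ ≤ 2 * (2 ^ S.card * (3 * (∑ n ∈ S, ‖c n‖ ^ 2) ^ 2) +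
            6 * ‖c m‖ ^ 2 * (2 ^ S.card * ∑ n ∈ S, ‖c n‖ ^ 2) + 2 ^ S.card * ‖c m‖ ^ 4) := by
          rw [kh_two]
          gcongr
      _ ≤ 2 ^ (S.card + 1) * (3 * (‖c m‖ ^ 2 + ∑ n ∈ S, ‖c n‖ ^ 2) ^ 2) := by
          have h1 : (0:ℝ) ≤ 2 ^ S.card * ‖c m‖ ^ 4 := by positivity
          have h2 : (2:ℝ) ^ (S.card + 1) * (3 * (‖c m‖ ^ 2 + ∑ n ∈ S, ‖c n‖ ^ 2) ^ 2) =
              2 * (2 ^ S.card * (3 * (∑ n ∈ S, ‖c n‖ ^ 2) ^ 2) +
            6 * ‖c m‖ ^ 2 * (2 ^ S.card * ∑ n ∈ S, ‖c n‖ ^ 2) + 2 ^ S.card * ‖c m‖ ^ 4) +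
            4 * (2 ^ S.card * ‖c m‖ ^ 4) := by ring
          rw [h2]
          linarith

/-- the pointwise lower bound -/
lemma pt_lower {p : ℝ} (hp : 0 < p) (hp2 : p ≤ 2) {x : ℝ} (hx : 0 ≤ x) :
    x ^ 2 - x ^ 4 / 6 ≤ 6 * x ^ p := by
  have hxp : 0 ≤ x ^ p := Real.rpow_nonneg hx p
  rcases le_total (x ^ 2) 6 with h | h
  · rcases le_total x 1 with h1 | h1
    · have h2 : x ^ 2 ≤ x ^ p := by
        rcases hx.eq_or_lt with h0 | h0
        · rw [← h0, Real.zero_rpow hp.ne']; norm_num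
        · rw [← Real.rpow_natCast]
          exact Real.rpow_le_rpow_of_exponent_ge h0 h1 (by exact_mod_cast hp2)
      have h3 : 0 ≤ x ^ 4 / 6 := by positivity
      linarith
    · have h2 : 1 ≤ x ^ p := Real.one_le_rpow h1 hp.le
      have h3 : 0 ≤ x ^ 4 / 6 := by positivity
      linarith
  · have h3 : x ^ 2 ≤ x ^ 4 / 6 := by nlinarith
    linarith

/-- Khinchine's lower bound -/
lemma kh_lower {p : ℝ} (hp : 0 < p) (hp2 : p ≤ 2) {ι : Type} [DecidableEq ι] (S : Finset ι)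
    (c : ι → ℂ) : 2 ^ S.card * (∑ n ∈ S, ‖c n‖ ^ 2) ^ (p / 2) ≤
      12 * ∑ A ∈ S.powerset, ‖sg S c A‖ ^ p := by
  set s := ∑ n ∈ S, ‖c n‖ ^ 2 with hs
  have hs0 : 0 ≤ s := Finset.sum_nonneg fun n _ => by positivity
  rcases hs0.eq_or_lt with h0 | h0
  · rw [← h0, Real.zero_rpow (by positivity)]
    simp only [mul_zero]
    positivity
  set σ := Real.sqrt s with hσ
  have hσ0 : 0 < σ := Real.sqrt_pos.mpr h0
  have hσ2 : σ ^ 2 = s := Real.sq_sqrt h0.le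
  have hσ4 : σ ^ 4 = s ^ 2 := by rw [← hσ2]; ring
  have h1 : ∀ A ∈ S.powerset, (‖sg S c A‖ / σ) ^ 2 - (‖sg S c A‖ / σ) ^ 4 / 6 ≤
      6 * (‖sg S c A‖ / σ) ^ p := fun A _ => pt_lower hp hp2 (by positivity)
  have h2 := Finset.sum_le_sum h1
  have h3 : ∑ A ∈ S.powerset, ((‖sg S c A‖ / σ) ^ 2 - (‖sg S c A‖ / σ) ^ 4 / 6) =
      (∑ A ∈ S.powerset, ‖sg S c A‖ ^ 2) / s - (∑ A ∈ S.powerset, ‖sg S c A‖ ^ 4) / (6 * s ^ 2) := by
    rw [Finset.sum_sub_distrib, Finset.sum_div, Finset.sum_div]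
    congr 1
    · apply Finset.sum_congr rfl
      intro A _
      rw [div_pow, hσ2]
    · apply Finset.sum_congr rfl
      intro A _
      rw [div_pow, hσ4]
      field_simp
  have h4 : ∑ A ∈ S.powerset, 6 * (‖sg S c A‖ / σ) ^ p =
      6 * (∑ A ∈ S.powerset, ‖sg S c A‖ ^ p) / σ ^ p := by
    rw [← Finset.mul_sum, mul_div_assoc, Finset.sum_div]
    congr 1
    apply Finset.sum_congr rfl
    intro A _
    rw [Real.div_rpow (norm_nonneg _) hσ0.le]
  rw [h3, h4, kh_two] at h2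
  have h5 := kh_four S c
  rw [← hs] at h2 h5
  have h6 : (∑ A ∈ S.powerset, ‖sg S c A‖ ^ 4) / (6 * s ^ 2) ≤ 2 ^ S.card / 2 := by
    rw [div_le_iff₀ (by positivity)]
    calc _ ≤ _ := h5
      _ = _ := by ring
  have h7 : 2 ^ S.card * s / s = 2 ^ S.card := by field_simp
  rw [h7] at h2
  have h8 : (2:ℝ) ^ S.card / 2 ≤ 6 * (∑ A ∈ S.powerset, ‖sg S c A‖ ^ p) / σ ^ p := by linarith
  have h9 : s ^ (p / 2) = σ ^ p := by
    rw [← hσ2, ← Real.rpow_natCast, ← Real.rpow_mul hσ0.le]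
    congr 1
    push_cast
    ring
  rw [h9]
  have h10 : 0 < σ ^ p := by positivity
  rw [le_div_iff₀ h10] at h8
  linarith

/-- the upper bound -/
lemma kh_upper {p : ℝ} (hp : 0 < p) (hp2 : p ≤ 2) {ι : Type} [DecidableEq ι] (S : Finset ι)
    (c : ι → ℂ) : ∑ A ∈ S.powerset, ‖sg S c A‖ ^ p ≤
      2 * (2 ^ S.card * (∑ n ∈ S, ‖c n‖ ^ 2) ^ (p / 2)) := by
  set s := ∑ n ∈ S, ‖c n‖ ^ 2 with hs
  have hs0 : 0 ≤ s := Finset.sum_nonneg fun n _ => by positivity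
  rcases hs0.eq_or_lt with h0 | h0
  · have h1 : ∀ n ∈ S, ‖c n‖ ^ 2 = 0 :=
      (Finset.sum_eq_zero_iff_of_nonneg (fun n _ => by positivity)).mp h0.symm
    have h2 : ∀ A ∈ S.powerset, ‖sg S c A‖ ^ p = 0 := by
      intro A _
      have : sg S c A = 0 := by
        unfold sg
        apply Finset.sum_eq_zero
        intro n hn
        have h3 : c n = 0 := by
          have := h1 n hn
          rw [sq_eq_zero_iff, norm_eq_zero] at this
          exact this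
        rw [h3]
        simp
      rw [this, norm_zero, Real.zero_rpow hp.ne']
    rw [Finset.sum_eq_zero h2]
    positivity
  set σ := Real.sqrt s with hσ
  have hσ0 : 0 < σ := Real.sqrt_pos.mpr h0
  have hσ2 : σ ^ 2 = s := Real.sq_sqrt h0.le
  have h9 : s ^ (p / 2) = σ ^ p := by
    rw [← hσ2, ← Real.rpow_natCast, ← Real.rpow_mul hσ0.le]
    congr 1
    push_cast
    ring
  have hpt : ∀ x : ℝ, 0 ≤ x → x ^ p ≤ 1 + x ^ 2 := by
    intro x hx
    rcases le_total x 1 with h1 | h1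
    · have := Real.rpow_le_one hx h1 hp.le
      have h2 : 0 ≤ x ^ 2 := by positivity
      linarith
    · have h2 : x ^ p ≤ x ^ 2 := by
        rw [← Real.rpow_natCast]
        exact Real.rpow_le_rpow_of_exponent_le h1 (by exact_mod_cast hp2)
      linarith
  have h1 : ∀ A ∈ S.powerset, ‖sg S c A‖ ^ p ≤ σ ^ p * (1 + ‖sg S c A‖ ^ 2 / s) := by
    intro A _
    have h2 := hpt (‖sg S c A‖ / σ) (by positivity)
    rw [Real.div_rpow (norm_nonneg _) hσ0.le, div_pow, hσ2, div_le_iff₀ (by positivity)] at h2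
    linarith
  refine (Finset.sum_le_sum h1).trans (le_of_eq ?_)
  rw [← Finset.mul_sum, Finset.sum_add_distrib, ← Finset.sum_div, kh_two, Finset.sum_const,
    Finset.card_powerset, nsmul_eq_mul, h9, ← hs]
  push_cast
  field_simp
  ring

end Pool.Agent.H200
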