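import Mathlib
import Pool.Agent.H200.HpM
import Pool.Agent.H200.Khin

/-! Bounded multipliers of polynomials satisfy the block test. -/

set_option autoImplicit false

open MeasureTheory AddCircle Polynomial
open scoped ENNReal NNReal

namespace Pool.Agent.H200

/-- signed sums of polynomials -/
noncomputable def sgP (S : Finset ℕ) (Q : ℕ → ℂ[X]) (A : Finset ℕ) : ℂ[X] :=
  ∑ n ∈ S, if n ∈ A then Q n else -Q n

lemma sgP_eval (S : Finset ℕ) (Q : ℕ → ℂ[X]) (A : Finset ℕ) (z : ℂ) :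
    (sgP S Q A).eval z = sg S (fun n => (Q n).eval z) A := by
  unfold sgP sg
  rw [Polynomial.eval_finsetSum]
  apply Finset.sum_congr rfl
  intro n _
  split_ifs
  · rfl
  · rw [Polynomial.eval_neg]

lemma Tm_neg (lam : ℕ → ℂ) (P : ℂ[X]) : Tm lam (-P) = -Tm lam P := by
  ext k
  rw [Tm_coeff, Polynomial.coeff_neg, Polynomial.coeff_neg, Tm_coeff]
  ring

lemma Tm_sgP (lam : ℕ → ℂ) (S : Finset ℕ) (Q : ℕ → ℂ[X]) (A : Finset ℕ) :
    Tm lam (sgP S Q A) = sgP S (fun n => Tm lam (Q n)) A := by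
  ext k
  unfold sgP
  rw [Tm_coeff, Polynomial.finsetSum_coeff, Polynomial.finsetSum_coeff, Finset.mul_sum]
  apply Finset.sum_congr rfl
  intro n _
  split_ifs
  · rw [Tm_coeff]
  · rw [Polynomial.coeff_neg, Polynomial.coeff_neg, Tm_coeff]
    ring

lemma blk_coeff (lam b : ℕ → ℂ) (R n k : ℕ) : (blk lam b R n).coeff k =
    if k < R then b k * lam (n + k) else 0 := by
  unfold blk
  rw [Polynomial.finsetSum_coeff]
  simp_rw [Polynomial.coeff_monomial]
  rw [Finset.sum_ite_eq']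
  simp only [Finset.mem_range]

lemma Tm_shift {M L : ℕ} (hM : 1 ≤ M) (hL : 1 ≤ L) (lam : ℕ → ℂ) (c : ℂ) (n : ℕ) :
    Tm lam (C c * (X ^ n * RP M L)) = C c * (X ^ n * blk lam (bw M L) (M * L) n) := by
  ext m
  rw [Tm_coeff, Polynomial.coeff_C_mul, Polynomial.coeff_C_mul, Polynomial.coeff_X_pow_mul',
    Polynomial.coeff_X_pow_mul']
  split_ifs with h
  · rw [blk_coeff]
    split_ifs with h2
    · rw [show n + (m - n) = m by omega]
      unfold bw
      ring
    · have : bw M L (m - n) = 0 := by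
        apply bw_zero
        have : M * (L - 1) < M * L := Nat.mul_lt_mul_of_pos_left (by omega) (by omega)
        omega
      unfold bw at this
      rw [this]
      ring
  · ring

lemma RP_p {p : ℝ} (hp : 0 < p) {M : ℕ} (hM : 1 < M * p) : ∃ C : ℝ, 0 < C ∧ ∀ L : ℕ, 1 ≤ L →
    ∫ x, ‖(RP M L).eval (chi x)‖ ^ p ∂mu ≤ C / L := by
  obtain ⟨C, hC, h⟩ := kint (M * p) hM
  refine ⟨(3 ^ M) ^ p * C, by positivity, fun L hL => ?_⟩
  have hL0 : (0 : ℝ) < L := by exact_mod_cast hL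
  have h1 : ∀ x, ‖(RP M L).eval (chi x)‖ ^ p ≤ (3 ^ M) ^ p * wt L x ^ (-(M * p : ℝ)) := by
    intro x
    have hw := wt_pos hL0.le x
    calc ‖(RP M L).eval (chi x)‖ ^ p ≤ (3 ^ M * wt L x ^ (-(M : ℝ))) ^ p :=
          Real.rpow_le_rpow (norm_nonneg _) (RP_bound hL x) hp.le
      _ = _ := by
          rw [Real.mul_rpow (by positivity) (by positivity), ← Real.rpow_mul hw.le]
          congr 2
          ring
  have h2 : ∫ x, ‖(RP M L).eval (chi x)‖ ^ p ∂mu ≤
      ∫ x, (3 ^ M) ^ p * wt L x ^ (-(M * p : ℝ)) ∂mu :=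
    imono ((pc _).norm.rpow_const (fun x => Or.inr hp.le))
      (continuous_const.mul (wt_rpow_cont hL0.le _)) h1
  rw [integral_const_mul] at h2
  calc _ ≤ _ := h2
    _ ≤ (3 ^ M) ^ p * (C / L) := by
        apply mul_le_mul_of_nonneg_left (h L hL0) (by positivity)
    _ = _ := by ring

/-- **Boundedness on polynomials implies the block test.** -/
theorem nec_HB {p : ℝ} (hp : 0 < p) (hp2 : p ≤ 2) {M : ℕ} (hM : 1 < M * p) : ∃ C : ℝ, 0 < C ∧
    ∀ (lam : ℕ → ℂ) (B : ℝ), 0 ≤ B → (∀ P : ℂ[X], ∫ x, ‖(Tm lam P).eval (chi x)‖ ^ p ∂mu ≤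
      B * ∫ x, ‖P.eval (chi x)‖ ^ p ∂mu) → HB p M lam (C * B) := by
  obtain ⟨C1, hC1, h1⟩ := RP_p hp hM
  refine ⟨24 * C1, by positivity, fun lam B hB hT L hL S β hβ hβ1 => ?_⟩
  have hM1 : 1 ≤ M := by
    rcases Nat.eq_zero_or_pos M with h | h
    · rw [h] at hM
      norm_num at hM
    · exact h
  have hL0 : (0 : ℝ) < L := by exact_mod_cast hL
  set Q : ℕ → ℂ[X] := fun n => C ((Real.sqrt (β n) : ℝ) : ℂ) * (X ^ n * RP M L) with hQ
  set D : ℕ → ℂ[X] := fun n => Tm lam (Q n) with hD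
  have hDe : ∀ n x, ‖(D n).eval (chi x)‖ = Real.sqrt (β n) *
      ‖(blk lam (bw M L) (M * L) n).eval (chi x)‖ := by
    intro n x
    rw [hD, hQ]
    beta_reduce
    rw [Tm_shift hM1 hL]
    simp only [Polynomial.eval_mul, Polynomial.eval_C, Polynomial.eval_pow, Polynomial.eval_X]
    rw [norm_mul, norm_mul, norm_pow, chi_norm, one_pow, one_mul, Complex.norm_real,
      Real.norm_of_nonneg (Real.sqrt_nonneg _)]
  have hQe : ∀ n x, ‖(Q n).eval (chi x)‖ = Real.sqrt (β n) * ‖(RP M L).eval (chi x)‖ := by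
    intro n x
    rw [hQ]
    simp only [Polynomial.eval_mul, Polynomial.eval_C, Polynomial.eval_pow, Polynomial.eval_X]
    rw [norm_mul, norm_mul, norm_pow, chi_norm, one_pow, one_mul, Complex.norm_real,
      Real.norm_of_nonneg (Real.sqrt_nonneg _)]
  have hDs : ∀ x, ∑ n ∈ S, ‖(D n).eval (chi x)‖ ^ 2 = G2 lam (bw M L) (M * L) S β x := by
    intro x
    unfold G2
    apply Finset.sum_congr rfl
    intro n hn
    rw [hDe, mul_pow, Real.sq_sqrt (hβ n hn)]
  have hQs : ∀ x, ∑ n ∈ S, ‖(Q n).eval (chi x)‖ ^ 2 = ‖(RP M L).eval (chi x)‖ ^ 2 := by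
    intro x
    calc _ = ∑ n ∈ S, β n * ‖(RP M L).eval (chi x)‖ ^ 2 := by
          apply Finset.sum_congr rfl
          intro n hn
          rw [hQe, mul_pow, Real.sq_sqrt (hβ n hn)]
      _ = _ := by rw [← Finset.sum_mul, hβ1, one_mul]
  have hc : ∀ P : ℂ[X], Continuous (fun x : TT => ‖P.eval (chi x)‖ ^ p) :=
    fun P => (pc P).norm.rpow_const (fun x => Or.inr hp.le)
  have s1 : ∀ x, 2 ^ S.card * G2 lam (bw M L) (M * L) S β x ^ (p / 2) ≤
      12 * ∑ A ∈ S.powerset, ‖(sgP S D A).eval (chi x)‖ ^ p := by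
    intro x
    have := kh_lower hp hp2 S (fun n => (D n).eval (chi x))
    rw [hDs] at this
    simp_rw [sgP_eval]
    exact this
  have s2 : ∫ x, 2 ^ S.card * G2 lam (bw M L) (M * L) S β x ^ (p / 2) ∂mu ≤
      ∫ x, 12 * ∑ A ∈ S.powerset, ‖(sgP S D A).eval (chi x)‖ ^ p ∂mu := by
    apply imono _ _ s1
    · exact continuous_const.mul ((G2_cont lam _ _ S β).rpow_const
        (fun x => Or.inr (by positivity)))
    · exact continuous_const.mul (continuous_finsetSum _ fun A _ => hc _)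
  have s3 : ∫ x, 12 * ∑ A ∈ S.powerset, ‖(sgP S D A).eval (chi x)‖ ^ p ∂mu =
      12 * ∑ A ∈ S.powerset, ∫ x, ‖(sgP S D A).eval (chi x)‖ ^ p ∂mu := by
    rw [integral_const_mul, integral_finsetSum _ (fun A _ => cint (hc _))]
  have s4 : ∑ A ∈ S.powerset, ∫ x, ‖(sgP S D A).eval (chi x)‖ ^ p ∂mu ≤
      B * ∑ A ∈ S.powerset, ∫ x, ‖(sgP S Q A).eval (chi x)‖ ^ p ∂mu := by
    rw [Finset.mul_sum]
    apply Finset.sum_le_sum
    intro A _
    have := hT (sgP S Q A)
    rw [Tm_sgP] at this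
    exact this
  have s5 : ∑ A ∈ S.powerset, ∫ x, ‖(sgP S Q A).eval (chi x)‖ ^ p ∂mu ≤
      2 ^ S.card * (2 * (C1 / L)) := by
    rw [← integral_finsetSum _ (fun A _ => cint (hc _))]
    have k1 : ∀ x, ∑ A ∈ S.powerset, ‖(sgP S Q A).eval (chi x)‖ ^ p ≤
        (2 * 2 ^ S.card) * ‖(RP M L).eval (chi x)‖ ^ p := by
      intro x
      have := kh_upper hp hp2 S (fun n => (Q n).eval (chi x))
      have e : (‖(RP M L).eval (chi x)‖ ^ 2) ^ (p / 2) = ‖(RP M L).eval (chi x)‖ ^ p := by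
        rw [← Real.rpow_natCast, ← Real.rpow_mul (norm_nonneg _)]
        congr 1
        push_cast
        ring
      rw [hQs, e] at this
      simp_rw [sgP_eval]
      linarith
    have k2 : ∫ x, ∑ A ∈ S.powerset, ‖(sgP S Q A).eval (chi x)‖ ^ p ∂mu ≤
        ∫ x, (2 * 2 ^ S.card) * ‖(RP M L).eval (chi x)‖ ^ p ∂mu := by
      apply imono _ _ k1
      · exact continuous_finsetSum _ fun A _ => hc _
      · exact continuous_const.mul (hc _)
    rw [integral_const_mul] at k2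
    refine k2.trans ?_
    have k3 := h1 L hL
    have k4 : (0:ℝ) ≤ 2 * 2 ^ S.card := by positivity
    calc _ ≤ (2 * 2 ^ S.card) * (C1 / L) := mul_le_mul_of_nonneg_left k3 k4
      _ = _ := by ring
  rw [integral_const_mul, s3] at s2
  have h2c : (0:ℝ) < 2 ^ S.card := by positivity
  have s6 : 2 ^ S.card * ∫ x, G2 lam (bw M L) (M * L) S β x ^ (p / 2) ∂mu ≤
      2 ^ S.card * (24 * C1 * B / L) := by
    calc _ ≤ _ := s2
      _ ≤ 12 * (B * (2 ^ S.card * (2 * (C1 / L)))) := by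
          apply mul_le_mul_of_nonneg_left _ (by norm_num)
          exact s4.trans (mul_le_mul_of_nonneg_left s5 hB)
      _ = _ := by ring
  exact le_of_mul_le_mul_left s6 h2c

end Pool.Agent.H200
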