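import Mathlib
import Pool.Agent.H200.NecHB

/-! Coefficient bounds and growth of multipliers. -/

set_option autoImplicit false

open MeasureTheory AddCircle Polynomial
open scoped ENNReal NNReal

namespace Pool.Agent.H200

/-- coefficient bound -/
lemma coef_bd {p : ℝ} (hp : 0 < p) (hp2 : p ≤ 2) : ∃ C : ℝ, 0 < C ∧ ∀ (P : ℂ[X]) (n : ℕ),
    ‖P.coeff n‖ ≤ C * ((n : ℝ) + 1) ^ (1 / p) * (∫ x, ‖P.eval (chi x)‖ ^ p ∂mu) ^ (1 / p) := by
  obtain ⟨C, hC, h⟩ := loc1 p hp hp2 0 le_rfl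
  refine ⟨Real.exp 1 * C ^ (1 / p), by positivity, fun P n => ?_⟩
  set I := ∫ x, ‖P.eval (chi x)‖ ^ p ∂mu with hI
  have hI0 : 0 ≤ I := integral_nonneg fun x => by positivity
  have hn0 : (0:ℝ) ≤ n := Nat.cast_nonneg n
  set t : ℝ := 1 / ((n : ℝ) + 1) with ht
  have ht0 : 0 < t := by positivity
  have ht1 : t ≤ 1 := by
    rw [ht, div_le_one (by positivity)]
    linarith
  have h1 : ∀ y, ‖P.eval ((Real.exp (-t) : ℂ) * chi y)‖ ≤ (C * ((n : ℝ) + 1) * I) ^ (1 / p) := by
    intro y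
    have h2 := h P y t ht0 ht1
    simp only [neg_zero, Real.rpow_zero, mul_one] at h2
    rw [← hI] at h2
    have h3 : C / t = C * ((n : ℝ) + 1) := by
      rw [ht]; field_simp
    rw [h3] at h2
    have h4 := Real.rpow_le_rpow (by positivity) h2 (show (0:ℝ) ≤ 1 / p by positivity)
    rw [← Real.rpow_mul (norm_nonneg _)] at h4
    have : p * (1 / p) = 1 := by field_simp
    rwa [this, Real.rpow_one] at h4
  have h5 := poly_fc (P.comp (Polynomial.C (Real.exp (-t) : ℂ) * X)) n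
  have h6 : ∀ u : TT, chi (-u) ^ n * (P.comp (Polynomial.C (Real.exp (-t) : ℂ) * X)).eval (chi u) =
      chi (-u) ^ n * P.eval ((Real.exp (-t) : ℂ) * chi u) := by
    intro u
    rw [Polynomial.eval_comp]
    simp only [Polynomial.eval_mul, Polynomial.eval_C, Polynomial.eval_X]
  simp_rw [h6] at h5
  rw [Polynomial.comp_C_mul_X_coeff] at h5
  have h7 : ‖P.coeff n * (Real.exp (-t) : ℂ) ^ n‖ ≤ (C * ((n : ℝ) + 1) * I) ^ (1 / p) := by
    rw [← h5]
    refine (norm_integral_le_integral_norm _).trans ?_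
    have hcont : Continuous (fun u : TT => ‖chi (-u) ^ n *
        P.eval ((Real.exp (-t) : ℂ) * chi u)‖) := by
      have := P.continuous
      fun_prop
    have h8 : ∫ u : TT, ‖chi (-u) ^ n * P.eval ((Real.exp (-t) : ℂ) * chi u)‖ ∂mu ≤
        ∫ _u : TT, (C * ((n : ℝ) + 1) * I) ^ (1 / p) ∂mu := by
      apply imono hcont continuous_const
      intro u
      rw [norm_mul, norm_pow, chi_norm, one_pow, one_mul]
      exact h1 u
    rw [integral_const] at h8
    simpa using h8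
  rw [norm_mul, norm_pow, Complex.norm_real, Real.norm_of_nonneg (Real.exp_pos _).le,
    ← Real.exp_nat_mul] at h7
  have h8 : Real.exp (-1) ≤ Real.exp (n * -t) := by
    apply Real.exp_le_exp.mpr
    have : (n : ℝ) * t ≤ 1 := by
      rw [ht, mul_one_div, div_le_one (by positivity)]
      linarith
    linarith
  have h9 : ‖P.coeff n‖ * Real.exp (-1) ≤ (C * ((n : ℝ) + 1) * I) ^ (1 / p) :=
    (mul_le_mul_of_nonneg_left h8 (norm_nonneg _)).trans h7
  have h10 : Real.exp 1 * Real.exp (-1) = 1 := by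
    rw [← Real.exp_add]; simp
  calc ‖P.coeff n‖ = Real.exp 1 * (‖P.coeff n‖ * Real.exp (-1)) := by
        calc _ = ‖P.coeff n‖ * (Real.exp 1 * Real.exp (-1)) := by rw [h10, mul_one]
          _ = _ := by ring
    _ ≤ Real.exp 1 * (C * ((n : ℝ) + 1) * I) ^ (1 / p) := by gcongr
    _ = _ := by
        rw [Real.mul_rpow (by positivity) hI0, Real.mul_rpow hC.le (by positivity)]
        ring

/-- growth of a multiplier -/
lemma lam_growth {p : ℝ} (hp : 0 < p) {lam : ℕ → ℂ}
    (hm : ∀ a : ℕ → ℂ, HpM p a → HpM p (fun n => lam n * a n)) (k : ℕ) {r : ℝ} (hr0 : 0 ≤ r)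
    (hr1 : r < 1) : Summable (fun n : ℕ => ‖lam n‖ * (((n : ℝ) + 1) ^ k * r ^ n)) := by
  set a : ℕ → ℂ := fun n => 1 / ((n : ℂ) + 1) ^ 2 with ha
  have han : ∀ n, ‖a n‖ = 1 / ((n : ℝ) + 1) ^ 2 := by
    intro n
    rw [ha]
    beta_reduce
    rw [norm_div, norm_one, norm_pow]
    have : ((n : ℂ) + 1) = ((n + 1 : ℕ) : ℂ) := by push_cast; ring
    rw [this, Complex.norm_natCast]
    push_cast
    ring
  have hs : Summable (fun n => ‖a n‖) := by
    simp_rw [han]
    have := (summable_nat_add_iff (f := fun n : ℕ => 1 / (n : ℝ) ^ 2) 1).mpr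
      (Real.summable_one_div_nat_pow.mpr (by norm_num))
    refine this.congr fun n => ?_
    push_cast
    ring
  have hHp : HpM p a := by
    refine ⟨fun z hz => ?_, (∑' n, ‖a n‖) ^ p, fun s hs0 hs1 => ?_⟩
    · apply Summable.of_norm
      refine Summable.of_nonneg_of_le (fun n => norm_nonneg _) (fun n => ?_) hs
      rw [norm_mul, norm_pow]
      exact mul_le_of_le_one_right (norm_nonneg _) (pow_le_one₀ (norm_nonneg _) hz.le)
    · have hb : ∀ x : TT, ‖∑' n, a n * ((s : ℂ) * chi x) ^ n‖ ≤ ∑' n, ‖a n‖ := by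
        intro x
        have h1 : ∀ n, ‖a n * ((s : ℂ) * chi x) ^ n‖ ≤ ‖a n‖ := by
          intro n
          rw [norm_mul, norm_pow, norm_mul, chi_norm, mul_one, Complex.norm_real,
            Real.norm_of_nonneg hs0]
          exact mul_le_of_le_one_right (norm_nonneg _) (pow_le_one₀ hs0 hs1.le)
        have h2 : Summable (fun n => ‖a n * ((s : ℂ) * chi x) ^ n‖) :=
          Summable.of_nonneg_of_le (fun n => norm_nonneg _) h1 hs
        exact (norm_tsum_le_tsum_norm h2).trans (h2.tsum_le_tsum h1 hs)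
      have h3 : ∀ x : TT, ‖∑' n, a n * ((s : ℂ) * chi x) ^ n‖ ^ p ≤ (∑' n, ‖a n‖) ^ p :=
        fun x => Real.rpow_le_rpow (norm_nonneg _) (hb x) hp.le
      calc ∫ x, ‖∑' n, a n * ((s : ℂ) * chi x) ^ n‖ ^ p ∂mu
          ≤ ∫ _x : TT, (∑' n, ‖a n‖) ^ p ∂mu := by
            apply integral_mono_of_nonneg
            · exact Filter.Eventually.of_forall fun x => by positivity
            · exact integrable_const _
            · exact Filter.Eventually.of_forall h3
        _ = _ := by rw [integral_const]; simp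
  obtain ⟨h1, _⟩ := hm a hHp
  obtain ⟨s, hs0, hs1⟩ := exists_between hr1
  have hs0' : 0 < s := lt_of_le_of_lt hr0 hs0
  have h2 := (h1 (s : ℂ) (by rw [Complex.norm_real, Real.norm_of_nonneg hs0'.le]; exact hs1)).norm
  obtain ⟨B, hB⟩ : ∃ B, ∀ n, ‖lam n * a n * (s : ℂ) ^ n‖ ≤ B := by
    have h3 := h2.tendsto_atTop_zero.bddAbove_range
    obtain ⟨B, hB⟩ := h3
    exact ⟨B, fun n => hB ⟨n, rfl⟩⟩
  have hB' : ∀ n, ‖lam n‖ * s ^ n ≤ B * ((n : ℝ) + 1) ^ 2 := by
    intro n
    have h4 := hB n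
    rw [norm_mul, norm_mul, han, norm_pow, Complex.norm_real, Real.norm_of_nonneg hs0'.le] at h4
    have h5 : (0:ℝ) < ((n : ℝ) + 1) ^ 2 := by positivity
    calc ‖lam n‖ * s ^ n = (‖lam n‖ * (1 / ((n : ℝ) + 1) ^ 2) * s ^ n) * ((n : ℝ) + 1) ^ 2 := by
          field_simp
      _ ≤ _ := by gcongr
  have hq : ‖r / s‖ < 1 := by
    rw [Real.norm_of_nonneg (by positivity), div_lt_one hs0']
    exact hs0
  have hsum : Summable (fun n : ℕ => ((n : ℝ) + 1) ^ (k + 2) * (r / s) ^ n) := by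
    have h6 := summable_pow_mul_geometric_of_norm_lt_one (R := ℝ) (k + 2) hq
    have h7 : Summable (fun n : ℕ => (r / s) ^ n) := summable_geometric_of_norm_lt_one hq
    refine Summable.of_nonneg_of_le (fun n => by positivity) (fun n => ?_)
      ((h6.add h7).mul_left (2 ^ (k + 2)))
    have h8 : ((n : ℝ) + 1) ^ (k + 2) ≤ 2 ^ (k + 2) * ((n : ℝ) ^ (k + 2) + 1) := by
      rcases Nat.eq_zero_or_pos n with h0 | h0
      · rw [h0]
        simp
        exact one_le_pow₀ (by norm_num)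
      · have h9 : (1:ℝ) ≤ n := by exact_mod_cast h0
        calc ((n : ℝ) + 1) ^ (k + 2) ≤ (2 * n) ^ (k + 2) := by
              gcongr
              linarith
          _ = 2 ^ (k + 2) * (n : ℝ) ^ (k + 2) := mul_pow _ _ _
          _ ≤ _ := by
              gcongr
              linarith
    have h10 : (0:ℝ) ≤ (r / s) ^ n := by positivity
    calc ((n : ℝ) + 1) ^ (k + 2) * (r / s) ^ n
        ≤ (2 ^ (k + 2) * ((n : ℝ) ^ (k + 2) + 1)) * (r / s) ^ n := by gcongr
      _ = _ := by ring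
  refine Summable.of_nonneg_of_le (fun n => by positivity) (fun n => ?_) (hsum.mul_left B)
  have h11 : r ^ n = s ^ n * (r / s) ^ n := by
    rw [← mul_pow]
    congr 1
    field_simp
  have h12 : (0:ℝ) ≤ (r / s) ^ n := by positivity
  calc ‖lam n‖ * (((n : ℝ) + 1) ^ k * r ^ n)
      = (‖lam n‖ * s ^ n) * (((n : ℝ) + 1) ^ k * (r / s) ^ n) := by rw [h11]; ring
    _ ≤ (B * ((n : ℝ) + 1) ^ 2) * (((n : ℝ) + 1) ^ k * (r / s) ^ n) :=
        mul_le_mul_of_nonneg_right (hB' n) (by positivity)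
    _ = _ := by ring

end Pool.Agent.H200
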