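import Mathlib
import Pool.Agent.H200.Bdd1

/-! Multipliers are bounded on polynomials: a gliding hump argument. -/

set_option autoImplicit false

open MeasureTheory AddCircle Polynomial
open scoped ENNReal NNReal

namespace Pool.Agent.H200

/-- the `p`-norm on circles -/
noncomputable def qr (p r : ℝ) (P : ℂ[X]) : ℝ := ∫ x, ‖P.eval ((r : ℂ) * chi x)‖ ^ p ∂mu

lemma qr_cont {p : ℝ} (hp : 0 < p) (r : ℝ) (P : ℂ[X]) :
    Continuous (fun x : TT => ‖P.eval ((r : ℂ) * chi x)‖ ^ p) := by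
  have h1 : Continuous (fun x : TT => (r : ℂ) * chi x) := by fun_prop
  exact ((P.continuous.comp h1).norm).rpow_const (fun x => Or.inr hp.le)

lemma qr_nonneg (p r : ℝ) (P : ℂ[X]) : 0 ≤ qr p r P := integral_nonneg fun x => by positivity

lemma qr_add {p : ℝ} (hp : 0 < p) (hp1 : p ≤ 1) (r : ℝ) (P Q : ℂ[X]) :
    qr p r (P + Q) ≤ qr p r P + qr p r Q := by
  unfold qr
  have e : ∫ x, (‖P.eval ((r : ℂ) * chi x)‖ ^ p + ‖Q.eval ((r : ℂ) * chi x)‖ ^ p) ∂mu =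
      ∫ x, ‖P.eval ((r : ℂ) * chi x)‖ ^ p ∂mu + ∫ x, ‖Q.eval ((r : ℂ) * chi x)‖ ^ p ∂mu :=
    integral_add (cint (qr_cont hp r P)) (cint (qr_cont hp r Q))
  rw [← e]
  apply imono (qr_cont hp r (P + Q)) ((qr_cont hp r P).add (qr_cont hp r Q))
  intro x
  rw [Polynomial.eval_add]
  calc _ ≤ (‖P.eval ((r : ℂ) * chi x)‖ + ‖Q.eval ((r : ℂ) * chi x)‖) ^ p := by
        gcongr
        exact norm_add_le _ _
    _ ≤ _ := Real.rpow_add_le_add_rpow (norm_nonneg _) (norm_nonneg _) hp.le hp1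

lemma qr_neg (p r : ℝ) (P : ℂ[X]) : qr p r (-P) = qr p r P := by
  unfold qr
  simp only [Polynomial.eval_neg, norm_neg]

lemma qr_smul (p r : ℝ) (c : ℂ) (P : ℂ[X]) : qr p r (C c * P) = ‖c‖ ^ p * qr p r P := by
  unfold qr
  rw [← integral_const_mul]
  congr 1
  funext x
  rw [Polynomial.eval_mul, Polynomial.eval_C, norm_mul, Real.mul_rpow (norm_nonneg _)
    (norm_nonneg _)]

lemma qr_one (p : ℝ) (P : ℂ[X]) : qr p 1 P = ∫ x, ‖P.eval (chi x)‖ ^ p ∂mu := by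
  unfold qr
  simp

lemma qr_mono {p : ℝ} (hp : 0 < p) (hp2 : p ≤ 2) (P : ℂ[X]) {r : ℝ} (h0 : 0 ≤ r) (h1 : r ≤ 1) :
    qr p r P ≤ qr p 1 P := by
  rw [qr_one]
  exact mono_mean hp hp2 P h0 h1

lemma Tm_C_mul (lam : ℕ → ℂ) (c : ℂ) (P : ℂ[X]) : Tm lam (C c * P) = C c * Tm lam P := by
  ext k
  rw [Tm_coeff, Polynomial.coeff_C_mul, Polynomial.coeff_C_mul, Tm_coeff]
  ring

/-- approximation from inside -/
lemma qr_approx {p : ℝ} (hp : 0 < p) (P : ℂ[X]) {c : ℝ} (hc : c < qr p 1 P) :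
    ∃ r : ℝ, 0 ≤ r ∧ r < 1 ∧ c < qr p r P := by
  have hcont : Continuous (fun r : ℝ => qr p r P) := by
    have h1 : Continuous (fun q : ℝ × TT => ‖P.eval ((q.1 : ℂ) * chi q.2)‖ ^ p) := by
      have h2 : Continuous (fun q : ℝ × TT => (q.1 : ℂ) * chi q.2) :=
        (Complex.continuous_ofReal.comp continuous_fst).mul (chi_cont.comp continuous_snd)
      exact ((P.continuous.comp h2).norm).rpow_const (fun x => Or.inr hp.le)
    have h := continuous_parametric_integral_of_continuous (μ := mu)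
      (f := fun (r : ℝ) (x : TT) => ‖P.eval ((r : ℂ) * chi x)‖ ^ p)
      (s := Set.univ) h1 isCompact_univ
    simp only [Measure.restrict_univ] at h
    exact h
  have h3 : ∀ᶠ r in nhds (1:ℝ), c < qr p r P :=
    hcont.continuousAt.eventually (lt_mem_nhds hc)
  rw [Metric.eventually_nhds_iff] at h3
  obtain ⟨ε, hε, h4⟩ := h3
  refine ⟨1 - min ε 1 / 2, ?_, ?_, ?_⟩
  · have : min ε 1 ≤ 1 := min_le_right _ _
    linarith
  · have : 0 < min ε 1 := lt_min hε one_pos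
    linarith
  · apply h4
    rw [Real.dist_eq]
    have h5 : 0 < min ε 1 := lt_min hε one_pos
    have h6 : min ε 1 ≤ ε := min_le_left _ _
    have h7 : 1 - min ε 1 / 2 - 1 = -(min ε 1 / 2) := by ring
    rw [h7, abs_neg, abs_of_pos (by positivity)]
    linarith

/-- coefficient bound, integer exponent -/
lemma coef_bd' {p : ℝ} (hp : 0 < p) (hp2 : p ≤ 2) : ∃ (C : ℝ) (k : ℕ), 0 < C ∧
    ∀ (P : ℂ[X]) (n : ℕ), ‖P.coeff n‖ ≤ C * ((n : ℝ) + 1) ^ k * (qr p 1 P) ^ (1 / p) := by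
  obtain ⟨C, hC, h⟩ := coef_bd hp hp2
  refine ⟨C, ⌈1 / p⌉₊, hC, fun P n => ?_⟩
  rw [qr_one]
  refine (h P n).trans ?_
  have h1 : ((n : ℝ) + 1) ^ (1 / p) ≤ ((n : ℝ) + 1) ^ ⌈1 / p⌉₊ := by
    rw [← Real.rpow_natCast]
    apply Real.rpow_le_rpow_of_exponent_le
    · have : (0:ℝ) ≤ n := Nat.cast_nonneg n
      linarith
    · exact Nat.le_ceil _
  have h2 : 0 ≤ ∫ x, ‖P.eval (chi x)‖ ^ p ∂mu := integral_nonneg fun x => by positivity
  gcongr

/-- evaluation as a sum over all indices -/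
lemma eval_tsum (P : ℂ[X]) (z : ℂ) : P.eval z = ∑' n, P.coeff n * z ^ n := by
  rw [Polynomial.eval_eq_sum_range]
  symm
  apply tsum_eq_sum
  intro n hn
  rw [Finset.mem_range, not_lt] at hn
  rw [Polynomial.coeff_eq_zero_of_natDegree_lt (by omega), zero_mul]

/-- each dilated multiplier is bounded -/
lemma qr_bdd {p : ℝ} (hp : 0 < p) (hp2 : p ≤ 2) {lam : ℕ → ℂ}
    (hg : ∀ (k : ℕ) (r : ℝ), 0 ≤ r → r < 1 →
      Summable (fun n : ℕ => ‖lam n‖ * (((n : ℝ) + 1) ^ k * r ^ n))) {r : ℝ} (hr0 : 0 ≤ r)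
    (hr1 : r < 1) : ∃ B : ℝ, ∀ P : ℂ[X], qr p 1 P ≤ 1 → qr p r (Tm lam P) ≤ B := by
  obtain ⟨C, k, hC, h⟩ := coef_bd' hp hp2
  have hs := hg k r hr0 hr1
  set T0 := ∑' n : ℕ, ‖lam n‖ * (((n : ℝ) + 1) ^ k * r ^ n) with hT0
  refine ⟨(C * T0) ^ p, fun P hP => ?_⟩
  have h1 : ∀ x : TT, ‖(Tm lam P).eval ((r : ℂ) * chi x)‖ ≤ C * T0 := by
    intro x
    rw [eval_tsum]
    have h2 : ∀ n, ‖(Tm lam P).coeff n * ((r : ℂ) * chi x) ^ n‖ ≤
        C * (‖lam n‖ * (((n : ℝ) + 1) ^ k * r ^ n)) := by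
      intro n
      rw [Tm_coeff, norm_mul, norm_mul, norm_pow, norm_mul, chi_norm, mul_one, Complex.norm_real,
        Real.norm_of_nonneg hr0]
      have h3 := h P n
      have h4 : (qr p 1 P) ^ (1 / p) ≤ 1 :=
        Real.rpow_le_one (qr_nonneg _ _ _) hP (by positivity)
      have h5 : ‖P.coeff n‖ ≤ C * ((n : ℝ) + 1) ^ k := by
        refine h3.trans ?_
        exact mul_le_of_le_one_right (by positivity) h4
      calc ‖lam n‖ * ‖P.coeff n‖ * r ^ n ≤ ‖lam n‖ * (C * ((n : ℝ) + 1) ^ k) * r ^ n := by gcongr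
        _ = _ := by ring
    have h6 : Summable (fun n => ‖(Tm lam P).coeff n * ((r : ℂ) * chi x) ^ n‖) :=
      Summable.of_nonneg_of_le (fun n => norm_nonneg _) h2 (hs.mul_left C)
    refine (norm_tsum_le_tsum_norm h6).trans ?_
    rw [hT0, ← tsum_mul_left]
    exact h6.tsum_le_tsum h2 (hs.mul_left C)
  have h7 : qr p r (Tm lam P) ≤ ∫ _x : TT, (C * T0) ^ p ∂mu := by
    unfold qr
    apply imono (qr_cont hp r _) continuous_const
    intro x
    exact Real.rpow_le_rpow (norm_nonneg _) (h1 x) hp.le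
  rw [integral_const] at h7
  simpa using h7

/-- the basic step: if the multiplier is unbounded on polynomials, there are nearly extremal
polynomials with large constants -/
lemma step_exists {p : ℝ} (hp : 0 < p) (hp2 : p ≤ 2) {lam : ℕ → ℂ}
    (hg : ∀ (k : ℕ) (r : ℝ), 0 ≤ r → r < 1 →
      Summable (fun n : ℕ => ‖lam n‖ * (((n : ℝ) + 1) ^ k * r ^ n)))
    (hun : ∀ C : ℝ, ∃ P : ℂ[X], C * qr p 1 P < qr p 1 (Tm lam P)) (A : ℝ) (hA : 0 < A) :
    ∃ (r N : ℝ) (P : ℂ[X]), 0 ≤ r ∧ r < 1 ∧ A ≤ N ∧ qr p 1 P ≤ 1 ∧ N / 2 ≤ qr p r (Tm lam P) ∧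
      ∀ Q : ℂ[X], qr p 1 Q ≤ 1 → qr p r (Tm lam Q) ≤ N := by
  obtain ⟨P0, hP0⟩ := hun A
  -- normalise
  have hq0 : 0 < qr p 1 P0 := by
    rcases (qr_nonneg p 1 P0).eq_or_lt with h | h
    · exfalso
      obtain ⟨C, k, hC, hcb⟩ := coef_bd' hp hp2
      have h1 : P0 = 0 := by
        ext n
        have h2 := hcb P0 n
        rw [← h, Real.zero_rpow (by positivity), mul_zero] at h2
        simpa using h2
      rw [h1, Tm_zero] at hP0
      unfold qr at hP0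
      simp [Real.zero_rpow hp.ne'] at hP0
    · exact h
  set c : ℝ := (qr p 1 P0) ^ (-(1 / p)) with hc
  have hc0 : 0 < c := by positivity
  set P1 : ℂ[X] := C (c : ℂ) * P0 with hP1
  have hcp : ‖(c : ℂ)‖ ^ p * qr p 1 P0 = 1 := by
    rw [Complex.norm_real, Real.norm_of_nonneg hc0.le, hc, ← Real.rpow_mul hq0.le]
    have : -(1 / p) * p = -1 := by field_simp
    rw [this, Real.rpow_neg_one, inv_mul_cancel₀ hq0.ne']
  have h1 : qr p 1 P1 = 1 := by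
    rw [hP1, qr_smul, hcp]
  have h2 : A < qr p 1 (Tm lam P1) := by
    rw [hP1, Tm_C_mul, qr_smul]
    have h3 : 0 < ‖(c : ℂ)‖ ^ p := by
      rw [Complex.norm_real, Real.norm_of_nonneg hc0.le]
      positivity
    calc A = ‖(c : ℂ)‖ ^ p * (A * qr p 1 P0) := by
          calc A = A * (‖(c : ℂ)‖ ^ p * qr p 1 P0) := by rw [hcp, mul_one]
            _ = _ := by ring
      _ < _ := by gcongr
  obtain ⟨r, hr0, hr1, h3⟩ := qr_approx hp (Tm lam P1) h2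
  obtain ⟨B, hB⟩ := qr_bdd hp hp2 hg hr0 hr1
  set V : Set ℝ := {b | ∃ P : ℂ[X], qr p 1 P ≤ 1 ∧ b = qr p r (Tm lam P)} with hV
  have hbdd : BddAbove V := ⟨B, by rintro b ⟨P, hP, rfl⟩; exact hB P hP⟩
  have hne : V.Nonempty := ⟨_, P1, h1.le, rfl⟩
  have hle : ∀ Q : ℂ[X], qr p 1 Q ≤ 1 → qr p r (Tm lam Q) ≤ sSup V :=
    fun Q hQ => le_csSup hbdd ⟨Q, hQ, rfl⟩
  have hAN : A ≤ sSup V := h3.le.trans (hle P1 h1.le)
  obtain ⟨b, ⟨P, hP, rfl⟩, hb⟩ := exists_lt_of_lt_csSup hne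
    (show sSup V / 2 < sSup V by linarith)
  exact ⟨r, sSup V, P, hr0, hr1, hAN, hP, hb.le, hle⟩

end Pool.Agent.H200
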