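import Mathlib
import Pool.Agent.H200.Bdd2

/-! Multipliers are bounded on polynomials: the gliding hump. -/

set_option autoImplicit false

open MeasureTheory AddCircle Polynomial
open scoped ENNReal NNReal

namespace Pool.Agent.H200

lemma poly_geo (k : ℕ) {r : ℝ} (hr0 : 0 ≤ r) (hr1 : r < 1) :
    Summable (fun n : ℕ => ((n : ℝ) + 1) ^ k * r ^ n) := by
  have hq : ‖r‖ < 1 := by
    rw [Real.norm_of_nonneg hr0]
    exact hr1
  have h6 := summable_pow_mul_geometric_of_norm_lt_one (R := ℝ) k hq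
  have h7 : Summable (fun n : ℕ => r ^ n) := summable_geometric_of_norm_lt_one hq
  refine Summable.of_nonneg_of_le (fun n => by positivity) (fun n => ?_)
    ((h6.add h7).mul_left (2 ^ k))
  have h8 : ((n : ℝ) + 1) ^ k ≤ 2 ^ k * ((n : ℝ) ^ k + 1) := by
    rcases Nat.eq_zero_or_pos n with h0 | h0
    · rw [h0]
      have h1 : (0:ℝ) ≤ 0 ^ k := by positivity
      have h2 : (1:ℝ) ≤ 2 ^ k := one_le_pow₀ (by norm_num)
      push_cast
      rw [zero_add, one_pow]
      nlinarith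
    · have h9 : (1:ℝ) ≤ n := by exact_mod_cast h0
      calc ((n : ℝ) + 1) ^ k ≤ (2 * n) ^ k := by
            gcongr
            linarith
        _ = 2 ^ k * (n : ℝ) ^ k := mul_pow _ _ _
        _ ≤ _ := by
            gcongr
            linarith
  have h10 : (0:ℝ) ≤ r ^ n := by positivity
  calc ((n : ℝ) + 1) ^ k * r ^ n ≤ (2 ^ k * ((n : ℝ) ^ k + 1)) * r ^ n := by gcongr
    _ = _ := by ring

/-- passage to the limit -/
lemma lim2 {p : ℝ} (hp : 0 < p) {μ : ℕ → ℂ} {K : ℕ} {r : ℝ} (hr0 : 0 ≤ r)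
    (hs : Summable (fun n : ℕ => ‖μ n‖ * (((n : ℝ) + 1) ^ K * r ^ n)))
    {G : ℕ → ℂ[X]} {a : ℕ → ℂ} {D : ℝ} (hD : ∀ J n, ‖(G J).coeff n‖ ≤ D * ((n : ℝ) + 1) ^ K)
    (ha : ∀ n, Filter.Tendsto (fun J => (G J).coeff n) Filter.atTop (nhds (a n))) :
    Filter.Tendsto (fun J => qr p r (Tm μ (G J))) Filter.atTop
      (nhds (∫ x, ‖∑' n, μ n * a n * ((r : ℂ) * chi x) ^ n‖ ^ p ∂mu)) := by
  have hD0 : 0 ≤ D := by
    have h1 := hD 0 0
    have h2 := norm_nonneg ((G 0).coeff 0)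
    simp at h1
    linarith
  set T0 := ∑' n : ℕ, D * (‖μ n‖ * (((n : ℝ) + 1) ^ K * r ^ n)) with hT0
  have hb : ∀ J (x : TT) n, ‖(Tm μ (G J)).coeff n * ((r : ℂ) * chi x) ^ n‖ ≤
      D * (‖μ n‖ * (((n : ℝ) + 1) ^ K * r ^ n)) := by
    intro J x n
    rw [Tm_coeff, norm_mul, norm_mul, norm_pow, norm_mul, chi_norm, mul_one, Complex.norm_real,
      Real.norm_of_nonneg hr0]
    calc ‖μ n‖ * ‖(G J).coeff n‖ * r ^ n ≤ ‖μ n‖ * (D * ((n : ℝ) + 1) ^ K) * r ^ n := by
          have := hD J n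
          gcongr
      _ = _ := by ring
  have hT : ∀ J (x : TT), ‖(Tm μ (G J)).eval ((r : ℂ) * chi x)‖ ≤ T0 := by
    intro J x
    rw [eval_tsum]
    have h6 : Summable (fun n => ‖(Tm μ (G J)).coeff n * ((r : ℂ) * chi x) ^ n‖) :=
      Summable.of_nonneg_of_le (fun n => norm_nonneg _) (hb J x) (hs.mul_left D)
    exact (norm_tsum_le_tsum_norm h6).trans (h6.tsum_le_tsum (hb J x) (hs.mul_left D))
  unfold qr
  apply tendsto_integral_of_dominated_convergence (fun _ => T0 ^ p)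
  · intro J
    exact (qr_cont hp r _).aestronglyMeasurable
  · exact integrable_const _
  · intro J
    apply Filter.Eventually.of_forall
    intro x
    rw [Real.norm_of_nonneg (by positivity)]
    exact Real.rpow_le_rpow (norm_nonneg _) (hT J x) hp.le
  · apply Filter.Eventually.of_forall
    intro x
    have h1 : Filter.Tendsto (fun J => (Tm μ (G J)).eval ((r : ℂ) * chi x)) Filter.atTop
        (nhds (∑' n, μ n * a n * ((r : ℂ) * chi x) ^ n)) := by
      simp_rw [eval_tsum]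
      apply tendsto_tsum_of_dominated_convergence (hs.mul_left D)
      · intro n
        simp_rw [Tm_coeff]
        exact ((ha n).const_mul (μ n)).mul_const _
      · apply Filter.Eventually.of_forall
        intro J n
        exact hb J x n
    exact h1.norm.rpow_const (Or.inr hp.le)

lemma qr_sub_le {p : ℝ} (hp : 0 < p) (hp1 : p ≤ 1) (r : ℝ) (P Q : ℂ[X]) :
    qr p r P ≤ qr p r (P + Q) + qr p r Q := by
  have h := qr_add hp hp1 r (P + Q) (-Q)
  rw [qr_neg, add_neg_cancel_right] at h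
  exact h

lemma sign_step {p : ℝ} (hp : 0 < p) (hp1 : p ≤ 1) (lam : ℕ → ℂ) (r : ℝ) (ξ f : ℂ[X]) :
    ∃ η : ℂ[X], (η = ξ ∨ η = -ξ) ∧
      2 ^ (p - 1) * qr p r (Tm lam ξ) ≤ qr p r (Tm lam (f + η)) := by
  have h1 : qr p r (C 2 * Tm lam ξ) ≤ qr p r (Tm lam (f + ξ)) + qr p r (Tm lam (f + -ξ)) := by
    have e : C 2 * Tm lam ξ = Tm lam (f + ξ) + -Tm lam (f + -ξ) := by
      rw [Tm_add, Tm_add, Tm_neg]
      have : (C 2 : ℂ[X]) = 2 := rfl
      rw [this]
      ring
    rw [e]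
    have := qr_add hp hp1 r (Tm lam (f + ξ)) (-Tm lam (f + -ξ))
    rw [qr_neg] at this
    exact this
  rw [qr_smul] at h1
  have h2 : ‖(2:ℂ)‖ ^ p = 2 * 2 ^ (p - 1) := by
    have : ‖(2:ℂ)‖ = 2 := by simp
    rw [this, Real.rpow_sub_one (by norm_num)]
    field_simp
  rw [h2] at h1
  rcases le_total (2 ^ (p - 1) * qr p r (Tm lam ξ)) (qr p r (Tm lam (f + ξ))) with h | h
  · exact ⟨ξ, Or.inl rfl, h⟩
  · refine ⟨-ξ, Or.inr rfl, ?_⟩
    linarith

/-- **Multipliers are bounded on polynomials.** -/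
theorem bdd_poly {p : ℝ} (hp : 0 < p) (hp1 : p < 1) {lam : ℕ → ℂ}
    (hm : ∀ a : ℕ → ℂ, HpM p a → HpM p (fun n => lam n * a n)) :
    ∃ B : ℝ, 0 ≤ B ∧ ∀ P : ℂ[X], ∫ x, ‖(Tm lam P).eval (chi x)‖ ^ p ∂mu ≤
      B * ∫ x, ‖P.eval (chi x)‖ ^ p ∂mu := by
  have hg : ∀ (k : ℕ) (r : ℝ), 0 ≤ r → r < 1 →
      Summable (fun n : ℕ => ‖lam n‖ * (((n : ℝ) + 1) ^ k * r ^ n)) :=
    fun k r hr0 hr1 => lam_growth hp hm k hr0 hr1
  by_contra hcon
  have hun : ∀ C : ℝ, ∃ P : ℂ[X], C * qr p 1 P < qr p 1 (Tm lam P) := by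
    intro C
    by_contra hC
    push Not at hC
    apply hcon
    refine ⟨max C 0, le_max_right _ _, fun P => ?_⟩
    have h1 := hC P
    rw [qr_one, qr_one] at h1
    have h2 : 0 ≤ ∫ x, ‖P.eval (chi x)‖ ^ p ∂mu := integral_nonneg fun x => by positivity
    exact h1.trans (mul_le_mul_of_nonneg_right (le_max_left _ _) h2)
  choose r N P hr0 hr1 hN hP hPT hT using
    fun k : ℕ => step_exists hp (by linarith) hg hun (81 ^ k) (by positivity)
  set c : ℝ := (1 / 9) ^ (1 / p) with hc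
  have hc0 : 0 < c := by positivity
  have hc1 : c < 1 := Real.rpow_lt_one (by norm_num) (by norm_num) (by positivity)
  have hcp : ∀ k : ℕ, ‖((c ^ k : ℝ) : ℂ)‖ ^ p = (1 / 9) ^ k := by
    intro k
    rw [Complex.norm_real, Real.norm_of_nonneg (by positivity), ← Real.rpow_natCast,
      ← Real.rpow_mul hc0.le, hc, ← Real.rpow_mul (by norm_num)]
    have : 1 / p * ((k : ℝ) * p) = k := by field_simp
    rw [this, Real.rpow_natCast]
  have hN0 : ∀ k, 0 < N k := fun k => lt_of_lt_of_le (by positivity) (hN k)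
  set ξ : ℕ → ℂ[X] := fun k => C ((c ^ k : ℝ) : ℂ) * P k with hξ
  have hξ1 : ∀ k, qr p 1 (ξ k) ≤ (1 / 9) ^ k := by
    intro k
    rw [hξ]
    beta_reduce
    rw [qr_smul, hcp]
    exact mul_le_of_le_one_right (by positivity) (hP k)
  have hξ2 : ∀ j k, qr p (r j) (Tm lam (ξ k)) ≤ (1 / 9) ^ k * N j := by
    intro j k
    rw [hξ]
    beta_reduce
    rw [Tm_C_mul, qr_smul, hcp]
    exact mul_le_mul_of_nonneg_left (hT j (P k) (hP k)) (by positivity)
  have hξ3 : ∀ k, (1 / 9) ^ k * (N k / 2) ≤ qr p (r k) (Tm lam (ξ k)) := by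
    intro k
    rw [hξ]
    beta_reduce
    rw [Tm_C_mul, qr_smul, hcp]
    exact mul_le_mul_of_nonneg_left (hPT k) (by positivity)
  choose η hη1 hη2 using fun (k : ℕ) (f : ℂ[X]) => sign_step hp hp1.le lam (r k) (ξ k) f
  set F : ℕ → ℂ[X] := fun n => Nat.rec 0 (fun k f => f + η k f) n with hF
  have hF0 : F 0 = 0 := rfl
  have hFs : ∀ k, F (k + 1) = F k + η k (F k) := fun k => rfl
  set e : ℕ → ℂ[X] := fun k => η k (F k) with he
  have he1 : ∀ k, qr p 1 (e k) ≤ (1 / 9) ^ k := by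
    intro k
    rcases hη1 k (F k) with h | h
    · rw [he]; beta_reduce; rw [h]; exact hξ1 k
    · rw [he]; beta_reduce; rw [h, qr_neg]; exact hξ1 k
  have he2 : ∀ j k, qr p (r j) (Tm lam (e k)) ≤ (1 / 9) ^ k * N j := by
    intro j k
    rcases hη1 k (F k) with h | h
    · rw [he]; beta_reduce; rw [h]; exact hξ2 j k
    · rw [he]; beta_reduce; rw [h, Tm_neg, qr_neg]; exact hξ2 j k
  have h2p : (1 / 2 : ℝ) ≤ 2 ^ (p - 1) := by
    have h1 : (2:ℝ) ^ (-1 : ℝ) ≤ 2 ^ (p - 1) :=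
      Real.rpow_le_rpow_of_exponent_le (by norm_num) (by linarith)
    rw [Real.rpow_neg_one] at h1
    linarith
  have hF1 : ∀ k, (1 / 9) ^ k * N k / 4 ≤ qr p (r k) (Tm lam (F (k + 1))) := by
    intro k
    have h1 := hη2 k (F k)
    have h2 := hξ3 k
    have h3 : 0 ≤ qr p (r k) (Tm lam (ξ k)) := qr_nonneg _ _ _
    rw [hFs]
    refine le_trans ?_ h1
    calc (1 / 9) ^ k * N k / 4 = (1 / 2) * ((1 / 9) ^ k * (N k / 2)) := by ring
      _ ≤ 2 ^ (p - 1) * qr p (r k) (Tm lam (ξ k)) := by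
        apply mul_le_mul h2p h2 _ (by positivity)
        have := hN0 k
        positivity
  -- the lower bounds persist
  have hgeo : ∀ (k m : ℕ), ∑ i ∈ Finset.range m, (1 / 9 : ℝ) ^ (k + 1 + i) ≤ (1 / 9) ^ k / 8 := by
    intro k m
    have h1 : ∑ i ∈ Finset.range m, (1 / 9 : ℝ) ^ (k + 1 + i) =
        (1 / 9) ^ k / 8 * (1 - (1 / 9) ^ m) := by
      induction m with
      | zero => simp
      | succ m ih =>
        rw [Finset.sum_range_succ, ih]
        ring
    rw [h1]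
    apply mul_le_of_le_one_right (by positivity)
    have : (0:ℝ) < (1 / 9) ^ m := by positivity
    linarith
  have hF2 : ∀ k m, qr p (r k) (Tm lam (F (k + 1))) ≤ qr p (r k) (Tm lam (F (k + 1 + m))) +
      N k * ∑ i ∈ Finset.range m, (1 / 9) ^ (k + 1 + i) := by
    intro k m
    induction m with
    | zero => simp
    | succ m ih =>
      rw [Finset.sum_range_succ]
      have h1 := qr_sub_le hp hp1.le (r k) (Tm lam (F (k + 1 + m))) (Tm lam (e (k + 1 + m)))
      have h2 : Tm lam (F (k + 1 + m)) + Tm lam (e (k + 1 + m)) =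
          Tm lam (F (k + 1 + (m + 1))) := by
        rw [← Tm_add]
        rfl
      rw [h2] at h1
      have h3 := he2 k (k + 1 + m)
      linarith
  have hF3 : ∀ k m, (9:ℝ) ^ k / 8 ≤ qr p (r k) (Tm lam (F (k + 1 + m))) := by
    intro k m
    have h1 := hF1 k
    have h2 := hF2 k m
    have h3 := mul_le_mul_of_nonneg_left (hgeo k m) (hN0 k).le
    have h4 : (1 / 9) ^ k * N k / 8 ≤ qr p (r k) (Tm lam (F (k + 1 + m))) := by
      have : N k * ((1 / 9) ^ k / 8) = (1 / 9) ^ k * N k / 8 := by ring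
      linarith
    refine le_trans ?_ h4
    have h5 : (9:ℝ) ^ k = (1 / 9) ^ k * 81 ^ k := by
      rw [← mul_pow]
      norm_num
    rw [h5]
    have := hN k
    gcongr
  -- the limit function
  obtain ⟨C0, K, hC0, hcoef⟩ := coef_bd' hp (show p ≤ 2 by linarith)
  have hek : ∀ k n, ‖(e k).coeff n‖ ≤ C0 * ((n : ℝ) + 1) ^ K * c ^ k := by
    intro k n
    have h1 := hcoef (e k) n
    have h2 : (qr p 1 (e k)) ^ (1 / p) ≤ c ^ k := by
      calc (qr p 1 (e k)) ^ (1 / p) ≤ ((1 / 9) ^ k) ^ (1 / p) :=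
            Real.rpow_le_rpow (qr_nonneg _ _ _) (he1 k) (by positivity)
        _ = c ^ k := by
            rw [hc, ← Real.rpow_natCast, ← Real.rpow_natCast, ← Real.rpow_mul (by norm_num),
              ← Real.rpow_mul (by norm_num)]
            congr 1
            ring
    exact h1.trans (by gcongr)
  have hsum : ∀ n, Summable (fun k => (e k).coeff n) := by
    intro n
    apply Summable.of_norm
    exact Summable.of_nonneg_of_le (fun k => norm_nonneg _) (fun k => hek k n)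
      ((summable_geometric_of_lt_one hc0.le hc1).mul_left _)
  set a : ℕ → ℂ := fun n => ∑' k, (e k).coeff n with ha
  have hFsum : ∀ J n, (F J).coeff n = ∑ k ∈ Finset.range J, (e k).coeff n := by
    intro J n
    induction J with
    | zero => rw [hF0]; simp
    | succ J ih =>
      rw [hFs, Polynomial.coeff_add, ih, Finset.sum_range_succ]
  have hlim : ∀ n, Filter.Tendsto (fun J => (F J).coeff n) Filter.atTop (nhds (a n)) := by
    intro n
    simp_rw [hFsum]
    exact (hsum n).hasSum.tendsto_sum_nat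
  set D : ℝ := C0 * (1 - c)⁻¹ with hD
  have hFb : ∀ J n, ‖(F J).coeff n‖ ≤ D * ((n : ℝ) + 1) ^ K := by
    intro J n
    rw [hFsum]
    have h1 : ∑ k ∈ Finset.range J, c ^ k ≤ (1 - c)⁻¹ := by
      rw [← tsum_geometric_of_lt_one hc0.le hc1]
      exact (summable_geometric_of_lt_one hc0.le hc1).sum_le_tsum _ (fun _ _ => by positivity)
    calc _ ≤ ∑ k ∈ Finset.range J, C0 * ((n : ℝ) + 1) ^ K * c ^ k :=
          (norm_sum_le _ _).trans (Finset.sum_le_sum fun k _ => hek k n)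
      _ = C0 * ((n : ℝ) + 1) ^ K * ∑ k ∈ Finset.range J, c ^ k := by rw [Finset.mul_sum]
      _ ≤ C0 * ((n : ℝ) + 1) ^ K * (1 - c)⁻¹ := by gcongr
      _ = _ := by rw [hD]; ring
  have hab : ∀ n, ‖a n‖ ≤ D * ((n : ℝ) + 1) ^ K := by
    intro n
    exact le_of_tendsto ((hlim n).norm) (Filter.Eventually.of_forall fun J => hFb J n)
  have hFq : ∀ J, qr p 1 (F J) ≤ 9 / 8 := by
    intro J
    have h1 : qr p 1 (F J) ≤ ∑ k ∈ Finset.range J, (1 / 9 : ℝ) ^ k := by
      induction J with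
      | zero =>
        rw [hF0]
        unfold qr
        simp [Real.zero_rpow hp.ne']
      | succ J ih =>
        rw [hFs, Finset.sum_range_succ]
        exact (qr_add hp hp1.le 1 _ _).trans (add_le_add ih (he1 J))
    refine h1.trans ?_
    have h2 : ∑ k ∈ Finset.range J, (1 / 9 : ℝ) ^ k ≤ (1 - 1 / 9)⁻¹ := by
      rw [← tsum_geometric_of_lt_one (by norm_num : (0:ℝ) ≤ 1 / 9) (by norm_num)]
      exact (summable_geometric_of_lt_one (by norm_num) (by norm_num)).sum_le_tsum _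
        (fun _ _ => by positivity)
    refine h2.trans (by norm_num)
  have hT1 : ∀ G : ℂ[X], Tm (fun _ => 1) G = G := by
    intro G
    ext n
    rw [Tm_coeff, one_mul]
  have hHp : HpM p a := by
    refine ⟨fun z hz => ?_, 9 / 8, fun s hs0 hs1 => ?_⟩
    · apply Summable.of_norm
      refine Summable.of_nonneg_of_le (fun n => norm_nonneg _) (fun n => ?_)
        ((poly_geo K (norm_nonneg z) hz).mul_left D)
      rw [norm_mul, norm_pow]
      calc ‖a n‖ * ‖z‖ ^ n ≤ (D * ((n : ℝ) + 1) ^ K) * ‖z‖ ^ n := by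
            have := hab n
            gcongr
        _ = _ := by ring
    · have h1 := lim2 hp (μ := fun _ => 1) hs0 (by simpa using poly_geo K hs0 hs1) hFb hlim
      simp only [hT1, one_mul] at h1
      apply le_of_tendsto h1
      apply Filter.Eventually.of_forall
      intro J
      exact (qr_mono hp (by linarith) (F J) hs0 hs1.le).trans (hFq J)
  obtain ⟨_, B, hB⟩ := hm a hHp
  obtain ⟨k, hk⟩ := pow_unbounded_of_one_lt (8 * B) (show (1:ℝ) < 9 by norm_num)
  have h1 := lim2 hp (hr0 k) (hg K (r k) (hr0 k) (hr1 k)) hFb hlim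
  have h2 : (9:ℝ) ^ k / 8 ≤ ∫ x, ‖∑' n, lam n * a n * ((r k : ℂ) * chi x) ^ n‖ ^ p ∂mu := by
    apply ge_of_tendsto h1
    rw [Filter.eventually_atTop]
    refine ⟨k + 1, fun J hJ => ?_⟩
    obtain ⟨m, rfl⟩ := Nat.exists_eq_add_of_le hJ
    exact hF3 k m
  have h3 := hB (r k) (hr0 k) (hr1 k)
  linarith

end Pool.Agent.H200
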