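import Mathlib
import Pool.Agent.H200.Bdd3

/-! The block polynomials in explicit form. -/

set_option autoImplicit false

open MeasureTheory AddCircle Polynomial
open scoped ENNReal NNReal

namespace Pool.Agent.H200

lemma RP_expand (M L : ℕ) : RP M L = C (((L : ℂ) ^ M)⁻¹) *
    ∑ j : Fin M → Fin L, (X : ℂ[X]) ^ (∑ i, (j i : ℕ)) := by
  unfold RP
  rw [mul_pow, ← C_pow, inv_pow]
  congr 1
  rw [← Fin.sum_univ_eq_sum_range (fun j => (X : ℂ[X]) ^ j) L, Finset.sum_pow']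
  have : Fintype.piFinset (fun _ : Fin M => (Finset.univ : Finset (Fin L))) = Finset.univ := by
    simp
  rw [this]
  apply Finset.sum_congr rfl
  intro j _
  rw [Finset.prod_pow_eq_pow_sum]

lemma sum_lt {M L : ℕ} (hM : 1 ≤ M) (j : Fin M → Fin L) : ∑ i, (j i : ℕ) < M * L := by
  have h1 : ∑ i : Fin M, (j i : ℕ) < ∑ _i : Fin M, L := by
    apply Finset.sum_lt_sum_of_nonempty
    · exact ⟨⟨0, by omega⟩, Finset.mem_univ _⟩
    · intro i _
      exact (j i).2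
  simpa using h1

lemma blk_explicit {M L : ℕ} (hM : 1 ≤ M) (lam : ℕ → ℂ) (n : ℕ) (z : ℂ) :
    (blk lam (bw M L) (M * L) n).eval z = ((L : ℂ) ^ M)⁻¹ *
      ∑ j : Fin M → Fin L, lam (n + ∑ i, (j i : ℕ)) * z ^ (∑ i, (j i : ℕ)) := by
  rw [blk_eval]
  have h1 : ∀ k, bw M L k = ((L : ℂ) ^ M)⁻¹ *
      ∑ j : Fin M → Fin L, if k = ∑ i, (j i : ℕ) then 1 else 0 := by
    intro k
    unfold bw
    rw [RP_expand, Polynomial.coeff_C_mul, Polynomial.finsetSum_coeff]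
    simp_rw [Polynomial.coeff_X_pow]
  simp_rw [h1]
  have h2 : ∀ k, ((L : ℂ) ^ M)⁻¹ * (∑ j : Fin M → Fin L, if k = ∑ i, (j i : ℕ) then 1 else 0) *
      lam (n + k) * z ^ k = ((L : ℂ) ^ M)⁻¹ * ∑ j : Fin M → Fin L,
        if k = ∑ i, (j i : ℕ) then lam (n + k) * z ^ k else 0 := by
    intro k
    rw [mul_assoc, mul_assoc, Finset.sum_mul]
    congr 1
    apply Finset.sum_congr rfl
    intro j _
    split_ifs
    · rw [one_mul]
    · rw [zero_mul]
  simp_rw [h2]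
  rw [← Finset.mul_sum, Finset.sum_comm]
  congr 1
  apply Finset.sum_congr rfl
  intro j _
  rw [Finset.sum_ite_eq', if_pos]
  rw [Finset.mem_range]
  exact sum_lt hM j

lemma blk_exp {M L : ℕ} (hM : 1 ≤ M) (lam : ℕ → ℂ) (n : ℕ) (θ : ℝ) :
    (blk lam (bw M L) (M * L) n).eval (Complex.exp (θ * Complex.I)) = ((L : ℂ) ^ M)⁻¹ *
      ∑ j : Fin M → Fin L, lam (n + ∑ i, (j i : ℕ)) *
        Complex.exp (((∑ i, (j i : ℕ) : ℕ) : ℂ) * θ * Complex.I) := by
  rw [blk_explicit hM]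
  congr 1
  apply Finset.sum_congr rfl
  intro j _
  rw [← Complex.exp_nat_mul, mul_assoc]

end Pool.Agent.H200
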