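import Pool.Agent.H252.EL.Iface

/-!
# Project EL, lemma K0: the ordered group `K_0` of the limit and its pairing with the traces
-/

set_option autoImplicit false

noncomputable section

namespace Pool.Agent.H200.ELK0

open Filter Topology Matrix
open scoped ENNReal NNReal Matrix.Norms.L2Operator ComplexOrder
open Pool.Agent.TH249
open Pool.Agent.H188R3 (IsLim)
open Pool.Agent.H252.EL

section tr

variable {L : Type} [CStarAlgebra L]

lemma trM_eqv {τ : WeakDual ℂ L} (hτ : τ ∈ TracialStates L) {n m : ℕ}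
    {P : Matrix (Fin n) (Fin n) L} {Q : Matrix (Fin m) (Fin m) L} (h : Eqv P Q) :
    trM τ P = trM τ Q := by
  obtain ⟨v, h1, h2⟩ := h
  rw [← h1, ← h2]
  unfold trM
  simp only [Matrix.mul_apply, Matrix.conjTranspose_apply, map_sum]
  rw [Finset.sum_comm]
  refine Finset.sum_congr rfl fun i _ => Finset.sum_congr rfl fun k _ => ?_
  exact hτ.2.2 _ _

lemma trM_add (τ : WeakDual ℂ L) (P Q : Prj L) :
    trM τ (P.add Q).mat = trM τ P.mat + trM τ Q.mat := by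
  unfold trM
  have h : ∀ i : Fin (P.n + Q.n), τ ((P.add Q).mat i i) =
      (fun x : Fin P.n ⊕ Fin Q.n => τ ((fromBlocks P.mat 0 0 Q.mat) x x)) (finSumFinEquiv.symm i) :=
    fun i => rfl
  have h2 : ∑ i : Fin (P.n + Q.n), τ ((P.add Q).mat i i) =
      ∑ x : Fin P.n ⊕ Fin Q.n, τ ((fromBlocks P.mat 0 0 Q.mat) x x) := by
    rw [← Equiv.sum_comp finSumFinEquiv.symm]
    exact Finset.sum_congr rfl fun i _ => h i
  have h3 : ∑ i, τ ((P.add Q).mat i i) = ∑ i : Fin (P.n + Q.n), τ ((P.add Q).mat i i) := rfl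
  rw [h3, h2, Fintype.sum_sum_type]
  rfl

lemma trM_zero (τ : WeakDual ℂ L) : trM τ (Prj.zero L).mat = 0 := by
  unfold trM
  exact Finset.sum_eq_zero fun i _ => i.elim0

/-- the zero projection of size `k` -/
def Prj0 (L : Type) [CStarAlgebra L] (k : ℕ) : Prj L where
  n := k
  mat := 0
  isPrj := ⟨by simp, by simp⟩

lemma mk_Prj0 (k : ℕ) : V.mk (Prj0 L k) = 0 := by
  rw [V.zero_def, V.mk_eq]
  refine ⟨0, ?_, ?_⟩
  · rw [Matrix.mul_zero]; rfl
  · ext i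
    exact i.elim0

end tr

/-- the trace of a projection with the ranks `ρ` -/
def ff (i n : ℕ) (ρ : Bool → ℕ) (w : ℝ) : ℝ :=
  (ρ true : ℝ) / n * (1 / 2 + (2 * w - 1) * ((i + 1 : ℝ) / (i + 2))) +
    (ρ false : ℝ) / n * (1 / 2 - (2 * w - 1) * ((i + 1 : ℝ) / (i + 2)))

/-- the value at `3/4` -/
def s1 (i n : ℕ) (ρ : Bool → ℕ) : ℚ := ((2 * i + 3) * ρ true + ρ false) / ((2 * i + 4) * n)

/-- the value at `1/4` -/
def s2 (i n : ℕ) (ρ : Bool → ℕ) : ℚ := (ρ true + (2 * i + 3) * ρ false) / ((2 * i + 4) * n)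

lemma ff_eq (i n : ℕ) (hn : 0 < n) (ρ : Bool → ℕ) (w : ℝ) :
    ff i n ρ w = (2 * w - 1 / 2) * (s1 i n ρ : ℝ) + (3 / 2 - 2 * w) * (s2 i n ρ : ℝ) := by
  unfold ff s1 s2
  have h1 : (n : ℝ) ≠ 0 := by exact_mod_cast hn.ne'
  have h2 : (i : ℝ) + 2 ≠ 0 := by positivity
  have h3 : (2 * i : ℝ) + 4 ≠ 0 := by positivity
  push_cast
  field_simp
  ring

/-- abstract data -/
structure Ab (L : Type) [CStarAlgebra L] (n : ℕ → ℕ) (wt : WeakDual ℂ L → ℝ)
    (C : ∀ _ k : ℕ, (Bool → ℕ) → Matrix (Fin k) (Fin k) L) : Prop where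
  npos : ∀ i, 0 < n i
  dvd : ∀ q : ℕ, 0 < q → ∃ N, ∀ i, N ≤ i → (2 * i + 2) * q ∣ n i
  rnk : ∀ (k : ℕ) (P : Matrix (Fin k) (Fin k) L), IsPrj P → ∃ N, ∀ i, N ≤ i → ∃ ρ : Bool → ℕ,
    (∀ b, ρ b ≤ k * n i) ∧ Eqv P (C i k ρ) ∧
      ∀ τ ∈ TracialStates L, trM τ P = ((ff i (n i) ρ (wt τ) : ℝ) : ℂ)
  prj : ∀ (i k : ℕ) (ρ : Bool → ℕ), (∀ b, ρ b ≤ k * n i) → IsPrj (C i k ρ) ∧
    ∀ τ ∈ TracialStates L, trM τ (C i k ρ) = ((ff i (n i) ρ (wt τ) : ℝ) : ℂ)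
  t1 : ∃ τ ∈ TracialStates L, wt τ = 3 / 4
  t2 : ∃ τ ∈ TracialStates L, wt τ = 1 / 4

section ab

variable {L : Type} [CStarAlgebra L] {n : ℕ → ℕ} {wt : WeakDual ℂ L → ℝ}
  {C : ∀ _ k : ℕ, (Bool → ℕ) → Matrix (Fin k) (Fin k) L}

/-- `s` are the two values of the traces of `P` -/
def Spec (wt : WeakDual ℂ L → ℝ) (P : Prj L) (s : ℚ × ℚ) : Prop :=
  ∀ τ ∈ TracialStates L, trM τ P.mat =
    (((2 * wt τ - 1 / 2) * (s.1 : ℝ) + (3 / 2 - 2 * wt τ) * (s.2 : ℝ) : ℝ) : ℂ)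

lemma Spec.unique (h : Ab L n wt C) {P Q : Prj L} {s s' : ℚ × ℚ} (hs : Spec wt P s)
    (hs' : Spec wt Q s') (hPQ : ∀ τ ∈ TracialStates L, trM τ P.mat = trM τ Q.mat) : s = s' := by
  obtain ⟨τ, hτ, hw⟩ := h.t1
  obtain ⟨τ', hτ', hw'⟩ := h.t2
  have h1 := hPQ τ hτ
  rw [hs τ hτ, hs' τ hτ, hw, Complex.ofReal_inj] at h1
  have h2 := hPQ τ' hτ'
  rw [hs τ' hτ', hs' τ' hτ', hw', Complex.ofReal_inj] at h2
  have h3 : (s.1 : ℝ) = (s'.1 : ℝ) := by linarith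
  have h4 : (s.2 : ℝ) = (s'.2 : ℝ) := by linarith
  exact Prod.ext (by exact_mod_cast h3) (by exact_mod_cast h4)

lemma Spec.of_ff (h : Ab L n wt C) {P : Prj L} {i : ℕ} {ρ : Bool → ℕ}
    (hP : ∀ τ ∈ TracialStates L, trM τ P.mat = ((ff i (n i) ρ (wt τ) : ℝ) : ℂ)) :
    Spec wt P (s1 i (n i) ρ, s2 i (n i) ρ) := by
  intro τ hτ
  rw [hP τ hτ, ff_eq i (n i) (h.npos i)]

lemma Spec.ex (h : Ab L n wt C) (P : Prj L) : ∃ s, Spec wt P s := by
  obtain ⟨N, hN⟩ := h.rnk P.n P.mat P.isPrj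
  obtain ⟨ρ, -, -, h1⟩ := hN N le_rfl
  exact ⟨_, Spec.of_ff h h1⟩

lemma Spec.add {P Q : Prj L} {s s' : ℚ × ℚ} (hs : Spec wt P s) (hs' : Spec wt Q s') :
    Spec wt (P.add Q) (s + s') := by
  intro τ hτ
  rw [trM_add, hs τ hτ, hs' τ hτ, ← Complex.ofReal_add, Complex.ofReal_inj]
  simp only [Prod.fst_add, Prod.snd_add]
  push_cast
  ring

lemma Spec.zero : Spec wt (Prj.zero L) 0 := by
  intro τ _
  rw [trM_zero]
  simp

/-- the two values -/
def sv (h : Ab L n wt C) (P : Prj L) : ℚ × ℚ := (Spec.ex h P).choose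

lemma sv_spec (h : Ab L n wt C) (P : Prj L) : Spec wt P (sv h P) := (Spec.ex h P).choose_spec

lemma sv_eq (h : Ab L n wt C) {P : Prj L} {s : ℚ × ℚ} (hs : Spec wt P s) : sv h P = s :=
  Spec.unique h (sv_spec h P) hs fun _ _ => rfl

lemma sv_wd (h : Ab L n wt C) (P Q : Prj L) (hPQ : P ≈ Q) : sv h P = sv h Q :=
  Spec.unique h (sv_spec h P) (sv_spec h Q) fun _ hτ => trM_eqv hτ hPQ

/-- the values on the monoid of classes -/
def svV (h : Ab L n wt C) : V L →+ ℚ × ℚ where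
  toFun x := Quotient.liftOn x (sv h) (sv_wd h)
  map_zero' := sv_eq h Spec.zero
  map_add' x y := by
    obtain ⟨P, rfl⟩ := V.exists_rep x
    obtain ⟨Q, rfl⟩ := V.exists_rep y
    exact sv_eq h ((sv_spec h P).add (sv_spec h Q))

/-- the homomorphism `K_0 → ℚ × ℚ` -/
def Th (h : Ab L n wt C) : K0 L →+ ℚ × ℚ := Algebra.GrothendieckAddGroup.lift (svV h)

lemma Th_cls (h : Ab L n wt C) (P : Prj L) : Th h (K0.cls P) = sv h P := by
  have h1 := (Algebra.GrothendieckAddGroup.lift (M := V L) (G := ℚ × ℚ)).left_inv (svV h)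
  exact DFunLike.congr_fun h1 (V.mk P)

lemma rank_eq {i n : ℕ} (hn : 0 < n) {ρ ρ' : Bool → ℕ} (h1 : s1 i n ρ = s1 i n ρ')
    (h2 : s2 i n ρ = s2 i n ρ') : ρ = ρ' := by
  unfold s1 at h1
  unfold s2 at h2
  have hn' : (0 : ℚ) < n := by exact_mod_cast hn
  have hp : (0 : ℚ) < (2 * i + 4) * n := by positivity
  rw [div_left_inj' hp.ne'] at h1 h2
  have hi : (0 : ℚ) ≤ i := Nat.cast_nonneg i
  have h3 : ((2 * i + 2) * (2 * i + 4) : ℚ) * ρ true = ((2 * i + 2) * (2 * i + 4) : ℚ) * ρ' true := by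
    linear_combination (2 * i + 3) * h1 - h2
  have h4 : ((2 * i + 2) * (2 * i + 4) : ℚ) * ρ false =
      ((2 * i + 2) * (2 * i + 4) : ℚ) * ρ' false := by
    linear_combination (2 * i + 3) * h2 - h1
  have hq : ((2 * i + 2) * (2 * i + 4) : ℚ) ≠ 0 := by positivity
  have h5 := mul_left_cancel₀ hq h3
  have h6 := mul_left_cancel₀ hq h4
  funext b
  cases b
  · exact_mod_cast h6
  · exact_mod_cast h5

lemma mk_eq_of_spec (h : Ab L n wt C) {P Q : Prj L} {s : ℚ × ℚ} (hP : Spec wt P s)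
    (hQ : Spec wt Q s) : V.mk P = V.mk Q := by
  have e1 : V.mk P = V.mk (P.add (Prj0 L Q.n)) := by rw [← V.mk_add, mk_Prj0, add_zero]
  have e2 : V.mk Q = V.mk ((Prj0 L P.n).add Q) := by rw [← V.mk_add, mk_Prj0, zero_add]
  obtain ⟨N, hN⟩ := h.rnk (P.n + Q.n) (P.add (Prj0 L Q.n)).mat (P.add (Prj0 L Q.n)).isPrj
  obtain ⟨N', hN'⟩ := h.rnk (P.n + Q.n) ((Prj0 L P.n).add Q).mat ((Prj0 L P.n).add Q).isPrj
  obtain ⟨ρ, hρ, h1, h2⟩ := hN (max N N') (le_max_left _ _)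
  obtain ⟨ρ', hρ', h3, h4⟩ := hN' (max N N') (le_max_right _ _)
  have hs1 : Spec wt (P.add (Prj0 L Q.n)) s := by
    intro τ hτ
    rw [← trM_eqv hτ (V.mk_eq.1 e1)]
    exact hP τ hτ
  have hs2 : Spec wt ((Prj0 L P.n).add Q) s := by
    intro τ hτ
    rw [← trM_eqv hτ (V.mk_eq.1 e2)]
    exact hQ τ hτ
  have h5 : s = (s1 (max N N') (n (max N N')) ρ, s2 (max N N') (n (max N N')) ρ) :=
    Spec.unique h hs1 (Spec.of_ff h h2) fun _ _ => rfl
  have h6 : s = (s1 (max N N') (n (max N N')) ρ', s2 (max N N') (n (max N N')) ρ') :=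
    Spec.unique h hs2 (Spec.of_ff h h4) fun _ _ => rfl
  rw [h5, Prod.mk.injEq] at h6
  have h7 : ρ = ρ' := rank_eq (h.npos _) h6.1 h6.2
  subst h7
  rw [e1, e2, V.mk_eq]
  exact Eqv.trans (P.add (Prj0 L Q.n)).isPrj ((Prj0 L P.n).add Q).isPrj h1 h3.symm

/-- realisation of positive pairs -/
lemma real_pos (h : Ab L n wt C) (a b : ℚ) (ha : 0 < a) (hb : 0 < b) :
    ∃ P : Prj L, Spec wt P (a, b) := by
  obtain ⟨N, hN⟩ := h.dvd (a.den * b.den) (Nat.mul_pos a.den_pos b.den_pos)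
  obtain ⟨M, hM⟩ := exists_nat_ge (b / a + a / b)
  obtain ⟨i, hi1, hi2⟩ : ∃ i, N ≤ i ∧ M ≤ i := ⟨max N M, le_max_left _ _, le_max_right _ _⟩
  obtain ⟨r, hr⟩ := hN i hi1
  have hiq : b / a + a / b ≤ i := hM.trans (by exact_mod_cast hi2)
  have hba : 0 < b / a := div_pos hb ha
  have hab : 0 < a / b := div_pos ha hb
  have h1 : b ≤ (2 * i + 3) * a := by
    have : b / a ≤ i := by linarith
    rw [div_le_iff₀ ha] at this
    have : 0 ≤ (i + 3 : ℚ) * a := by positivity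
    linarith
  have h2 : a ≤ (2 * i + 3) * b := by
    have : a / b ≤ i := by linarith
    rw [div_le_iff₀ hb] at this
    have : 0 ≤ (i + 3 : ℚ) * b := by positivity
    linarith
  have hnum : (a.num : ℚ) = a * a.den := (Rat.mul_den_eq_num a).symm
  have hnum' : (b.num : ℚ) = b * b.den := (Rat.mul_den_eq_num b).symm
  have hda : (0 : ℚ) < a.den := by exact_mod_cast a.den_pos
  have hdb : (0 : ℚ) < b.den := by exact_mod_cast b.den_pos
  have hr0 : (0 : ℚ) ≤ r := Nat.cast_nonneg r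
  obtain ⟨x, hx⟩ : ∃ x : ℕ, (x : ℚ) = r * (a.den * b.den) * ((2 * i + 3) * a - b) := by
    obtain ⟨x, hx⟩ := Int.eq_ofNat_of_zero_le (a := (r : ℤ) * ((2 * i + 3) * (a.num * b.den) -
      b.num * a.den)) (by
        have h3 : (0 : ℚ) ≤ ((r : ℤ) * ((2 * i + 3) * (a.num * b.den) - b.num * a.den) : ℤ) := by
          push_cast
          rw [hnum, hnum']
          have h4 : (0 : ℚ) ≤ r * (a.den * b.den) * ((2 * i + 3) * a - b) :=
            mul_nonneg (by positivity) (by linarith)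
          linarith
        exact_mod_cast h3)
    refine ⟨x, ?_⟩
    have h3 : (((x : ℕ) : ℤ) : ℚ) =
        (((r : ℤ) * ((2 * i + 3) * (a.num * b.den) - b.num * a.den) : ℤ) : ℚ) := by
      exact_mod_cast congrArg (fun z : ℤ => (z : ℚ)) hx.symm
    push_cast at h3
    rw [h3, hnum, hnum']
    ring
  obtain ⟨y, hy⟩ : ∃ y : ℕ, (y : ℚ) = r * (a.den * b.den) * ((2 * i + 3) * b - a) := by
    obtain ⟨y, hy⟩ := Int.eq_ofNat_of_zero_le (a := (r : ℤ) * ((2 * i + 3) * (b.num * a.den) -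
      a.num * b.den)) (by
        have h3 : (0 : ℚ) ≤ ((r : ℤ) * ((2 * i + 3) * (b.num * a.den) - a.num * b.den) : ℤ) := by
          push_cast
          rw [hnum, hnum']
          have h4 : (0 : ℚ) ≤ r * (a.den * b.den) * ((2 * i + 3) * b - a) :=
            mul_nonneg (by positivity) (by linarith)
          linarith
        exact_mod_cast h3)
    refine ⟨y, ?_⟩
    have h3 : (((y : ℕ) : ℤ) : ℚ) =
        (((r : ℤ) * ((2 * i + 3) * (b.num * a.den) - a.num * b.den) : ℤ) : ℚ) := by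
      exact_mod_cast congrArg (fun z : ℤ => (z : ℚ)) hy.symm
    push_cast at h3
    rw [h3, hnum, hnum']
    ring
  obtain ⟨ρ, hρt, hρf⟩ : ∃ ρ : Bool → ℕ, ρ true = x ∧ ρ false = y :=
    ⟨fun b => if b then x else y, rfl, rfl⟩
  have hρ : ∀ c, ρ c ≤ (x + y) * n i := by
    intro c
    have h3 : x + y ≤ (x + y) * n i := Nat.le_mul_of_pos_right _ (h.npos i)
    cases c
    · rw [hρf]; omega
    · rw [hρt]; omega
  obtain ⟨hP, hT⟩ := h.prj i (x + y) ρ hρ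
  refine ⟨⟨x + y, C i (x + y) ρ, hP⟩, ?_⟩
  have h3 := Spec.of_ff h (P := ⟨x + y, C i (x + y) ρ, hP⟩) hT
  have hni : (0 : ℚ) < n i := by exact_mod_cast h.npos i
  have hni' : (n i : ℚ) = (2 * i + 2) * (a.den * b.den) * r := by
    exact_mod_cast congrArg (fun z : ℕ => (z : ℚ)) hr
  have h4 : s1 i (n i) ρ = a := by
    unfold s1
    rw [div_eq_iff (by positivity), hρt, hρf, hx, hy, hni']
    ring
  have h5 : s2 i (n i) ρ = b := by
    unfold s2
    rw [div_eq_iff (by positivity), hρt, hρf, hx, hy, hni']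
    ring
  rwa [h4, h5] at h3

lemma Th_inj (h : Ab L n wt C) : Function.Injective (Th h) := by
  rw [injective_iff_map_eq_zero]
  intro x hx
  obtain ⟨P, Q, rfl⟩ := K0.exists_sub x
  rw [map_sub, Th_cls, Th_cls, sub_eq_zero] at hx
  have h1 : V.mk P = V.mk Q := mk_eq_of_spec h (sv_spec h P) (hx ▸ sv_spec h Q)
  unfold K0.cls
  rw [h1, sub_self]

lemma Th_surj (h : Ab L n wt C) : Function.Surjective (Th h) := by
  rintro ⟨a, b⟩
  obtain ⟨c, hc⟩ : ∃ c : ℚ, c = |a| + |b| + 1 := ⟨_, rfl⟩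
  have ha := neg_abs_le a
  have hb := neg_abs_le b
  have ha' := abs_nonneg a
  have hb' := abs_nonneg b
  obtain ⟨P, hP⟩ := real_pos h (a + c) (b + c) (by linarith) (by linarith)
  obtain ⟨Q, hQ⟩ := real_pos h c c (by linarith) (by linarith)
  refine ⟨K0.cls P - K0.cls Q, ?_⟩
  rw [map_sub, Th_cls, Th_cls, sv_eq h hP, sv_eq h hQ]
  simp

lemma Th_pos (h : Ab L n wt C) (x : K0 L) :
    x ∈ K0.pos L ↔ Th h x = 0 ∨ (0 < (Th h x).1 ∧ 0 < (Th h x).2) := by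
  constructor
  · rintro ⟨P, rfl⟩
    rw [Th_cls]
    obtain ⟨N, hN⟩ := h.rnk P.n P.mat P.isPrj
    obtain ⟨ρ, -, -, h1⟩ := hN N le_rfl
    rw [sv_eq h (Spec.of_ff h h1)]
    have hn : (0 : ℚ) < n N := by exact_mod_cast h.npos N
    have hp : (0 : ℚ) < (2 * N + 4) * n N := by positivity
    by_cases h0 : ρ true = 0 ∧ ρ false = 0
    · left
      unfold s1 s2
      rw [h0.1, h0.2]
      simp
    · right
      have h2 : (0 : ℚ) < ρ true + ρ false := by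
        have : 0 < ρ true + ρ false := by omega
        exact_mod_cast this
      have h3 : (0 : ℚ) ≤ ρ true := Nat.cast_nonneg _
      have h4 : (0 : ℚ) ≤ ρ false := Nat.cast_nonneg _
      have h5 : (0 : ℚ) ≤ N := Nat.cast_nonneg _
      have h6 : 0 ≤ (2 * (N : ℚ) + 2) * ρ true := by positivity
      have h7 : 0 ≤ (2 * (N : ℚ) + 2) * ρ false := by positivity
      unfold s1 s2
      exact ⟨div_pos (by linarith) hp, div_pos (by linarith) hp⟩
  · rintro (h0 | ⟨h1, h2⟩)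
    · have h3 : x = 0 := Th_inj h (by rw [h0, map_zero])
      refine ⟨Prj.zero L, ?_⟩
      rw [h3]
      unfold K0.cls
      rw [← V.zero_def, map_zero]
    · obtain ⟨P, hP⟩ := real_pos h _ _ h1 h2
      refine ⟨P, Th_inj h ?_⟩
      rw [Th_cls, sv_eq h hP]

end ab

section sys

variable {D : Sys}

lemma n_pos (hD : D.Fine) (i : ℕ) : 0 < D.n i := by
  induction i with
  | zero => rw [D.n_zero]; norm_num
  | succ i ih =>
    rw [D.n_succ]
    have := hD.lt i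
    exact Nat.mul_pos ih (by omega)

lemma n_dvd {i k : ℕ} (h : i ≤ k) : D.n i ∣ D.n k := by
  induction k, h using Nat.le_induction with
  | base => exact dvd_rfl
  | succ k _ ih => rw [D.n_succ]; exact ih.mul_right _

lemma n_div (hD : D.Fine) (q : ℕ) (hq : 0 < q) : ∃ N, ∀ i, N ≤ i → (2 * i + 2) * q ∣ D.n i := by
  refine ⟨q + 1, fun i hi => ?_⟩
  obtain ⟨m, rfl⟩ : ∃ m, i = m + 1 := ⟨i - 1, by omega⟩
  rw [D.n_succ, mul_comm (D.n m)]
  refine mul_dvd_mul ?_ ?_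
  · rw [hD.S_eq m]
    exact ⟨(m + 2) * D.c m, by ring⟩
  · obtain ⟨p, rfl⟩ : ∃ p, q = p + 1 := ⟨q - 1, by omega⟩
    have h1 : (p + 1) ∣ D.n (p + 1) := by
      rw [D.n_succ, hD.S_eq p]
      exact ((hD.dvd p).mul_left _).mul_left _
    exact h1.trans (n_dvd (by omega))

end sys

/-- **K0** -/
theorem s_K0 : S_K0 := by
  intro hEX hMASS hEXT hPRJ hRNK D hD L _ j hL
  have hM := hMASS D hD L j hL
  have hR := hRNK hEX hMASS hPRJ D hD L j hL
  have hform : ∀ τ ∈ TracialStates L, ∀ (i : ℕ) (ρ : Bool → ℕ),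
      (∑ b, ((ρ b : ℝ) / D.n i : ℝ) * τ (j i (D.one i b)) : ℂ) =
        ((ff i (D.n i) ρ ((τ (j 0 (D.one 0 true))).re) : ℝ) : ℂ) := by
    intro τ hτ i ρ
    obtain ⟨-, -, h3, -, h5⟩ := hM τ hτ
    rw [Fintype.sum_bool, h3 i true, h3 i false]
    have h6 : (τ (j 0 (D.one 0 false))).re = 1 - (τ (j 0 (D.one 0 true))).re := by linarith
    rw [h6]
    unfold ff
    push_cast
    ring
  have hex : ∀ b : Bool, ∃ τ ∈ TracialStates L, (τ (j 0 (D.one 0 b))).re = 3 / 4 := by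
    intro b
    obtain ⟨τ, hτ, -, h2⟩ := hEXT D hD L j hL id (fun k => ⟨b, fun _ => 0⟩) strictMono_id
    exact ⟨τ, hτ, h2 b fun _ => rfl⟩
  have A : Ab L D.n (fun τ => (τ (j 0 (D.one 0 true))).re) (fun i k ρ => (D.cp i k ρ).map (j i)) := by
    refine ⟨n_pos hD, n_div hD, ?_, ?_, hex true, ?_⟩
    · intro k P hP
      obtain ⟨N, hN⟩ := hR k P hP
      refine ⟨N, fun i hi => ?_⟩
      obtain ⟨ρ, h1, h2, h3, -⟩ := hN i hi
      refine ⟨ρ, h1, h2, fun τ hτ => ?_⟩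
      rw [h3 τ hτ, hform τ hτ i ρ]
    · intro i k ρ hρ
      obtain ⟨h1, h2⟩ := (hPRJ D hD.toGood i k).2 ρ hρ
      refine ⟨h1.map (j i), fun τ hτ => ?_⟩
      rw [h2 L j hL τ hτ, hform τ hτ i ρ]
    · obtain ⟨τ, hτ, h1⟩ := hex false
      obtain ⟨-, -, -, -, h5⟩ := hM τ hτ
      exact ⟨τ, hτ, by linarith⟩
  refine ⟨AddEquiv.ofBijective (Th A) ⟨Th_inj A, Th_surj A⟩, fun x => Th_pos A x, ?_, ?_⟩
  · show Th A _ = _
    rw [Th_cls]
    refine sv_eq A fun τ hτ => ?_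
    have h1 : trM τ (Prj.of (1 : L) (IsStarProjection.one (R := L))).mat = τ 1 := by
      unfold trM
      exact Fin.sum_univ_one _
    rw [h1, hτ.1]
    push_cast
    ring
  · intro τ hτ P
    have h1 := sv_spec A P τ hτ
    have h2 : (AddEquiv.ofBijective (Th A) ⟨Th_inj A, Th_surj A⟩) (K0.cls P) = sv A P :=
      Th_cls A P
    rw [h2]
    exact h1

end Pool.Agent.H200.ELK0
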