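import Mathlib
import Pool.Agent.H316.EM.Stm2

/-!
# Project EM: (ART)
-/

set_option autoImplicit false

namespace Pool.Agent.H200

open Pool.Agent.H316.EM

theorem range_finite (E : Type) [CommRing E] [Algebra (ZMod 2) E]
    (φ : B →* (E ≃ₐ[ZMod 2] E)) (N : ℕ) (hN : 0 < N) (hφ : ∀ b, φ (b ^ N) = 1) :
    Finite φ.range := by
  have h1 : ((φ.range : Subgroup (E ≃ₐ[ZMod 2] E)) : Set (E ≃ₐ[ZMod 2] E)) ⊆
      (fun p : ℤ × ℤ => φ (Multiplicative.ofAdd p)) ''
        (Set.Ico (0 : ℤ) N ×ˢ Set.Ico (0 : ℤ) N) := by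
    rintro _ ⟨b, rfl⟩
    have hN' : (0 : ℤ) < N := by exact_mod_cast hN
    have hN'' : (N : ℤ) ≠ 0 := hN'.ne'
    obtain ⟨i, j⟩ := b
    refine ⟨(i % N, j % N), ⟨⟨Int.emod_nonneg _ hN'', Int.emod_lt_of_pos _ hN'⟩,
      ⟨Int.emod_nonneg _ hN'', Int.emod_lt_of_pos _ hN'⟩⟩, ?_⟩
    have h2 : (Multiplicative.ofAdd ((i, j) : ℤ × ℤ) : B) =
        Multiplicative.ofAdd (i % N, j % N) * (Multiplicative.ofAdd (i / N, j / N)) ^ N := by
      rw [← ofAdd_nsmul, ← ofAdd_add]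
      congr 1
      ext
      · simp only [Prod.fst_add, nsmul_eq_mul]
        exact (Int.emod_add_mul_ediv i N).symm
      · simp only [Prod.snd_add, nsmul_eq_mul]
        exact (Int.emod_add_mul_ediv j N).symm
    show φ (Multiplicative.ofAdd (i % N, j % N)) = φ (Multiplicative.ofAdd ((i, j) : ℤ × ℤ) : B)
    rw [h2, map_mul, hφ, mul_one]
  exact Set.Finite.subset (((Set.finite_Ico _ _).prod (Set.finite_Ico _ _)).image _) h1

theorem em_art : S_ART := by
  intro E _ _ _ φ N hN hφ R hR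
  have hfin := range_finite E φ N hN hφ
  have hinv : Algebra.IsInvariant R E φ.range := by
    refine ⟨fun e he => ⟨⟨e, (hR e).2 fun b => ?_⟩, rfl⟩⟩
    exact he ⟨φ b, ⟨b, rfl⟩⟩
  have hint : Algebra.IsIntegral R E := Algebra.IsInvariant.isIntegral R E φ.range
  have hft : Algebra.FiniteType R E := Algebra.FiniteType.of_restrictScalars_finiteType (ZMod 2) R E
  have hmf : Module.Finite R E := Algebra.IsIntegral.finite
  refine ⟨⟨?_⟩, fun e => hint.isIntegral e⟩
  exact fg_of_fg_of_fg (ZMod 2) R E Algebra.FiniteType.out hmf.fg_top Subtype.val_injective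

end Pool.Agent.H200
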