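import Pool.Graph.R_pool_sql_team_seeded_3997aac3.Q237.SX.Ram2
import Pool.Graph.R_pool_sql_team_seeded_3997aac3.Q279.SC.J.DUAL
import Pool.Agent.H465.OC.StmB

/-!
# Project OC (helper465), task B4: duality
-/

set_option autoImplicit false

namespace Pool.Agent.H200.OCDualG

open Pool.Agent.Q279.SC Pool.Agent.Q279.SC.B298 Pool.Agent.H465.OC

noncomputable section

variable {R : Type} [CommRing R]

theorem ls_mul (f g : PowerSeries R) : ls (f * g) = ls f * ls g := map_mul _ _ _

theorem ls_sub (f g : PowerSeries R) : ls (f - g) = ls f - ls g := map_sub _ _ _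

theorem ls_pow (f : PowerSeries R) (n : ℕ) : ls (f ^ n) = ls f ^ n := map_pow _ _ _

theorem ls_one : ls (1 : PowerSeries R) = 1 := map_one _

theorem ls_coeff (f : PowerSeries R) (n : ℕ) : (ls f).coeff (n : ℤ) = PowerSeries.coeff n f :=
  HahnSeries.ofPowerSeries_apply_coeff f n

theorem ls_coeff0 (f : PowerSeries R) : (ls f).coeff 0 = PowerSeries.constantCoeff f := by
  have h := ls_coeff f 0
  rw [Nat.cast_zero] at h
  rw [h, PowerSeries.coeff_zero_eq_constantCoeff_apply]

theorem ls_coeff_neg (f : PowerSeries R) (n : ℤ) (hn : n < 0) : (ls f).coeff n = 0 := by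
  have h := PowerSeries.coeff_coe f n
  rw [if_pos hn] at h
  exact h

theorem ls_C (c : R) : ls (PowerSeries.C c) = algebraMap R (LaurentSeries R) c := by
  rw [ls, HahnSeries.ofPowerSeries_C, HahnSeries.algebraMap_apply']
  simp

theorem coeff_alg (c : R) (s : LaurentSeries R) (n : ℤ) :
    (algebraMap R (LaurentSeries R) c * s).coeff n = c * s.coeff n := by
  rw [← ls_C, ls, HahnSeries.ofPowerSeries_C, HahnSeries.C_mul_eq_smul, HahnSeries.coeff_smul,
    smul_eq_mul]

/-- A Laurent series without negative coefficients. -/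
theorem exists_ls (s : LaurentSeries R) (hs : ∀ n : ℤ, n < 0 → s.coeff n = 0) :
    ∃ g : PowerSeries R, s = ls g := by
  refine ⟨PowerSeries.mk fun n => s.coeff (n : ℤ), ?_⟩
  ext n
  rcases lt_or_ge n 0 with hn | hn
  · rw [hs n hn, ls_coeff_neg _ n hn]
  · obtain ⟨k, rfl⟩ := Int.eq_ofNat_of_zero_le hn
    rw [ls_coeff, PowerSeries.coeff_mk]

/-- `q` and `q⁻¹` -/
theorem lsX_mul : ls (PowerSeries.X : PowerSeries R) * HahnSeries.single (-1) 1 = 1 := by
  rw [ls, HahnSeries.ofPowerSeries_X, HahnSeries.single_mul_single, add_neg_cancel, mul_one,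
    HahnSeries.single_zero_one]

/-- The inverse of `qd`. -/
def ie (R : Type) [CommRing R] : PowerSeries R := PowerSeries.invOfUnit (qd R) 1

theorem qd_ie (hRam : Ram) : qd R * ie R = 1 :=
  PowerSeries.mul_invOfUnit _ _ (by rw [rd0 hRam, Units.val_one])

theorem ie0 (hRam : Ram) : PowerSeries.constantCoeff (ie R) = 1 := by
  have := congrArg PowerSeries.constantCoeff (qd_ie (R := R) hRam)
  rw [map_mul, rd0 hRam, one_mul, map_one] at this
  exact this

theorem Di_eq : Di R = HahnSeries.single (-1) 1 * ls (ie R) := rfl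

theorem qD_Di (hRam : Ram) : ls (qD R) * Di R = 1 := by
  rw [rd hRam, ls_mul, Di_eq]
  calc ls PowerSeries.X * ls (qd R) * (HahnSeries.single (-1) 1 * ls (ie R)) =
      (ls PowerSeries.X * HahnSeries.single (-1) 1) * (ls (qd R) * ls (ie R)) := by ring
    _ = 1 := by rw [lsX_mul, ← ls_mul, qd_ie hRam, ls_one, mul_one]

theorem map_z (f : PowerSeries ℤ) :
    PowerSeries.map (Int.castRingHom R) (PowerSeries.map (Int.castRingHom ℤ) f) =
      PowerSeries.map (Int.castRingHom R) f := by
  ext n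
  simp

theorem ie_map (hRam : Ram) : PowerSeries.map (Int.castRingHom R) (ie ℤ) = ie R := by
  have h1 := congrArg (PowerSeries.map (Int.castRingHom R)) (qd_ie (R := ℤ) hRam)
  rw [map_mul, map_one] at h1
  have h2 : PowerSeries.map (Int.castRingHom R) (qd ℤ) = qd R := map_z zd
  rw [h2] at h1
  calc PowerSeries.map (Int.castRingHom R) (ie ℤ) =
      (qd R * ie R) * PowerSeries.map (Int.castRingHom R) (ie ℤ) := by
        rw [qd_ie hRam, one_mul]
    _ = (qd R * PowerSeries.map (Int.castRingHom R) (ie ℤ)) * ie R := by ring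
    _ = ie R := by rw [h1, one_mul]

/-- The key vanishing over any ring. -/
theorem key (hRam : Ram) (k : ℕ) :
    PowerSeries.coeff (k + 1) (ie R ^ (k + 1) * (q4 R ^ 2 * q6 R * (q4 R ^ 3) ^ k)) = 0 := by
  have h := JDUAL.key (R := ℤ) hRam (ie ℤ) (qd_ie hRam) k
  have h4 : PowerSeries.map (Int.castRingHom R) (q4 ℤ) = q4 R := map_z z4
  have h6 : PowerSeries.map (Int.castRingHom R) (q6 ℤ) = q6 R := map_z z6
  have e : PowerSeries.map (Int.castRingHom R)
      (ie ℤ ^ (k + 1) * (q4 ℤ ^ 2 * q6 ℤ * (q4 ℤ ^ 3) ^ k)) =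
      ie R ^ (k + 1) * (q4 R ^ 2 * q6 R * (q4 R ^ 3) ^ k) := by
    simp only [map_mul, map_pow, h4, h6, ie_map hRam]
  rw [← e, PowerSeries.coeff_map, h, map_zero]

theorem jj_pow (k : ℕ) : Di R * jj R ^ k =
    HahnSeries.single (-((k : ℤ) + 1)) 1 * ls (ie R ^ (k + 1) * (q4 R ^ 3) ^ k) := by
  have h1 : ∀ n : ℕ, (HahnSeries.single (-1 : ℤ) (1 : R)) ^ n =
      HahnSeries.single (-(n : ℤ)) 1 := by
    intro n
    induction n with
    | zero => rw [pow_zero, Nat.cast_zero, neg_zero, HahnSeries.single_zero_one]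
    | succ n ih =>
      rw [pow_succ, ih, HahnSeries.single_mul_single, mul_one]
      congr 2
      push_cast
      ring
  have h2 : Di R * jj R ^ k = Di R ^ (k + 1) * (ls (q4 R) ^ 3) ^ k := by
    rw [jj, mul_pow]
    ring
  rw [h2, Di_eq, mul_pow, h1, ls_mul, ls_pow, ls_pow, ls_pow]
  push_cast
  ring

theorem ee_bb (i : Fin 6) : ee R i * bb R i = q4 R ^ 2 * q6 R := by
  fin_cases i <;> simp [ee, bb] <;> ring

theorem c4 : PowerSeries.constantCoeff (q4 R) = 1 := by
  rw [← PowerSeries.coeff_zero_eq_constantCoeff_apply, q4, PowerSeries.coeff_map, z4, zA]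
  simp

theorem c6 : PowerSeries.constantCoeff (q6 R) = 1 := by
  rw [← PowerSeries.coeff_zero_eq_constantCoeff_apply, q6, PowerSeries.coeff_map, z6, zB]
  simp

theorem bb0 (i : Fin 6) : PowerSeries.constantCoeff (bb R i) = 1 := by
  fin_cases i <;> simp [bb, c4, c6]

theorem ee0 (i : Fin 6) : PowerSeries.constantCoeff (ee R i) = 1 := by
  fin_cases i <;> simp [ee, c4, c6]

/-- The functional. -/
theorem val (hRam : Ram) (i : Fin 6) (c : R) (Φ : PowerSeries R)
    (hΦ : Φ * (q4 R ^ 3 - PowerSeries.C c * qD R) = ee R i * qd R) (A : Polynomial R) :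
    (ls (PowerSeries.X * Φ) * (ls (bb R i) * Di R * Polynomial.aeval (jj R) A)).coeff 0 =
      A.eval c := by
  have hΦ0 : PowerSeries.constantCoeff Φ = 1 := by
    have h1 := congrArg PowerSeries.constantCoeff hΦ
    rw [rd hRam] at h1
    simp only [map_mul, map_sub, map_pow, c4, rd0 hRam, ee0, one_pow, mul_one] at h1
    simpa using h1
  -- `F (j - c) = ee`
  have hF : ls (PowerSeries.X * Φ) * (jj R - algebraMap R (LaurentSeries R) c) = ls (ee R i) := by
    have e1 : jj R - algebraMap R (LaurentSeries R) c =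
        ls (q4 R ^ 3 - PowerSeries.C c * qD R) * Di R := by
      rw [ls_sub, ls_mul, ls_C, ls_pow, sub_mul, mul_assoc, qD_Di hRam, mul_one, jj]
    rw [e1, ← mul_assoc, ← ls_mul, mul_assoc PowerSeries.X, hΦ]
    have e2 : PowerSeries.X * (ee R i * qd R) = ee R i * qD R := by
      rw [rd hRam]; ring
    rw [e2, ls_mul, mul_assoc, qD_Di hRam, mul_one]
  have hmon : ∀ k : ℕ,
      (ls (PowerSeries.X * Φ) * (ls (bb R i) * Di R * jj R ^ k)).coeff 0 = c ^ k := by
    intro k
    induction k with
    | zero =>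
      have e1 : ls (PowerSeries.X * Φ) * (ls (bb R i) * Di R * jj R ^ 0) =
          ls (Φ * bb R i * ie R) := by
        rw [pow_zero, mul_one, Di_eq, ls_mul, ls_mul, ls_mul]
        calc ls PowerSeries.X * ls Φ * (ls (bb R i) * (HahnSeries.single (-1) 1 * ls (ie R))) =
            (ls PowerSeries.X * HahnSeries.single (-1) 1) * (ls Φ * ls (bb R i) * ls (ie R)) := by
              ring
          _ = _ := by rw [lsX_mul, one_mul]
      rw [e1, ls_coeff0, map_mul, map_mul, hΦ0, bb0, ie0 hRam, pow_zero, mul_one, mul_one]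
    | succ k ih =>
      have e1 : ls (PowerSeries.X * Φ) * (ls (bb R i) * Di R * jj R ^ (k + 1)) =
          algebraMap R (LaurentSeries R) c *
            (ls (PowerSeries.X * Φ) * (ls (bb R i) * Di R * jj R ^ k)) +
          HahnSeries.single (-((k : ℤ) + 1)) 1 *
            ls (ie R ^ (k + 1) * (q4 R ^ 2 * q6 R * (q4 R ^ 3) ^ k)) := by
        calc ls (PowerSeries.X * Φ) * (ls (bb R i) * Di R * jj R ^ (k + 1)) =
            algebraMap R (LaurentSeries R) c *
              (ls (PowerSeries.X * Φ) * (ls (bb R i) * Di R * jj R ^ k)) +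
            (ls (PowerSeries.X * Φ) * (jj R - algebraMap R (LaurentSeries R) c)) *
              ls (bb R i) * (Di R * jj R ^ k) := by ring
          _ = algebraMap R (LaurentSeries R) c *
              (ls (PowerSeries.X * Φ) * (ls (bb R i) * Di R * jj R ^ k)) +
            ls (ee R i * bb R i) * (HahnSeries.single (-((k : ℤ) + 1)) 1 *
              ls (ie R ^ (k + 1) * (q4 R ^ 3) ^ k)) := by
              rw [hF, jj_pow, ls_mul (ee R i)]
          _ = _ := by
              rw [ee_bb]
              simp only [ls_mul]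
              ring
      rw [e1, HahnSeries.coeff_add, HahnSeries.coeff_single_mul, one_mul]
      have e2 : (0 : ℤ) - -((k : ℤ) + 1) = ((k + 1 : ℕ) : ℤ) := by push_cast; ring
      rw [e2, ls_coeff, key hRam, add_zero, coeff_alg, ih, pow_succ']
  induction A using Polynomial.induction_on' with
  | add A A' hA hA' =>
    rw [map_add, mul_add, mul_add, HahnSeries.coeff_add, hA, hA', Polynomial.eval_add]
  | monomial n a =>
    rw [Polynomial.aeval_monomial, Polynomial.eval_monomial]
    have e1 : ls (PowerSeries.X * Φ) * (ls (bb R i) * Di R *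
        (algebraMap R (LaurentSeries R) a * jj R ^ n)) =
        algebraMap R (LaurentSeries R) a *
          (ls (PowerSeries.X * Φ) * (ls (bb R i) * Di R * jj R ^ n)) := by ring
    rw [e1, coeff_alg, hmon n]

theorem main' (hRam : Ram) : DualG := by
  intro R _ i _ m hm P hP c Φ hΦ
  rw [← val hRam i c Φ hΦ P]
  obtain ⟨g, hg⟩ := exists_ls (ls (bb R i) * Di R * Polynomial.aeval (jj R) P -
      HahnSeries.single (-(m : ℤ)) 1) (by
    intro n hn
    rw [HahnSeries.coeff_sub, hP n hn, HahnSeries.coeff_single]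
    split_ifs with h
    · rw [sub_self]
    · rw [sub_self])
  rw [sub_eq_iff_eq_add] at hg
  rw [hg, mul_add, HahnSeries.coeff_add, ← ls_mul, ls_coeff0, HahnSeries.coeff_mul_single, mul_one]
  have e1 : (0 : ℤ) - -(m : ℤ) = ((m - 1 + 1 : ℕ) : ℤ) := by
    rw [Nat.sub_add_cancel hm]; ring
  rw [e1, ls_coeff, PowerSeries.coeff_succ_X_mul]
  simp

theorem main : DualG := main' Pool.Agent.Q237.SX.ram

end

end Pool.Agent.H200.OCDualG
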