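import Mathlib
import Pool.Agent.H576.RD.Stm
import Pool.Agent.H576.RD.Move

/-!
# RD, lemma D4d1
-/

set_option autoImplicit false

open Real

namespace Pool.Agent.H200

open Pool.Agent.H576.RD

theorem rdE2_zero : e2 0 = 0 := by simp [e2]

theorem rdE2_one : e2 1 = 0 := by simp [e2]

theorem rdE2_two : e2 2 = 1 := by simp [e2]

theorem rdE2_norm : ‖e2‖ = 1 := by simp [e2]

theorem rdNsq (v : E) : ‖v‖ ^ 2 = v 0 ^ 2 + v 1 ^ 2 + v 2 ^ 2 := by
  rw [EuclideanSpace.norm_sq_eq, Fin.sum_univ_three]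
  simp [sq_abs]

theorem rdInner_e2 (v : E) : inner ℝ v e2 = v 2 := by
  unfold e2
  rw [EuclideanSpace.inner_single_right]
  simp

theorem rdNotOff {v : E} (h : ¬ Off v) : v = v 2 • e2 := by
  unfold Off at h
  push Not at h
  obtain ⟨h0, h1⟩ := h
  ext i
  fin_cases i
  · simp [rdE2_zero, h0]
  · simp [rdE2_one, h1]
  · simp [rdE2_two]

theorem rdFlip (t : ℝ) : rrE (π / 4) (t • e2) = -(t • e2) := by
  ext i
  fin_cases i <;> simp [rrE, rdE2_zero, rdE2_one, rdE2_two]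

theorem rdQ (v : E) : rrE (π / 4) (rrE (π / 4) v) = qE v := by
  have h2 : (√2 / 2) * (√2 / 2) = 1 / 2 := by
    have := Real.mul_self_sqrt (show (0:ℝ) ≤ 2 by norm_num)
    nlinarith
  ext i
  fin_cases i
  · simp only [rrE, qE, Real.cos_pi_div_four, Real.sin_pi_div_four]
    simp
    linear_combination (-2 * v 1) * h2
  · simp only [rrE, qE, Real.cos_pi_div_four, Real.sin_pi_div_four]
    simp
    linear_combination (2 * v 0) * h2
  · simp [rrE, qE]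

theorem rdNormRr (v : E) : ‖rrE (π / 4) v‖ = ‖v‖ := by
  have h : ‖rrE (π / 4) v‖ ^ 2 = ‖v‖ ^ 2 := by
    rw [rdNsq, rdNsq]
    simp only [rrE]
    simp
    have := Real.sin_sq_add_cos_sq (π / 4)
    have h2 := Real.mul_self_sqrt (show (0:ℝ) ≤ 2 by norm_num)
    ring_nf
    ring_nf at h2
    rw [h2]
    ring
  exact (sq_eq_sq₀ (norm_nonneg _) (norm_nonneg _)).1 h

theorem rdNormQ (v : E) : ‖qE v‖ = ‖v‖ := by
  rw [← rdQ, rdNormRr, rdNormRr]

theorem rdNormM (v : E) : ‖mirE v‖ = ‖v‖ := by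
  have h : ‖mirE v‖ ^ 2 = ‖v‖ ^ 2 := by
    rw [rdNsq, rdNsq]
    simp [mirE]
  exact (sq_eq_sq₀ (norm_nonneg _) (norm_nonneg _)).1 h

/-- arithmetic of item (2) -/
theorem rdArith (P M x x' z z' : ℝ) (h1 : x + x' = P) (h2 : z + z' = P)
    (h3 : 4 * (x * x') + 4 * (z * z') = P ^ 2) (hx : x ≤ x') (hz : z ≤ z') (hP : 0 < P) (hPM : P ≤ M)
    (hxz : ¬ (4 * x < M ∧ 4 * z < M)) (hx1 : 4 * x < M → 0.121 * M ≤ x)
    (hz1 : 4 * z < M → 0.121 * M ≤ z) : False := by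
  have key : ∀ x x' z z' : ℝ, x + x' = P → z + z' = P → 4 * (x * x') + 4 * (z * z') = P ^ 2 →
      x ≤ x' → z ≤ z' → P ≤ 4 * x → 0.121 * P ≤ z → False := by
    intro x x' z z' h1 h2 h3 hx hz h4 h5
    have e1 : x' = P - x := by linarith
    have e2 : z' = P - z := by linarith
    subst e1
    subst e2
    nlinarith [mul_nonneg (show (0:ℝ) ≤ 4 * x - P by linarith) (show (0:ℝ) ≤ P - x - x by linarith),
      mul_nonneg (show (0:ℝ) ≤ z - 0.121 * P by linarith) (show (0:ℝ) ≤ P - z - z by linarith),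
      mul_pos hP hP]
  rcases lt_or_ge (4 * x) M with hc | hc
  · have h5 : M ≤ 4 * z := by
      by_contra h
      exact hxz ⟨hc, not_le.1 h⟩
    have h6 := hx1 hc
    exact key z z' x x' h2 h1 (by linarith) hz hx (by linarith) (by linarith)
  · rcases lt_or_ge (4 * z) M with hd | hd
    · have h6 := hz1 hd
      exact key x x' z z' h1 h2 h3 hx hz (by linarith) (by linarith)
    · exact key x x' z z' h1 h2 h3 hx hz (by linarith) (by linarith)

/-- Data at the origin used below. -/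
structure RdAx (X : Set E) (L τ : ℝ) : Prop where
  nn : Nn X 9
  zero : (0 : E) ∈ X
  Lpos : 0 < L
  L2 : L ≤ 2
  off : ∀ v ∈ X, ‖v‖ < L → ¬ Off v
  tpos : 0 < τ
  tL : τ < L
  tp : τ • e2 ∈ X
  tm : -(τ • e2) ∈ X
  tmin : ∀ t : ℝ, t ≠ 0 → t • e2 ∈ X → τ ≤ |t|

theorem RdAx.pull {X : Set E} {L τ : ℝ} (_H : RdAx X L τ) {x y : E} {φ : LI}
    (hφ : Eqv X 0 x 9 φ) (hy : y ∈ X) (h : ‖y - x‖ ≤ 9) : (φ⁻¹ : LI) (y - x) ∈ X := by
  have h1 := hφ ((φ⁻¹ : LI) (y - x)) (by rwa [LinearIsometryEquiv.norm_map])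
  rw [li_apply_inv, zero_add, add_sub_cancel] at h1
  exact h1.2 hy

theorem RdAx.axis {X : Set E} {L τ : ℝ} (H : RdAx X L τ) {x y : E} {φ : LI}
    (hφ : Eqv X 0 x 9 φ) (hy : y ∈ X) (h : ‖y - x‖ < L) :
    ∃ t : ℝ, y - x = t • φ e2 ∧ t • e2 ∈ X := by
  have hL2 := H.L2
  have h1 := H.pull hφ hy (by linarith)
  have h2 := H.off _ h1 (by rwa [LinearIsometryEquiv.norm_map])
  have h3 := rdNotOff h2
  refine ⟨((φ⁻¹ : LI) (y - x)) 2, ?_, ?_⟩
  · rw [← map_smul, ← h3, li_apply_inv]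
  · rw [← h3]; exact h1

theorem RdAx.plus {X : Set E} {L τ : ℝ} (H : RdAx X L τ) {x : E} {φ : LI}
    (hφ : Eqv X 0 x 9 φ) : x + τ • φ e2 ∈ X ∧ x - τ • φ e2 ∈ X := by
  have hL2 := H.L2
  have htL := H.tL
  have hn : ‖τ • e2‖ ≤ 9 := by
    rw [norm_smul, rdE2_norm, mul_one, Real.norm_eq_abs, abs_of_pos H.tpos]
    linarith
  constructor
  · have h1 := hφ (τ • e2) hn
    rw [zero_add, map_smul] at h1
    exact h1.1 H.tp
  · have h1 := hφ (-(τ • e2)) (by rwa [norm_neg])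
    rw [zero_add, map_neg, map_smul, ← sub_eq_add_neg] at h1
    exact h1.1 H.tm

theorem RdAx.unit (φ : LI) : ‖φ e2‖ = 1 := by
  rw [LinearIsometryEquiv.norm_map, rdE2_norm]

theorem RdAx.minD {X : Set E} {L τ : ℝ} (H : RdAx X L τ) : MinD X τ where
  pos := H.tpos
  le := by
    intro x hx y hy hxy
    by_contra hlt
    rw [not_le] at hlt
    obtain ⟨φ, hφ⟩ := H.nn 0 H.zero x hx
    obtain ⟨t, ht, htX⟩ := H.axis hφ hy (hlt.trans H.tL)
    have ht0 : t ≠ 0 := by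
      intro h0
      rw [h0, zero_smul, sub_eq_zero] at ht
      exact hxy ht.symm
    have h1 := H.tmin t ht0 htX
    have h2 : ‖y - x‖ = |t| := by
      rw [ht, norm_smul, RdAx.unit, mul_one, Real.norm_eq_abs]
    rw [h2] at hlt
    linarith
  att := by
    intro x hx
    obtain ⟨φ, hφ⟩ := H.nn 0 H.zero x hx
    refine ⟨x + τ • φ e2, (H.plus hφ).1, ?_⟩
    rw [add_sub_cancel_left, norm_smul, RdAx.unit, mul_one, Real.norm_eq_abs, abs_of_pos H.tpos]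

theorem RdAx.par {X : Set E} {L τ : ℝ} (H : RdAx X L τ) {x y : E} (hx : x ∈ X) (hy : y ∈ X)
    (hyx : y ≠ x) (h : ‖y - x‖ < L) {φ ψ : LI} (hφ : Eqv X 0 x 9 φ) (hψ : Eqv X 0 y 9 ψ) :
    ψ e2 = φ e2 ∨ ψ e2 = -φ e2 := by
  obtain ⟨t, ht, -⟩ := H.axis hφ hy h
  obtain ⟨s, hs, -⟩ := H.axis hψ hx (by rwa [norm_sub_rev])
  have hts : ‖t • φ e2‖ = ‖s • ψ e2‖ := by rw [← ht, ← hs, norm_sub_rev]
  rw [norm_smul, norm_smul, RdAx.unit, RdAx.unit, mul_one, mul_one, Real.norm_eq_abs,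
    Real.norm_eq_abs] at hts
  have hs0 : s ≠ 0 := by
    intro h0
    rw [h0, zero_smul, sub_eq_zero] at hs
    exact hyx hs.symm
  have hsum : s • ψ e2 = -(t • φ e2) := by rw [← ht, ← hs]; abel
  rcases abs_eq_abs.1 hts with h1 | h1
  · right
    rw [h1, ← smul_neg] at hsum
    exact smul_right_injective E hs0 hsum
  · left
    rw [h1, neg_smul, neg_neg] at hsum
    exact smul_right_injective E hs0 hsum

/-- Item (1). -/
theorem RdAx.item1 {X : Set E} {L τ : ℝ} (H : RdAx X L τ) {y : E} (hy : y ∈ X) (hyL : ‖y‖ = L)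
    (ho : Off y) : 2 * |y 2| ≤ τ := by
  by_contra hlt
  rw [not_le] at hlt
  -- the point `q = ε τ e2`
  have key : ∀ ε : ℝ, ε ^ 2 = 1 → (ε * τ) • e2 ∈ X → ε * y 2 = |y 2| → False := by
    intro ε hε hq hεy
    have hd : ‖y - (ε * τ) • e2‖ < L := by
      have h1 : ‖y - (ε * τ) • e2‖ ^ 2 < L ^ 2 := by
        rw [rdNsq]
        have h2 := rdNsq y
        rw [hyL] at h2
        simp only [PiLp.sub_apply, PiLp.smul_apply, rdE2_zero, rdE2_one, rdE2_two, smul_eq_mul,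
          mul_zero, mul_one, sub_zero]
        have h3 := mul_pos H.tpos (sub_pos.2 hlt)
        have h4 : (y 2 - ε * τ) ^ 2 = y 2 ^ 2 - τ * (2 * |y 2| - τ) := by
          linear_combination τ ^ 2 * hε - 2 * τ * hεy
        linarith
      exact lt_of_pow_lt_pow_left₀ 2 H.Lpos.le h1
    obtain ⟨ψ, hψ⟩ := H.nn 0 H.zero _ hq
    have hq0 : ‖(ε * τ) • e2 - 0‖ < L := by
      rw [sub_zero, norm_smul, rdE2_norm, mul_one, Real.norm_eq_abs, abs_mul, abs_of_pos H.tpos]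
      have : |ε| = 1 := by
        have h5 : |ε| ^ 2 = 1 := by rw [sq_abs, hε]
        exact (pow_eq_one_iff_of_nonneg (abs_nonneg _) (by norm_num)).1 h5
      rw [this, one_mul]; exact H.tL
    have hne : (ε * τ) • e2 ≠ 0 := by
      intro h0
      have h6 := congrArg (fun v : E => v 2) h0
      simp only [PiLp.smul_apply, rdE2_two, smul_eq_mul, mul_one, PiLp.zero_apply] at h6
      have h7 : ε ≠ 0 := by
        intro h8
        rw [h8] at hε
        norm_num at hε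
      exact (mul_ne_zero h7 H.tpos.ne') h6
    have hp := H.par H.zero hq hne hq0 (Eqv.refl X 0 9) hψ
    obtain ⟨t, ht, -⟩ := H.axis hψ hy hd
    have h1e : (1 : LI) e2 = e2 := rfl
    rw [h1e] at hp
    have hy' : ∃ c : ℝ, y = c • e2 := by
      rcases hp with h | h
      · refine ⟨t + ε * τ, ?_⟩
        rw [h] at ht
        rw [add_smul, ← ht]; abel
      · refine ⟨-t + ε * τ, ?_⟩
        rw [h] at ht
        rw [add_smul, neg_smul, ← smul_neg, ← ht]; abel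
    obtain ⟨c, hc⟩ := hy'
    rcases ho with h | h
    · apply h
      rw [hc]; simp [rdE2_zero]
    · apply h
      rw [hc]; simp [rdE2_one]
  rcases le_or_gt 0 (y 2) with h | h
  · exact key 1 (by norm_num) (by rw [one_mul]; exact H.tp) (by rw [one_mul, abs_of_nonneg h])
  · refine key (-1) (by norm_num) ?_ (by rw [abs_of_neg h]; ring)
    rw [neg_one_mul, neg_smul]; exact H.tm

/-- A point of the same height and the same norm close to `y`. -/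
theorem RdAx.near {X : Set E} {L τ : ℝ} (H : RdAx X L τ)
    (h5 : ∀ v ∈ X, ‖v‖ = L → Off v → 0.121 * L ^ 2 ≤ v 2 ^ 2)
    {y z : E} (hy : y ∈ X) (hyL : ‖y‖ = L) (ho : Off y) (hz : z ∈ X) (hzL : ‖z‖ = L) (hzy : z ≠ y)
    (hz2 : z 2 = y 2) (h : ‖z - y‖ < L) : 0.121 * L ^ 2 ≤ ‖z - y‖ ^ 2 / 4 := by
  obtain ⟨ψ, hψ⟩ := H.nn 0 H.zero y hy
  obtain ⟨t, ht, -⟩ := H.axis hψ hz h
  have hL2 := H.L2
  have ht0 : t ≠ 0 := by
    intro h0
    rw [h0, zero_smul, sub_eq_zero] at ht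
    exact hzy ht
  have hp := H.pull hψ H.zero (by rw [zero_sub, norm_neg, hyL]; linarith)
  rw [zero_sub] at hp
  have hpL : ‖(ψ⁻¹ : LI) (-y)‖ = L := by rw [LinearIsometryEquiv.norm_map, norm_neg, hyL]
  have hn : ‖z - y‖ ^ 2 = t ^ 2 := by
    rw [ht, norm_smul, RdAx.unit, mul_one, Real.norm_eq_abs, sq_abs]
  -- inner product
  have hin : inner ℝ y (ψ e2) = -t / 2 := by
    have h1 : z = y + t • ψ e2 := by rw [← ht]; abel
    have h2 : ‖z‖ ^ 2 = ‖y‖ ^ 2 + 2 * inner ℝ y (t • ψ e2) + ‖t • ψ e2‖ ^ 2 := by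
      rw [h1]; exact norm_add_sq_real _ _
    rw [hzL, hyL, inner_smul_right, norm_smul, RdAx.unit, mul_one, Real.norm_eq_abs, sq_abs] at h2
    have h3 : t * (2 * inner ℝ y (ψ e2) + t) = 0 := by linarith
    rcases mul_eq_zero.1 h3 with h4 | h4
    · exact absurd h4 ht0
    · linarith
  have hp2 : ((ψ⁻¹ : LI) (-y)) 2 = t / 2 := by
    rw [← rdInner_e2]
    have h1 : inner ℝ (ψ ((ψ⁻¹ : LI) (-y))) (ψ e2) = inner ℝ ((ψ⁻¹ : LI) (-y)) e2 :=
      LinearIsometryEquiv.inner_map_map ψ _ _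
    rw [← h1, li_apply_inv, inner_neg_left, hin]
    ring
  have hoff : Off ((ψ⁻¹ : LI) (-y)) := by
    by_contra hno
    have h1 := rdNotOff hno
    have h2 : -y = ((ψ⁻¹ : LI) (-y)) 2 • ψ e2 := by
      rw [← map_smul, ← h1, li_apply_inv]
    have h3 : (ψ e2) 2 = 0 := by
      have h4 := congrArg (fun v : E => v 2) ht
      simp only [PiLp.sub_apply, PiLp.smul_apply, smul_eq_mul, hz2, sub_self] at h4
      rcases mul_eq_zero.1 h4.symm with h6 | h6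
      · exact absurd h6 ht0
      · exact h6
    have h7 := congrArg (fun v : E => v 2) h2
    simp only [PiLp.neg_apply, PiLp.smul_apply, smul_eq_mul, h3, mul_zero] at h7
    have h8 := h5 y hy hyL ho
    have h9 : y 2 = 0 := by linarith
    rw [h9] at h8
    have := pow_pos H.Lpos 2
    linarith
  have h10 := h5 _ hp hpL hoff
  rw [hp2] at h10
  rw [hn]
  linarith

/-- Two close points give parallel differences. -/
theorem RdAx.two {X : Set E} {L τ : ℝ} (H : RdAx X L τ)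
    {y z w : E} (hy : y ∈ X) (hz : z ∈ X) (hw : w ∈ X) (h : ‖z - y‖ < L) (h' : ‖w - y‖ < L) :
    (z 0 - y 0) * (w 1 - y 1) = (z 1 - y 1) * (w 0 - y 0) := by
  obtain ⟨ψ, hψ⟩ := H.nn 0 H.zero y hy
  obtain ⟨t, ht, -⟩ := H.axis hψ hz h
  obtain ⟨s, hs, -⟩ := H.axis hψ hw h'
  have a0 := congrArg (fun v : E => v 0) ht
  have a1 := congrArg (fun v : E => v 1) ht
  have b0 := congrArg (fun v : E => v 0) hs
  have b1 := congrArg (fun v : E => v 1) hs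
  simp only [PiLp.sub_apply, PiLp.smul_apply, smul_eq_mul] at a0 a1 b0 b1
  rw [a0, a1, b0, b1]; ring

/-- Item (2). -/
theorem RdAx.item2 {X : Set E} {L τ : ℝ} (H : RdAx X L τ)
    (h5 : ∀ v ∈ X, ‖v‖ = L → Off v → 0.121 * L ^ 2 ≤ v 2 ^ 2)
    (hQ : ∀ v ∈ X, ‖v‖ ≤ 2 → qE v ∈ X) (hM : ∀ v ∈ X, ‖v‖ ≤ 2 → mirE v ∈ X)
    {y : E} (hy : y ∈ X) (hyL : ‖y‖ = L) (ho : Off y) :
    y 0 = 0 ∨ y 1 = 0 ∨ y 0 = y 1 ∨ y 0 = -(y 1) := by
  by_contra hc
  push Not at hc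
  obtain ⟨n0, n1, n2, n3⟩ := hc
  have hL2 := H.L2
  have m1 : mirE y ∈ X := hM y hy (by rw [hyL]; exact hL2)
  have l1 : ‖mirE y‖ = L := by rw [rdNormM, hyL]
  have m3 : qE (mirE y) ∈ X := hQ _ m1 (by rw [l1]; exact hL2)
  have l3 : ‖qE (mirE y)‖ = L := by rw [rdNormQ, l1]
  have m2 : qE (qE (mirE y)) ∈ X := hQ _ m3 (by rw [l3]; exact hL2)
  have l2 : ‖qE (qE (mirE y))‖ = L := by rw [rdNormQ, l3]
  have m4 : qE (qE (qE (mirE y))) ∈ X := hQ _ m2 (by rw [l2]; exact hL2)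
  have l4 : ‖qE (qE (qE (mirE y)))‖ = L := by rw [rdNormQ, l2]
  -- coordinates
  have c10 : mirE y 0 = y 0 := by simp [mirE]
  have c11 : mirE y 1 = -y 1 := by simp [mirE]
  have c12 : mirE y 2 = y 2 := by simp [mirE]
  have c30 : qE (mirE y) 0 = y 1 := by simp [qE, mirE]
  have c31 : qE (mirE y) 1 = y 0 := by simp [qE, mirE]
  have c32 : qE (mirE y) 2 = y 2 := by simp [qE, mirE]
  have c20 : qE (qE (mirE y)) 0 = -y 0 := by simp [qE, mirE]
  have c21 : qE (qE (mirE y)) 1 = y 1 := by simp [qE, mirE]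
  have c22 : qE (qE (mirE y)) 2 = y 2 := by simp [qE, mirE]
  have c40 : qE (qE (qE (mirE y))) 0 = -y 1 := by simp [qE, mirE]
  have c41 : qE (qE (qE (mirE y))) 1 = -y 0 := by simp [qE, mirE]
  have c42 : qE (qE (qE (mirE y))) 2 = y 2 := by simp [qE, mirE]
  -- squares of the distances
  have d1 : ‖mirE y - y‖ ^ 2 = 4 * y 1 ^ 2 := by
    rw [rdNsq]; simp only [PiLp.sub_apply, c10, c11, c12]; ring
  have d2 : ‖qE (qE (mirE y)) - y‖ ^ 2 = 4 * y 0 ^ 2 := by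
    rw [rdNsq]; simp only [PiLp.sub_apply, c20, c21, c22]; ring
  have d3 : ‖qE (mirE y) - y‖ ^ 2 = 4 * ((y 0 - y 1) ^ 2 / 2) := by
    rw [rdNsq]; simp only [PiLp.sub_apply, c30, c31, c32]; ring
  have d4 : ‖qE (qE (qE (mirE y))) - y‖ ^ 2 = 4 * ((y 0 + y 1) ^ 2 / 2) := by
    rw [rdNsq]; simp only [PiLp.sub_apply, c40, c41, c42]; ring
  have lt_of : ∀ z : E, ‖z‖ ^ 2 < L ^ 2 → ‖z‖ < L := fun z hz => lt_of_pow_lt_pow_left₀ 2 H.Lpos.le hz
  have ne_of : ∀ z : E, ∀ s : ℝ, ‖z - y‖ ^ 2 = 4 * s → s ≠ 0 → z ≠ y := by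
    intro z s h1 h2 h3
    rw [h3, sub_self, norm_zero] at h1
    apply h2; linarith
  have q1 : y 1 ^ 2 ≠ 0 := pow_ne_zero 2 n1
  have q2 : y 0 ^ 2 ≠ 0 := pow_ne_zero 2 n0
  have q3 : (y 0 - y 1) ^ 2 / 2 ≠ 0 :=
    div_ne_zero (pow_ne_zero 2 (sub_ne_zero.2 n2)) (by norm_num)
  have n3' : y 0 + y 1 ≠ 0 := fun h => n3 (by linarith)
  have q4 : (y 0 + y 1) ^ 2 / 2 ≠ 0 := div_ne_zero (pow_ne_zero 2 n3') (by norm_num)
  have e1 : 4 * y 1 ^ 2 < L ^ 2 → 0.121 * L ^ 2 ≤ y 1 ^ 2 := by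
    intro h
    have := H.near h5 hy hyL ho m1 l1 (ne_of _ _ d1 q1) c12 (lt_of _ (by rw [d1]; exact h))
    rw [d1] at this; linarith
  have e2' : 4 * y 0 ^ 2 < L ^ 2 → 0.121 * L ^ 2 ≤ y 0 ^ 2 := by
    intro h
    have := H.near h5 hy hyL ho m2 l2 (ne_of _ _ d2 q2) c22 (lt_of _ (by rw [d2]; exact h))
    rw [d2] at this; linarith
  have e3 : 4 * ((y 0 - y 1) ^ 2 / 2) < L ^ 2 → 0.121 * L ^ 2 ≤ (y 0 - y 1) ^ 2 / 2 := by
    intro h
    have := H.near h5 hy hyL ho m3 l3 (ne_of _ _ d3 q3) c32 (lt_of _ (by rw [d3]; exact h))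
    rw [d3] at this; linarith
  have e4 : 4 * ((y 0 + y 1) ^ 2 / 2) < L ^ 2 → 0.121 * L ^ 2 ≤ (y 0 + y 1) ^ 2 / 2 := by
    intro h
    have := H.near h5 hy hyL ho m4 l4 (ne_of _ _ d4 q4) c42 (lt_of _ (by rw [d4]; exact h))
    rw [d4] at this; linarith
  have f13 : ¬ (4 * y 1 ^ 2 < L ^ 2 ∧ 4 * ((y 0 - y 1) ^ 2 / 2) < L ^ 2) := by
    rintro ⟨ha, hb⟩
    have := H.two hy m1 m3 (lt_of _ (by rw [d1]; exact ha)) (lt_of _ (by rw [d3]; exact hb))
    rw [c10, c11, c30, c31] at this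
    have h6 : (2 * y 1) * (y 0 - y 1) = 0 := by linarith
    exact mul_ne_zero (mul_ne_zero two_ne_zero n1) (sub_ne_zero.2 n2) h6
  have f14 : ¬ (4 * y 1 ^ 2 < L ^ 2 ∧ 4 * ((y 0 + y 1) ^ 2 / 2) < L ^ 2) := by
    rintro ⟨ha, hb⟩
    have := H.two hy m1 m4 (lt_of _ (by rw [d1]; exact ha)) (lt_of _ (by rw [d4]; exact hb))
    rw [c10, c11, c40, c41] at this
    have h6 : (2 * y 1) * (y 0 + y 1) = 0 := by linarith
    exact mul_ne_zero (mul_ne_zero two_ne_zero n1) n3' h6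
  have f23 : ¬ (4 * y 0 ^ 2 < L ^ 2 ∧ 4 * ((y 0 - y 1) ^ 2 / 2) < L ^ 2) := by
    rintro ⟨ha, hb⟩
    have := H.two hy m2 m3 (lt_of _ (by rw [d2]; exact ha)) (lt_of _ (by rw [d3]; exact hb))
    rw [c20, c21, c30, c31] at this
    have h6 : (2 * y 0) * (y 0 - y 1) = 0 := by linarith
    exact mul_ne_zero (mul_ne_zero two_ne_zero n0) (sub_ne_zero.2 n2) h6
  have f24 : ¬ (4 * y 0 ^ 2 < L ^ 2 ∧ 4 * ((y 0 + y 1) ^ 2 / 2) < L ^ 2) := by
    rintro ⟨ha, hb⟩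
    have := H.two hy m2 m4 (lt_of _ (by rw [d2]; exact ha)) (lt_of _ (by rw [d4]; exact hb))
    rw [c20, c21, c40, c41] at this
    have h6 : (2 * y 0) * (y 0 + y 1) = 0 := by linarith
    exact mul_ne_zero (mul_ne_zero two_ne_zero n0) n3' h6
  have hP : 0 < y 0 ^ 2 + y 1 ^ 2 := by
    have := sq_nonneg (y 1)
    have h7 : 0 < y 0 ^ 2 := lt_of_le_of_ne (sq_nonneg _) (Ne.symm q2)
    linarith
  have hPL : y 0 ^ 2 + y 1 ^ 2 ≤ L ^ 2 := by
    have h7 := rdNsq y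
    rw [hyL] at h7
    have := sq_nonneg (y 2)
    linarith
  have A : ∀ x x' z z' : ℝ, _ := fun x x' z z' => rdArith (y 0 ^ 2 + y 1 ^ 2) (L ^ 2) x x' z z'
  rcases le_total (y 0 ^ 2) (y 1 ^ 2) with g | g
  · rcases le_total ((y 0 - y 1) ^ 2 / 2) ((y 0 + y 1) ^ 2 / 2) with k | k
    · exact A _ _ _ _ (by ring) (by ring) (by ring) g k hP hPL f23 e2' e3
    · exact A _ _ _ _ (by ring) (by ring) (by ring) g k hP hPL f24 e2' e4
  · rcases le_total ((y 0 - y 1) ^ 2 / 2) ((y 0 + y 1) ^ 2 / 2) with k | k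
    · exact A _ _ _ _ (by ring) (by ring) (by ring) g k hP hPL f13 e1 e3
    · exact A _ _ _ _ (by ring) (by ring) (by ring) g k hP hPL f14 e1 e4

/-- D4d1. -/
theorem rd_d4d1 (h1 : S_FINK) (_h2 : S_LP) (h3 : S_T5c) : S_D4d1 := by
  intro r X L d H hdL hex
  subst hdL
  -- the least `τ`
  have hfin : {t : ℝ | 0 < t ∧ t < d ∧ t • e2 ∈ X}.Finite := by
    have h4 := h1 r X 0 d H.del
    refine (h4.image (fun v : E => v 2)).subset ?_
    rintro t ⟨ht0, htd, htX⟩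
    refine ⟨t • e2, ⟨?_, by rwa [zero_add]⟩, ?_⟩
    · rw [norm_smul, rdE2_norm, mul_one, Real.norm_eq_abs, abs_of_pos ht0]; exact htd.le
    · simp [rdE2_two]
  obtain ⟨τ, ⟨hτ0, hτd, hτX⟩, hτmin⟩ := Set.exists_min_image _ (fun t : ℝ => t) hfin hex
  have hsmall : ∀ t : ℝ, |t| ≤ 2 → ‖t • e2‖ ≤ 2 := by
    intro t ht
    rwa [norm_smul, rdE2_norm, mul_one, Real.norm_eq_abs]
  have hneg : ∀ t : ℝ, |t| ≤ 2 → t • e2 ∈ X → -(t • e2) ∈ X := by
    intro t ht htX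
    have h5 := (H.sg (t • e2) (hsmall t ht)).1 htX
    rwa [rdFlip] at h5
  have hd2 := H.d2
  have A : RdAx X d τ := by
    refine ⟨H.nn, H.zero, H.Lpos, H.L2, ?_, hτ0, hτd, hτX, hneg τ ?_ hτX, ?_⟩
    · intro v hv hvd ho
      have := H.dle v hv (by linarith) ho
      linarith
    · rw [abs_of_pos hτ0]; linarith
    · intro t ht0 htX
      by_contra hlt
      rw [not_le] at hlt
      rcases lt_or_gt_of_ne ht0 with h | h
      · have h6 := hneg t (by linarith) htX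
        rw [← neg_smul] at h6
        rw [abs_of_neg h] at hlt
        have := hτmin (-t) ⟨by linarith, by linarith, h6⟩
        linarith
      · rw [abs_of_pos h] at hlt
        have := hτmin t ⟨h, by linarith, htX⟩
        linarith
  have h5 : ∀ v ∈ X, ‖v‖ = d → Off v → 0.121 * d ^ 2 ≤ v 2 ^ 2 ∧ v 2 ^ 2 ≤ d ^ 2 / 2 := by
    intro v hv hvd ho
    obtain ⟨ha, hb⟩ := h3 X 2 d (H.nn.mono (by norm_num)) H.zero H.dpos.le H.d2 H.sg H.dle v hv
      (by rw [hvd]; exact H.d2) ho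
    have hc := rdNsq v
    rw [hvd] at hc
    constructor
    · have hs : (√2) ^ 2 = 2 := Real.sq_sqrt (by norm_num)
      have hs1 : 1.414213 < √2 := by
        rw [show (1.414213 : ℝ) = √(1.414213 ^ 2) from (Real.sqrt_sq (by norm_num)).symm]
        exact Real.sqrt_lt_sqrt (by norm_num) (by norm_num)
      have hw : v 0 ^ 2 + v 1 ^ 2 = d ^ 2 - v 2 ^ 2 := by linarith
      rw [hw] at ha
      have hd0 : 0 ≤ d ^ 2 - v 2 ^ 2 := by
        rw [← hw]; positivity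
      nlinarith [mul_nonneg hd0 (sub_pos.2 hs1).le]
    · linarith
  refine ⟨τ, hτ0, hτd, A.minD, ?_, ?_, ?_⟩
  · intro x _ φ hφ
    refine ⟨(A.plus hφ).1, (A.plus hφ).2, ?_⟩
    intro y hy hyx
    obtain ⟨t, ht, -⟩ := A.axis hφ hy hyx
    exact ⟨t, ht⟩
  · intro x hx y hy hyx h φ ψ hφ hψ
    exact A.par hx hy hyx h hφ hψ
  · intro y hy hyd ho
    refine ⟨?_, A.item1 hy hyd ho, (h5 y hy hyd ho).1, (h5 y hy hyd ho).2⟩
    refine A.item2 (fun v hv hvd ho' => (h5 v hv hvd ho').1) ?_ ?_ hy hyd ho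
    · intro v hv hv2
      have h6 := (H.sg v hv2).1 hv
      have h7 := (H.sg _ (by rw [rdNormRr]; exact hv2)).1 h6
      rwa [rdQ] at h7
    · intro v hv hv2
      exact (H.sm v hv2).1 hv

end Pool.Agent.H200
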