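import Pool.Agent.H770.GS.TF

/-!
# TF11: assembly of the three regions
-/

set_option autoImplicit false

open MeasureTheory Set intervalIntegral Filter Topology

namespace Pool.Agent.H200.TF11

open Pool.Agent.H770.GS

theorem sin_sub_nonneg {t : ℝ} (h0 : 0 ≤ t) (h1 : t ≤ Real.pi) :
    0 ≤ Real.sin t - t * Real.cos t := by
  rcases lt_or_ge t (Real.pi / 2) with h | h
  · have h2 := Real.le_tan h0 h
    have h3 : 0 < Real.cos t := Real.cos_pos_of_mem_Ioo ⟨by linarith [Real.pi_pos], h⟩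
    rw [Real.tan_eq_sin_div_cos, le_div_iff₀ h3] at h2
    linarith
  · have h2 : Real.cos t ≤ 0 :=
      Real.cos_nonpos_of_pi_div_two_le_of_le h (by linarith)
    have h3 : 0 ≤ Real.sin t := Real.sin_nonneg_of_nonneg_of_le_pi h0 h1
    nlinarith [mul_nonneg h0 (neg_nonneg.2 h2)]

theorem gg_nonneg {t : ℝ} (h0 : 0 ≤ t) (h1 : t ≤ Real.pi) : 0 ≤ gg t :=
  mul_nonneg (Real.sin_nonneg_of_nonneg_of_le_pi h0 h1) (sin_sub_nonneg h0 h1)

theorem sinc_nonneg {t : ℝ} (h0 : 0 ≤ t) (h1 : t ≤ Real.pi) : 0 ≤ Real.sinc t := by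
  rcases eq_or_lt_of_le h0 with h | h
  · rw [← h, Real.sinc_zero]; exact zero_le_one
  · rw [Real.sinc_of_ne_zero h.ne']
    exact div_nonneg (Real.sin_nonneg_of_nonneg_of_le_pi h0 h1) h0

theorem sinc_pos {t : ℝ} (h0 : 0 ≤ t) (h1 : t < Real.pi) : 0 < Real.sinc t := by
  rcases eq_or_lt_of_le h0 with h | h
  · rw [← h, Real.sinc_zero]; exact zero_lt_one
  · rw [Real.sinc_of_ne_zero h.ne']
    exact div_pos (Real.sin_pos_of_pos_of_lt_pi h h1) h

/-- the weight `w` is nonincreasing -/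
theorem w_anti {ε b s v : ℝ} {k : ℕ} (hb : 0 < b) (hv : 0 ≤ v) (hs : s ≤ k * b ^ 2)
    (hF : AntitoneOn (fun x => cf ε x * Real.exp (v * x ^ 2 / 2)) (Icc 0 Real.pi))
    (hf : ∀ x, 0 ≤ x → x ≤ Real.pi → 0 ≤ cf ε x) {t1 t2 : ℝ} (h0 : 0 ≤ t1) (h12 : t1 ≤ t2)
    (h2 : b * t2 ≤ Real.pi) :
    cf ε (b * t2) ^ k * Real.exp (v * s * t2 ^ 2 / 2) ≤
      cf ε (b * t1) ^ k * Real.exp (v * s * t1 ^ 2 / 2) := by
  have hbt : b * t1 ≤ b * t2 := mul_le_mul_of_nonneg_left h12 hb.le
  have h1 : 0 ≤ b * t1 := mul_nonneg hb.le h0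
  have hmem1 : b * t1 ∈ Icc 0 Real.pi := ⟨h1, hbt.trans h2⟩
  have hmem2 : b * t2 ∈ Icc 0 Real.pi := ⟨h1.trans hbt, h2⟩
  have h3 := hF hmem1 hmem2 hbt
  simp only at h3
  have key : ∀ t, cf ε (b * t) ^ k * Real.exp (v * s * t ^ 2 / 2) =
      (cf ε (b * t) * Real.exp (v * (b * t) ^ 2 / 2)) ^ k *
        Real.exp (-(v * (k * b ^ 2 - s) * t ^ 2 / 2)) := by
    intro t
    rw [mul_pow, ← Real.exp_nat_mul, mul_assoc (cf ε (b * t) ^ k), ← Real.exp_add]
    congr 2
    ring
  rw [key, key]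
  have h4 : 0 ≤ cf ε (b * t2) * Real.exp (v * (b * t2) ^ 2 / 2) :=
    mul_nonneg (hf _ hmem2.1 hmem2.2) (Real.exp_pos _).le
  refine mul_le_mul (pow_le_pow_left₀ h4 h3 k) (Real.exp_le_exp.2 ?_) (Real.exp_pos _).le
    (pow_nonneg (h4.trans h3) k)
  have h5 : t1 ^ 2 ≤ t2 ^ 2 := pow_le_pow_left₀ h0 h12 2
  have h6 : 0 ≤ v * (k * b ^ 2 - s) := mul_nonneg hv (by linarith)
  nlinarith [mul_le_mul_of_nonneg_left h5 h6]

theorem gg_cont : Continuous gg := by
  unfold gg
  fun_prop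

theorem result : S_TF11 := by
  intro H2 H3 H5 H6 H7 H8 H9 H10 ε b s κ k hε hb hb3 hk hs1 hsk hκ hrat hc
  obtain ⟨hζ, -, -, -, -, -, -⟩ := H2 ε hε
  obtain ⟨h61, h62, h63, h64, h65, hv0, hv1, hch⟩ := H6 H2 ε hε
  have hpi := Real.pi_pos
  have hpi3 := Real.pi_gt_three
  have hpi4 := Real.pi_le_four
  have hpi315 : Real.pi < 3.15 := Real.pi_lt_d2
  have hb1 : b < 1 := by nlinarith
  have hf : ∀ x, 0 ≤ x → x ≤ Real.pi → 0 ≤ cf ε x := fun x h0 h1 =>
    (sinc_nonneg h0 h1).trans (h61 x h0 h1)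
  set v := vv ε with hvdef
  set ζ := zt ε with hζdef
  set W := cf ε (b * Real.pi) ^ k * Real.exp (v * s * Real.pi ^ 2 / 2) with hW
  set c := s * v / 2 - κ * b ^ 2 with hcdef
  set T : ℝ := 12 / 5 / b with hT
  have hbT : b * T = 12 / 5 := by rw [hT]; field_simp
  have hbpi : b * Real.pi ≤ 12 / 5 := by
    have : (b * Real.pi) ^ 2 ≤ (12 / 5) ^ 2 := by
      rw [mul_pow]
      have : Real.pi ^ 2 ≤ 3.15 ^ 2 := pow_le_pow_left₀ hpi.le hpi315.le 2
      nlinarith [sq_nonneg b]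
    exact abs_le_of_sq_le_sq' this (by norm_num) |>.2
  have hpiT : Real.pi ≤ T := by
    have : b * Real.pi ≤ b * T := by rw [hbT]; exact hbpi
    exact le_of_mul_le_mul_left this hb
  have hbpi0 : 0 ≤ b * Real.pi := by positivity
  have hbpi1 : b * Real.pi ≤ Real.pi := by nlinarith
  have hW0 : 0 ≤ W := mul_nonneg (pow_nonneg (hf _ hbpi0 hbpi1) k) (Real.exp_pos _).le
  obtain ⟨hI, -⟩ := H3 H2 ε b k hε hb (by omega)
  have hII : ∀ x y : ℝ, 0 ≤ x → 0 ≤ y → IntervalIntegrable (II ε k b) volume x y := by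
    intro x y hx hy
    rw [intervalIntegrable_iff]
    refine hI.mono_set fun z hz => ?_
    exact lt_of_le_of_lt (le_min hx hy) hz.1
  -- first region
  have hR1 : ε / ζ * (1 - b ^ 2) * ch ε 0 * W * JL (b ^ 2 / 14) (v * (s - b ^ 2)) ≤
      ∫ t in (0:ℝ)..Real.pi, II ε k b t := by
    unfold JL
    rw [← intervalIntegral.integral_const_mul]
    refine intervalIntegral.integral_mono_on hpi.le ?_ (hII 0 Real.pi le_rfl hpi.le) ?_
    · refine Continuous.intervalIntegrable ?_ _ _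
      have := gg_cont
      fun_prop
    · intro t ht
      have hbt0 : 0 ≤ b * t := mul_nonneg hb.le ht.1
      have hbtpi : b * t ≤ Real.pi := by nlinarith [ht.1, ht.2]
      refine le_trans ?_ (H7 H2 H5 H6 ε b t k hε hb hb1.le (by omega) ht.1 ht.2)
      have hg := gg_nonneg ht.1 ht.2
      have hf0 := hf (b * t) hbt0 hbtpi
      -- lower bound for the power
      have hp1 : W * Real.exp (-(v * (s - b ^ 2) * t ^ 2 / 2)) ≤ cf ε (b * t) ^ (k - 1) := by
        have hp2 : W ≤ cf ε (b * t) ^ k * Real.exp (v * s * t ^ 2 / 2) :=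
          w_anti hb hv0.le hsk h62 hf ht.1 ht.2 hbpi1
        have hp3 : cf ε (b * t) ≤ Real.exp (-(v * (b * t) ^ 2 / 2)) := h64 _ hbt0 hbtpi
        have hp4 : cf ε (b * t) ^ k = cf ε (b * t) ^ (k - 1) * cf ε (b * t) := by
          rw [← pow_succ]; congr 1; omega
        calc W * Real.exp (-(v * (s - b ^ 2) * t ^ 2 / 2))
            ≤ cf ε (b * t) ^ k * Real.exp (v * s * t ^ 2 / 2) *
              Real.exp (-(v * (s - b ^ 2) * t ^ 2 / 2)) :=
              mul_le_mul_of_nonneg_right hp2 (Real.exp_pos _).le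
          _ = cf ε (b * t) ^ (k - 1) * (cf ε (b * t) * Real.exp (v * (b * t) ^ 2 / 2)) := by
              rw [mul_assoc, ← Real.exp_add, hp4, mul_assoc]
              congr 3
              ring
          _ ≤ cf ε (b * t) ^ (k - 1) *
              (Real.exp (-(v * (b * t) ^ 2 / 2)) * Real.exp (v * (b * t) ^ 2 / 2)) := by
              gcongr
          _ = cf ε (b * t) ^ (k - 1) := by
              rw [← Real.exp_add, neg_add_cancel, Real.exp_zero, mul_one]
      have hc1 := h65 (b * t)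
      have hbt2 : (b * t) ^ 2 ≤ 4 := by
        have h1 : (b * t) ^ 2 ≤ (b * Real.pi) ^ 2 := by
          apply pow_le_pow_left₀ hbt0
          exact mul_le_mul_of_nonneg_left ht.2 hb.le
        have h2 : (b * Real.pi) ^ 2 ≤ 4 := by
          rw [mul_pow]
          have : Real.pi ^ 2 ≤ 3.15 ^ 2 := pow_le_pow_left₀ hpi.le hpi315.le 2
          nlinarith [sq_nonneg b]
        linarith
      have hc2 : 0 ≤ 1 - (b * t) ^ 2 / 14 := by linarith
      have hc3 : ch ε 0 * (1 - b ^ 2 / 14 * t ^ 2) ≤ ch ε (b * t) := by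
        refine le_trans (le_of_eq ?_) hc1
        ring
      have hc4 : 0 ≤ ch ε 0 * (1 - b ^ 2 / 14 * t ^ 2) := by
        refine mul_nonneg hch.le ?_
        have : b ^ 2 / 14 * t ^ 2 = (b * t) ^ 2 / 14 := by ring
        rw [this]; exact hc2
      have hA : 0 ≤ ε / ζ * (1 - b ^ 2) * gg t :=
        mul_nonneg (mul_nonneg (div_pos hε hζ).le (by nlinarith)) hg
      calc ε / ζ * (1 - b ^ 2) * ch ε 0 * W *
            (gg t * (1 - b ^ 2 / 14 * t ^ 2) * Real.exp (-(v * (s - b ^ 2) * t ^ 2 / 2)))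
          = ε / ζ * (1 - b ^ 2) * gg t * ((ch ε 0 * (1 - b ^ 2 / 14 * t ^ 2)) *
            (W * Real.exp (-(v * (s - b ^ 2) * t ^ 2 / 2)))) := by ring
        _ ≤ ε / ζ * (1 - b ^ 2) * gg t * (ch ε (b * t) * cf ε (b * t) ^ (k - 1)) := by
            refine mul_le_mul_of_nonneg_left ?_ hA
            exact mul_le_mul hc3 hp1 (mul_nonneg hW0 (Real.exp_pos _).le) (hc4.trans hc3)
        _ = ε / ζ * (1 - b ^ 2) * gg t * ch ε (b * t) * cf ε (b * t) ^ (k - 1) := by ring
  -- second region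
  obtain ⟨hE1, hE2⟩ := H10 c hc
  have hR2 : -(W / 4 * Eb c) ≤ ∫ t in Real.pi..T, II ε k b t := by
    have hint : IntervalIntegrable (fun t => Real.sin t ^ 2 * Real.exp (-(c * t ^ 2))) volume
        Real.pi T := by
      refine Continuous.intervalIntegrable ?_ _ _
      fun_prop
    have h1 : ∫ t in Real.pi..T, -(W / 4) * (Real.sin t ^ 2 * Real.exp (-(c * t ^ 2))) ≤
        ∫ t in Real.pi..T, II ε k b t := by
      refine intervalIntegral.integral_mono_on hpiT (hint.const_mul _)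
        (hII Real.pi T hpi.le (hpi.le.trans hpiT)) ?_
      intro t ht
      have ht0 : 0 ≤ t := hpi.le.trans ht.1
      have hbt0 : 0 ≤ b * t := mul_nonneg hb.le ht0
      have hbt1 : b * t ≤ 12 / 5 := by
        rw [← hbT]; exact mul_le_mul_of_nonneg_left ht.2 hb.le
      have hbtpi : b * t ≤ Real.pi := by linarith
      have hS : 0 < Real.sinc (b * t) := sinc_pos hbt0 (by linarith)
      have hf0 := hf (b * t) hbt0 hbtpi
      refine le_trans ?_ (H8 ε b t k (by omega) hS hf0)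
      have hr := hrat (b * t) hbt0 hbt1
      have hw : cf ε (b * t) ^ k * Real.exp (v * s * t ^ 2 / 2) ≤ W :=
        w_anti hb hv0.le hsk h62 hf hpi.le ht.1 hbtpi
      have hq : cf ε (b * t) / Real.sinc (b * t) ≤ Real.exp (κ * b ^ 2 * t ^ 2) := by
        rw [div_le_iff₀ hS]
        refine hr.trans ?_
        rw [mul_comm]
        refine mul_le_mul_of_nonneg_right ?_ hS.le
        have := Real.add_one_le_exp (κ * b ^ 2 * t ^ 2)
        refine le_trans (le_of_eq ?_) this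
        ring
      have hw2 : cf ε (b * t) ^ k ≤ W * Real.exp (-(v * s * t ^ 2 / 2)) := by
        calc cf ε (b * t) ^ k = cf ε (b * t) ^ k * Real.exp (v * s * t ^ 2 / 2) *
              Real.exp (-(v * s * t ^ 2 / 2)) := by
              rw [mul_assoc, ← Real.exp_add, add_neg_cancel, Real.exp_zero, mul_one]
          _ ≤ W * Real.exp (-(v * s * t ^ 2 / 2)) :=
              mul_le_mul_of_nonneg_right hw (Real.exp_pos _).le
      have hm : cf ε (b * t) ^ (k + 1) / Real.sinc (b * t) ≤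
          W * Real.exp (-(c * t ^ 2)) := by
        calc cf ε (b * t) ^ (k + 1) / Real.sinc (b * t) =
              cf ε (b * t) ^ k * (cf ε (b * t) / Real.sinc (b * t)) := by
              rw [pow_succ]; ring
          _ ≤ W * Real.exp (-(v * s * t ^ 2 / 2)) * Real.exp (κ * b ^ 2 * t ^ 2) :=
              mul_le_mul hw2 hq (div_nonneg hf0 hS.le) (mul_nonneg hW0 (Real.exp_pos _).le)
          _ = W * Real.exp (-(c * t ^ 2)) := by
              rw [mul_assoc, ← Real.exp_add, hcdef]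
              congr 2
              ring
      have hs2 : 0 ≤ Real.sin t ^ 2 / 4 := by positivity
      have := mul_le_mul_of_nonneg_left hm hs2
      calc -(W / 4) * (Real.sin t ^ 2 * Real.exp (-(c * t ^ 2)))
          = -(Real.sin t ^ 2 / 4 * (W * Real.exp (-(c * t ^ 2)))) := by ring
        _ ≤ -(Real.sin t ^ 2 / 4 * (cf ε (b * t) ^ (k + 1) / Real.sinc (b * t))) :=
            neg_le_neg this
        _ = -(Real.sin t ^ 2 / 4 * cf ε (b * t) ^ (k + 1) / Real.sinc (b * t)) := by ring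
    refine le_trans ?_ h1
    rw [intervalIntegral.integral_const_mul]
    have h2 : ∫ t in Real.pi..T, Real.sin t ^ 2 * Real.exp (-(c * t ^ 2)) ≤ Eb c := by
      refine le_trans ?_ hE2
      rw [intervalIntegral.integral_of_le hpiT]
      refine setIntegral_mono_set hE1 ?_ ?_
      · exact Eventually.of_forall fun t => by positivity
      · exact LE.le.eventuallyLE Ioc_subset_Ioi_self
    have hW4 : 0 ≤ W / 4 := by positivity
    nlinarith [mul_le_mul_of_nonneg_left h2 hW4]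
  -- third region
  have hR3 : -(2 * ε / ζ * 1.07 * (1 + 1 / b) * KK3 ε (k - 1)) ≤
      ∫ t in Ioi T, II ε k b t := by
    have h1 := H9 H2 H3 ε b k hε hb (by omega)
    have h2 : |∫ t in Ioi T, II ε k b t| ≤ ∫ t in Ioi T, |II ε k b t| := by
      have := norm_integral_le_integral_norm (μ := volume.restrict (Ioi T)) (II ε k b)
      simpa [Real.norm_eq_abs] using this
    have h3 := neg_abs_le (∫ t in Ioi T, II ε k b t)
    linarith
  -- sum
  have hsum : ∫ t in Ioi (0:ℝ), II ε k b t = (∫ t in (0:ℝ)..Real.pi, II ε k b t) +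
      (∫ t in Real.pi..T, II ε k b t) + ∫ t in Ioi T, II ε k b t := by
    rw [intervalIntegral.integral_add_adjacent_intervals (hII 0 Real.pi le_rfl hpi.le)
      (hII Real.pi T hpi.le (hpi.le.trans hpiT))]
    rw [intervalIntegral.integral_interval_add_Ioi hI
      (hI.mono_set (Ioi_subset_Ioi (hpi.le.trans hpiT)))]
  rw [hsum]
  have hpos : 0 < ζ / (2 * ε) := by positivity
  have hfin := mul_le_mul_of_nonneg_left (add_le_add (add_le_add hR1 hR2) hR3) hpos.le
  refine le_trans (le_of_eq ?_) hfin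
  field_simp
  ring

end Pool.Agent.H200.TF11
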