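import Mathlib

set_option autoImplicit false
set_option linter.unusedSectionVars false

/-! Staying probabilities in two-coloured tori (MP_183c3b_co): definitions and the outer bound. -/

namespace Pool.Agent.H200.Torus

open Finset Filter Topology

noncomputable section

open Classical in
/-- `stay S t x` is the probability that the simple random walk `X_0 = x, X_1, X_2, ...` on the torus
`(ZMod n)^k` has all of `X_0, ..., X_t` in `S` (first step recursion). -/
def stay {n k : ℕ} (S : Set (Fin k → ZMod n)) : ℕ → (Fin k → ZMod n) → ℝ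
  | 0, x => if x ∈ S then 1 else 0
  | t + 1, x => if x ∈ S then
      (∑ i, (stay S t (x + Pi.single i 1) + stay S t (x - Pi.single i 1))) / (2 * k) else 0

/-- `prob t S` is the probability that `X_0, ..., X_t` are all in `S`, where `X_0` is uniform in `S`. -/
def prob {n k : ℕ} (t : ℕ) (S : Set (Fin k → ZMod n)) : ℝ := (∑ᶠ x, stay S t x) / S.ncard

/-- the achievable region `A_{k,t}`: the limits of the pairs of the staying probabilities of the two
colours, for balanced colourings (`R j` red, the complement blue) of tori of side `n j → ∞` -/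
def Region (k t : ℕ) : Set (ℝ × ℝ) :=
  {p | ∃ (n : ℕ → ℕ) (R : (j : ℕ) → Set (Fin k → ZMod (n j))), Tendsto n atTop atTop ∧
    (∀ j, 3 ≤ n j ∧ 2 * (R j).ncard = n j ^ k) ∧
    Tendsto (fun j => prob t (R j)) atTop (𝓝 p.1) ∧ Tendsto (fun j => prob t (R j)ᶜ) atTop (𝓝 p.2)}

section fin

variable {n k : ℕ} [NeZero n]

/-- the averaging operator -/
def P (f : (Fin k → ZMod n) → ℝ) (x : Fin k → ZMod n) : ℝ :=
  (∑ i, (f (x + Pi.single i 1) + f (x - Pi.single i 1))) / (2 * k)

theorem P_symm (f g : (Fin k → ZMod n) → ℝ) : ∑ x, f x * P g x = ∑ x, P f x * g x := by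
  have h1 : ∀ i : Fin k, ∑ x, f x * (g (x + Pi.single i 1) + g (x - Pi.single i 1)) =
      ∑ x, (f (x + Pi.single i 1) + f (x - Pi.single i 1)) * g x := by
    intro i
    simp only [mul_add, add_mul, sum_add_distrib]
    have e1 : ∑ x, f x * g (x + Pi.single i 1) = ∑ x, f (x - Pi.single i 1) * g x :=
      Fintype.sum_equiv (Equiv.addRight (Pi.single i (1 : ZMod n))) _ _ (fun x => by simp)
    have e2 : ∑ x, f x * g (x - Pi.single i 1) = ∑ x, f (x + Pi.single i 1) * g x :=
      Fintype.sum_equiv (Equiv.subRight (Pi.single i (1 : ZMod n))) _ _ (fun x => by simp)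
    rw [e1, e2, add_comm]
  unfold P
  simp only [mul_div_assoc', div_mul_eq_mul_div, ← sum_div]
  congr 1
  simp only [mul_sum, sum_mul]
  rw [sum_comm]
  conv_rhs => rw [sum_comm]
  exact sum_congr rfl fun i _ => h1 i

theorem P_mono {f g : (Fin k → ZMod n) → ℝ} (h : ∀ x, f x ≤ g x) (x : Fin k → ZMod n) : P f x ≤ P g x := by
  unfold P
  refine div_le_div_of_nonneg_right (sum_le_sum fun i _ => add_le_add (h _) (h _)) (by positivity)

theorem P_nonneg {f : (Fin k → ZMod n) → ℝ} (h : ∀ x, 0 ≤ f x) (x : Fin k → ZMod n) : 0 ≤ P f x := by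
  unfold P
  refine div_nonneg (sum_nonneg fun i _ => add_nonneg (h _) (h _)) (by positivity)

theorem P_const (hk : 1 ≤ k) (c : ℝ) (x : Fin k → ZMod n) : P (fun _ => c) x = c := by
  have : (k : ℝ) ≠ 0 := by positivity
  unfold P
  rw [sum_const, card_univ, Fintype.card_fin, nsmul_eq_mul]
  field_simp
  ring

theorem P_add (f g : (Fin k → ZMod n) → ℝ) (x : Fin k → ZMod n) : P (fun y => f y + g y) x = P f x + P g x := by
  unfold P
  rw [← add_div, ← sum_add_distrib]
  congr 1
  exact sum_congr rfl fun i _ => by ring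

theorem P_smul (c : ℝ) (f : (Fin k → ZMod n) → ℝ) (x : Fin k → ZMod n) : P (fun y => c * f y) x = c * P f x := by
  unfold P
  rw [← mul_div_assoc, mul_sum]
  congr 1
  exact sum_congr rfl fun i _ => by ring

open Classical in
theorem stay_succ (S : Set (Fin k → ZMod n)) (t : ℕ) (x : Fin k → ZMod n) :
    stay S (t + 1) x = if x ∈ S then P (stay S t) x else 0 := rfl

theorem stay_nonneg (S : Set (Fin k → ZMod n)) (t : ℕ) : ∀ x, 0 ≤ stay S t x := by
  classical
  induction t with
  | zero => intro x; unfold stay; split_ifs <;> norm_num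
  | succ t ih =>
    intro x
    rw [stay_succ]
    split_ifs
    · exact P_nonneg ih x
    · exact le_rfl

theorem stay_off {S : Set (Fin k → ZMod n)} {x : Fin k → ZMod n} (h : x ∉ S) (t : ℕ) : stay S t x = 0 := by
  classical
  cases t with
  | zero => unfold stay; rw [if_neg h]
  | succ t => rw [stay_succ, if_neg h]

theorem stay_anti (hk : 1 ≤ k) (S : Set (Fin k → ZMod n)) (t : ℕ) : ∀ x, stay S (t + 1) x ≤ stay S t x := by
  classical
  induction t with
  | zero =>
    intro x
    rw [stay_succ]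
    by_cases hx : x ∈ S
    · rw [if_pos hx]
      have h1 : stay S 0 x = 1 := by unfold stay; rw [if_pos hx]
      rw [h1]
      calc P (stay S 0) x ≤ P (fun _ => 1) x := P_mono (fun y => by unfold stay; split_ifs <;> norm_num) x
        _ = 1 := P_const hk 1 x
    · rw [if_neg hx]
      exact stay_nonneg S 0 x
  | succ t ih =>
    intro x
    rw [stay_succ S (t + 1), stay_succ S t]
    split_ifs
    · exact P_mono ih x
    · exact le_rfl

theorem stay_le_one (hk : 1 ≤ k) (S : Set (Fin k → ZMod n)) (t : ℕ) : ∀ x, stay S t x ≤ 1 := by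
  classical
  induction t with
  | zero => intro x; unfold stay; split_ifs <;> norm_num
  | succ t ih => exact fun x => (stay_anti hk S t x).trans (ih x)

theorem stay_le_first (hk : 1 ≤ k) (S : Set (Fin k → ZMod n)) {t : ℕ} (ht : 1 ≤ t) (x : Fin k → ZMod n) :
    stay S t x ≤ stay S 1 x := by
  induction t, ht using Nat.le_induction with
  | base => exact le_rfl
  | succ t _ ih => exact (stay_anti hk S t x).trans ih

/-- `∑ stay (t+1) = ∑ stay 1 * stay t` -/
theorem sum_stay_succ (S : Set (Fin k → ZMod n)) (t : ℕ) :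
    ∑ x, stay S (t + 1) x = ∑ x, stay S 1 x * stay S t x := by
  classical
  have h1 : ∑ x, stay S (t + 1) x = ∑ x, stay S 0 x * P (stay S t) x := by
    refine sum_congr rfl fun x _ => ?_
    rw [stay_succ]
    unfold stay
    split_ifs <;> simp
  rw [h1, P_symm]
  refine sum_congr rfl fun x _ => ?_
  by_cases hx : x ∈ S
  · rw [stay_succ, if_pos hx]
  · rw [stay_off hx, mul_zero, mul_zero]

/-- the number of red edges is symmetric -/
theorem sum_first (hk : 1 ≤ k) (S : Set (Fin k → ZMod n)) :
    ∑ x, stay S 1 x + ∑ x, stay S 0 x * stay Sᶜ 0 x - ∑ x, stay Sᶜ 1 x = ∑ x, stay S 0 x - ∑ x, stay Sᶜ 0 x := by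
  classical
  have h0 : ∀ x, stay S 0 x + stay Sᶜ 0 x = 1 := by
    intro x
    unfold stay
    by_cases hx : x ∈ S
    · rw [if_pos hx, if_neg (fun h : x ∈ Sᶜ => h hx)]; norm_num
    · rw [if_neg hx, if_pos (show x ∈ Sᶜ from hx)]; norm_num
  have h00 : ∀ x, stay S 0 x * stay Sᶜ 0 x = 0 := by
    intro x
    by_cases hx : x ∈ S
    · rw [stay_off (S := Sᶜ) (fun h => h hx), mul_zero]
    · rw [stay_off hx, zero_mul]
  have h1 : ∀ T : Set (Fin k → ZMod n), ∑ x, stay T 1 x = ∑ x, stay T 0 x * P (stay T 0) x := by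
    intro T
    refine sum_congr rfl fun x _ => ?_
    rw [stay_succ]
    by_cases hx : x ∈ T
    · rw [if_pos hx]
      have : stay T 0 x = 1 := by unfold stay; rw [if_pos hx]
      rw [this, one_mul]
    · rw [if_neg hx, stay_off hx, zero_mul]
  have hP : ∀ x, P (stay S 0) x + P (stay Sᶜ 0) x = 1 := by
    intro x
    rw [← P_add]
    have : (fun y => stay S 0 y + stay Sᶜ 0 y) = fun _ => (1 : ℝ) := funext h0
    rw [this, P_const hk]
  have h2 : ∑ x, stay S 0 x * P (stay Sᶜ 0) x = ∑ x, stay Sᶜ 0 x * P (stay S 0) x := by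
    rw [P_symm]
    exact sum_congr rfl fun x _ => mul_comm _ _
  have h3 : ∑ x, stay S 0 x = ∑ x, stay S 0 x * P (stay S 0) x + ∑ x, stay S 0 x * P (stay Sᶜ 0) x := by
    rw [← sum_add_distrib]
    refine sum_congr rfl fun x _ => ?_
    rw [← mul_add, hP, mul_one]
  have h4 : ∑ x, stay Sᶜ 0 x = ∑ x, stay Sᶜ 0 x * P (stay S 0) x + ∑ x, stay Sᶜ 0 x * P (stay Sᶜ 0) x := by
    rw [← sum_add_distrib]
    refine sum_congr rfl fun x _ => ?_
    rw [← mul_add, hP, mul_one]
  rw [sum_congr rfl fun x _ => h00 x, sum_const_zero, h1, h1, h3, h4, h2]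
  ring

theorem sum_zero_ncard (S : Set (Fin k → ZMod n)) : ∑ x, stay S 0 x = S.ncard := by
  classical
  unfold stay
  rw [sum_boole, Set.ncard_eq_toFinset_card']
  congr 2
  ext x
  simp

theorem prob_eq (t : ℕ) (S : Set (Fin k → ZMod n)) : prob t S = (∑ x, stay S t x) / S.ncard := by
  unfold prob
  rw [finsum_eq_sum_of_fintype]

end fin

end

end Pool.Agent.H200.Torus
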