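import Mathlib
import Pool.Agent.H200.Torus1

set_option autoImplicit false
set_option linter.unusedSectionVars false

/-! Staying probabilities in two-coloured tori (MP_183c3b_co): the outer bound. -/

namespace Pool.Agent.H200.Torus

open Finset Filter Topology

noncomputable section

section fin

variable {n k : ℕ} [NeZero n]

theorem P_mono' {f g : (Fin k → ZMod n) → ℝ} {x : Fin k → ZMod n}
    (h : ∀ i, f (x + Pi.single i 1) ≤ g (x + Pi.single i 1) ∧ f (x - Pi.single i 1) ≤ g (x - Pi.single i 1)) :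
    P f x ≤ P g x := by
  unfold P
  exact div_le_div_of_nonneg_right (sum_le_sum fun i _ => add_le_add (h i).1 (h i).2) (by positivity)

theorem P_congr' {f g : (Fin k → ZMod n) → ℝ} {x : Fin k → ZMod n}
    (h : ∀ i, f (x + Pi.single i 1) = g (x + Pi.single i 1) ∧ f (x - Pi.single i 1) = g (x - Pi.single i 1)) :
    P f x = P g x := by
  unfold P
  congr 1
  exact sum_congr rfl fun i _ => by rw [(h i).1, (h i).2]

theorem P_ge (hk : 1 ≤ k) {f : (Fin k → ZMod n) → ℝ} (hf : ∀ x, 0 ≤ f x) (x : Fin k → ZMod n) (i : Fin k) :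
    f (x + Pi.single i 1) / (2 * k) ≤ P f x ∧ f (x - Pi.single i 1) / (2 * k) ≤ P f x := by
  have h1 : f (x + Pi.single i 1) + f (x - Pi.single i 1) ≤ ∑ i, (f (x + Pi.single i 1) + f (x - Pi.single i 1)) :=
    single_le_sum (f := fun i => f (x + Pi.single i 1) + f (x - Pi.single i 1)) (fun j _ => add_nonneg (hf _) (hf _)) (mem_univ i)
  have h2 := hf (x + Pi.single i 1)
  have h3 := hf (x - Pi.single i 1)
  unfold P
  exact ⟨div_le_div_of_nonneg_right (by linarith) (by positivity), div_le_div_of_nonneg_right (by linarith) (by positivity)⟩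

theorem mem_of_pos {S : Set (Fin k → ZMod n)} {t : ℕ} {x : Fin k → ZMod n} (h : 0 < stay S t x) : x ∈ S := by
  by_contra hx
  rw [stay_off hx] at h
  exact lt_irrefl _ h

theorem stay_zero_mem {S : Set (Fin k → ZMod n)} {x : Fin k → ZMod n} (h : x ∈ S) : stay S 0 x = 1 := by
  classical
  unfold stay
  rw [if_pos h]

theorem stay_mem_succ {S : Set (Fin k → ZMod n)} {x : Fin k → ZMod n} (h : x ∈ S) (t : ℕ) :
    stay S (t + 1) x = P (stay S t) x := by
  classical
  rw [stay_succ, if_pos h]

/-- a vertex of `S` with a neighbour in `S` -/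
theorem nb_pos (hk : 1 ≤ k) {S : Set (Fin k → ZMod n)} {x : Fin k → ZMod n} (hx : x ∈ S) (i : Fin k) :
    (x + Pi.single i 1 ∈ S → 0 < stay S 1 (x + Pi.single i 1)) ∧
      (x - Pi.single i 1 ∈ S → 0 < stay S 1 (x - Pi.single i 1)) := by
  have hk0 : (0 : ℝ) < 2 * k := by positivity
  refine ⟨fun h => ?_, fun h => ?_⟩
  · rw [stay_mem_succ h]
    refine lt_of_lt_of_le ?_ (P_ge hk (stay_nonneg S 0) _ i).2
    rw [add_sub_cancel_right, stay_zero_mem hx]
    positivity
  · rw [stay_mem_succ h]
    refine lt_of_lt_of_le ?_ (P_ge hk (stay_nonneg S 0) _ i).1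
    rw [sub_add_cancel, stay_zero_mem hx]
    positivity

theorem exists_nb {S : Set (Fin k → ZMod n)} {x : Fin k → ZMod n} (hx : 0 < stay S 1 x) :
    ∃ i : Fin k, x + Pi.single i 1 ∈ S ∨ x - Pi.single i 1 ∈ S := by
  by_contra hc
  push Not at hc
  have hxS := mem_of_pos hx
  rw [stay_mem_succ hxS] at hx
  have : P (stay S 0) x = P (fun _ => 0) x := P_congr' fun i => ⟨stay_off (hc i).1 0, stay_off (hc i).2 0⟩
  rw [this] at hx
  unfold P at hx
  simp at hx

theorem pos_all (hk : 1 ≤ k) {S : Set (Fin k → ZMod n)} (t : ℕ) :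
    ∀ {x : Fin k → ZMod n}, 0 < stay S 1 x → 0 < stay S t x := by
  induction t with
  | zero =>
    intro x hx
    rw [stay_zero_mem (mem_of_pos hx)]
    norm_num
  | succ t ih =>
    intro x hx
    have hxS := mem_of_pos hx
    obtain ⟨i, hi⟩ := exists_nb hx
    have hk0 : (0 : ℝ) < 2 * k := by positivity
    rw [stay_mem_succ hxS]
    rcases hi with h | h
    · exact lt_of_lt_of_le (div_pos (ih ((nb_pos hk hxS i).1 h)) hk0) (P_ge hk (stay_nonneg S t) x i).1
    · exact lt_of_lt_of_le (div_pos (ih ((nb_pos hk hxS i).2 h)) hk0) (P_ge hk (stay_nonneg S t) x i).2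

theorem log_off {S : Set (Fin k → ZMod n)} {x : Fin k → ZMod n} (h : x ∉ S) (t : ℕ) :
    Real.log (stay S t x) = 0 := by
  rw [stay_off h, Real.log_zero]

/-- Jensen -/
theorem jens (hk : 1 ≤ k) (S : Set (Fin k → ZMod n)) (t : ℕ) (x : Fin k → ZMod n) :
    stay S 0 x * P (fun y => Real.log (stay S t y)) x ≤
      stay S 1 x * (Real.log (stay S (t + 1) x) - Real.log (stay S 1 x)) := by
  rcases (stay_nonneg S 1 x).eq_or_lt with h0 | h0
  · rw [← h0, zero_mul]
    by_cases hx : x ∈ S
    · have hn : ∀ i : Fin k, x + Pi.single i 1 ∉ S ∧ x - Pi.single i 1 ∉ S := by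
        intro i
        have h1 := P_ge hk (stay_nonneg S 0) x i
        rw [← stay_mem_succ hx, ← h0] at h1
        have hk0 : (0 : ℝ) < 2 * k := by positivity
        refine ⟨fun h => ?_, fun h => ?_⟩
        · rw [stay_zero_mem h] at h1
          have : (0 : ℝ) < 1 / (2 * k) := by positivity
          linarith [h1.1]
        · rw [stay_zero_mem h] at h1
          have : (0 : ℝ) < 1 / (2 * k) := by positivity
          linarith [h1.2]
      have : P (fun y => Real.log (stay S t y)) x = P (fun _ => 0) x :=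
        P_congr' fun i => ⟨log_off (hn i).1 t, log_off (hn i).2 t⟩
      rw [this]
      unfold P
      simp
    · rw [stay_off hx, zero_mul]
  · have hxS := mem_of_pos h0
    have hs : 0 < stay S (t + 1) x := pos_all hk (t + 1) h0
    set c : ℝ := stay S (t + 1) x / stay S 1 x with hc
    have hc0 : 0 < c := div_pos hs h0
    have h1 : P (fun y => Real.log (stay S t y)) x ≤
        P (fun y => (Real.log c - 1) * stay S 0 y + 1 / c * stay S t y) x := by
      have key : ∀ y : Fin k → ZMod n, (y ∈ S → 0 < stay S 1 y) →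
          Real.log (stay S t y) ≤ (Real.log c - 1) * stay S 0 y + 1 / c * stay S t y := by
        intro y hy
        by_cases hyS : y ∈ S
        · have h2 := pos_all hk t (hy hyS)
          have h3 := Real.log_le_sub_one_of_pos (div_pos h2 hc0)
          rw [Real.log_div h2.ne' hc0.ne'] at h3
          rw [stay_zero_mem hyS, one_div_mul_eq_div]
          linarith
        · rw [log_off hyS, stay_off hyS, stay_off hyS]
          simp
      exact P_mono' fun i => ⟨key _ (nb_pos hk hxS i).1, key _ (nb_pos hk hxS i).2⟩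
    rw [P_add, P_smul, P_smul, ← stay_mem_succ hxS, ← stay_mem_succ hxS] at h1
    have h2 : 1 / c * stay S (t + 1) x = stay S 1 x := by
      rw [hc]
      field_simp
    have h3 : Real.log c = Real.log (stay S (t + 1) x) - Real.log (stay S 1 x) := Real.log_div hs.ne' h0.ne'
    rw [h2, h3] at h1
    rw [stay_zero_mem hxS, one_mul]
    have h4 : (0 : ℕ) + 1 = 1 := rfl
    rw [h4] at h1
    linarith

theorem jens_sum (hk : 1 ≤ k) (S : Set (Fin k → ZMod n)) (t : ℕ) :
    ∑ x, stay S 1 x * Real.log (stay S t x) + ∑ x, stay S 1 x * Real.log (stay S 1 x) ≤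
      ∑ x, stay S 1 x * Real.log (stay S (t + 1) x) := by
  have h1 : ∑ x, stay S 0 x * P (fun y => Real.log (stay S t y)) x ≤
      ∑ x, stay S 1 x * (Real.log (stay S (t + 1) x) - Real.log (stay S 1 x)) :=
    sum_le_sum fun x _ => jens hk S t x
  rw [P_symm] at h1
  have h2 : ∑ x, P (stay S 0) x * Real.log (stay S t x) = ∑ x, stay S 1 x * Real.log (stay S t x) := by
    refine sum_congr rfl fun x _ => ?_
    by_cases hx : x ∈ S
    · rw [stay_mem_succ hx]
    · rw [log_off hx, mul_zero, mul_zero]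
  rw [h2] at h1
  simp only [mul_sub, sum_sub_distrib] at h1
  linarith

theorem jens_iter (hk : 1 ≤ k) (S : Set (Fin k → ZMod n)) (t : ℕ) :
    t * ∑ x, stay S 1 x * Real.log (stay S 1 x) ≤ ∑ x, stay S 1 x * Real.log (stay S t x) := by
  induction t with
  | zero =>
    have : ∑ x, stay S 1 x * Real.log (stay S 0 x) = 0 := by
      refine sum_eq_zero fun x _ => ?_
      by_cases hx : x ∈ S
      · rw [stay_zero_mem hx, Real.log_one, mul_zero]
      · rw [log_off hx, mul_zero]
    rw [this]
    simp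
  | succ t ih =>
    have := jens_sum hk S t
    push_cast
    linarith

/-- Inequality of Blakley and Roy for the staying probabilities -/
theorem br (hk : 1 ≤ k) (S : Set (Fin k → ZMod n)) (t : ℕ) : prob 1 S ^ (t + 1) ≤ prob (t + 1) S := by
  classical
  rw [prob_eq, prob_eq, sum_stay_succ S t]
  set D : ℝ := ∑ x, stay S 1 x with hD
  have hD0 : 0 ≤ D := sum_nonneg fun x _ => stay_nonneg S 1 x
  have hN0 : (0 : ℝ) ≤ S.ncard := Nat.cast_nonneg _
  rcases hD0.eq_or_lt with h | h
  · rw [← h, zero_div, zero_pow (by omega)]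
    exact div_nonneg (sum_nonneg fun x _ => mul_nonneg (stay_nonneg S 1 x) (stay_nonneg S t x)) hN0
  · have hNpos : (0 : ℝ) < S.ncard := by
      have h1 : D ≤ ∑ x, stay S 0 x := sum_le_sum fun x _ => stay_anti hk S 0 x
      rw [sum_zero_ncard] at h1
      linarith
    set a : ℝ := D / S.ncard with ha
    have ha0 : 0 < a := div_pos h hNpos
    -- the mean
    have hex : ∃ x, 0 < stay S 1 x := by
      by_contra hc
      push Not at hc
      have : D ≤ 0 := sum_nonpos fun x _ => hc x
      linarith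
    obtain ⟨x0, hx0⟩ := hex
    have hMs : 0 < ∑ x, stay S 1 x * stay S t x :=
      sum_pos' (fun x _ => mul_nonneg (stay_nonneg S 1 x) (stay_nonneg S t x))
        ⟨x0, mem_univ _, mul_pos hx0 (pos_all hk t hx0)⟩
    set M : ℝ := (∑ x, stay S 1 x * stay S t x) / D with hM
    have hM0 : 0 < M := div_pos hMs h
    have hMD : ∑ x, stay S 1 x * stay S t x = D * M := by
      rw [hM]
      field_simp
    have h1 : ∑ x, stay S 1 x * Real.log (stay S t x) ≤ D * Real.log M := by
      have h2 : ∀ x ∈ univ, stay S 1 x * Real.log (stay S t x) ≤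
          (Real.log M - 1) * stay S 1 x + 1 / M * (stay S 1 x * stay S t x) := by
        intro x _
        rcases (stay_nonneg S 1 x).eq_or_lt with h0 | h0
        · rw [← h0]; simp
        · have h2 := pos_all hk t h0
          have h3 := Real.log_le_sub_one_of_pos (div_pos h2 hM0)
          rw [Real.log_div h2.ne' hM0.ne'] at h3
          have h4 : Real.log (stay S t x) ≤ (Real.log M - 1) + 1 / M * stay S t x := by
            rw [one_div_mul_eq_div]
            linarith
          calc stay S 1 x * Real.log (stay S t x) ≤ stay S 1 x * ((Real.log M - 1) + 1 / M * stay S t x) :=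
                mul_le_mul_of_nonneg_left h4 h0.le
            _ = _ := by ring
      refine (sum_le_sum h2).trans (le_of_eq ?_)
      rw [sum_add_distrib, ← mul_sum, ← mul_sum, hMD, ← hD]
      field_simp
      ring
    have h5 : D * Real.log a ≤ ∑ x, stay S 1 x * Real.log (stay S 1 x) := by
      have h2 : ∀ x ∈ univ, Real.log a * stay S 1 x - stay S 1 x * Real.log (stay S 1 x) ≤
          a * stay S 0 x - stay S 1 x := by
        intro x _
        rcases (stay_nonneg S 1 x).eq_or_lt with h0 | h0
        · rw [← h0]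
          simp only [mul_zero, zero_mul, sub_zero]
          exact mul_nonneg ha0.le (stay_nonneg S 0 x)
        · have h3 := Real.log_le_sub_one_of_pos (div_pos ha0 h0)
          rw [Real.log_div ha0.ne' h0.ne'] at h3
          rw [stay_zero_mem (mem_of_pos h0)]
          calc Real.log a * stay S 1 x - stay S 1 x * Real.log (stay S 1 x) =
                stay S 1 x * (Real.log a - Real.log (stay S 1 x)) := by ring
            _ ≤ stay S 1 x * (a / stay S 1 x - 1) := mul_le_mul_of_nonneg_left h3 h0.le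
            _ = a * 1 - stay S 1 x := by field_simp
      have h3 := sum_le_sum h2
      rw [sum_sub_distrib, sum_sub_distrib, ← mul_sum, ← mul_sum, sum_zero_ncard, ← hD] at h3
      have h4 : a * S.ncard = D := by
        rw [ha]
        field_simp
      rw [h4] at h3
      linarith
    have h6 : a ^ t ≤ M := by
      have h7 : D * (t * Real.log a) ≤ D * Real.log M := by
        calc D * (t * Real.log a) = t * (D * Real.log a) := by ring
          _ ≤ t * ∑ x, stay S 1 x * Real.log (stay S 1 x) := mul_le_mul_of_nonneg_left h5 (Nat.cast_nonneg _)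
          _ ≤ _ := jens_iter hk S t
          _ ≤ _ := h1
      have h8 := le_of_mul_le_mul_left h7 h
      rw [← Real.log_pow] at h8
      exact (Real.log_le_log_iff (pow_pos ha0 t) hM0).1 h8
    rw [hMD, mul_div_right_comm, ← ha, pow_succ, mul_comm]
    exact mul_le_mul_of_nonneg_left h6 ha0.le

/-- the asymmetry bound for a balanced colouring -/
theorem outer (hk : 1 ≤ k) (R : Set (Fin k → ZMod n)) (hR : R.ncard = Rᶜ.ncard) {t : ℕ} (ht : 1 ≤ t) :
    prob t R ^ t ≤ prob t Rᶜ := by
  have h1 : prob 1 R = prob 1 Rᶜ := by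
    have h2 := sum_first hk R
    rw [sum_zero_ncard, sum_zero_ncard, hR] at h2
    have h3 : ∑ x, stay R 0 x * stay Rᶜ 0 x = 0 := by
      refine sum_eq_zero fun x _ => ?_
      by_cases hx : x ∈ R
      · rw [stay_off (S := Rᶜ) (fun h : x ∈ Rᶜ => h hx), mul_zero]
      · rw [stay_off hx, zero_mul]
    rw [h3] at h2
    rw [prob_eq, prob_eq, hR]
    congr 1
    linarith
  have h2 : prob t R ≤ prob 1 R := by
    rw [prob_eq, prob_eq]
    exact div_le_div_of_nonneg_right (sum_le_sum fun x _ => stay_le_first hk R ht x) (Nat.cast_nonneg _)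
  have h3 : 0 ≤ prob t R := by
    rw [prob_eq]
    exact div_nonneg (sum_nonneg fun x _ => stay_nonneg R t x) (Nat.cast_nonneg _)
  obtain ⟨s, rfl⟩ : ∃ s, t = s + 1 := ⟨t - 1, by omega⟩
  calc prob (s + 1) R ^ (s + 1) ≤ prob 1 R ^ (s + 1) := pow_le_pow_left₀ h3 h2 _
    _ = prob 1 Rᶜ ^ (s + 1) := by rw [h1]
    _ ≤ _ := br hk Rᶜ s

end fin

theorem ncard_compl_eq {n k : ℕ} (hn : 3 ≤ n) {R : Set (Fin k → ZMod n)} (h : 2 * R.ncard = n ^ k) :
    R.ncard = Rᶜ.ncard := by
  have : NeZero n := ⟨by omega⟩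
  have h1 := Set.ncard_add_ncard_compl R
  rw [Nat.card_eq_fintype_card, Fintype.card_pi_const, ZMod.card] at h1
  omega

theorem region_outer {k t : ℕ} (hk : 1 ≤ k) (ht : 1 ≤ t) {p : ℝ × ℝ} (hp : p ∈ Region k t) :
    p.1 ^ t ≤ p.2 ∧ p.2 ^ t ≤ p.1 := by
  obtain ⟨n, R, -, hR, h1, h2⟩ := hp
  refine ⟨le_of_tendsto_of_tendsto' (h1.pow t) h2 fun j => ?_, le_of_tendsto_of_tendsto' (h2.pow t) h1 fun j => ?_⟩
  · have : NeZero (n j) := ⟨by have := (hR j).1; omega⟩
    exact outer hk (R j) (ncard_compl_eq (hR j).1 (hR j).2) ht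
  · have : NeZero (n j) := ⟨by have := (hR j).1; omega⟩
    have h3 := outer hk (R j)ᶜ (by rw [compl_compl]; exact (ncard_compl_eq (hR j).1 (hR j).2).symm) ht
    rwa [compl_compl] at h3

end

end Pool.Agent.H200.Torus
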