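import Mathlib
import Pool.Agent.H200.Torus2

set_option autoImplicit false
set_option linter.unusedSectionVars false

/-! Staying probabilities in two-coloured tori (MP_183c3b_co): gluing of periodic colourings. -/

namespace Pool.Agent.H200.Torus

open Finset Filter Topology

noncomputable section

section glue

variable {N m k : ℕ} [NeZero N] [NeZero m]

/-- reduction of the coordinates -/
def red (h : m ∣ N) (x : Fin k → ZMod N) : Fin k → ZMod m := fun i => ZMod.castHom h (ZMod m) (x i)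

theorem red_add (h : m ∣ N) (x : Fin k → ZMod N) (i : Fin k) :
    red h (x + Pi.single i 1) = red h x + Pi.single i 1 := by
  ext j
  unfold red
  by_cases hj : j = i
  · subst hj
    rw [Pi.add_apply, Pi.add_apply, Pi.single_eq_same, Pi.single_eq_same, map_add, map_one]
  · rw [Pi.add_apply, Pi.add_apply, Pi.single_eq_of_ne hj, Pi.single_eq_of_ne hj, add_zero, add_zero]

theorem red_sub (h : m ∣ N) (x : Fin k → ZMod N) (i : Fin k) :
    red h (x - Pi.single i 1) = red h x - Pi.single i 1 := by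
  ext j
  unfold red
  by_cases hj : j = i
  · subst hj
    rw [Pi.sub_apply, Pi.sub_apply, Pi.single_eq_same, Pi.single_eq_same, map_sub, map_one]
  · rw [Pi.sub_apply, Pi.sub_apply, Pi.single_eq_of_ne hj, Pi.single_eq_of_ne hj, sub_zero, sub_zero]

theorem val_nb (x : Fin (k + 1) → ZMod N) (i : Fin (k + 1)) (h1 : 1 ≤ (x 0).val) (h2 : (x 0).val + 1 < N) :
    (((x + Pi.single i 1 : Fin (k + 1) → ZMod N) 0).val ≤ (x 0).val + 1 ∧
      (x 0).val ≤ ((x + Pi.single i 1 : Fin (k + 1) → ZMod N) 0).val + 1) ∧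
    (((x - Pi.single i 1 : Fin (k + 1) → ZMod N) 0).val ≤ (x 0).val + 1 ∧
      (x 0).val ≤ ((x - Pi.single i 1 : Fin (k + 1) → ZMod N) 0).val + 1) := by
  by_cases hi : i = 0
  · subst hi
    have hv : (1 : ZMod N).val = 1 := ZMod.val_one'' (by omega)
    have e1 : ((x + Pi.single 0 1 : Fin (k + 1) → ZMod N) 0).val = (x 0).val + 1 := by
      rw [Pi.add_apply, Pi.single_eq_same, ZMod.val_add_of_lt (by rw [hv]; exact h2), hv]
    have e2 : ((x - Pi.single 0 1 : Fin (k + 1) → ZMod N) 0).val = (x 0).val - 1 := by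
      rw [Pi.sub_apply, Pi.single_eq_same, ZMod.val_sub (by rw [hv]; exact h1), hv]
    rw [e1, e2]
    omega
  · have e1 : (x + Pi.single i 1 : Fin (k + 1) → ZMod N) 0 = x 0 := by
      rw [Pi.add_apply, Pi.single_eq_of_ne (Ne.symm hi), add_zero]
    have e2 : (x - Pi.single i 1 : Fin (k + 1) → ZMod N) 0 = x 0 := by
      rw [Pi.sub_apply, Pi.single_eq_of_ne (Ne.symm hi), sub_zero]
    rw [e1, e2]
    omega

variable {m1 m2 : ℕ} [NeZero m1] [NeZero m2]

/-- a colouring which is periodic in each of two slabs -/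
def glue (h1 : m1 ∣ N) (h2 : m2 ∣ N) (W : ℕ) (S1 : Set (Fin (k + 1) → ZMod m1))
    (S2 : Set (Fin (k + 1) → ZMod m2)) : Set (Fin (k + 1) → ZMod N) :=
  {x | ((x 0).val < W → red h1 x ∈ S1) ∧ (¬ (x 0).val < W → red h2 x ∈ S2)}

theorem glue_compl (h1 : m1 ∣ N) (h2 : m2 ∣ N) (W : ℕ) (S1 : Set (Fin (k + 1) → ZMod m1))
    (S2 : Set (Fin (k + 1) → ZMod m2)) : (glue h1 h2 W S1 S2)ᶜ = glue h1 h2 W S1ᶜ S2ᶜ := by
  ext x
  unfold glue
  simp only [Set.mem_compl_iff, Set.mem_ofPred_eq]
  by_cases h : (x 0).val < W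
  · simp [h]
  · simp [h]

theorem mem_glue1 {h1 : m1 ∣ N} {h2 : m2 ∣ N} {W : ℕ} {S1 : Set (Fin (k + 1) → ZMod m1)}
    {S2 : Set (Fin (k + 1) → ZMod m2)} {x : Fin (k + 1) → ZMod N} (h : (x 0).val < W) :
    x ∈ glue h1 h2 W S1 S2 ↔ red h1 x ∈ S1 :=
  ⟨fun hx => hx.1 h, fun hx => ⟨fun _ => hx, fun h' => absurd h h'⟩⟩

theorem mem_glue2 {h1 : m1 ∣ N} {h2 : m2 ∣ N} {W : ℕ} {S1 : Set (Fin (k + 1) → ZMod m1)}
    {S2 : Set (Fin (k + 1) → ZMod m2)} {x : Fin (k + 1) → ZMod N} (h : ¬ (x 0).val < W) :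
    x ∈ glue h1 h2 W S1 S2 ↔ red h2 x ∈ S2 :=
  ⟨fun hx => hx.2 h, fun hx => ⟨fun h' => absurd h' h, fun _ => hx⟩⟩

theorem int1 (h1 : m1 ∣ N) (h2 : m2 ∣ N) {W : ℕ} (hW : W ≤ N) (S1 : Set (Fin (k + 1) → ZMod m1))
    (S2 : Set (Fin (k + 1) → ZMod m2)) (t : ℕ) : ∀ x : Fin (k + 1) → ZMod N, t ≤ (x 0).val → (x 0).val + t < W →
      stay (glue h1 h2 W S1 S2) t x = stay S1 t (red h1 x) := by
  classical
  induction t with
  | zero =>
    intro x _ hx
    have := mem_glue1 (h1 := h1) (h2 := h2) (S1 := S1) (S2 := S2) (x := x) (W := W) (by omega)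
    unfold stay
    simp only [this]
  | succ t ih =>
    intro x hx1 hx2
    have := mem_glue1 (h1 := h1) (h2 := h2) (S1 := S1) (S2 := S2) (x := x) (W := W) (by omega)
    rw [stay_succ, stay_succ]
    simp only [this]
    split_ifs
    · unfold P
      congr 1
      refine sum_congr rfl fun i _ => ?_
      obtain ⟨⟨a1, a2⟩, b1, b2⟩ := val_nb x i (by omega) (by omega)
      rw [ih _ (by omega) (by omega), ih _ (by omega) (by omega), red_add, red_sub]
    · rfl

theorem int2 (h1 : m1 ∣ N) (h2 : m2 ∣ N) {W : ℕ} (S1 : Set (Fin (k + 1) → ZMod m1))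
    (S2 : Set (Fin (k + 1) → ZMod m2)) (t : ℕ) : ∀ x : Fin (k + 1) → ZMod N, W + t ≤ (x 0).val → (x 0).val + t < N →
      stay (glue h1 h2 W S1 S2) t x = stay S2 t (red h2 x) := by
  classical
  induction t with
  | zero =>
    intro x hx _
    have := mem_glue2 (h1 := h1) (h2 := h2) (S1 := S1) (S2 := S2) (x := x) (W := W) (by omega)
    unfold stay
    simp only [this]
  | succ t ih =>
    intro x hx1 hx2
    have := mem_glue2 (h1 := h1) (h2 := h2) (S1 := S1) (S2 := S2) (x := x) (W := W) (by omega)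
    rw [stay_succ, stay_succ]
    simp only [this]
    split_ifs
    · unfold P
      congr 1
      refine sum_congr rfl fun i _ => ?_
      obtain ⟨⟨a1, a2⟩, b1, b2⟩ := val_nb x i (by omega) (by omega)
      rw [ih _ (by omega) (by omega), ih _ (by omega) (by omega), red_add, red_sub]
    · rfl

theorem card_coord (h : m ∣ N) {W : ℕ} (hW : m ∣ W) (hWN : W ≤ N) (z : ZMod m) :
    #{v : ZMod N | v.val < W ∧ ZMod.castHom h (ZMod m) v = z} = W / m := by
  have h1 : #{v : ZMod N | v.val < W ∧ ZMod.castHom h (ZMod m) v = z} =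
      #{j ∈ range W | j ≡ z.val [MOD m]} := by
    refine card_bij (fun v _ => v.val) ?_ ?_ ?_
    · intro v hv
      simp only [mem_filter, mem_univ, true_and] at hv
      simp only [mem_filter, mem_range]
      refine ⟨hv.1, ?_⟩
      rw [← ZMod.natCast_eq_natCast_iff, ZMod.natCast_zmod_val z, ← hv.2, ZMod.castHom_apply, ZMod.natCast_val]
    · intro v _ w _ hvw
      exact ZMod.val_injective N hvw
    · intro j hj
      simp only [mem_filter, mem_range] at hj
      have hjN : j < N := lt_of_lt_of_le hj.1 hWN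
      have hval : ((j : ℕ) : ZMod N).val = j := ZMod.val_natCast_of_lt hjN
      refine ⟨(j : ZMod N), ?_, hval⟩
      simp only [mem_filter, mem_univ, true_and]
      refine ⟨by rw [hval]; exact hj.1, ?_⟩
      rw [map_natCast, (ZMod.natCast_eq_natCast_iff _ _ _).2 hj.2, ZMod.natCast_zmod_val]
  rw [h1, ← Nat.count_eq_card_filter_range, Nat.count_modEq_card _ (Nat.pos_of_ne_zero (NeZero.ne m)),
    Nat.mod_eq_zero_of_dvd hW]
  simp

theorem sum_red (h : m ∣ N) {W : ℕ} (hW : m ∣ W) (hWN : W ≤ N) (f : (Fin (k + 1) → ZMod m) → ℝ) :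
    ∑ x : Fin (k + 1) → ZMod N, (if (x 0).val < W then f (red h x) else 0) =
      W * (N : ℝ) ^ k * ((∑ z, f z) / (m : ℝ) ^ (k + 1)) := by
  classical
  rw [← sum_filter, ← sum_fiberwise' _ (red h) f]
  have hcard : ∀ z : Fin (k + 1) → ZMod m,
      #{x ∈ ({x : Fin (k + 1) → ZMod N | (x 0).val < W} : Finset _) | red h x = z} = W / m * (N / m) ^ k := by
    intro z
    have e1 : ({x ∈ ({x : Fin (k + 1) → ZMod N | (x 0).val < W} : Finset _) | red h x = z} : Finset _) =
        Fintype.piFinset (fun i : Fin (k + 1) => ({v : ZMod N | v.val < (if i = 0 then W else N) ∧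
          ZMod.castHom h (ZMod m) v = z i} : Finset (ZMod N))) := by
      ext x
      simp only [mem_filter, mem_univ, true_and, Fintype.mem_piFinset]
      constructor
      · rintro ⟨hx, rfl⟩ i
        refine ⟨?_, rfl⟩
        split_ifs with hi
        · rw [hi]; exact hx
        · exact ZMod.val_lt _
      · intro hx
        refine ⟨?_, ?_⟩
        · have := (hx 0).1
          rwa [if_pos rfl] at this
        · ext i
          exact (hx i).2
    rw [e1, Fintype.card_piFinset, Fin.prod_univ_succ]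
    rw [if_pos rfl, card_coord h hW hWN]
    congr 1
    rw [prod_congr rfl (g := fun _ => N / m) fun i _ => by
      rw [if_neg (Fin.succ_ne_zero i)]
      exact card_coord h h le_rfl _]
    rw [prod_const, card_univ, Fintype.card_fin]
  have e2 : ∀ z ∈ (univ : Finset (Fin (k + 1) → ZMod m)),
      ∑ _i ∈ ({x : Fin (k + 1) → ZMod N | (x 0).val < W} : Finset _) with red h _i = z, f z =
        (W * (N : ℝ) ^ k / (m : ℝ) ^ (k + 1)) * f z := by
    intro z _
    rw [sum_const, hcard, nsmul_eq_mul]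
    push_cast [Nat.cast_div hW (Nat.cast_ne_zero.2 (NeZero.ne m)), Nat.cast_div h (Nat.cast_ne_zero.2 (NeZero.ne m))]
    rw [div_pow, pow_succ]
    field_simp
  rw [sum_congr rfl e2, ← mul_sum]
  ring

end glue

end

end Pool.Agent.H200.Torus
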