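import Mathlib
import Pool.Agent.H200.Torus3

set_option autoImplicit false
set_option linter.unusedSectionVars false

/-! Staying probabilities in two-coloured tori (MP_183c3b_co): sums over glued colourings. -/

namespace Pool.Agent.H200.Torus

open Finset Filter Topology

noncomputable section

/-- the mean of `stay` over the torus -/
def sig {n k : ℕ} (t : ℕ) (S : Set (Fin k → ZMod n)) : ℝ := (∑ᶠ x, stay S t x) / (n : ℝ) ^ k

theorem sig_eq {n k : ℕ} [NeZero n] (t : ℕ) (S : Set (Fin k → ZMod n)) :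
    sig t S = (∑ x, stay S t x) / (n : ℝ) ^ k := by
  unfold sig
  rw [finsum_eq_sum_of_fintype]

theorem sig_balanced {n k : ℕ} [NeZero n] {S : Set (Fin k → ZMod n)} (h : 2 * S.ncard = n ^ k) (t : ℕ) :
    prob t S = 2 * sig t S := by
  rw [prob_eq, sig_eq]
  have h1 : (2 : ℝ) * S.ncard = (n : ℝ) ^ k := by exact_mod_cast h
  have h2 : (0 : ℝ) < (n : ℝ) ^ k := by
    have : (0 : ℝ) < n := by exact_mod_cast Nat.pos_of_ne_zero (NeZero.ne n)
    positivity
  have h3 : (0 : ℝ) < S.ncard := by linarith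
  rw [← h1]
  field_simp

section glue

variable {N k m1 m2 : ℕ} [NeZero N] [NeZero m1] [NeZero m2]

theorem card_first (T : Finset (ZMod N)) : #{x : Fin (k + 1) → ZMod N | x 0 ∈ T} = #T * N ^ k := by
  have e1 : ({x : Fin (k + 1) → ZMod N | x 0 ∈ T} : Finset _) =
      Fintype.piFinset (fun i : Fin (k + 1) => if i = 0 then T else univ) := by
    ext x
    simp only [mem_filter, mem_univ, true_and, Fintype.mem_piFinset]
    constructor
    · intro hx i
      split_ifs with hi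
      · rw [hi]; exact hx
      · exact mem_univ _
    · intro hx
      have := hx 0
      rwa [if_pos rfl] at this
  rw [e1, Fintype.card_piFinset, Fin.prod_univ_succ, if_pos rfl]
  congr 1
  rw [prod_congr rfl (g := fun _ => N) fun i _ => by rw [if_neg (Fin.succ_ne_zero i), card_univ, ZMod.card]]
  rw [prod_const, card_univ, Fintype.card_fin]

theorem card_bad (W t : ℕ) :
    #{v : ZMod N | v.val < t ∨ (W ≤ v.val + t ∧ v.val < W + t) ∨ N ≤ v.val + t} ≤ 4 * t := by
  classical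
  have h1 : #{v : ZMod N | v.val < t ∨ (W ≤ v.val + t ∧ v.val < W + t) ∨ N ≤ v.val + t} ≤
      #(range t ∪ (Ico (W - t) (W + t) ∪ Ico (N - t) N)) := by
    refine card_le_card_of_injOn (fun v => v.val) ?_ (fun v _ w _ h => ZMod.val_injective N h)
    intro v hv
    have h2 := (mem_filter.1 hv).2
    have h3 := ZMod.val_lt v
    simp only [coe_union, Set.mem_union, mem_coe, mem_range, mem_Ico]
    omega
  refine h1.trans ((card_union_le _ _).trans ?_)
  have h2 := card_union_le (Ico (W - t) (W + t)) (Ico (N - t) N)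
  rw [Nat.card_Ico, Nat.card_Ico] at h2
  rw [card_range]
  omega

theorem glue_sum (h1 : m1 ∣ N) (h2 : m2 ∣ N) {W : ℕ} (hW1 : m1 ∣ W) (hW2 : m2 ∣ W) (hWN : W ≤ N)
    (S1 : Set (Fin (k + 1) → ZMod m1)) (S2 : Set (Fin (k + 1) → ZMod m2)) (t : ℕ) :
    |∑ x, stay (glue h1 h2 W S1 S2) t x -
      (W * (N : ℝ) ^ k * sig t S1 + ((N : ℝ) - W) * (N : ℝ) ^ k * sig t S2)| ≤ 4 * t * (N : ℝ) ^ k := by
  classical
  set g : (Fin (k + 1) → ZMod N) → ℝ := fun x =>
    (if (x 0).val < W then stay S1 t (red h1 x) else 0) +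
    ((if (x 0).val < N then stay S2 t (red h2 x) else 0) - (if (x 0).val < W then stay S2 t (red h2 x) else 0)) with hg
  have hgs : ∑ x, g x = W * (N : ℝ) ^ k * sig t S1 + ((N : ℝ) - W) * (N : ℝ) ^ k * sig t S2 := by
    rw [hg]
    simp only [sum_add_distrib, sum_sub_distrib]
    rw [sum_red h1 hW1 hWN, sum_red h2 h2 le_rfl, sum_red h2 hW2 hWN, sig_eq, sig_eq]
    ring
  rw [← hgs, ← sum_sub_distrib]
  refine (abs_sum_le_sum_abs _ _).trans ?_
  set T : Finset (ZMod N) := {v : ZMod N | v.val < t ∨ (W ≤ v.val + t ∧ v.val < W + t) ∨ N ≤ v.val + t} with hT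
  have hpt : ∀ x ∈ (univ : Finset (Fin (k + 1) → ZMod N)),
      |stay (glue h1 h2 W S1 S2) t x - g x| ≤ if x 0 ∈ T then 1 else 0 := by
    intro x _
    have hv := ZMod.val_lt (x 0)
    split_ifs with hx
    · have a1 := stay_nonneg (glue h1 h2 W S1 S2) t x
      have a2 := stay_le_one (by omega) (glue h1 h2 W S1 S2) t x
      have a3 : 0 ≤ g x ∧ g x ≤ 1 := by
        simp only [hg]
        rw [if_pos hv]
        by_cases hw : (x 0).val < W
        · rw [if_pos hw, if_pos hw, sub_self, add_zero]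
          exact ⟨stay_nonneg _ _ _, stay_le_one (by omega) _ _ _⟩
        · rw [if_neg hw, if_neg hw, sub_zero, zero_add]
          exact ⟨stay_nonneg _ _ _, stay_le_one (by omega) _ _ _⟩
      rw [abs_le]
      exact ⟨by linarith, by linarith⟩
    · simp only [hT, mem_filter, mem_univ, true_and] at hx
      have hx' : ((x 0).val + t < W ∧ t ≤ (x 0).val) ∨ (W + t ≤ (x 0).val ∧ (x 0).val + t < N) := by omega
      simp only [hg]
      rw [if_pos hv]
      rcases hx' with ⟨b1, b2⟩ | ⟨b1, b2⟩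
      · have hw : (x 0).val < W := by omega
        rw [int1 h1 h2 hWN S1 S2 t x b2 b1, if_pos hw, if_pos hw]
        simp
      · have hw : ¬ (x 0).val < W := by omega
        rw [int2 h1 h2 S1 S2 t x b1 b2, if_neg hw, if_neg hw]
        simp
  refine (sum_le_sum hpt).trans ?_
  rw [sum_boole, card_first]
  have h3 := card_bad (N := N) W t
  rw [← hT] at h3
  have h4 : ((#T : ℕ) : ℝ) ≤ 4 * t := by exact_mod_cast h3
  push_cast
  exact mul_le_mul_of_nonneg_right h4 (by positivity)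

theorem glue_ncard (h1 : m1 ∣ N) (h2 : m2 ∣ N) {W : ℕ} (hW1 : m1 ∣ W) (hW2 : m2 ∣ W) (hWN : W ≤ N)
    (S1 : Set (Fin (k + 1) → ZMod m1)) (S2 : Set (Fin (k + 1) → ZMod m2)) :
    ((glue h1 h2 W S1 S2).ncard : ℝ) =
      W * (N : ℝ) ^ k * sig 0 S1 + ((N : ℝ) - W) * (N : ℝ) ^ k * sig 0 S2 := by
  have h := glue_sum h1 h2 hW1 hW2 hWN S1 S2 0
  rw [sum_zero_ncard] at h
  simp only [Nat.cast_zero, mul_zero, zero_mul] at h
  have := abs_nonpos_iff.1 h
  linarith

theorem glue_prob (h1 : m1 ∣ N) (h2 : m2 ∣ N) {W : ℕ} (hW1 : m1 ∣ W) (hW2 : m2 ∣ W) (hWN : W ≤ N)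
    (S1 : Set (Fin (k + 1) → ZMod m1)) (S2 : Set (Fin (k + 1) → ZMod m2))
    (hb : 2 * (glue h1 h2 W S1 S2).ncard = N ^ (k + 1)) (t : ℕ) :
    |prob t (glue h1 h2 W S1 S2) - (2 * (W / N) * sig t S1 + 2 * (1 - W / N) * sig t S2)| ≤ 8 * t / N := by
  have hN : (0 : ℝ) < N := by exact_mod_cast Nat.pos_of_ne_zero (NeZero.ne N)
  have hNk : (0 : ℝ) < (N : ℝ) ^ k := by positivity
  rw [sig_balanced hb, sig_eq]
  have h := glue_sum h1 h2 hW1 hW2 hWN S1 S2 t
  set A := ∑ x, stay (glue h1 h2 W S1 S2) t x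
  set B := W * (N : ℝ) ^ k * sig t S1 + ((N : ℝ) - W) * (N : ℝ) ^ k * sig t S2 with hB
  have e1 : 2 * (A / (N : ℝ) ^ (k + 1)) - (2 * (W / N) * sig t S1 + 2 * (1 - W / N) * sig t S2) =
      2 / (N : ℝ) ^ (k + 1) * (A - B) := by
    rw [hB, pow_succ]
    field_simp
  rw [e1, abs_mul, abs_of_pos (by positivity)]
  calc 2 / (N : ℝ) ^ (k + 1) * |A - B| ≤ 2 / (N : ℝ) ^ (k + 1) * (4 * t * (N : ℝ) ^ k) :=
        mul_le_mul_of_nonneg_left h (by positivity)
    _ = 8 * t / N := by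
      rw [pow_succ]
      field_simp
      ring

end glue

end

end Pool.Agent.H200.Torus
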