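import Mathlib
import Pool.Agent.H200.Torus4

set_option autoImplicit false
set_option linter.unusedSectionVars false

/-! Staying probabilities in two-coloured tori (MP_183c3b_co): linear patterns. -/

namespace Pool.Agent.H200.Torus

open Finset Filter Topology

noncomputable section

/-- the coefficients of the linear pattern -/
def co (q : ℕ) (i : ℕ) : ZMod (q + 1) := ((i % q + 1 : ℕ) : ZMod (q + 1))

/-- the linear form of the pattern -/
def phi {k : ℕ} (q : ℕ) (z : Fin k → ZMod (q + 1)) : ZMod (q + 1) := ∑ i : Fin k, co q i * z i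

/-- the pattern -/
def pat (k q : ℕ) : Set (Fin k → ZMod (q + 1)) := {z | phi q z = 0}

theorem phi_add {k q : ℕ} (z : Fin k → ZMod (q + 1)) (i : Fin k) : phi q (z + Pi.single i 1) = phi q z + co q i := by
  unfold phi
  simp only [Pi.add_apply, mul_add, sum_add_distrib]
  congr 1
  rw [Finset.sum_eq_single i]
  · rw [Pi.single_eq_same, mul_one]
  · intro j _ hj
    rw [Pi.single_eq_of_ne hj, mul_zero]
  · intro h
    exact absurd (mem_univ i) h

theorem phi_sub {k q : ℕ} (z : Fin k → ZMod (q + 1)) (i : Fin k) : phi q (z - Pi.single i 1) = phi q z - co q i := by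
  have h := phi_add (z - Pi.single i 1) i
  rw [sub_add_cancel] at h
  rw [h, add_sub_cancel_right]

theorem co_val {q : ℕ} (hq : 1 ≤ q) (i : ℕ) : (co q i).val = i % q + 1 := by
  unfold co
  rw [ZMod.val_natCast_of_lt]
  have := Nat.mod_lt i hq
  omega

theorem co_ne {q : ℕ} (hq : 1 ≤ q) (i : ℕ) : co q i ≠ 0 := by
  intro h
  have := co_val hq i
  rw [h, ZMod.val_zero] at this
  omega

/-- the number of steps which lead to the colour class -/
theorem co_count {q K : ℕ} (hq : 1 ≤ q) (hqK : q ∣ 2 * K) {c : ZMod (q + 1)} (hc : c ≠ 0) :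
    #{i : Fin K | co q i = -c} + #{i : Fin K | co q i = c} = 2 * K / q := by
  have hcv : c.val < q + 1 := ZMod.val_lt c
  have hc0 : c.val ≠ 0 := by
    rwa [Ne, ZMod.val_eq_zero]
  set u : ℕ := c.val - 1 with hu
  have huq : u < q := by omega
  have e1 : ∀ i : ℕ, co q i = c ↔ i % q = u := by
    intro i
    rw [← (ZMod.val_injective (q + 1)).eq_iff, co_val hq]
    omega
  have e2 : ∀ i : ℕ, co q i = -c ↔ i % q = q - 1 - u := by
    intro i
    have : NeZero c := ⟨hc⟩
    rw [← (ZMod.val_injective (q + 1)).eq_iff, co_val hq, ZMod.val_neg_of_ne_zero]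
    have := Nat.mod_lt i hq
    omega
  have f0 : ∀ p : ℕ → Prop, [DecidablePred p] → #{i : Fin K | p i} = #{i ∈ range K | p i} := by
    intro p _
    refine card_bij (fun i _ => (i : ℕ)) ?_ ?_ ?_
    · intro i hi
      simp only [mem_filter, mem_univ, true_and] at hi
      exact mem_filter.2 ⟨mem_range.2 i.2, hi⟩
    · intro i _ j _ h
      exact Fin.ext h
    · intro j hj
      obtain ⟨h1, h2⟩ := mem_filter.1 hj
      exact ⟨⟨j, mem_range.1 h1⟩, mem_filter.2 ⟨mem_univ _, h2⟩, rfl⟩
  rw [f0 (fun i => co q i = -c), f0 (fun i => co q i = c)]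
  simp only [e1, e2]
  have f3 : #{i ∈ range K | i % q = q - 1 - u} = #{j ∈ Ico K (2 * K) | j % q = u} := by
    have key : ∀ i j : ℕ, i + j + 1 = 2 * K → i % q = q - 1 - u → j % q = u := by
      intro i j hij hi
      have h1 : (i % q + j % q + 1) % q = 0 := by
        have : (i + j + 1) % q = 0 := by
          rw [hij]
          exact Nat.mod_eq_zero_of_dvd hqK
        rw [← this]
        simp [Nat.add_mod]
      have h2 := Nat.mod_lt i hq
      have h3 := Nat.mod_lt j hq
      obtain ⟨r, hr⟩ := Nat.dvd_of_mod_eq_zero h1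
      have h4 : r = 1 := by
        have : r < 2 := by
          by_contra hc
          push Not at hc
          have : q * 2 ≤ q * r := Nat.mul_le_mul_left q hc
          omega
        have : r ≠ 0 := by
          rintro rfl
          omega
        omega
      rw [h4, mul_one] at hr
      omega
    have key' : ∀ i j : ℕ, i + j + 1 = 2 * K → i % q = u → j % q = q - 1 - u := by
      intro i j hij hi
      have h1 : (i % q + j % q + 1) % q = 0 := by
        have : (i + j + 1) % q = 0 := by
          rw [hij]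
          exact Nat.mod_eq_zero_of_dvd hqK
        rw [← this]
        simp [Nat.add_mod]
      have h2 := Nat.mod_lt i hq
      have h3 := Nat.mod_lt j hq
      obtain ⟨r, hr⟩ := Nat.dvd_of_mod_eq_zero h1
      have h4 : r = 1 := by
        have : r < 2 := by
          by_contra hc
          push Not at hc
          have : q * 2 ≤ q * r := Nat.mul_le_mul_left q hc
          omega
        have : r ≠ 0 := by
          rintro rfl
          omega
        omega
      rw [h4, mul_one] at hr
      omega
    refine card_bij (fun i _ => 2 * K - 1 - i) ?_ ?_ ?_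
    · intro i hi
      obtain ⟨h1, h2⟩ := mem_filter.1 hi
      rw [mem_range] at h1
      refine mem_filter.2 ⟨mem_Ico.2 ⟨by omega, by omega⟩, key i _ (by omega) h2⟩
    · intro i hi j hj h
      have h1 := mem_range.1 (mem_filter.1 hi).1
      have h2 := mem_range.1 (mem_filter.1 hj).1
      omega
    · intro j hj
      obtain ⟨h1, h2⟩ := mem_filter.1 hj
      rw [mem_Ico] at h1
      refine ⟨2 * K - 1 - j, mem_filter.2 ⟨mem_range.2 (by omega), key' j _ (by omega) h2⟩, by omega⟩
  rw [f3, add_comm]
  have f4 : #{i ∈ range K | i % q = u} + #{j ∈ Ico K (2 * K) | j % q = u} = #{j ∈ range (2 * K) | j % q = u} := by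
    rw [← card_union_of_disjoint]
    · rw [← filter_union]
      congr 2
      ext j
      simp only [mem_union, mem_range, mem_Ico]
      omega
    · refine disjoint_filter_filter ?_
      rw [disjoint_left]
      intro j h1 h2
      rw [mem_range] at h1
      rw [mem_Ico] at h2
      omega
  rw [f4]
  have f5 : #{j ∈ range (2 * K) | j % q = u} = #{j ∈ range (2 * K) | j ≡ u [MOD q]} := by
    congr 1
    ext j
    simp only [mem_filter, Nat.ModEq, Nat.mod_eq_of_lt huq]
  rw [f5, ← Nat.count_eq_card_filter_range, Nat.count_modEq_card _ hq, Nat.mod_eq_zero_of_dvd hqK]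
  simp

theorem pat_red {K q : ℕ} (hq : 1 ≤ q) (t : ℕ) (z : Fin K → ZMod (q + 1)) : stay (pat K q) (t + 1) z = 0 := by
  by_cases hz : z ∈ pat K q
  · rw [stay_mem_succ hz]
    have h0 : phi q z = 0 := hz
    have : P (stay (pat K q) t) z = P (fun _ => 0) z := P_congr' fun i => ⟨stay_off (fun h => by
        have h1 : phi q (z + Pi.single i 1) = 0 := h
        rw [phi_add, h0, zero_add] at h1
        exact co_ne hq i h1) t, stay_off (fun h => by
        have h1 : phi q (z - Pi.single i 1) = 0 := h
        rw [phi_sub, h0, zero_sub, neg_eq_zero] at h1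
        exact co_ne hq i h1) t⟩
    rw [this]
    unfold P
    simp
  · exact stay_off hz _

theorem pat_blue {K q : ℕ} (hK : 1 ≤ K) (hq : 1 ≤ q) (hqK : q ∣ 2 * K) (t : ℕ) :
    ∀ z : Fin K → ZMod (q + 1), z ∈ (pat K q)ᶜ → stay (pat K q)ᶜ t z = (1 - 1 / (q : ℝ)) ^ t := by
  classical
  induction t with
  | zero =>
    intro z hz
    rw [stay_zero_mem hz, pow_zero]
  | succ t ih =>
    intro z hz
    rw [stay_mem_succ hz]
    have hc : phi q z ≠ 0 := hz
    have hcount := co_count hq hqK hc
    have hst : ∀ y : Fin K → ZMod (q + 1), stay (pat K q)ᶜ t y =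
        (1 - 1 / (q : ℝ)) ^ t * (1 - if phi q y = 0 then 1 else 0) := by
      intro y
      by_cases hy : phi q y = 0
      · rw [if_pos hy, sub_self, mul_zero]
        exact stay_off (fun h : y ∈ (pat K q)ᶜ => h hy) t
      · rw [if_neg hy, sub_zero, mul_one]
        exact ih y hy
    unfold P
    have h1 : ∀ i ∈ (univ : Finset (Fin K)), stay (pat K q)ᶜ t (z + Pi.single i 1) + stay (pat K q)ᶜ t (z - Pi.single i 1) =
        (1 - 1 / (q : ℝ)) ^ t * (2 - ((if co q i = - phi q z then 1 else 0) + (if co q i = phi q z then 1 else 0))) := by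
      intro i _
      rw [hst, hst, phi_add, phi_sub]
      have e1 : phi q z + co q i = 0 ↔ co q i = - phi q z :=
        ⟨fun h => eq_neg_of_add_eq_zero_right h, fun h => by rw [h, add_neg_cancel]⟩
      have e2 : phi q z - co q i = 0 ↔ co q i = phi q z :=
        ⟨fun h => (sub_eq_zero.1 h).symm, fun h => by rw [h, sub_self]⟩
      simp only [e1, e2]
      ring
    rw [sum_congr rfl h1, ← mul_sum, sum_sub_distrib, sum_add_distrib, sum_boole, sum_boole, sum_const, card_univ,
      Fintype.card_fin, nsmul_eq_mul]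
    have h2 : ((#{i : Fin K | co q i = -phi q z} : ℕ) : ℝ) + (#{i : Fin K | co q i = phi q z} : ℕ) = 2 * K / q := by
      rw [← Nat.cast_add, hcount, Nat.cast_div hqK (by positivity)]
      push_cast
      rfl
    rw [h2, pow_succ]
    have hq0 : (q : ℝ) ≠ 0 := by positivity
    have hK0 : (K : ℝ) ≠ 0 := by positivity
    field_simp

theorem pat_card {K q : ℕ} (hK : 1 ≤ K) (hq : 1 ≤ q) : (q + 1) * (pat K q).ncard = (q + 1) ^ K := by
  classical
  have hco : co q 0 = 1 := by
    unfold co
    simp
  set i0 : Fin K := ⟨0, hK⟩ with hi0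
  have hshift : ∀ (z : Fin K → ZMod (q + 1)) (c : ZMod (q + 1)), phi q (z + Pi.single i0 c) = phi q z + c := by
    intro z c
    unfold phi
    simp only [Pi.add_apply, mul_add, sum_add_distrib]
    congr 1
    rw [Finset.sum_eq_single i0]
    · rw [Pi.single_eq_same, hi0]
      change co q 0 * c = c
      rw [hco, one_mul]
    · intro j _ hj
      rw [Pi.single_eq_of_ne hj, mul_zero]
    · intro h
      exact absurd (mem_univ i0) h
  have h1 : (pat K q).ncard = #{z : Fin K → ZMod (q + 1) | phi q z = 0} := by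
    rw [Set.ncard_eq_toFinset_card']
    congr 1
    ext z
    simp only [Set.mem_toFinset, mem_filter, mem_univ, true_and]
    exact Iff.rfl
  have h2 : ∀ c : ZMod (q + 1), #{z : Fin K → ZMod (q + 1) | phi q z = c} = #{z : Fin K → ZMod (q + 1) | phi q z = 0} := by
    intro c
    refine card_bij (fun z _ => z + Pi.single i0 (-c)) ?_ ?_ ?_
    · intro z hz
      simp only [mem_filter, mem_univ, true_and] at hz ⊢
      rw [hshift, hz, add_neg_cancel]
    · intro z _ w _ h
      exact add_right_cancel h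
    · intro z hz
      simp only [mem_filter, mem_univ, true_and] at hz
      refine ⟨z + Pi.single i0 c, ?_, ?_⟩
      · simp only [mem_filter, mem_univ, true_and]
        rw [hshift, hz, zero_add]
      · rw [add_assoc, ← Pi.single_add, add_neg_cancel, Pi.single_zero, add_zero]
  have h3 : #(univ : Finset (Fin K → ZMod (q + 1))) = ∑ c : ZMod (q + 1), #{z : Fin K → ZMod (q + 1) | phi q z = c} :=
    card_eq_sum_card_fiberwise (fun z _ => mem_univ (phi q z))
  rw [sum_congr rfl fun c _ => h2 c, sum_const, card_univ, card_univ, ZMod.card, Fintype.card_pi_const, ZMod.card,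
    smul_eq_mul] at h3
  rw [h1, ← h3]

theorem sig_pat_zero {K q : ℕ} (hK : 1 ≤ K) (hq : 1 ≤ q) : sig 0 (pat K q) = 1 / ((q : ℝ) + 1) := by
  rw [sig_eq, sum_zero_ncard]
  have h := pat_card hK hq
  have h1 : ((q : ℝ) + 1) * (pat K q).ncard = ((q : ℝ) + 1) ^ K := by exact_mod_cast h
  push_cast
  rw [← h1]
  have h2 : (0 : ℝ) < ((q : ℝ) + 1) ^ K := by positivity
  have h3 : (0 : ℝ) < (pat K q).ncard := by
    by_contra hc
    push Not at hc
    have : ((q : ℝ) + 1) * (pat K q).ncard ≤ 0 := mul_nonpos_of_nonneg_of_nonpos (by positivity) hc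
    linarith
  field_simp

theorem sig_pat {K q : ℕ} (hq : 1 ≤ q) (t : ℕ) : sig (t + 1) (pat K q) = 0 := by
  rw [sig_eq, sum_eq_zero fun z _ => pat_red hq t z, zero_div]

theorem sig_pat_compl {K q : ℕ} (hK : 1 ≤ K) (hq : 1 ≤ q) (hqK : q ∣ 2 * K) (t : ℕ) :
    sig t (pat K q)ᶜ = (1 - 1 / (q : ℝ)) ^ t * (q / ((q : ℝ) + 1)) := by
  classical
  rw [sig_eq]
  have h1 : ∑ z, stay (pat K q)ᶜ t z = (1 - 1 / (q : ℝ)) ^ t * ∑ z, stay (pat K q)ᶜ 0 z := by
    rw [mul_sum]
    refine sum_congr rfl fun z _ => ?_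
    by_cases hz : z ∈ (pat K q)ᶜ
    · rw [pat_blue hK hq hqK t z hz, stay_zero_mem hz, mul_one]
    · rw [stay_off hz, stay_off hz, mul_zero]
  rw [h1, sum_zero_ncard]
  have h := pat_card hK hq
  have h2 := Set.ncard_add_ncard_compl (pat K q)
  rw [Nat.card_eq_fintype_card, Fintype.card_pi_const, ZMod.card] at h2
  have h3 : ((q : ℝ) + 1) * (pat K q).ncard = ((q : ℝ) + 1) ^ K := by exact_mod_cast h
  have h4 : ((pat K q).ncard : ℝ) + (pat K q)ᶜ.ncard = ((q : ℝ) + 1) ^ K := by exact_mod_cast h2
  have h5 : (0 : ℝ) < ((q : ℝ) + 1) ^ K := by positivity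
  have h6 : ((pat K q)ᶜ.ncard : ℝ) = q / ((q : ℝ) + 1) * ((q : ℝ) + 1) ^ K := by
    have h7 : ((pat K q).ncard : ℝ) = ((q : ℝ) + 1) ^ K / ((q : ℝ) + 1) := by
      rw [← h3]
      field_simp
    have h8 : ((pat K q)ᶜ.ncard : ℝ) = ((q : ℝ) + 1) ^ K - (pat K q).ncard := by linarith
    rw [h8, h7]
    field_simp
    ring
  push_cast
  rw [h6]
  field_simp

end

end Pool.Agent.H200.Torus
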