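import Mathlib
import Pool.Agent.H200.Torus5

set_option autoImplicit false
set_option linter.unusedSectionVars false
set_option linter.unusedVariables false

/-! Staying probabilities in two-coloured tori (MP_183c3b_co): inner bound of the region. -/

namespace Pool.Agent.H200.Torus

open Finset Filter Topology

noncomputable section

theorem balanced_compl {n k : ℕ} (hn : 3 ≤ n) {R : Set (Fin k → ZMod n)} (h : 2 * R.ncard = n ^ k) :
    2 * Rᶜ.ncard = n ^ k := by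
  rw [← ncard_compl_eq hn h, h]

theorem region_swap {k t : ℕ} {x y : ℝ} (h : (x, y) ∈ Region k t) : (y, x) ∈ Region k t := by
  obtain ⟨n, R, hn, hR, h1, h2⟩ := h
  refine ⟨n, fun j => (R j)ᶜ, hn, fun j => ⟨(hR j).1, balanced_compl (hR j).1 (hR j).2⟩, h2, ?_⟩
  simpa only [compl_compl] using h1

theorem lim_aux {p s1 s2 r : ℕ → ℝ} {N : ℕ → ℕ} {w a1 a2 c : ℝ} (hN : Tendsto N atTop atTop)
    (hp : ∀ j, |p j - (2 * r j * s1 j + 2 * (1 - r j) * s2 j)| ≤ c / N j)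
    (hr : Tendsto r atTop (𝓝 w)) (h1 : Tendsto s1 atTop (𝓝 a1)) (h2 : Tendsto s2 atTop (𝓝 a2)) :
    Tendsto p atTop (𝓝 (2 * w * a1 + 2 * (1 - w) * a2)) := by
  have h3 : Tendsto (fun j => 2 * r j * s1 j + 2 * (1 - r j) * s2 j) atTop (𝓝 (2 * w * a1 + 2 * (1 - w) * a2)) :=
    ((hr.const_mul 2).mul h1).add (((hr.const_sub 1).const_mul 2).mul h2)
  have h4 : Tendsto (fun j => c / (N j : ℝ)) atTop (𝓝 0) :=
    Tendsto.div_atTop tendsto_const_nhds (tendsto_natCast_atTop_atTop.comp hN)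
  have h5 : Tendsto (fun j => p j - (2 * r j * s1 j + 2 * (1 - r j) * s2 j)) atTop (𝓝 0) :=
    squeeze_zero_norm (fun j => by rw [Real.norm_eq_abs]; exact hp j) h4
  have h6 := h5.add h3
  rw [zero_add] at h6
  refine h6.congr fun j => ?_
  ring

theorem glue_region {k t : ℕ} {N m1 m2 W : ℕ → ℕ} [∀ j, NeZero (N j)] [∀ j, NeZero (m1 j)] [∀ j, NeZero (m2 j)]
    (h1 : ∀ j, m1 j ∣ N j) (h2 : ∀ j, m2 j ∣ N j) (hW1 : ∀ j, m1 j ∣ W j) (hW2 : ∀ j, m2 j ∣ W j)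
    (hWN : ∀ j, W j ≤ N j) (S1 : ∀ j, Set (Fin (k + 1) → ZMod (m1 j))) (S2 : ∀ j, Set (Fin (k + 1) → ZMod (m2 j)))
    (hN : Tendsto N atTop atTop) (hN3 : ∀ j, 3 ≤ N j)
    (hb : ∀ j, 2 * (glue (h1 j) (h2 j) (W j) (S1 j) (S2 j)).ncard = N j ^ (k + 1))
    {w a1 a2 b1 b2 : ℝ} (hw : Tendsto (fun j => (W j : ℝ) / N j) atTop (𝓝 w))
    (ha1 : Tendsto (fun j => sig t (S1 j)) atTop (𝓝 a1)) (ha2 : Tendsto (fun j => sig t (S2 j)) atTop (𝓝 a2))
    (hb1 : Tendsto (fun j => sig t (S1 j)ᶜ) atTop (𝓝 b1)) (hb2 : Tendsto (fun j => sig t (S2 j)ᶜ) atTop (𝓝 b2)) :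
    (2 * w * a1 + 2 * (1 - w) * a2, 2 * w * b1 + 2 * (1 - w) * b2) ∈ Region (k + 1) t := by
  refine ⟨N, fun j => glue (h1 j) (h2 j) (W j) (S1 j) (S2 j), hN, fun j => ⟨hN3 j, hb j⟩, ?_, ?_⟩
  · exact lim_aux hN (fun j => glue_prob (h1 j) (h2 j) (hW1 j) (hW2 j) (hWN j) (S1 j) (S2 j) (hb j) t) hw ha1 ha2
  · refine lim_aux (c := 8 * t) hN (fun j => ?_) hw hb1 hb2
    have h3 := balanced_compl (hN3 j) (hb j)
    rw [glue_compl] at h3 ⊢
    exact glue_prob (h1 j) (h2 j) (hW1 j) (hW2 j) (hWN j) (S1 j)ᶜ (S2 j)ᶜ h3 t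

theorem stay_univ {n k : ℕ} [NeZero n] (hk : 1 ≤ k) (t : ℕ) : ∀ x : Fin k → ZMod n, stay Set.univ t x = 1 := by
  induction t with
  | zero => exact fun x => stay_zero_mem (Set.mem_univ x)
  | succ t ih =>
    intro x
    rw [stay_mem_succ (Set.mem_univ x)]
    have : stay (Set.univ : Set (Fin k → ZMod n)) t = fun _ => 1 := funext ih
    rw [this, P_const hk]

theorem sig_univ {n k : ℕ} [NeZero n] (hk : 1 ≤ k) (t : ℕ) : sig t (Set.univ : Set (Fin k → ZMod n)) = 1 := by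
  rw [sig_eq, sum_congr rfl fun x _ => stay_univ hk t x, sum_const, card_univ, Fintype.card_pi_const, ZMod.card,
    nsmul_eq_mul, mul_one]
  push_cast
  have : (0 : ℝ) < n := by exact_mod_cast Nat.pos_of_ne_zero (NeZero.ne n)
  exact div_self (by positivity)

theorem sig_empty {n k : ℕ} [NeZero n] (t : ℕ) : sig t (∅ : Set (Fin k → ZMod n)) = 0 := by
  rw [sig_eq, sum_eq_zero fun x _ => stay_off (Set.notMem_empty x) t, zero_div]

/-- the points on the curve -/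
theorem point_mem {K t q : ℕ} (hK : 1 ≤ K) (ht : 1 ≤ t) (hq : 1 ≤ q) (hqK : q ∣ 2 * K) :
    (1 - 1 / (q : ℝ), (1 - 1 / (q : ℝ)) ^ t) ∈ Region K t := by
  obtain ⟨k, rfl⟩ : ∃ k, K = k + 1 := ⟨K - 1, by omega⟩
  obtain ⟨s, rfl⟩ : ∃ s, t = s + 1 := ⟨t - 1, by omega⟩
  obtain ⟨r, rfl⟩ : ∃ r, q = r + 1 := ⟨q - 1, by omega⟩
  have hr0 : (0 : ℝ) ≤ r := Nat.cast_nonneg r
  let N : ℕ → ℕ := fun j => 2 * (r + 1) * (r + 1 + 1) * (j + 1)
  let W : ℕ → ℕ := fun j => r * (r + 1 + 1) * (j + 1)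
  have : ∀ j, NeZero (N j) := fun j => ⟨by positivity⟩
  have : ∀ j : ℕ, NeZero ((fun _ : ℕ => 1) j) := fun j => ⟨one_ne_zero⟩
  have : ∀ j : ℕ, NeZero ((fun _ : ℕ => r + 1 + 1) j) := fun j => ⟨Nat.succ_ne_zero _⟩
  have h1 : ∀ j, (fun _ : ℕ => 1) j ∣ N j := fun j => one_dvd _
  have h2 : ∀ j, (fun _ : ℕ => r + 1 + 1) j ∣ N j := fun j => ⟨2 * (r + 1) * (j + 1), by simp only [N]; ring⟩
  have hW1 : ∀ j, (fun _ : ℕ => 1) j ∣ W j := fun j => one_dvd _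
  have hW2 : ∀ j, (fun _ : ℕ => r + 1 + 1) j ∣ W j := fun j => ⟨r * (j + 1), by simp only [W]; ring⟩
  have hWN : ∀ j, W j ≤ N j := fun j => by
    simp only [W, N]
    exact Nat.mul_le_mul_right _ (Nat.mul_le_mul_right _ (by omega))
  have hNt : Tendsto N atTop atTop := by
    refine tendsto_atTop_mono (fun j => ?_) (tendsto_add_atTop_nat 1)
    have : 1 ≤ 2 * (r + 1) * (r + 1 + 1) := Nat.succ_le_of_lt (by positivity)
    calc j + 1 = 1 * (j + 1) := (one_mul _).symm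
      _ ≤ N j := Nat.mul_le_mul_right _ this
  have hN3 : ∀ j, 3 ≤ N j := fun j => by
    have h3 : 1 * (1 + 1) * 1 ≤ (r + 1) * (r + 1 + 1) * (j + 1) :=
      Nat.mul_le_mul (Nat.mul_le_mul (by omega) (by omega)) (by omega)
    have h4 : N j = 2 * ((r + 1) * (r + 1 + 1) * (j + 1)) := by simp only [N]; ring
    omega
  have hb : ∀ j, 2 * (glue (h1 j) (h2 j) (W j) Set.univ (pat (k + 1) (r + 1))).ncard = N j ^ (k + 1) := by
    intro j
    have h3 := glue_ncard (h1 j) (h2 j) (hW1 j) (hW2 j) (hWN j) Set.univ (pat (k + 1) (r + 1))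
    rw [sig_univ (by omega), sig_pat_zero (by omega) hq] at h3
    have h4 : (2 : ℝ) * (glue (h1 j) (h2 j) (W j) Set.univ (pat (k + 1) (r + 1))).ncard = (N j : ℝ) ^ (k + 1) := by
      rw [h3, pow_succ]
      have e1 : (N j : ℝ) = 2 * (r + 1) * (r + 1 + 1) * (j + 1) := by simp only [N]; push_cast; ring
      have e2 : (W j : ℝ) = r * (r + 1 + 1) * (j + 1) := by simp only [W]; push_cast; ring
      have e3 : (2 : ℝ) * (W j * 1 + ((N j : ℝ) - W j) * (1 / (((r + 1 : ℕ) : ℝ) + 1))) = N j := by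
        rw [e1, e2]
        push_cast
        field_simp
        ring
      calc (2 : ℝ) * (W j * (N j : ℝ) ^ k * 1 + ((N j : ℝ) - W j) * (N j : ℝ) ^ k * (1 / (((r + 1 : ℕ) : ℝ) + 1))) =
            (N j : ℝ) ^ k * (2 * (W j * 1 + ((N j : ℝ) - W j) * (1 / (((r + 1 : ℕ) : ℝ) + 1)))) := by ring
        _ = _ := by rw [e3]
    exact_mod_cast h4
  have hw : Tendsto (fun j => (W j : ℝ) / N j) atTop (𝓝 ((r : ℝ) / (2 * (r + 1)))) := by
    refine tendsto_const_nhds.congr fun j => ?_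
    have e1 : (N j : ℝ) = 2 * (r + 1) * (r + 1 + 1) * (j + 1) := by simp only [N]; push_cast; ring
    have e2 : (W j : ℝ) = r * (r + 1 + 1) * (j + 1) := by simp only [W]; push_cast; ring
    rw [e1, e2]
    field_simp
  have key := glue_region (t := s + 1) (m1 := fun _ => 1) (m2 := fun _ => r + 1 + 1) h1 h2 hW1 hW2 hWN
    (fun _ => Set.univ) (fun _ => pat (k + 1) (r + 1)) hNt hN3 hb hw (a1 := 1) (a2 := 0) (b1 := 0)
    (b2 := (1 - 1 / ((r + 1 : ℕ) : ℝ)) ^ (s + 1) * (((r + 1 : ℕ) : ℝ) / (((r + 1 : ℕ) : ℝ) + 1)))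
    (tendsto_const_nhds.congr fun j => (sig_univ (by omega) _).symm)
    (tendsto_const_nhds.congr fun j => (sig_pat hq s).symm)
    (tendsto_const_nhds.congr fun j => by rw [Set.compl_univ, sig_empty])
    (tendsto_const_nhds.congr fun j => (sig_pat_compl (by omega) hq hqK (s + 1)).symm)
  have e1 : 2 * ((r : ℝ) / (2 * (r + 1))) * 1 + 2 * (1 - (r : ℝ) / (2 * (r + 1))) * 0 = 1 - 1 / ((r + 1 : ℕ) : ℝ) := by
    push_cast
    field_simp
    ring
  have e2 : 2 * ((r : ℝ) / (2 * (r + 1))) * 0 + 2 * (1 - (r : ℝ) / (2 * (r + 1))) *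
      ((1 - 1 / ((r + 1 : ℕ) : ℝ)) ^ (s + 1) * (((r + 1 : ℕ) : ℝ) / (((r + 1 : ℕ) : ℝ) + 1))) =
      (1 - 1 / ((r + 1 : ℕ) : ℝ)) ^ (s + 1) := by
    set A := (1 - 1 / ((r + 1 : ℕ) : ℝ)) ^ (s + 1)
    push_cast
    field_simp
    ring
  rw [e1, e2] at key
  exact key

theorem one_one_mem {K t : ℕ} (hK : 1 ≤ K) : ((1 : ℝ), (1 : ℝ)) ∈ Region K t := by
  obtain ⟨k, rfl⟩ : ∃ k, K = k + 1 := ⟨K - 1, by omega⟩
  let N : ℕ → ℕ := fun j => 2 * (j + 2)
  let W : ℕ → ℕ := fun j => j + 2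
  have : ∀ j, NeZero (N j) := fun j => ⟨by positivity⟩
  have : ∀ j : ℕ, NeZero ((fun _ : ℕ => 1) j) := fun j => ⟨one_ne_zero⟩
  have h1 : ∀ j, (fun _ : ℕ => 1) j ∣ N j := fun j => one_dvd _
  have hW1 : ∀ j, (fun _ : ℕ => 1) j ∣ W j := fun j => one_dvd _
  have hWN : ∀ j, W j ≤ N j := fun j => by simp only [W, N]; omega
  have hNt : Tendsto N atTop atTop :=
    tendsto_atTop_mono (fun j => by change j ≤ 2 * (j + 2); omega) tendsto_id
  have hN3 : ∀ j, 3 ≤ N j := fun j => by simp only [N]; omega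
  have e1 : ∀ j, (N j : ℝ) = 2 * (j + 2) := fun j => by simp only [N]; push_cast; ring
  have e2 : ∀ j, (W j : ℝ) = j + 2 := fun j => by simp only [W]; push_cast; ring
  have hb : ∀ j, 2 * (glue (h1 j) (h1 j) (W j) (Set.univ : Set (Fin (k + 1) → ZMod 1)) (∅ : Set (Fin (k + 1) → ZMod 1))).ncard =
      N j ^ (k + 1) := by
    intro j
    have h3 := glue_ncard (h1 j) (h1 j) (hW1 j) (hW1 j) (hWN j) (Set.univ : Set (Fin (k + 1) → ZMod 1)) ∅
    rw [sig_univ (by omega), sig_empty] at h3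
    have h4 : (2 : ℝ) * (glue (h1 j) (h1 j) (W j) (Set.univ : Set (Fin (k + 1) → ZMod 1)) (∅ : Set (Fin (k + 1) → ZMod 1))).ncard =
        (N j : ℝ) ^ (k + 1) := by
      have e3 : (2 : ℝ) * W j = N j := by rw [e1, e2]
      rw [h3, pow_succ]
      calc (2 : ℝ) * (W j * (N j : ℝ) ^ k * 1 + ((N j : ℝ) - W j) * (N j : ℝ) ^ k * 0) = (N j : ℝ) ^ k * (2 * W j) := by ring
        _ = _ := by rw [e3]
    exact_mod_cast h4
  have hw : Tendsto (fun j => (W j : ℝ) / N j) atTop (𝓝 ((1 : ℝ) / 2)) := by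
    refine tendsto_const_nhds.congr fun j => ?_
    rw [e1, e2]
    have : ((j : ℝ) + 2) ≠ 0 := by positivity
    field_simp
  have key := glue_region (t := t) (m1 := fun _ => 1) (m2 := fun _ => 1) h1 h1 hW1 hW1 hWN
    (fun _ => Set.univ) (fun _ => ∅) hNt hN3 hb hw (a1 := 1) (a2 := 0) (b1 := 0) (b2 := 1)
    (tendsto_const_nhds.congr fun j => (sig_univ (by omega) _).symm)
    (tendsto_const_nhds.congr fun j => (sig_empty _).symm)
    (tendsto_const_nhds.congr fun j => by rw [Set.compl_univ, sig_empty])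
    (tendsto_const_nhds.congr fun j => by rw [Set.compl_empty, sig_univ (by omega)])
  norm_num at key
  exact key

theorem sig_zero_balanced {n k : ℕ} [NeZero n] {S : Set (Fin k → ZMod n)} (h : 2 * S.ncard = n ^ k) :
    sig 0 S = 1 / 2 := by
  rw [sig_eq, sum_zero_ncard]
  have h1 : (2 : ℝ) * S.ncard = (n : ℝ) ^ k := by exact_mod_cast h
  have h2 : (0 : ℝ) < (n : ℝ) ^ k := by
    have : (0 : ℝ) < n := by exact_mod_cast Nat.pos_of_ne_zero (NeZero.ne n)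
    positivity
  have h3 : (0 : ℝ) < S.ncard := by linarith
  rw [← h1]
  field_simp

theorem region_convex {K : ℕ} (hK : 1 ≤ K) (t : ℕ) : Convex ℝ (Region K t) := by
  obtain ⟨k, rfl⟩ : ∃ k, K = k + 1 := ⟨K - 1, by omega⟩
  rintro ⟨x, y⟩ ⟨n, R, hn, hR, hx, hy⟩ ⟨x', y'⟩ ⟨n', R', hn', hR', hx', hy'⟩ a b ha hb hab
  have i1 : ∀ j, NeZero (n j) := fun j => ⟨by have := (hR j).1; omega⟩
  have i2 : ∀ j, NeZero (n' j) := fun j => ⟨by have := (hR' j).1; omega⟩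
  let N : ℕ → ℕ := fun j => n j * n' j * (j + 1)
  let W : ℕ → ℕ := fun j => n j * n' j * ⌊a * ((j : ℝ) + 1)⌋₊
  have hnp : ∀ j, 0 < n j := fun j => Nat.pos_of_ne_zero (NeZero.ne _)
  have hnp' : ∀ j, 0 < n' j := fun j => Nat.pos_of_ne_zero (NeZero.ne _)
  have i3 : ∀ j, NeZero (N j) := fun j => ⟨(Nat.mul_pos (Nat.mul_pos (hnp j) (hnp' j)) (Nat.succ_pos j)).ne'⟩
  have h1 : ∀ j, n j ∣ N j := fun j => ⟨n' j * (j + 1), by simp only [N]; ring⟩
  have h2 : ∀ j, n' j ∣ N j := fun j => ⟨n j * (j + 1), by simp only [N]; ring⟩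
  have hW1 : ∀ j, n j ∣ W j := fun j => ⟨n' j * ⌊a * ((j : ℝ) + 1)⌋₊, by simp only [W]; ring⟩
  have hW2 : ∀ j, n' j ∣ W j := fun j => ⟨n j * ⌊a * ((j : ℝ) + 1)⌋₊, by simp only [W]; ring⟩
  have ha1 : a ≤ 1 := by linarith
  have hfl : ∀ j : ℕ, ⌊a * ((j : ℝ) + 1)⌋₊ ≤ j + 1 := by
    intro j
    have h3 : a * ((j : ℝ) + 1) ≤ ((j + 1 : ℕ) : ℝ) := by
      push_cast
      have : (0 : ℝ) ≤ (j : ℝ) + 1 := by positivity
      nlinarith
    exact Nat.floor_le_of_le h3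
  have hWN : ∀ j, W j ≤ N j := fun j => Nat.mul_le_mul_left _ (hfl j)
  have hNt : Tendsto N atTop atTop := by
    refine tendsto_atTop_mono (fun j => ?_) hn
    calc n j = n j * 1 * 1 := by ring
      _ ≤ N j := Nat.mul_le_mul (Nat.mul_le_mul le_rfl (hnp' j)) (by omega)
  have hN3 : ∀ j, 3 ≤ N j := fun j => by
    calc 3 ≤ n j := (hR j).1
      _ = n j * 1 * 1 := by ring
      _ ≤ N j := Nat.mul_le_mul (Nat.mul_le_mul le_rfl (hnp' j)) (by omega)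
  have hbal : ∀ j, 2 * (glue (h1 j) (h2 j) (W j) (R j) (R' j)).ncard = N j ^ (k + 1) := by
    intro j
    have h3 := glue_ncard (h1 j) (h2 j) (hW1 j) (hW2 j) (hWN j) (R j) (R' j)
    rw [sig_zero_balanced (hR j).2, sig_zero_balanced (hR' j).2] at h3
    have h4 : (2 : ℝ) * (glue (h1 j) (h2 j) (W j) (R j) (R' j)).ncard = (N j : ℝ) ^ (k + 1) := by
      rw [h3, pow_succ]
      ring
    exact_mod_cast h4
  have hw : Tendsto (fun j => (W j : ℝ) / N j) atTop (𝓝 a) := by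
    have h3 : Tendsto (fun z : ℝ => (⌊a * z⌋₊ : ℝ) / z) atTop (𝓝 a) := tendsto_nat_floor_mul_div_atTop ha
    have h4 : Tendsto (fun j : ℕ => (j : ℝ) + 1) atTop atTop :=
      tendsto_atTop_add_const_right _ _ tendsto_natCast_atTop_atTop
    refine (h3.comp h4).congr fun j => ?_
    have h5 : (n j : ℝ) ≠ 0 := Nat.cast_ne_zero.2 (hnp j).ne'
    have h6 : (n' j : ℝ) ≠ 0 := Nat.cast_ne_zero.2 (hnp' j).ne'
    have h7 : (j : ℝ) + 1 ≠ 0 := by positivity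
    simp only [Function.comp, N, W]
    push_cast
    field_simp
  have hs : ∀ {n : ℕ → ℕ} [∀ j, NeZero (n j)] {R : (j : ℕ) → Set (Fin (k + 1) → ZMod (n j))} {x : ℝ},
      (∀ j, 2 * (R j).ncard = n j ^ (k + 1)) → Tendsto (fun j => prob t (R j)) atTop (𝓝 x) →
      Tendsto (fun j => sig t (R j)) atTop (𝓝 (x / 2)) := by
    intro n _ R x hR hx
    refine (hx.div_const 2).congr fun j => ?_
    rw [sig_balanced (hR j)]
    ring
  have key := glue_region (t := t) h1 h2 hW1 hW2 hWN R R' hNt hN3 hbal hw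
    (hs (fun j => (hR j).2) hx) (hs (fun j => (hR' j).2) hx')
    (hs (R := fun j => (R j)ᶜ) (fun j => balanced_compl (hR j).1 (hR j).2) hy)
    (hs (R := fun j => (R' j)ᶜ) (fun j => balanced_compl (hR' j).1 (hR' j).2) hy')
  have e : a • (x, y) + b • (x', y') = (2 * a * (x / 2) + 2 * (1 - a) * (x' / 2), 2 * a * (y / 2) + 2 * (1 - a) * (y' / 2)) := by
    have hb' : b = 1 - a := by linarith
    rw [hb']
    simp only [Prod.smul_mk, smul_eq_mul, Prod.mk_add_mk, Prod.mk.injEq]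
    constructor <;> ring
  rw [e]
  exact key

end

end Pool.Agent.H200.Torus
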