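import Mathlib
import Pool.Agent.H200.Torus6

set_option autoImplicit false
set_option linter.unusedSectionVars false
set_option linter.unusedVariables false

/-! Staying probabilities in two-coloured tori (MP_183c3b_co): a pattern of period 7 in the plane. -/

namespace Pool.Agent.H200.Torus

open Finset Filter Topology

noncomputable section

/-- the linear form modulo 7 -/
def psi (z : Fin (1 + 1) → ZMod 7) : ZMod 7 := z 0 + 2 * z 1

/-- the pattern modulo 7 -/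
def pat7 : Set (Fin (1 + 1) → ZMod 7) := {z | psi z = 0 ∨ psi z = 3}

/-- numbers of walks in the complement -/
def gg : ℕ → ZMod 7 → ℕ
  | 0, c => if c = 0 ∨ c = 3 then 0 else 1
  | t + 1, c => if c = 0 ∨ c = 3 then 0 else (gg t (c + 1) + gg t (c - 1)) + (gg t (c + 2) + gg t (c - 2))

theorem psi_a0 (z : Fin (1 + 1) → ZMod 7) : psi (z + Pi.single 0 1) = psi z + 1 := by
  unfold psi
  rw [Pi.add_apply, Pi.add_apply, Pi.single_eq_same, Pi.single_eq_of_ne (by decide)]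
  ring

theorem psi_s0 (z : Fin (1 + 1) → ZMod 7) : psi (z - Pi.single 0 1) = psi z - 1 := by
  unfold psi
  rw [Pi.sub_apply, Pi.sub_apply, Pi.single_eq_same, Pi.single_eq_of_ne (by decide)]
  ring

theorem psi_a1 (z : Fin (1 + 1) → ZMod 7) : psi (z + Pi.single 1 1) = psi z + 2 := by
  unfold psi
  rw [Pi.add_apply, Pi.add_apply, Pi.single_eq_same, Pi.single_eq_of_ne (by decide)]
  ring

theorem psi_s1 (z : Fin (1 + 1) → ZMod 7) : psi (z - Pi.single 1 1) = psi z - 2 := by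
  unfold psi
  rw [Pi.sub_apply, Pi.sub_apply, Pi.single_eq_same, Pi.single_eq_of_ne (by decide)]
  ring

theorem P_two (f : (Fin (1 + 1) → ZMod 7) → ℝ) (z : Fin (1 + 1) → ZMod 7) :
    P f z = ((f (z + Pi.single 0 1) + f (z - Pi.single 0 1)) + (f (z + Pi.single 1 1) + f (z - Pi.single 1 1))) / 4 := by
  unfold P
  rw [Fin.sum_univ_two]
  norm_num

theorem stay_gg (t : ℕ) : ∀ z, stay pat7ᶜ t z = gg t (psi z) / 4 ^ t := by
  classical
  induction t with
  | zero =>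
    intro z
    by_cases hz : psi z = 0 ∨ psi z = 3
    · rw [stay_off (fun h : z ∈ pat7ᶜ => h hz)]
      unfold gg
      rw [if_pos hz]
      simp
    · rw [stay_zero_mem (show z ∈ pat7ᶜ from hz)]
      unfold gg
      rw [if_neg hz]
      simp
  | succ t ih =>
    intro z
    by_cases hz : psi z = 0 ∨ psi z = 3
    · rw [stay_off (fun h : z ∈ pat7ᶜ => h hz)]
      unfold gg
      rw [if_pos hz]
      simp
    · rw [stay_mem_succ (show z ∈ pat7ᶜ from hz), P_two, ih, ih, ih, ih, psi_a0, psi_s0, psi_a1, psi_s1]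
      rw [gg, if_neg hz]
      push_cast
      rw [pow_succ]
      field_simp

theorem stay_red7 (t : ℕ) (z : Fin (1 + 1) → ZMod 7) : stay pat7 (t + 1) z = 0 := by
  by_cases hz : z ∈ pat7
  · have key : ∀ c : ZMod 7, (c = 0 ∨ c = 3) → ¬ (c + 1 = 0 ∨ c + 1 = 3) ∧ ¬ (c - 1 = 0 ∨ c - 1 = 3) ∧
        ¬ (c + 2 = 0 ∨ c + 2 = 3) ∧ ¬ (c - 2 = 0 ∨ c - 2 = 3) := by decide
    obtain ⟨h1, h2, h3, h4⟩ := key (psi z) hz
    rw [stay_mem_succ hz, P_two, stay_off, stay_off, stay_off, stay_off]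
    · norm_num
    · intro h
      have h' : psi (z - Pi.single 1 1) = 0 ∨ psi (z - Pi.single 1 1) = 3 := h
      rw [psi_s1] at h'
      exact h4 h'
    · intro h
      have h' : psi (z + Pi.single 1 1) = 0 ∨ psi (z + Pi.single 1 1) = 3 := h
      rw [psi_a1] at h'
      exact h3 h'
    · intro h
      have h' : psi (z - Pi.single 0 1) = 0 ∨ psi (z - Pi.single 0 1) = 3 := h
      rw [psi_s0] at h'
      exact h2 h'
    · intro h
      have h' : psi (z + Pi.single 0 1) = 0 ∨ psi (z + Pi.single 0 1) = 3 := h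
      rw [psi_a0] at h'
      exact h1 h'
  · exact stay_off hz _

theorem sum_psi (F : ZMod 7 → ℝ) : ∑ z, F (psi z) = 7 * ∑ c, F c := by
  have h1 : ∑ z : Fin (1 + 1) → ZMod 7, F (psi z) = ∑ p : ZMod 7 × ZMod 7, F (p.1 + 2 * p.2) :=
    Fintype.sum_equiv (finTwoArrowEquiv (ZMod 7)) _ _ (fun z => rfl)
  rw [h1, Fintype.sum_prod_type_right]
  have h2 : ∀ b : ZMod 7, ∑ a : ZMod 7, F (a + 2 * b) = ∑ c, F c := fun b =>
    Fintype.sum_equiv (Equiv.addRight (2 * b)) _ _ (fun a => rfl)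
  rw [sum_congr rfl fun b _ => h2 b, sum_const, card_univ, ZMod.card]
  norm_num

/-- the number of walks -/
def GG (t : ℕ) : ℕ := gg t 1 + gg t 2 + gg t 4 + gg t 5 + gg t 6

theorem gg_red (t : ℕ) {c : ZMod 7} (h : c = 0 ∨ c = 3) : gg t c = 0 := by
  cases t with
  | zero => unfold gg; rw [if_pos h]
  | succ t => rw [gg, if_pos h]

theorem sum_gg (t : ℕ) : ∑ c : ZMod 7, (gg t c : ℝ) = GG t := by
  have h : ∑ c : ZMod 7, (gg t c : ℝ) = gg t 0 + gg t 1 + gg t 2 + gg t 3 + gg t 4 + gg t 5 + gg t 6 :=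
    Fin.sum_univ_seven (fun c : Fin 7 => (gg t (c : ZMod 7) : ℝ))
  rw [h, gg_red t (c := 0) (by decide), gg_red t (c := 3) (by decide)]
  unfold GG
  push_cast
  ring

theorem gg_1 (t : ℕ) : gg (t + 1) 1 = gg t 2 + gg t 6 := by
  rw [gg, if_neg (by decide), show (1 : ZMod 7) + 1 = 2 from by decide, show (1 : ZMod 7) - 1 = 0 from by decide,
    show (1 : ZMod 7) + 2 = 3 from by decide, show (1 : ZMod 7) - 2 = 6 from by decide, gg_red t (c := 0) (by decide),
    gg_red t (c := 3) (by decide)]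
  ring

theorem gg_2 (t : ℕ) : gg (t + 1) 2 = gg t 1 + gg t 4 := by
  rw [gg, if_neg (by decide), show (2 : ZMod 7) + 1 = 3 from by decide, show (2 : ZMod 7) - 1 = 1 from by decide,
    show (2 : ZMod 7) + 2 = 4 from by decide, show (2 : ZMod 7) - 2 = 0 from by decide, gg_red t (c := 0) (by decide),
    gg_red t (c := 3) (by decide)]
  ring

theorem gg_4 (t : ℕ) : gg (t + 1) 4 = gg t 5 + gg t 2 + gg t 6 := by
  rw [gg, if_neg (by decide), show (4 : ZMod 7) + 1 = 5 from by decide, show (4 : ZMod 7) - 1 = 3 from by decide,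
    show (4 : ZMod 7) + 2 = 6 from by decide, show (4 : ZMod 7) - 2 = 2 from by decide, gg_red t (c := 3) (by decide)]
  ring

theorem gg_5 (t : ℕ) : gg (t + 1) 5 = gg t 4 + gg t 6 := by
  rw [gg, if_neg (by decide), show (5 : ZMod 7) + 1 = 6 from by decide, show (5 : ZMod 7) - 1 = 4 from by decide,
    show (5 : ZMod 7) + 2 = 0 from by decide, show (5 : ZMod 7) - 2 = 3 from by decide, gg_red t (c := 0) (by decide),
    gg_red t (c := 3) (by decide)]
  ring

theorem gg_6 (t : ℕ) : gg (t + 1) 6 = gg t 5 + gg t 4 + gg t 1 := by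
  rw [gg, if_neg (by decide), show (6 : ZMod 7) + 1 = 0 from by decide, show (6 : ZMod 7) - 1 = 5 from by decide,
    show (6 : ZMod 7) + 2 = 1 from by decide, show (6 : ZMod 7) - 2 = 4 from by decide, gg_red t (c := 0) (by decide)]
  ring

theorem gg_zero : gg 0 1 = 1 ∧ gg 0 2 = 1 ∧ gg 0 4 = 1 ∧ gg 0 5 = 1 ∧ gg 0 6 = 1 := by
  refine ⟨?_, ?_, ?_, ?_, ?_⟩ <;> (rw [gg, if_neg (by decide)])

theorem gg_le (t : ℕ) : gg t 1 ≤ 3 ^ t ∧ gg t 2 ≤ 3 ^ t ∧ gg t 4 ≤ 3 ^ t ∧ gg t 5 ≤ 3 ^ t ∧ gg t 6 ≤ 3 ^ t := by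
  induction t with
  | zero =>
    obtain ⟨a, b, c, d, e⟩ := gg_zero
    rw [a, b, c, d, e]
    norm_num
  | succ t ih =>
    obtain ⟨a, b, c, d, e⟩ := ih
    rw [gg_1, gg_2, gg_4, gg_5, gg_6, pow_succ]
    omega

theorem GG_zero : GG 0 = 5 := by
  obtain ⟨a, b, c, d, e⟩ := gg_zero
  unfold GG
  omega

theorem GG_lt (t : ℕ) (ht : 3 ≤ t) : GG t < 2 * 3 ^ t + 3 * 2 ^ t := by
  induction t, ht using Nat.le_induction with
  | base =>
    obtain ⟨a, b, c, d, e⟩ := gg_zero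
    have a1 := gg_1 0
    have b1 := gg_2 0
    have c1 := gg_4 0
    have d1 := gg_5 0
    have e1 := gg_6 0
    have a2 := gg_1 1
    have b2 := gg_2 1
    have c2 := gg_4 1
    have d2 := gg_5 1
    have e2 := gg_6 1
    have a3 := gg_1 2
    have b3 := gg_2 2
    have c3 := gg_4 2
    have d3 := gg_5 2
    have e3 := gg_6 2
    norm_num at a1 b1 c1 d1 e1 a2 b2 c2 d2 e2 a3 b3 c3 d3 e3
    unfold GG
    norm_num
    omega
  | succ t ht ih =>
    obtain ⟨a, b, c, d, e⟩ := gg_le t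
    have h1 : GG (t + 1) = 2 * GG t + gg t 4 + gg t 6 := by
      unfold GG
      rw [gg_1, gg_2, gg_4, gg_5, gg_6]
      ring
    rw [h1, pow_succ, pow_succ]
    omega

theorem sig_c7 (t : ℕ) : sig t pat7ᶜ = GG t / (7 * 4 ^ t) := by
  rw [sig_eq, sum_congr rfl fun z _ => stay_gg t z, ← sum_div, sum_psi (fun c => (gg t c : ℝ)), sum_gg]
  push_cast
  field_simp

theorem sig_07 : sig 0 pat7 = 2 / 7 := by
  have h1 : sig 0 pat7 + sig 0 pat7ᶜ = 1 := by
    rw [sig_eq, sig_eq, ← add_div, sum_zero_ncard, sum_zero_ncard, ← Nat.cast_add, Set.ncard_add_ncard_compl,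
      Nat.card_eq_fintype_card, Fintype.card_pi_const, ZMod.card]
    norm_num
  rw [sig_c7, GG_zero] at h1
  norm_num at h1 ⊢
  linarith

theorem sig_r7 (t : ℕ) : sig (t + 1) pat7 = 0 := by
  rw [sig_eq, sum_eq_zero fun z _ => stay_red7 t z, zero_div]

theorem point7 {t : ℕ} (ht : 1 ≤ t) : ((3 : ℝ) / 5, (GG t : ℝ) / (5 * 4 ^ t)) ∈ Region 2 t := by
  obtain ⟨s, rfl⟩ : ∃ s, t = s + 1 := ⟨t - 1, by omega⟩
  let N : ℕ → ℕ := fun j => 70 * (j + 1)
  let W : ℕ → ℕ := fun j => 21 * (j + 1)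
  have i1 : ∀ j, NeZero (N j) := fun j => ⟨by positivity⟩
  have i2 : ∀ j : ℕ, NeZero ((fun _ : ℕ => 1) j) := fun j => ⟨one_ne_zero⟩
  have i3 : ∀ j : ℕ, NeZero ((fun _ : ℕ => 7) j) := fun j => ⟨by norm_num⟩
  have h1 : ∀ j, (fun _ : ℕ => 1) j ∣ N j := fun j => one_dvd _
  have h2 : ∀ j, (fun _ : ℕ => 7) j ∣ N j := fun j => ⟨10 * (j + 1), by simp only [N]; ring⟩
  have hW1 : ∀ j, (fun _ : ℕ => 1) j ∣ W j := fun j => one_dvd _
  have hW2 : ∀ j, (fun _ : ℕ => 7) j ∣ W j := fun j => ⟨3 * (j + 1), by simp only [W]; ring⟩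
  have hWN : ∀ j, W j ≤ N j := fun j => by simp only [W, N]; omega
  have hNt : Tendsto N atTop atTop :=
    tendsto_atTop_mono (fun j => by change j ≤ 70 * (j + 1); omega) tendsto_id
  have hN3 : ∀ j, 3 ≤ N j := fun j => by simp only [N]; omega
  have e1 : ∀ j, (N j : ℝ) = 70 * (j + 1) := fun j => by simp only [N]; push_cast; ring
  have e2 : ∀ j, (W j : ℝ) = 21 * (j + 1) := fun j => by simp only [W]; push_cast; ring
  have hb : ∀ j, 2 * (glue (h1 j) (h2 j) (W j) (Set.univ : Set (Fin (1 + 1) → ZMod 1)) pat7).ncard = N j ^ (1 + 1) := by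
    intro j
    have h3 := glue_ncard (h1 j) (h2 j) (hW1 j) (hW2 j) (hWN j) (Set.univ : Set (Fin (1 + 1) → ZMod 1)) pat7
    rw [sig_univ (by omega), sig_07] at h3
    have h4 : (2 : ℝ) * (glue (h1 j) (h2 j) (W j) (Set.univ : Set (Fin (1 + 1) → ZMod 1)) pat7).ncard =
        (N j : ℝ) ^ (1 + 1) := by
      rw [h3, e1, e2]
      ring
    exact_mod_cast h4
  have hw : Tendsto (fun j => (W j : ℝ) / N j) atTop (𝓝 ((3 : ℝ) / 10)) := by
    refine tendsto_const_nhds.congr fun j => ?_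
    rw [e1, e2]
    have : ((j : ℝ) + 1) ≠ 0 := by positivity
    field_simp
    norm_num
  have key := glue_region (t := s + 1) (m1 := fun _ => 1) (m2 := fun _ => 7) h1 h2 hW1 hW2 hWN
    (fun _ => Set.univ) (fun _ => pat7) hNt hN3 hb hw (a1 := 1) (a2 := 0) (b1 := 0) (b2 := GG (s + 1) / (7 * 4 ^ (s + 1)))
    (tendsto_const_nhds.congr fun j => (sig_univ (by omega) _).symm)
    (tendsto_const_nhds.congr fun j => (sig_r7 s).symm)
    (tendsto_const_nhds.congr fun j => by rw [Set.compl_univ, sig_empty])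
    (tendsto_const_nhds.congr fun j => (sig_c7 (s + 1)).symm)
  have e3 : 2 * ((3 : ℝ) / 10) * 1 + 2 * (1 - (3 : ℝ) / 10) * 0 = 3 / 5 := by norm_num
  have e4 : 2 * ((3 : ℝ) / 10) * 0 + 2 * (1 - (3 : ℝ) / 10) * (GG (s + 1) / (7 * 4 ^ (s + 1))) =
      (GG (s + 1) : ℝ) / (5 * 4 ^ (s + 1)) := by
    field_simp
    ring
  rw [e3, e4] at key
  exact key

end

end Pool.Agent.H200.Torus
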