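import Mathlib
import Pool.Agent.H252.UQ.Iface

set_option autoImplicit false

namespace Pool.Agent.H200.UQ

open Pool.Agent.H252.UQ

open scoped CStarAlgebra in
theorem ex_gen (B : Type) [CStarAlgebra B] (b : B) (hb : IsSelfAdjoint b) (G : C(ℝ, ℝ)) :
    ∃ c : B, ∀ (A : Type) [CStarAlgebra A] (φ : B →⋆ₐ[ℂ] A), φ c = cfc G (φ b) := by
  refine ⟨cfc G b, fun A _ φ => ?_⟩
  have hc : Continuous φ := map_continuous φ
  exact StarAlgHomClass.map_cfc φ G b G.continuous.continuousOn hc hb (hb.map φ)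

theorem scal (A : Type) [CStarAlgebra A] (r : ℝ) (G : C(ℝ, ℝ)) :
    cfc G (algebraMap ℂ A (r : ℂ)) = algebraMap ℂ A ((G r : ℝ) : ℂ) := by
  have h := cfc_algebraMap (A := A) r G
  rw [IsScalarTower.algebraMap_apply ℝ ℂ A, IsScalarTower.algebraMap_apply ℝ ℂ A] at h
  exact h

theorem s_CFX : S_CFX := by
  intro X _ _ A _ χ H G
  have hsa : IsSelfAdjoint (cr H) := by
    ext x
    simp
  obtain ⟨c, hc⟩ := ex_gen C(X, ℂ) (cr H) hsa G
  have h1 : c = cr (G.comp H) := by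
    ext x
    have h2 := hc ℂ (ContinuousMap.evalStarAlgHom ℂ ℂ x)
    have h3 : ContinuousMap.evalStarAlgHom ℂ ℂ x (cr H) = algebraMap ℂ ℂ ((H x : ℝ) : ℂ) := rfl
    rw [h3, scal ℂ (H x) G] at h2
    exact h2
  rw [← h1]
  exact (hc A χ).symm

end Pool.Agent.H200.UQ
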