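import Mathlib

/-! Convex hull tests versus weights. -/

set_option autoImplicit false

open MeasureTheory
open scoped ENNReal NNReal

namespace Pool.Agent.H200

/-- integral over one period -/
noncomputable def IP (f : ℝ → ℝ) : ℝ := ∫ θ in (0:ℝ)..2 * Real.pi, f θ

lemma IP_mono {f g : ℝ → ℝ} (hf : Continuous f) (hg : Continuous g) (h : ∀ x, f x ≤ g x) :
    IP f ≤ IP g := by
  unfold IP
  exact intervalIntegral.integral_mono Real.two_pi_pos.le (hf.intervalIntegrable _ _)
    (hg.intervalIntegrable _ _) h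

lemma IP_nonneg {f : ℝ → ℝ} (h : ∀ x, 0 ≤ f x) : 0 ≤ IP f :=
  intervalIntegral.integral_nonneg Real.two_pi_pos.le fun x _ => h x

lemma IP_add {f g : ℝ → ℝ} (hf : Continuous f) (hg : Continuous g) :
    IP (fun x => f x + g x) = IP f + IP g := by
  unfold IP
  exact intervalIntegral.integral_add (hf.intervalIntegrable _ _) (hg.intervalIntegrable _ _)

lemma IP_mul (c : ℝ) (f : ℝ → ℝ) : IP (fun x => c * f x) = c * IP f := by
  unfold IP
  exact intervalIntegral.integral_const_mul _ _

lemma IP_const (c : ℝ) : IP (fun _ => c) = 2 * Real.pi * c := by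
  unfold IP
  rw [intervalIntegral.integral_const, sub_zero, smul_eq_mul]

lemma IP_sum {ι : Type} (s : Finset ι) {f : ι → ℝ → ℝ} (hf : ∀ i, Continuous (f i)) :
    IP (fun x => ∑ i ∈ s, f i x) = ∑ i ∈ s, IP (f i) := by
  unfold IP
  exact intervalIntegral.integral_finsetSum fun i _ => (hf i).intervalIntegrable _ _

lemma IP_holder {θ : ℝ} (h0 : 0 < θ) (h1 : θ < 1) {f g : ℝ → ℝ} (hf : Continuous f)
    (hg : Continuous g) (hf0 : ∀ x, 0 ≤ f x) (hg0 : ∀ x, 0 ≤ g x) :
    IP (fun x => f x ^ θ * g x ^ (1 - θ)) ≤ IP f ^ θ * IP g ^ (1 - θ) := by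
  have h1' : 0 < 1 - θ := by linarith
  have hpq : (1 / θ).HolderConjugate (1 / (1 - θ)) := by
    rw [Real.holderConjugate_iff]
    constructor
    · rw [one_lt_div h0]; exact h1
    · simp
  have hfc : Continuous (fun x => f x ^ θ) := hf.rpow_const (fun _ => Or.inr h0.le)
  have hgc : Continuous (fun x => g x ^ (1 - θ)) := hg.rpow_const (fun _ => Or.inr h1'.le)
  have hm : ∀ {u : ℝ → ℝ} (_ : Continuous u) (p : ℝ≥0∞),
      MemLp u p (volume.restrict (Set.Ioc 0 (2 * Real.pi))) := by
    intro u hu p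
    obtain ⟨C, hC⟩ := (isCompact_Icc (a := (0:ℝ)) (b := 2 * Real.pi)).exists_bound_of_continuousOn
      hu.continuousOn
    apply MemLp.of_bound hu.aestronglyMeasurable C
    rw [ae_restrict_iff' measurableSet_Ioc]
    exact Filter.Eventually.of_forall fun x hx => hC x (Set.Ioc_subset_Icc_self hx)
  have h := integral_mul_le_Lp_mul_Lq_of_nonneg hpq
    (μ := volume.restrict (Set.Ioc 0 (2 * Real.pi))) (f := fun x => f x ^ θ)
    (g := fun x => g x ^ (1 - θ))
    (Filter.Eventually.of_forall fun x => Real.rpow_nonneg (hf0 x) _)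
    (Filter.Eventually.of_forall fun x => Real.rpow_nonneg (hg0 x) _)
    (hm hfc _) (hm hgc _)
  have e1 : ∀ x, (f x ^ θ) ^ (1 / θ) = f x := by
    intro x
    rw [← Real.rpow_mul (hf0 x), mul_one_div_cancel h0.ne', Real.rpow_one]
  have e2 : ∀ x, (g x ^ (1 - θ)) ^ (1 / (1 - θ)) = g x := by
    intro x
    rw [← Real.rpow_mul (hg0 x), mul_one_div_cancel h1'.ne', Real.rpow_one]
  simp only [e1, e2, one_div_one_div] at h
  unfold IP
  simp only [intervalIntegral.integral_of_le Real.two_pi_pos.le]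
  exact h

/-- the tangent inequality for powers -/
lemma tangent {q : ℝ} (hq0 : 0 < q) (hq1 : q < 1) {a b : ℝ} (ha : 0 ≤ a) (hb : 0 < b) :
    a ^ q ≤ b ^ q + q * b ^ (q - 1) * (a - b) := by
  have h1 := rpow_one_add_le_one_add_mul_self (s := a / b - 1)
    (by have : 0 ≤ a / b := by positivity
        linarith) hq0.le hq1.le
  have e1 : 1 + (a / b - 1) = a / b := by ring
  rw [e1, Real.div_rpow ha hb.le] at h1
  have hbq : 0 < b ^ q := by positivity
  rw [div_le_iff₀ hbq] at h1
  refine h1.trans (le_of_eq ?_)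
  rw [Real.rpow_sub_one hb.ne']
  field_simp

/-- weights give the convex hull test -/
lemma hull_of_weight {q : ℝ} (hq0 : 0 < q) (hq1 : q < 1) {h : ℕ → ℝ → ℝ}
    (hc : ∀ n, Continuous (h n)) (hh0 : ∀ n x, 0 ≤ h n x) {A : ℝ} {w : ℝ → ℝ}
    (hw : Continuous w) (hw0 : ∀ x, 0 < w x) (hA1 : IP (fun x => w x ^ (-(q / (1 - q)))) ≤ A)
    (hA2 : ∀ n, IP (fun x => h n x * w x) ≤ A) (s : Finset ℕ) (β : ℕ → ℝ)
    (hβ : ∀ n ∈ s, 0 ≤ β n) (hβ1 : ∑ n ∈ s, β n = 1) :
    IP (fun x => (∑ n ∈ s, β n * h n x) ^ q) ≤ A := by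
  have h1q : 0 < 1 - q := by linarith
  set g : ℝ → ℝ := fun x => ∑ n ∈ s, β n * h n x with hg
  have hgc : Continuous g := continuous_finsetSum _ fun n _ => continuous_const.mul (hc n)
  have hg0 : ∀ x, 0 ≤ g x := fun x => Finset.sum_nonneg fun n hn => mul_nonneg (hβ n hn) (hh0 n x)
  have hwc : Continuous (fun x => w x ^ (-(q / (1 - q)))) :=
    hw.rpow_const (fun x => Or.inl (hw0 x).ne')
  have hA0 : 0 ≤ A := le_trans (IP_nonneg fun x => Real.rpow_nonneg (hw0 x).le _) hA1
  have h1 := IP_holder hq0 hq1 (f := fun x => g x * w x) (g := fun x => w x ^ (-(q / (1 - q))))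
    (hgc.mul hw) hwc (fun x => mul_nonneg (hg0 x) (hw0 x).le)
    (fun x => Real.rpow_nonneg (hw0 x).le _)
  have e1 : ∀ x, (g x * w x) ^ q * (w x ^ (-(q / (1 - q)))) ^ (1 - q) = g x ^ q := by
    intro x
    rw [Real.mul_rpow (hg0 x) (hw0 x).le, ← Real.rpow_mul (hw0 x).le, mul_assoc,
      ← Real.rpow_add (hw0 x)]
    have : q + -(q / (1 - q)) * (1 - q) = 0 := by field_simp; ring
    rw [this, Real.rpow_zero, mul_one]
  simp only [e1] at h1
  have h2 : IP (fun x => g x * w x) ≤ A := by
    have e2 : (fun x => g x * w x) = fun x => ∑ n ∈ s, β n * (h n x * w x) := by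
      funext x
      rw [hg]
      beta_reduce
      rw [Finset.sum_mul]
      apply Finset.sum_congr rfl
      intro n _
      ring
    rw [e2, IP_sum s (f := fun n x => β n * (h n x * w x))
      (fun n => continuous_const.mul ((hc n).mul hw))]
    calc ∑ n ∈ s, IP (fun x => β n * (h n x * w x)) = ∑ n ∈ s, β n * IP (fun x => h n x * w x) := by
          apply Finset.sum_congr rfl
          intro n _
          rw [IP_mul]
      _ ≤ ∑ n ∈ s, β n * A := Finset.sum_le_sum fun n hn =>
          mul_le_mul_of_nonneg_left (hA2 n) (hβ n hn)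
      _ = A := by rw [← Finset.sum_mul, hβ1, one_mul]
  have h3 : 0 ≤ IP (fun x => g x * w x) := IP_nonneg fun x => mul_nonneg (hg0 x) (hw0 x).le
  have h4 : 0 ≤ IP (fun x => w x ^ (-(q / (1 - q)))) :=
    IP_nonneg fun x => Real.rpow_nonneg (hw0 x).le _
  calc IP (fun x => g x ^ q) ≤ _ := h1
    _ ≤ A ^ q * A ^ (1 - q) := by gcongr
    _ = A := by
        rcases hA0.eq_or_lt with h | h
        · rw [← h, Real.zero_rpow hq0.ne', zero_mul]
        · rw [← Real.rpow_add h]
          have : q + (1 - q) = 1 := by ring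
          rw [this, Real.rpow_one]

/-- the convex hull test gives weights -/
lemma weight_of_hull {q : ℝ} (hq0 : 0 < q) (hq1 : q < 1) {h : ℕ → ℝ → ℝ}
    (hc : ∀ n, Continuous (h n)) (hh0 : ∀ n x, 0 ≤ h n x) {R : ℝ} (hR : ∀ n x, h n x ≤ R)
    {A : ℝ} (hA : 0 < A)
    (hH : ∀ (s : Finset ℕ) (β : ℕ → ℝ), (∀ n ∈ s, 0 ≤ β n) → ∑ n ∈ s, β n = 1 →
      IP (fun x => (∑ n ∈ s, β n * h n x) ^ q) ≤ A) :
    ∃ w : ℝ → ℝ, Continuous w ∧ (∀ x, 0 < w x) ∧ IP (fun x => w x ^ (-(q / (1 - q)))) ≤ 10 * A ∧
      ∀ n, IP (fun x => h n x * w x) ≤ 10 * A := by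
  classical
  have h1q : 0 < 1 - q := by linarith
  have hpi := Real.pi_pos
  set R' : ℝ := max R 1 with hR'
  have hR'1 : 1 ≤ R' := le_max_right _ _
  have hR'R : ∀ n x, h n x ≤ R' := fun n x => (hR n x).trans (le_max_left _ _)
  -- the perturbation
  set δ : ℝ := (A / (2 * Real.pi)) ^ (1 / q) with hδ
  have hδ0 : 0 < δ := by positivity
  have hδq : 2 * Real.pi * δ ^ q = A := by
    rw [hδ, ← Real.rpow_mul (by positivity)]
    have : 1 / q * q = 1 := by field_simp
    rw [this, Real.rpow_one]
    field_simp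
  set t : ℝ := min (1 / 2) (δ / R') with ht
  have ht0 : 0 < t := lt_min (by norm_num) (by positivity)
  have ht1 : t ≤ 1 / 2 := min_le_left _ _
  have ht2 : t * R' ≤ δ := by
    have h1 : t ≤ δ / R' := min_le_right _ _
    rwa [le_div_iff₀ (by positivity)] at h1
  -- admissible combinations
  set V : Set ℝ := {v | ∃ (s : Finset ℕ) (β : ℕ → ℝ), (∀ n ∈ s, 0 ≤ β n) ∧ ∑ n ∈ s, β n = 1 ∧
    v = IP (fun x => (∑ n ∈ s, β n * h n x + δ) ^ q)} with hV
  have hsc : ∀ (s : Finset ℕ) (β : ℕ → ℝ), Continuous (fun x => ∑ n ∈ s, β n * h n x) :=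
    fun s β => continuous_finsetSum _ fun n _ => continuous_const.mul (hc n)
  have hVb : ∀ v ∈ V, v ≤ 2 * A := by
    rintro v ⟨s, β, hβ, hβ1, rfl⟩
    have hg0 : ∀ x, 0 ≤ ∑ n ∈ s, β n * h n x :=
      fun x => Finset.sum_nonneg fun n hn => mul_nonneg (hβ n hn) (hh0 n x)
    have h1 : IP (fun x => (∑ n ∈ s, β n * h n x + δ) ^ q) ≤
        IP (fun x => (∑ n ∈ s, β n * h n x) ^ q + δ ^ q) := by
      apply IP_mono
      · exact ((hsc s β).add continuous_const).rpow_const (fun _ => Or.inr hq0.le)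
      · exact ((hsc s β).rpow_const (fun _ => Or.inr hq0.le)).add continuous_const
      · intro x
        exact Real.rpow_add_le_add_rpow (hg0 x) hδ0.le hq0.le hq1.le
    rw [IP_add ((hsc s β).rpow_const (fun _ => Or.inr hq0.le)) continuous_const, IP_const,
      hδq] at h1
    have h2 := hH s β hβ hβ1
    linarith
  have hVbdd : BddAbove V := ⟨2 * A, hVb⟩
  have hVne : V.Nonempty := ⟨_, {0}, fun _ => 1, fun _ _ => zero_le_one, by simp, rfl⟩
  have hε : 0 < q * t * A := by positivity
  obtain ⟨v, ⟨s, β, hβ, hβ1, rfl⟩, hv⟩ := exists_lt_of_lt_csSup hVne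
    (show sSup V - q * t * A < sSup V by linarith)
  set g : ℝ → ℝ := fun x => ∑ n ∈ s, β n * h n x with hg
  have hgc : Continuous g := hsc s β
  have hg0 : ∀ x, 0 ≤ g x := fun x => Finset.sum_nonneg fun n hn => mul_nonneg (hβ n hn) (hh0 n x)
  have hgδ : ∀ x, 0 < g x + δ := fun x => by have := hg0 x; linarith
  have hgV : IP (fun x => (g x + δ) ^ q) ≤ 2 * A := hVb _ ⟨s, β, hβ, hβ1, rfl⟩
  refine ⟨fun x => (g x + δ) ^ (q - 1), ?_, ?_, ?_, ?_⟩
  · exact (hgc.add continuous_const).rpow_const (fun x => Or.inl (hgδ x).ne')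
  · intro x
    exact Real.rpow_pos_of_pos (hgδ x) _
  · have e1 : (fun x => ((g x + δ) ^ (q - 1)) ^ (-(q / (1 - q)))) = fun x => (g x + δ) ^ q := by
      funext x
      rw [← Real.rpow_mul (hgδ x).le]
      congr 1
      have : q - 1 ≠ 0 := by linarith
      field_simp
      ring
    rw [e1]
    linarith
  · intro n
    -- the moved combination
    set g' : ℝ → ℝ := fun x => (1 - t) * g x + t * h n x with hg'
    have hg'c : Continuous g' := (continuous_const.mul hgc).add (continuous_const.mul (hc n))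
    have hg'0 : ∀ x, 0 ≤ g' x := fun x =>
      add_nonneg (mul_nonneg (by linarith) (hg0 x)) (mul_nonneg ht0.le (hh0 n x))
    have hg'δ : ∀ x, 0 < g' x + δ := fun x => by have := hg'0 x; linarith
    have hg'V : IP (fun x => (g' x + δ) ^ q) ∈ V := by
      refine ⟨insert n s, fun m => (1 - t) * (if m ∈ s then β m else 0) + if m = n then t else 0,
        ?_, ?_, ?_⟩
      · intro m _
        apply add_nonneg
        · apply mul_nonneg (by linarith)
          split_ifs with hm
          · exact hβ m hm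
          · exact le_rfl
        · split_ifs
          · exact ht0.le
          · exact le_rfl
      · rw [Finset.sum_add_distrib, ← Finset.mul_sum, Finset.sum_ite_eq',
          if_pos (Finset.mem_insert_self n s)]
        have : ∑ m ∈ insert n s, (if m ∈ s then β m else 0) = 1 := by
          rw [← Finset.sum_filter]
          have hf : (insert n s).filter (fun m => m ∈ s) = s := by
            ext m
            simp only [Finset.mem_filter, Finset.mem_insert]
            tauto
          rw [hf, hβ1]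
        rw [this]
        ring
      · congr 1
        funext x
        congr 2
        rw [hg', hg]
        beta_reduce
        have e3 : ∀ m, ((1 - t) * (if m ∈ s then β m else 0) + if m = n then t else 0) * h m x =
            (1 - t) * ((if m ∈ s then β m else 0) * h m x) + if m = n then t * h m x else 0 := by
          intro m
          split_ifs <;> ring
        simp_rw [e3]
        rw [Finset.sum_add_distrib, ← Finset.mul_sum, Finset.sum_ite_eq',
          if_pos (Finset.mem_insert_self n s)]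
        congr 2
        have e4 : ∀ m, (if m ∈ s then β m else 0) * h m x = if m ∈ s then β m * h m x else 0 := by
          intro m
          split_ifs
          · rfl
          · rw [zero_mul]
        simp_rw [e4]
        rw [← Finset.sum_filter]
        have hf : (insert n s).filter (fun m => m ∈ s) = s := by
          ext m
          simp only [Finset.mem_filter, Finset.mem_insert]
          tauto
        rw [hf]
    have hle : IP (fun x => (g' x + δ) ^ q) ≤ sSup V := le_csSup hVbdd hg'V
    have hg'2 : IP (fun x => (g' x + δ) ^ q) ≤ 2 * A := hVb _ hg'V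
    have hwc' : Continuous (fun x => (g' x + δ) ^ (q - 1)) :=
      (hg'c.add continuous_const).rpow_const (fun x => Or.inl (hg'δ x).ne')
    have hqc' : Continuous (fun x => (g' x + δ) ^ q) :=
      (hg'c.add continuous_const).rpow_const (fun x => Or.inr hq0.le)
    have hqc : Continuous (fun x => (g x + δ) ^ q) :=
      (hgc.add continuous_const).rpow_const (fun x => Or.inr hq0.le)
    have hwc : Continuous (fun x => (g x + δ) ^ (q - 1)) :=
      (hgc.add continuous_const).rpow_const (fun x => Or.inl (hgδ x).ne')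
    -- first order condition
    have k1 : ∀ x, (g x + δ) ^ q + q * t * (h n x * (g' x + δ) ^ (q - 1)) ≤
        (g' x + δ) ^ q + q * t * (2 * (g' x + δ) ^ q) := by
      intro x
      have h1 := tangent hq0 hq1 (hgδ x).le (hg'δ x)
      have h2 : g x + δ - (g' x + δ) = t * (g x - h n x) := by
        rw [hg']
        ring
      rw [h2] at h1
      have h3 : g x ≤ 2 * (g' x + δ) := by
        have h4 := mul_nonneg ht0.le (hh0 n x)
        have h5 : (1 / 2) * g x ≤ (1 - t) * g x := by
          apply mul_le_mul_of_nonneg_right _ (hg0 x)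
          linarith
        have : g' x = (1 - t) * g x + t * h n x := rfl
        linarith
      have h4 : 0 < (g' x + δ) ^ (q - 1) := Real.rpow_pos_of_pos (hg'δ x) _
      have h5 : (g' x + δ) ^ (q - 1) * (g' x + δ) = (g' x + δ) ^ q := by
        rw [Real.rpow_sub_one (hg'δ x).ne']
        field_simp [(hg'δ x).ne']
      have h6 : q * t * ((g' x + δ) ^ (q - 1) * g x) ≤ q * t * (2 * (g' x + δ) ^ q) := by
        apply mul_le_mul_of_nonneg_left _ (by positivity)
        calc (g' x + δ) ^ (q - 1) * g x ≤ (g' x + δ) ^ (q - 1) * (2 * (g' x + δ)) := by gcongr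
          _ = 2 * ((g' x + δ) ^ (q - 1) * (g' x + δ)) := by ring
          _ = _ := by rw [h5]
      linarith
    have k2 : IP (fun x => (g x + δ) ^ q + q * t * (h n x * (g' x + δ) ^ (q - 1))) ≤
        IP (fun x => (g' x + δ) ^ q + q * t * (2 * (g' x + δ) ^ q)) :=
      IP_mono (hqc.add (continuous_const.mul ((hc n).mul hwc')))
        (hqc'.add (continuous_const.mul (continuous_const.mul hqc'))) k1
    have k2a : IP (fun x => (g x + δ) ^ q + q * t * (h n x * (g' x + δ) ^ (q - 1))) =
        IP (fun x => (g x + δ) ^ q) + IP (fun x => q * t * (h n x * (g' x + δ) ^ (q - 1))) :=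
      IP_add hqc (continuous_const.mul ((hc n).mul hwc'))
    have k2b : IP (fun x => (g' x + δ) ^ q + q * t * (2 * (g' x + δ) ^ q)) =
        IP (fun x => (g' x + δ) ^ q) + IP (fun x => q * t * (2 * (g' x + δ) ^ q)) :=
      IP_add hqc' (continuous_const.mul (continuous_const.mul hqc'))
    rw [k2a, k2b, IP_mul, IP_mul, IP_mul] at k2
    have k3 : q * t * IP (fun x => h n x * (g' x + δ) ^ (q - 1)) ≤ q * t * (5 * A) := by
      have h1 : q * t * (2 * IP (fun x => (g' x + δ) ^ q)) ≤ q * t * (4 * A) := by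
        apply mul_le_mul_of_nonneg_left _ (by positivity)
        linarith
      linarith
    have k4 : IP (fun x => h n x * (g' x + δ) ^ (q - 1)) ≤ 5 * A :=
      le_of_mul_le_mul_left k3 (by positivity)
    have k5 : ∀ x, h n x * (g x + δ) ^ (q - 1) ≤ 2 * (h n x * (g' x + δ) ^ (q - 1)) := by
      intro x
      have h1 : g' x + δ ≤ 2 * (g x + δ) := by
        have h2 : t * h n x ≤ δ := (mul_le_mul_of_nonneg_left (hR'R n x) ht0.le).trans ht2
        have h3 : (1 - t) * g x ≤ g x := by
          apply mul_le_of_le_one_left (hg0 x)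
          linarith
        have h4 : g' x = (1 - t) * g x + t * h n x := rfl
        have h5 := hg0 x
        linarith
      have h2 : (2 * (g x + δ)) ^ (q - 1) ≤ (g' x + δ) ^ (q - 1) :=
        Real.rpow_le_rpow_of_nonpos (hg'δ x) h1 (by linarith)
      rw [Real.mul_rpow (by norm_num) (hgδ x).le] at h2
      have h3 : (1 / 2 : ℝ) ≤ 2 ^ (q - 1) := by
        have h4 : (2:ℝ) ^ (-1 : ℝ) ≤ 2 ^ (q - 1) :=
          Real.rpow_le_rpow_of_exponent_le (by norm_num) (by linarith)
        rw [Real.rpow_neg_one] at h4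
        linarith
      have h4 : 0 < (g x + δ) ^ (q - 1) := Real.rpow_pos_of_pos (hgδ x) _
      have h5 : (g x + δ) ^ (q - 1) ≤ 2 * (g' x + δ) ^ (q - 1) := by
        have h6 : (1 / 2 : ℝ) * (g x + δ) ^ (q - 1) ≤ 2 ^ (q - 1) * (g x + δ) ^ (q - 1) := by
          gcongr
        linarith
      calc _ ≤ h n x * (2 * (g' x + δ) ^ (q - 1)) := mul_le_mul_of_nonneg_left h5 (hh0 n x)
        _ = _ := by ring
    have k6 := IP_mono ((hc n).mul hwc) (continuous_const.mul ((hc n).mul hwc')) k5
    have k7 : IP (fun x => 2 * (h n x * (g' x + δ) ^ (q - 1))) =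
        2 * IP (fun x => h n x * (g' x + δ) ^ (q - 1)) := IP_mul _ _
    calc IP (fun x => h n x * (g x + δ) ^ (q - 1)) ≤ _ := k6
      _ = 2 * IP (fun x => h n x * (g' x + δ) ^ (q - 1)) := k7
      _ ≤ _ := by linarith

end Pool.Agent.H200
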